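import Pool.Agent.Gor.Grd

/-!
# `Aut` is a Baire space
-/

set_option autoImplicit false

open MeasureTheory Filter Topology Set

namespace Pool.Agent.Gor

/-- the inverse -/
noncomputable def iv (T : Aut) : Aut := ⟨T.1.symm, T.2.symm T.1⟩

-- BEGIN i1
/-- the inverse is continuous: `μ (S A ∆ T A) = μ (S⁻¹ (T A) ∆ T⁻¹ (T A))` -/
theorem iv_near {r : ℕ} {Q : X → Fin r} (hQ : Measurable Q) (T : Aut) {ε : ℝ} (hε : 0 < ε) :
    ∃ V : Set Aut, IsOpen V ∧ T ∈ V ∧ ∀ S ∈ V, dQ Q (iv S) (iv T) < ε := by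
  have hQ' : Measurable (fun x : X => Q (T.1.symm x)) := hQ.comp T.1.symm.measurable
  obtain ⟨V, hV, hT, h⟩ := exists_open_part hQ' T hε
  refine ⟨V, hV, hT, fun S hS => ?_⟩
  have h1 : dQ Q (iv S) (iv T) = dQ (fun x : X => Q (T.1.symm x)) S T := by
    have h2 := (S.2 : MeasurePreserving S.1 μ μ).measure_preimage_equiv
      {x : X | Q (S.1.symm x) ≠ Q (T.1.symm x)}
    have h3 : (S.1 ⁻¹' {x : X | Q (S.1.symm x) ≠ Q (T.1.symm x)} : Set X) =
        {x : X | Q (T.1.symm (S.1 x)) ≠ Q (T.1.symm (T.1 x))} := by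
      ext x
      simp only [mem_preimage, mem_ofPred_eq, MeasurableEquiv.symm_apply_apply]
      exact ne_comm
    rw [h3] at h2
    unfold dQ iv Measure.real
    simp only
    rw [h2]
  rw [h1]
  exact h S hS

private theorem i1_dist (n : ℕ) [NeZero n] {x y : X} (h : P n x = P n y) :
    dist x y < 1 / n := by
  have hn : (0 : ℝ) < n := Nat.cast_pos.2 (Nat.pos_of_ne_zero (NeZero.ne n))
  have h0 : ⌊(n : ℝ) * rep x⌋₊ = ⌊(n : ℝ) * rep y⌋₊ := by
    rw [← val_P, ← val_P, h]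
  have hx0 : 0 ≤ (n : ℝ) * rep x := mul_nonneg hn.le (rep_nonneg x)
  have hy0 : 0 ≤ (n : ℝ) * rep y := mul_nonneg hn.le (rep_nonneg y)
  have h1 := Nat.floor_le hx0
  have h2 := Nat.lt_floor_add_one ((n : ℝ) * rep x)
  have h3 := Nat.floor_le hy0
  have h4 := Nat.lt_floor_add_one ((n : ℝ) * rep y)
  rw [h0] at h1 h2
  have h5 : |(n : ℝ) * (rep x - rep y)| < 1 := by
    rw [abs_lt]; constructor <;> linarith
  rw [abs_mul, abs_of_pos hn] at h5
  have h6 : |rep x - rep y| < 1 / n := by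
    rw [lt_div_iff₀ hn]; linarith
  have h7 : dist x y ≤ |rep x - rep y| := by
    rw [dist_eq_norm]
    have h8 : x - y = ((rep x - rep y : ℝ) : X) := by
      rw [AddCircle.coe_sub, coe_rep, coe_rep]
    rw [h8]
    exact QuotientAddGroup.norm_mk_le_norm
  exact lt_of_le_of_lt h7 h6

/-- `P n` for `1 / n < ε` sees the distance -/
theorem dist_near {ε : ℝ} (hε : 0 < ε) : ∃ (n : ℕ) (_ : NeZero n), ∀ S T : Aut,
    {x | ε ≤ dist (S.1 x) (T.1 x)} ⊆ {x | P n (S.1 x) ≠ P n (T.1 x)} := by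
  obtain ⟨m, hm⟩ := exists_nat_one_div_lt hε
  refine ⟨m + 1, ⟨Nat.succ_ne_zero m⟩, fun S T x hx h => ?_⟩
  have : NeZero (m + 1) := ⟨Nat.succ_ne_zero m⟩
  have h1 := i1_dist (m + 1) h
  simp only [mem_ofPred_eq] at hx
  push_cast at h1
  linarith
-- END i1

-- BEGIN i2
/-- the limit of a fast Cauchy sequence (Borel-Cantelli, completeness of `X`); it preserves `μ`
(test with bounded continuous functions) -/
theorem exists_lim {φ : ℕ → X → X} (hφ : ∀ k, MeasurePreserving (φ k) μ μ)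
    (h : ∀ k, μ.real {x | (1 / 2 : ℝ) ^ k ≤ dist (φ (k + 1) x) (φ k x)} ≤ (1 / 2 : ℝ) ^ k) :
    ∃ ψ : X → X, MeasurePreserving ψ μ μ ∧
      ∀ᵐ x ∂μ, Tendsto (fun k => φ k x) atTop (𝓝 (ψ x)) := by
  have hsum : ∑' k, μ {x | (1 / 2 : ℝ) ^ k ≤ dist (φ (k + 1) x) (φ k x)} ≠ ⊤ := by
    have h1 : ∀ k, μ {x | (1 / 2 : ℝ) ^ k ≤ dist (φ (k + 1) x) (φ k x)} ≤
        ENNReal.ofReal ((1 / 2 : ℝ) ^ k) := by
      intro k
      rw [ENNReal.le_ofReal_iff_toReal_le (measure_ne_top _ _) (by positivity)]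
      exact h k
    refine ne_top_of_le_ne_top ?_ (ENNReal.tsum_le_tsum h1)
    exact (summable_geometric_of_lt_one (by norm_num) (by norm_num :
      (1 / 2 : ℝ) < 1)).tsum_ofReal_ne_top
  have hlim : ∀ᵐ x ∂μ, ∃ y : X, Tendsto (fun k => φ k x) atTop (𝓝 y) := by
    filter_upwards [ae_eventually_notMem hsum] with x hx
    obtain ⟨K, hK⟩ := eventually_atTop.1 hx
    have hc : CauchySeq fun k => φ (k + K) x := by
      refine cauchySeq_of_le_geometric (1 / 2 : ℝ) 1 (by norm_num) fun k => ?_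
      have h2 := hK (k + K) (Nat.le_add_left K k)
      rw [not_le] at h2
      rw [dist_comm, one_mul, Nat.add_right_comm]
      refine h2.le.trans ?_
      exact pow_le_pow_of_le_one (by norm_num) (by norm_num) (Nat.le_add_right k K)
    obtain ⟨y, hy⟩ := cauchySeq_tendsto_of_complete hc
    exact ⟨y, (tendsto_add_atTop_iff_nat K).1 hy⟩
  obtain ⟨ψ, hψ, hψ'⟩ := measurable_limit_of_tendsto_metrizable_ae
    (fun k => (hφ k).measurable.aemeasurable) hlim
  refine ⟨ψ, ⟨hψ, ?_⟩, hψ'⟩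
  have : IsProbabilityMeasure (μ.map ψ) := Measure.isProbabilityMeasure_map hψ.aemeasurable
  refine ext_of_forall_integral_eq_of_IsFiniteMeasure fun f => ?_
  rw [integral_map hψ.aemeasurable f.continuous.measurable.aestronglyMeasurable]
  have h3 : Tendsto (fun k => ∫ x, f (φ k x) ∂μ) atTop (𝓝 (∫ x, f (ψ x) ∂μ)) := by
    refine tendsto_integral_of_dominated_convergence (fun _ => ‖f‖) (fun k => ?_)
      (integrable_const _) (fun k => Eventually.of_forall fun x => f.norm_coe_le_norm _) ?_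
    · exact (f.continuous.measurable.comp (hφ k).measurable).aestronglyMeasurable
    · filter_upwards [hψ'] with x hx
      exact (f.continuous.tendsto _).comp hx
  have h4 : ∀ k, ∫ x, f (φ k x) ∂μ = ∫ x, f x ∂μ := fun k => by
    have h5 := integral_map (μ := μ) (hφ k).measurable.aemeasurable
      (f := f) f.continuous.measurable.aestronglyMeasurable
    rw [(hφ k).map_eq] at h5
    exact h5.symm
  simp only [h4] at h3
  exact tendsto_nhds_unique h3 tendsto_const_nhds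
-- END i2

-- BEGIN i3
private theorem i3_comp {θ : X → X} (hθ : MeasurePreserving θ μ μ) {h : X → ℝ} (hh : Measurable h) :
    ∫ x, h (θ x) ∂μ = ∫ x, h x ∂μ := by
  have h1 := integral_map (μ := μ) hθ.measurable.aemeasurable (f := h) hh.aestronglyMeasurable
  rw [hθ.map_eq] at h1
  exact h1.symm

private theorem i3_int {B : ℝ} {h : X → ℝ} (hh : Measurable h) (hB : ∀ x, |h x| ≤ B) :
    Integrable h μ :=
  Integrable.of_bound hh.aestronglyMeasurable B (ae_of_all _ hB)

/-- approximate `f` in `L¹` by a bounded continuous function -/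
theorem tendsto_comp {φ : ℕ → X → X} {ψ : X → X} (hφ : ∀ k, MeasurePreserving (φ k) μ μ)
    (hψ : MeasurePreserving ψ μ μ) (h : ∀ᵐ x ∂μ, Tendsto (fun k => φ k x) atTop (𝓝 (ψ x)))
    {B : ℝ} {f : X → ℝ} (hf : BM B f) :
    Tendsto (fun k => ∫ x, |f (φ k x) - f (ψ x)| ∂μ) atTop (𝓝 0) := by
  have hX : Integrable f μ := i3_int hf.1 hf.2
  rw [Metric.tendsto_atTop]
  intro ε hε
  obtain ⟨g, hg, -⟩ := hX.exists_boundedContinuous_integral_sub_le (show 0 < ε / 4 by positivity)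
  have hgm : Measurable g := g.continuous.measurable
  have hgb : ∀ x, |g x| ≤ ‖g‖ := fun x => g.norm_coe_le_norm x
  have hfg : Measurable fun x => |f x - g x| := continuous_abs.measurable.comp (hf.1.sub hgm)
  have h1 : ∀ {θ : X → X}, MeasurePreserving θ μ μ → ∫ x, |f (θ x) - g (θ x)| ∂μ ≤ ε / 4 := by
    intro θ hθ
    rw [i3_comp hθ hfg]
    exact hg
  have hi1 : ∀ {θ : X → X}, MeasurePreserving θ μ μ → Integrable (fun x => |f (θ x) - g (θ x)|) μ := by
    intro θ hθ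
    refine i3_int (B := B + ‖g‖) (hfg.comp hθ.measurable) fun x => ?_
    rw [abs_abs]
    exact (abs_sub _ _).trans (add_le_add (hf.2 _) (hgb _))
  have hmk : ∀ k, Measurable fun x => |g (φ k x) - g (ψ x)| := fun k =>
    continuous_abs.measurable.comp
      ((hgm.comp (hφ k).measurable).sub (hgm.comp hψ.measurable))
  have hbk : ∀ k x, |g (φ k x) - g (ψ x)| ≤ ‖g‖ + ‖g‖ := fun k x =>
    (abs_sub _ _).trans (add_le_add (hgb _) (hgb _))
  have h2 : Tendsto (fun k => ∫ x, |g (φ k x) - g (ψ x)| ∂μ) atTop (𝓝 0) := by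
    have h3 := tendsto_integral_of_dominated_convergence (μ := μ) (fun _ => ‖g‖ + ‖g‖)
      (F := fun k x => |g (φ k x) - g (ψ x)|) (f := fun _ => (0 : ℝ))
      (fun k => (hmk k).aestronglyMeasurable) (integrable_const _)
      (fun k => ae_of_all _ fun x => by
        rw [Real.norm_eq_abs, abs_abs]
        exact hbk k x)
      (h.mono fun x hx => by
        have h4 : Tendsto (fun k => g (φ k x) - g (ψ x)) atTop (𝓝 (g (ψ x) - g (ψ x))) :=
          ((g.continuous.tendsto _).comp hx).sub tendsto_const_nhds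
        have h5 := h4.abs
        rwa [sub_self, abs_zero] at h5)
    simpa using h3
  obtain ⟨N, hN⟩ := Metric.tendsto_atTop.1 h2 (ε / 4) (by positivity)
  refine ⟨N, fun n hn => ?_⟩
  have h3 := hN n hn
  rw [Real.dist_eq, sub_zero] at h3 ⊢
  have h4 := lt_of_le_of_lt (le_abs_self _) h3
  have hnn : 0 ≤ ∫ x, |f (φ n x) - f (ψ x)| ∂μ := integral_nonneg fun x => abs_nonneg _
  rw [abs_of_nonneg hnn]
  have hi2 : Integrable (fun x => |g (φ n x) - g (ψ x)|) μ :=
    i3_int (hmk n) fun x => by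
      rw [abs_abs]
      exact hbk n x
  have h5 : ∫ x, |f (φ n x) - f (ψ x)| ∂μ ≤
      ∫ x, (|f (φ n x) - g (φ n x)| + |g (φ n x) - g (ψ x)|) + |f (ψ x) - g (ψ x)| ∂μ := by
    refine integral_mono ?_ (((hi1 (hφ n)).add hi2).add (hi1 hψ)) fun x => ?_
    · refine i3_int (B := B + B) ?_ fun x => ?_
      · exact continuous_abs.measurable.comp
          ((hf.1.comp (hφ n).measurable).sub (hf.1.comp hψ.measurable))
      · rw [abs_abs]
        exact (abs_sub _ _).trans (add_le_add (hf.2 _) (hf.2 _))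
    · have h6 := abs_sub_le (f (φ n x)) (g (φ n x)) (f (ψ x))
      have h7 := abs_sub_le (g (φ n x)) (g (ψ x)) (f (ψ x))
      rw [abs_sub_comm (g (ψ x)) (f (ψ x))] at h7
      show |f (φ n x) - f (ψ x)| ≤
        (|f (φ n x) - g (φ n x)| + |g (φ n x) - g (ψ x)|) + |f (ψ x) - g (ψ x)|
      linarith
  have hi3 : Integrable (fun x => |f (φ n x) - g (φ n x)| + |g (φ n x) - g (ψ x)|) μ :=
    (hi1 (hφ n)).add hi2
  rw [integral_add hi3 (hi1 hψ), integral_add (hi1 (hφ n)) hi2] at h5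
  have h6 := h1 (hφ n)
  have h7 := h1 hψ
  linarith
-- END i3

-- BEGIN i4
/-- from `tendsto_comp`: for `g` continuous, `∫ |g (ψ' (ψ x)) - g x| = 0` -/
theorem left_inv_ae {φ φ' : ℕ → X → X} {ψ ψ' : X → X} (hφ : ∀ k, MeasurePreserving (φ k) μ μ)
    (hφ' : ∀ k, MeasurePreserving (φ' k) μ μ) (hψ : MeasurePreserving ψ μ μ)
    (hψ' : MeasurePreserving ψ' μ μ) (h : ∀ᵐ x ∂μ, Tendsto (fun k => φ k x) atTop (𝓝 (ψ x)))
    (h' : ∀ᵐ x ∂μ, Tendsto (fun k => φ' k x) atTop (𝓝 (ψ' x)))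
    (hinv : ∀ k x, φ' k (φ k x) = x) : ∀ᵐ x ∂μ, ψ' (ψ x) = x := by
  have hr : BM 1 rep := ⟨measurable_rep, fun x => by
    rw [abs_of_nonneg (rep_nonneg x)]
    exact (rep_lt_one x).le⟩
  have hr' : BM 1 fun x => rep (ψ' x) := ⟨hr.1.comp hψ'.measurable, fun x => hr.2 _⟩
  have h1 := tendsto_comp hφ hψ h hr'
  have h2 := tendsto_comp hφ' hψ' h' hr
  have h3 := h1.add h2
  rw [add_zero] at h3
  have hm : ∀ {a b : X → X}, Measurable a → Measurable b → Measurable fun x => |rep (a x) - rep (b x)| :=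
    fun ha hb => continuous_abs.measurable.comp ((hr.1.comp ha).sub (hr.1.comp hb))
  have hi : ∀ {a b : X → X}, Measurable a → Measurable b →
      Integrable (fun x => |rep (a x) - rep (b x)|) μ := fun ha hb =>
    i3_int (B := 1 + 1) (hm ha hb) fun x => by
      rw [abs_abs]
      exact (abs_sub _ _).trans (add_le_add (hr.2 _) (hr.2 _))
  have hψψ : Measurable fun x => ψ' (ψ x) := hψ'.measurable.comp hψ.measurable
  have h4 : ∀ k, ∫ x, |rep (ψ' (ψ x)) - rep x| ∂μ ≤
      ∫ x, |rep (ψ' (φ k x)) - rep (ψ' (ψ x))| ∂μ + ∫ x, |rep (φ' k x) - rep (ψ' x)| ∂μ := by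
    intro k
    have hk : Measurable fun x => ψ' (φ k x) := hψ'.measurable.comp (hφ k).measurable
    have hkk : Measurable fun x => φ' k (φ k x) := (hφ' k).measurable.comp (hφ k).measurable
    rw [← i3_comp (hφ k) (hm (hφ' k).measurable hψ'.measurable), ← integral_add (hi hk hψψ) (hi hkk hk)]
    refine integral_mono (hi hψψ measurable_id) ((hi hk hψψ).add (hi hkk hk)) fun x => ?_
    show |rep (ψ' (ψ x)) - rep x| ≤
      |rep (ψ' (φ k x)) - rep (ψ' (ψ x))| + |rep (φ' k (φ k x)) - rep (ψ' (φ k x))|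
    rw [hinv k x]
    have h5 := abs_sub_le (rep (ψ' (ψ x))) (rep (ψ' (φ k x))) (rep x)
    have e1 := abs_sub_comm (rep (ψ' (φ k x))) (rep (ψ' (ψ x)))
    have e2 := abs_sub_comm (rep x) (rep (ψ' (φ k x)))
    linarith
  have h5 : ∫ x, |rep (ψ' (ψ x)) - rep x| ∂μ ≤ 0 := ge_of_tendsto' h3 h4
  have h6 : ∫ x, |rep (ψ' (ψ x)) - rep x| ∂μ = 0 :=
    le_antisymm h5 (integral_nonneg fun x => abs_nonneg _)
  have hi' : Integrable (fun x => |rep (ψ' (ψ x)) - rep x|) μ := hi hψψ measurable_id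
  rw [integral_eq_zero_iff_of_nonneg (fun x => abs_nonneg _) hi'] at h6
  filter_upwards [h6] with x hx
  have h7 : |rep (ψ' (ψ x)) - rep x| = 0 := hx
  rw [← coe_rep (ψ' (ψ x)), sub_eq_zero.1 (abs_eq_zero.1 h7), coe_rep]
-- END i4

-- BEGIN i5
private theorem i5_null {s : Set X} (hs : s.Countable) : μ s = 0 := by
  have _ : NullSingletonClass μ := ⟨fun x => by
    have h := AddCircle.volume_closedBall (T := (1 : ℝ)) (x := (x : X)) 0
    rw [Metric.closedBall_zero] at h
    rw [h]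
    simp⟩
  exact hs.measure_zero μ

/-- a conull Borel set contains an uncountable Borel null set: it is Borel isomorphic to `X × X`,
and only countably many fibres have positive measure -/
theorem exists_null {A : Set X} (hA : MeasurableSet A) (h : μ Aᶜ = 0) :
    ∃ C : Set X, C ⊆ A ∧ MeasurableSet C ∧ ¬ C.Countable ∧ μ C = 0 := by
  have hX : ¬ Countable X := by
    intro hc
    have h1 : μ (univ : Set X) = 0 := i5_null (countable_univ (α := X))
    rw [measure_univ] at h1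
    exact one_ne_zero h1
  have hAc : ¬ Countable A := by
    intro hc
    have h1 : μ A = 0 := i5_null (countable_coe_iff.1 hc)
    have h2 : μ (univ : Set X) ≤ μ A + μ Aᶜ := by
      rw [← union_compl_self A]
      exact measure_union_le _ _
    rw [h1, h, measure_univ, add_zero] at h2
    exact absurd h2 (by simp)
  have hXX : ¬ Countable (X × X) := by
    intro hc
    exact hX (Function.Injective.countable (f := fun x : X => (x, x)) fun a b hab => (Prod.mk.inj hab).1)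
  have _ : StandardBorelSpace A := hA.standardBorel
  let e : X × X ≃ᵐ A := PolishSpace.measurableEquivOfNotCountable hXX hAc
  let g : X × X → X := fun p => (e p : X)
  have hg : MeasurableEmbedding g := (MeasurableEmbedding.subtype_coe hA).comp e.measurableEmbedding
  let F : X → Set X := fun x => g '' ({x} ×ˢ univ)
  have hF : ∀ x, MeasurableSet (F x) := fun x =>
    hg.measurableSet_image.2 ((measurableSet_singleton x).prod MeasurableSet.univ)
  have hd : Pairwise (Function.onFun Disjoint F) := by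
    intro x y hxy
    refine (disjoint_image_iff hg.injective).2 ?_
    rw [Set.disjoint_left]
    rintro p hp hq
    exact hxy ((mem_singleton_iff.1 hp.1).symm.trans (mem_singleton_iff.1 hq.1))
  have hc : Set.Countable {x : X | 0 < μ (F x)} :=
    Measure.countable_meas_pos_of_disjoint_iUnion hF hd
  have hex : ∃ x, μ (F x) = 0 := by
    by_contra hne
    push Not at hne
    have h1 : {x : X | 0 < μ (F x)} = univ := by
      ext x
      simp only [mem_univ, iff_true]
      exact pos_iff_ne_zero.2 (hne x)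
    rw [h1] at hc
    exact hX (countable_univ_iff.1 hc)
  obtain ⟨x, hx⟩ := hex
  refine ⟨F x, ?_, hF x, ?_, hx⟩
  · rintro _ ⟨p, _, rfl⟩
    exact (e p).2
  · intro hcx
    have h1 : (range fun y : X => g (x, y)).Countable := by
      refine hcx.mono ?_
      rintro _ ⟨y, rfl⟩
      exact ⟨(x, y), ⟨rfl, mem_univ _⟩, rfl⟩
    have h2 : Function.Injective fun y : X => g (x, y) := fun a b hab =>
      (Prod.mk.inj (hg.injective hab)).2
    rw [← image_univ] at h1
    exact hX (countable_univ_iff.1 (countable_of_injective_of_countable_image h2.injOn h1))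
-- END i5

-- BEGIN i6
/-- glue: two conull Borel sets with uncountable complements, a Borel bijection between them -/
theorem exists_glue {A B : Set X} (hA : MeasurableSet A) (hB : MeasurableSet B)
    (hA' : ¬ Aᶜ.Countable) (hB' : ¬ Bᶜ.Countable) {ψ : X → X} (hψ : Measurable ψ)
    (hbij : BijOn ψ A B) : ∃ T : X ≃ᵐ X, ∀ x ∈ A, T x = ψ x := by
  classical
  have _ : StandardBorelSpace A := hA.standardBorel
  have _ : StandardBorelSpace (Aᶜ : Set X) := hA.compl.standardBorel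
  have _ : StandardBorelSpace (Bᶜ : Set X) := hB.compl.standardBorel
  let f : A → X := fun a => ψ a
  have hf : MeasurableEmbedding f := by
    refine Measurable.measurableEmbedding (hψ.comp measurable_subtype_coe) ?_
    intro a b hab
    exact Subtype.ext (hbij.injOn a.2 b.2 hab)
  have hr : range f = B := by
    rw [← hbij.image_eq]
    ext y
    constructor
    · rintro ⟨a, rfl⟩
      exact ⟨a, a.2, rfl⟩
    · rintro ⟨a, ha, rfl⟩
      exact ⟨⟨a, ha⟩, rfl⟩
  subst hr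
  let e1 : A ≃ᵐ range f := hf.equivRange
  let e2 : (Aᶜ : Set X) ≃ᵐ ((range f)ᶜ : Set X) :=
    PolishSpace.measurableEquivOfNotCountable (fun hc => hA' (countable_coe_iff.1 hc))
      (fun hc => hB' (countable_coe_iff.1 hc))
  refine ⟨(MeasurableEquiv.sumCompl hA).symm.trans
    ((MeasurableEquiv.sumCongr e1 e2).trans (MeasurableEquiv.sumCompl hB)), ?_⟩
  intro x hx
  have h1 : (MeasurableEquiv.sumCompl hA).symm x = Sum.inl ⟨x, hx⟩ := by
    rw [MeasurableEquiv.symm_apply_eq]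
    rfl
  have h2 : ((e1 ⟨x, hx⟩ : range f) : X) = ψ x :=
    congrArg Subtype.val (hf.equivRange_apply ⟨x, hx⟩)
  rw [MeasurableEquiv.trans_apply, MeasurableEquiv.trans_apply, h1]
  exact h2

/-- an almost invertible measure preserving map is almost everywhere equal to an element of `Aut`
(Lusin-Souslin for the image, `exists_null`, `exists_glue`) -/
theorem exists_aut {ψ ψ' : X → X} (hψ : MeasurePreserving ψ μ μ) (hm : Measurable ψ')
    (h : ∀ᵐ x ∂μ, ψ' (ψ x) = x) : ∃ T : Aut, ∀ᵐ x ∂μ, T.1 x = ψ x := by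
  set A0 : Set X := {x | ψ' (ψ x) = x} with hA0
  have hA0m : MeasurableSet A0 := measurableSet_eq_fun (hm.comp hψ.measurable) measurable_id
  have hA0c : μ A0ᶜ = 0 := h
  have hinj : InjOn ψ A0 := by
    intro a ha b hb hab
    have h1 : ψ' (ψ a) = a := ha
    have h2 : ψ' (ψ b) = b := hb
    rw [← h1, ← h2, hab]
  obtain ⟨C, hCA, hCm, hCc, hC0⟩ := exists_null hA0m hA0c
  have hAm : MeasurableSet (A0 \ C) := hA0m.diff hCm
  have hinj' : InjOn ψ (A0 \ C) := hinj.mono fun x hx => hx.1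
  have hBm : MeasurableSet (ψ '' (A0 \ C)) := hAm.image_of_measurable_injOn hψ.measurable hinj'
  have hAc : ¬ (A0 \ C)ᶜ.Countable := by
    intro hc
    refine hCc (hc.mono ?_)
    intro x hx hx'
    exact hx'.2 hx
  have hBc : ¬ (ψ '' (A0 \ C))ᶜ.Countable := by
    intro hc
    have h1 : (ψ '' C).Countable := by
      refine hc.mono ?_
      rintro _ ⟨x, hx, rfl⟩ ⟨y, hy, hxy⟩
      have h2 : y = x := hinj hy.1 (hCA hx) hxy
      exact hy.2 (h2 ▸ hx)
    exact hCc (countable_of_injective_of_countable_image (hinj.mono hCA) h1)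
  obtain ⟨T, hT⟩ := exists_glue hAm hBm hAc hBc hψ.measurable hinj'.bijOn_image
  have hae : ∀ᵐ x ∂μ, T x = ψ x := by
    have h1 : μ (A0 \ C)ᶜ = 0 := by
      have h2 : (A0 \ C)ᶜ ⊆ A0ᶜ ∪ C := by
        intro x hx
        by_cases hx0 : x ∈ A0
        · by_cases hxC : x ∈ C
          · exact Or.inr hxC
          · exact absurd ⟨hx0, hxC⟩ hx
        · exact Or.inl hx0
      exact measure_mono_null h2 (measure_union_null hA0c hC0)
    have h3 : ∀ᵐ x ∂μ, x ∈ A0 \ C := h1
    exact h3.mono fun x hx => hT x hx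
  have hTm : MeasurePreserving T μ μ :=
    ⟨T.measurable, (Measure.map_congr hae).trans hψ.map_eq⟩
  exact ⟨⟨T, hTm⟩, hae⟩
-- END i6

-- BEGIN i7
/-- fast Cauchy sequences (with their inverses) converge in `Aut` -/
theorem exists_aut_limit {T : ℕ → Aut}
    (h : ∀ k, μ.real {x | (1 / 2 : ℝ) ^ k ≤ dist ((T (k + 1)).1 x) ((T k).1 x)} ≤ (1 / 2 : ℝ) ^ k)
    (h' : ∀ k, μ.real {x | (1 / 2 : ℝ) ^ k ≤ dist ((iv (T (k + 1))).1 x) ((iv (T k)).1 x)} ≤
      (1 / 2 : ℝ) ^ k) :
    ∃ S : Aut, ∀ (r : ℕ) (Q : X → Fin r), Measurable Q →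
      Tendsto (fun k => dQ Q (T k) S) atTop (𝓝 0) := by
  obtain ⟨ψ, hψ, hl⟩ := exists_lim (φ := fun k => ((T k).1 : X → X)) (fun k => (T k).2) h
  obtain ⟨ψ', hψ', hl'⟩ :=
    exists_lim (φ := fun k => ((iv (T k)).1 : X → X)) (fun k => (iv (T k)).2) h'
  have hinv := left_inv_ae (φ := fun k => ((T k).1 : X → X))
    (φ' := fun k => ((iv (T k)).1 : X → X)) (fun k => (T k).2) (fun k => (iv (T k)).2) hψ hψ' hl hl'
    (fun k x => (T k).1.symm_apply_apply x)
  obtain ⟨S, hS⟩ := exists_aut hψ hψ'.measurable hinv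
  refine ⟨S, fun r Q hQ => ?_⟩
  set f : Fin r → X → ℝ := fun i => (Q ⁻¹' {i}).indicator (fun _ => (1 : ℝ)) with hfdef
  have hfm : ∀ i, Measurable (f i) := fun i =>
    measurable_const.indicator (hQ (measurableSet_singleton i))
  have hf01 : ∀ i x, 0 ≤ f i x ∧ f i x ≤ 1 := by
    intro i x
    simp only [hfdef, indicator]
    split_ifs <;> norm_num
  have hf : ∀ i, BM 1 (f i) := by
    intro i
    refine ⟨hfm i, fun x => ?_⟩
    rw [abs_of_nonneg (hf01 i x).1]
    exact (hf01 i x).2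
  have hlim : Tendsto (fun k => ∑ i, ∫ x, |f i ((T k).1 x) - f i (ψ x)| ∂μ) atTop (𝓝 0) := by
    have h1 := tendsto_finsetSum (Finset.univ : Finset (Fin r)) (fun i _ =>
      tendsto_comp (φ := fun k => ((T k).1 : X → X)) (fun k => (T k).2) hψ hl (hf i))
    simpa using h1
  refine squeeze_zero (fun k => measureReal_nonneg) (fun k => ?_) hlim
  have hTm : Measurable ((T k).1 : X → X) := (T k).1.measurable
  have hSm : Measurable (S.1 : X → X) := S.1.measurable
  have hmeas : MeasurableSet {x | Q ((T k).1 x) ≠ Q (S.1 x)} :=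
    (measurableSet_eq_fun (hQ.comp hTm) (hQ.comp hSm)).compl
  have hint : ∀ i ∈ (Finset.univ : Finset (Fin r)),
      Integrable (fun x => |f i ((T k).1 x) - f i (ψ x)|) μ := by
    intro i _
    refine Integrable.of_bound (C := 1) ?_ ?_
    · exact (((hfm i).comp hTm).sub ((hfm i).comp hψ.measurable)).abs.aestronglyMeasurable
    · refine Eventually.of_forall fun x => ?_
      have h1 := hf01 i ((T k).1 x)
      have h2 := hf01 i (ψ x)
      rw [Real.norm_eq_abs, abs_abs, abs_le]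
      constructor <;> linarith [h1.1, h1.2, h2.1, h2.2]
  have hind : Integrable ({x | Q ((T k).1 x) ≠ Q (S.1 x)}.indicator (fun _ => (1 : ℝ))) μ :=
    (integrable_const 1).indicator hmeas
  have hle : ∀ᵐ x ∂μ, {x | Q ((T k).1 x) ≠ Q (S.1 x)}.indicator (fun _ => (1 : ℝ)) x ≤
      ∑ i, |f i ((T k).1 x) - f i (ψ x)| := by
    filter_upwards [hS] with x hx
    by_cases hq : Q ((T k).1 x) ≠ Q (S.1 x)
    · rw [indicator_of_mem (show x ∈ {x | Q ((T k).1 x) ≠ Q (S.1 x)} from hq)]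
      have h1 : |f (Q ((T k).1 x)) ((T k).1 x) - f (Q ((T k).1 x)) (ψ x)| = 1 := by
        have e1 : f (Q ((T k).1 x)) ((T k).1 x) = 1 := indicator_of_mem (by simp) _
        have e2 : f (Q ((T k).1 x)) (ψ x) = 0 := by
          refine indicator_of_notMem ?_ _
          rw [← hx]
          exact fun h0 => hq h0.symm
        rw [e1, e2, sub_zero, abs_one]
      exact h1.symm.le.trans (Finset.single_le_sum (f := fun i => |f i ((T k).1 x) - f i (ψ x)|)
        (fun i _ => abs_nonneg _) (Finset.mem_univ (Q ((T k).1 x))))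
    · rw [indicator_of_notMem (show x ∉ {x | Q ((T k).1 x) ≠ Q (S.1 x)} from hq)]
      exact Finset.sum_nonneg fun i _ => abs_nonneg _
  have hcalc : ∫ x, {x | Q ((T k).1 x) ≠ Q (S.1 x)}.indicator (fun _ => (1 : ℝ)) x ∂μ ≤
      ∫ x, ∑ i, |f i ((T k).1 x) - f i (ψ x)| ∂μ :=
    integral_mono_ae hind (integrable_finsetSum _ hint) hle
  rw [integral_finsetSum _ hint, integral_indicator_const _ hmeas, smul_eq_mul, mul_one] at hcalc
  exact hcalc
-- END i7

-- BEGIN i8
private theorem i8_step (k : ℕ) {T : Aut} {V D : Set Aut} (hV : IsOpen V) (hT : T ∈ V)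
    (hD : IsOpen D) (hD' : Dense D) :
    ∃ (T' : Aut) (V' : Set Aut), IsOpen V' ∧ T' ∈ V' ∧ V' ⊆ V ∧ V' ⊆ D ∧
      (∃ (r : ℕ) (Q : X → Fin r) (ε : ℝ), Measurable Q ∧ 0 < ε ∧ (∀ S : Aut, dQ Q S T < ε → S ∈ V) ∧
        ∀ S ∈ V', dQ Q S T < ε / 2) ∧
      (∀ S ∈ V', μ.real {x | (1 / 2 : ℝ) ^ k ≤ dist (S.1 x) (T.1 x)} ≤ (1 / 2 : ℝ) ^ k) ∧
      ∀ S ∈ V', μ.real {x | (1 / 2 : ℝ) ^ k ≤ dist ((iv S).1 x) ((iv T).1 x)} ≤ (1 / 2 : ℝ) ^ k := by
  have hk : 0 < (1 / 2 : ℝ) ^ k := by positivity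
  obtain ⟨r, Q, hQ, ε, hε, h1⟩ := exists_part hV hT
  obtain ⟨W1, hW1, hT1, h2⟩ := exists_open_part hQ T (half_pos hε)
  obtain ⟨n, hn, h3⟩ := dist_near hk
  have hP : Measurable (P n) := measurable_P n
  obtain ⟨W2, hW2, hT2, h4⟩ := exists_open_part hP T hk
  obtain ⟨W3, hW3, hT3, h5⟩ := iv_near hP T hk
  have hW : IsOpen (V ∩ (W1 ∩ (W2 ∩ W3))) := hV.inter (hW1.inter (hW2.inter hW3))
  obtain ⟨T', hT'⟩ := hD'.inter_open_nonempty _ hW ⟨T, hT, hT1, hT2, hT3⟩
  have key : ∀ S R : Aut, dQ (P n) S R < (1 / 2 : ℝ) ^ k →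
      μ.real {x | (1 / 2 : ℝ) ^ k ≤ dist (S.1 x) (R.1 x)} ≤ (1 / 2 : ℝ) ^ k := fun S R h =>
    (measureReal_mono (h3 S R) (measure_ne_top _ _)).trans h.le
  refine ⟨T', (V ∩ (W1 ∩ (W2 ∩ W3))) ∩ D, hW.inter hD, hT', fun S hS => hS.1.1, fun S hS => hS.2,
    ⟨r, Q, ε, hQ, hε, h1, fun S hS => h2 S hS.1.2.1⟩, fun S hS => key S T (h4 S hS.1.2.2.1),
    fun S hS => key (iv S) (iv T) (h5 S hS.1.2.2.2)⟩

/-- `Aut` is a Baire space: nested sets `{S | dQ Q S (T k) < ε / 2}`, `exists_aut_limit` -/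
theorem baire : BaireSpace Aut := by
  refine ⟨fun f hf hd => ?_⟩
  rw [dense_iff_inter_open]
  rintro U hU ⟨T0, hT0⟩
  have hne : Nonempty Aut := ⟨T0⟩
  choose! g1 g2 hg using fun (k : ℕ) (T : Aut) (V : Set Aut) (h : IsOpen V ∧ T ∈ V) =>
    i8_step k h.1 h.2 (hf k) (hd k)
  obtain ⟨st, hst⟩ : ∃ st : ℕ → Aut × Set Aut, st = fun k => Nat.rec (T0, U)
    (fun k p => (g1 k p.1 p.2, g2 k p.1 p.2)) k := ⟨_, rfl⟩
  have h0 : st 0 = (T0, U) := congrFun hst 0
  have hs : ∀ k, st (k + 1) = (g1 k (st k).1 (st k).2, g2 k (st k).1 (st k).2) := by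
    intro k
    rw [hst]
  have hop : ∀ k, IsOpen (st k).2 ∧ (st k).1 ∈ (st k).2 := by
    intro k
    induction k with
    | zero => rw [h0]; exact ⟨hU, hT0⟩
    | succ k ih =>
      rw [hs k]
      have := hg k (st k).1 (st k).2 ih
      exact ⟨this.1, this.2.1⟩
  have hG := fun k => hg k (st k).1 (st k).2 (hop k)
  have e2 : ∀ k, (st (k + 1)).2 = g2 k (st k).1 (st k).2 := fun k => by rw [hs k]
  have hmem : ∀ j k, j ≤ k → (st k).1 ∈ (st j).2 := by
    have hsub : ∀ j k, j ≤ k → (st k).2 ⊆ (st j).2 := by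
      intro j k hjk
      induction k, hjk using Nat.le_induction with
      | base => exact subset_rfl
      | succ k _ ih =>
        rw [e2 k]
        exact (hG k).2.2.1.trans ih
    exact fun j k hjk => hsub j k hjk (hop k).2
  obtain ⟨S, hS⟩ := exists_aut_limit (T := fun k => (st k).1)
    (fun k => (hG k).2.2.2.2.2.1 _ (e2 k ▸ hmem (k + 1) (k + 1) le_rfl))
    (fun k => (hG k).2.2.2.2.2.2 _ (e2 k ▸ hmem (k + 1) (k + 1) le_rfl))
  have hSm : ∀ j, S ∈ (st j).2 := by
    intro j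
    obtain ⟨r, Q, ε, hQ, hε, h1, h2⟩ := (hG j).2.2.2.2.1
    have h3 := (hS r Q hQ).eventually (gt_mem_nhds (half_pos hε))
    obtain ⟨k, hk1, hk2⟩ := (h3.and (eventually_ge_atTop (j + 1))).exists
    refine h1 S ?_
    have h4 : dQ Q (st k).1 (st j).1 < ε / 2 := h2 _ (e2 j ▸ hmem (j + 1) k hk2)
    have h5 : dQ Q S (st k).1 = dQ Q (st k).1 S := by
      unfold dQ
      simp only [ne_comm]
    have h6 := dQ_triangle Q hQ S (st k).1 (st j).1
    have h7 : dQ Q (st k).1 S < ε / 2 := hk1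
    linarith
  refine ⟨S, ?_, mem_iInter.2 fun k => ?_⟩
  · have := hSm 0
    rw [h0] at this
    exact this
  · have h1 := hSm (k + 1)
    rw [e2 k] at h1
    exact (hG k).2.2.2.1 h1
-- END i8

end Pool.Agent.Gor
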