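import Pool.Agent.Gor.Def

/-!
# Basic facts: partitions and correlations
-/

set_option autoImplicit false

open MeasureTheory Filter Topology Set
open scoped symmDiff

namespace Pool.Agent.Gor

/-- the distance of `S` and `T` seen by the partition `Q` -/
noncomputable def dQ {r : ℕ} (Q : X → Fin r) (S T : Aut) : ℝ := μ.real {x | Q (S.1 x) ≠ Q (T.1 x)}

/-- measurable and bounded by `B` -/
def BM (B : ℝ) (f : X → ℝ) : Prop := Measurable f ∧ ∀ x, |f x| ≤ B

/-- cross correlation -/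
noncomputable def cr (f g : X → ℝ) (T : Aut) (n : ℕ) : ℝ := ∫ x, f x * g ((T.1 : X → X)^[n] x) ∂μ

/-- correlation -/
noncomputable def co (f : X → ℝ) (T : Aut) (n : ℕ) : ℝ := ∫ x, f x * f ((T.1 : X → X)^[n] x) ∂μ

-- BEGIN b1
private theorem b1_pair {U : Set Aut} (hU : TopologicalSpace.GenerateOpen
    {U | ∃ (T : Aut) (A : Set X) (ε : ℝ), MeasurableSet A ∧ 0 < ε ∧
      U = {S : Aut | μ.real ((S.1 ⁻¹' A) ∆ (T.1 ⁻¹' A)) < ε}} U) :
    ∀ T ∈ U, ∃ (r : ℕ) (Q : X → Fin r), Measurable Q ∧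
      ∃ ε : ℝ, 0 < ε ∧ ∀ S : Aut, dQ Q S T < ε → S ∈ U := by
  induction hU with
  | basic s hs =>
    obtain ⟨T0, A, ε, hA, hε, rfl⟩ := hs
    intro T hT
    classical
    refine ⟨2, fun x => if x ∈ A then 1 else 0, ?_, ε - μ.real ((T.1 ⁻¹' A) ∆ (T0.1 ⁻¹' A)), ?_, ?_⟩
    · exact Measurable.ite hA measurable_const measurable_const
    · have := hT
      simp only [Set.mem_ofPred_eq] at this
      linarith
    · intro S hS
      have h1 : dQ (fun x => if x ∈ A then (1 : Fin 2) else 0) S T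
          = μ.real ((S.1 ⁻¹' A) ∆ (T.1 ⁻¹' A)) := by
        unfold dQ
        congr 1
        ext x
        simp only [Set.mem_ofPred_eq, Set.mem_symmDiff, Set.mem_preimage]
        by_cases h1 : S.1 x ∈ A <;> by_cases h2 : T.1 x ∈ A <;> simp [h1, h2]
      rw [h1] at hS
      have h2 : μ.real ((S.1 ⁻¹' A) ∆ (T0.1 ⁻¹' A)) ≤
          μ.real ((S.1 ⁻¹' A) ∆ (T.1 ⁻¹' A)) + μ.real ((T.1 ⁻¹' A) ∆ (T0.1 ⁻¹' A)) := by
        refine le_trans (measureReal_mono (symmDiff_triangle _ (T.1 ⁻¹' A) _)) ?_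
        exact measureReal_union_le _ _
      simp only [Set.mem_ofPred_eq]
      linarith
  | univ =>
    intro T _
    exact ⟨1, fun _ => 0, measurable_const, 1, one_pos, fun S _ => Set.mem_univ _⟩
  | inter s t _ _ ih1 ih2 =>
    intro T hT
    obtain ⟨r1, Q1, hQ1, e1, he1, h1⟩ := ih1 T hT.1
    obtain ⟨r2, Q2, hQ2, e2, he2, h2⟩ := ih2 T hT.2
    refine ⟨r1 * r2, fun x => finProdFinEquiv (Q1 x, Q2 x), ?_, min e1 e2, lt_min he1 he2, ?_⟩
    · exact (measurable_of_countable _).comp (hQ1.prodMk hQ2)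
    · intro S hS
      have k1 : dQ Q1 S T ≤ dQ (fun x => finProdFinEquiv (Q1 x, Q2 x)) S T := by
        unfold dQ
        refine measureReal_mono ?_
        intro x hx
        simp only [Set.mem_ofPred_eq, ne_eq, EmbeddingLike.apply_eq_iff_eq, Prod.mk.injEq, not_and_or] at hx ⊢
        exact Or.inl hx
      have k2 : dQ Q2 S T ≤ dQ (fun x => finProdFinEquiv (Q1 x, Q2 x)) S T := by
        unfold dQ
        refine measureReal_mono ?_
        intro x hx
        simp only [Set.mem_ofPred_eq, ne_eq, EmbeddingLike.apply_eq_iff_eq, Prod.mk.injEq, not_and_or] at hx ⊢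
        exact Or.inr hx
      exact ⟨h1 S (lt_of_le_of_lt k1 (lt_of_lt_of_le hS (min_le_left _ _))),
        h2 S (lt_of_le_of_lt k2 (lt_of_lt_of_le hS (min_le_right _ _)))⟩
  | sUnion K _ ih =>
    intro T hT
    obtain ⟨s, hs, hTs⟩ := hT
    obtain ⟨r, Q, hQ, e, he, h⟩ := ih s hs T hTs
    exact ⟨r, Q, hQ, e, he, fun S hS => ⟨s, hs, h S hS⟩⟩

/-- a neighbourhood of `T` contains all `S` which are close to `T` for some finite partition -/
theorem exists_part {U : Set Aut} (hU : IsOpen U) {T : Aut} (hT : T ∈ U) :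
    ∃ (r : ℕ) (Q : X → Fin r), Measurable Q ∧ ∃ ε : ℝ, 0 < ε ∧ ∀ S : Aut, dQ Q S T < ε → S ∈ U := by
  exact b1_pair hU T hT
-- END b1

-- BEGIN b2
/-- conversely -/
theorem exists_open_part {r : ℕ} {Q : X → Fin r} (hQ : Measurable Q) (T : Aut) {ε : ℝ}
    (hε : 0 < ε) : ∃ U : Set Aut, IsOpen U ∧ T ∈ U ∧ ∀ S ∈ U, dQ Q S T < ε := by
  have hδ : 0 < ε / ((r : ℝ) + 1) := by positivity
  refine ⟨⋂ i : Fin r, {S : Aut | μ.real ((S.1 ⁻¹' (Q ⁻¹' {i})) ∆ (T.1 ⁻¹' (Q ⁻¹' {i}))) <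
    ε / ((r : ℝ) + 1)}, ?_, ?_, ?_⟩
  · refine isOpen_iInter_of_finite fun i => ?_
    exact TopologicalSpace.isOpen_generateFrom_of_mem
      ⟨T, Q ⁻¹' {i}, ε / ((r : ℝ) + 1), hQ (measurableSet_singleton i), hδ, rfl⟩
  · refine mem_iInter.2 fun i => ?_
    simp only [mem_setOf_eq, symmDiff_self, bot_eq_empty, measureReal_empty]
    exact hδ
  · intro S hS
    rw [mem_iInter] at hS
    have h1 : {x | Q (S.1 x) ≠ Q (T.1 x)} ⊆
        ⋃ i : Fin r, (S.1 ⁻¹' (Q ⁻¹' {i})) ∆ (T.1 ⁻¹' (Q ⁻¹' {i})) := by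
      intro x hx
      rw [mem_iUnion]
      refine ⟨Q (S.1 x), Or.inl ⟨rfl, fun h => hx ?_⟩⟩
      exact (show Q (T.1 x) = Q (S.1 x) from h).symm
    have h2 : dQ Q S T ≤ ∑ i : Fin r,
        μ.real ((S.1 ⁻¹' (Q ⁻¹' {i})) ∆ (T.1 ⁻¹' (Q ⁻¹' {i}))) :=
      (measureReal_mono h1 (measure_ne_top _ _)).trans (measureReal_iUnion_fintype_le _)
    have h3 : ∑ i : Fin r, μ.real ((S.1 ⁻¹' (Q ⁻¹' {i})) ∆ (T.1 ⁻¹' (Q ⁻¹' {i}))) ≤
        ∑ _i : Fin r, ε / ((r : ℝ) + 1) := Finset.sum_le_sum fun i _ => (hS i).le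
    rw [Finset.sum_const, Finset.card_univ, Fintype.card_fin, nsmul_eq_mul] at h3
    have h4 : (r : ℝ) * (ε / ((r : ℝ) + 1)) < ε := by
      rw [← mul_div_assoc, div_lt_iff₀ (by positivity)]
      nlinarith
    linarith

theorem dQ_triangle {r : ℕ} (Q : X → Fin r) (hQ : Measurable Q) (S T R : Aut) :
    dQ Q S R ≤ dQ Q S T + dQ Q T R := by
  have _ := hQ
  unfold dQ
  refine le_trans (measureReal_mono ?_ (measure_ne_top _ _)) (measureReal_union_le _ _)
  intro x hx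
  by_cases h : Q (S.1 x) = Q (T.1 x)
  · exact Or.inr fun h' => hx (h.trans h')
  · exact Or.inl h
-- END b2

-- BEGIN b3
theorem BM.add {B C : ℝ} {f g : X → ℝ} (hf : BM B f) (hg : BM C g) : BM (B + C) (fun x => f x + g x) :=
  ⟨hf.1.add hg.1, fun x => (abs_add_le _ _).trans (add_le_add (hf.2 x) (hg.2 x))⟩

theorem BM.cmul {B : ℝ} {f : X → ℝ} (hf : BM B f) (c : ℝ) : BM (|c| * B) (fun x => c * f x) :=
  ⟨hf.1.const_mul c, fun x => by
    rw [abs_mul]
    exact mul_le_mul_of_nonneg_left (hf.2 x) (abs_nonneg c)⟩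

theorem BM.integrable {B : ℝ} {f : X → ℝ} (hf : BM B f) : Integrable f μ :=
  Integrable.of_bound hf.1.aestronglyMeasurable B
    (Filter.Eventually.of_forall fun x => by rw [Real.norm_eq_abs]; exact hf.2 x)

theorem iter_pres (T : Aut) (n : ℕ) : MeasurePreserving ((T.1 : X → X)^[n]) μ μ :=
  T.2.iterate n

private theorem b3_nonneg {B : ℝ} {f : X → ℝ} (hf : BM B f) : 0 ≤ B :=
  (abs_nonneg _).trans (hf.2 0)

private theorem b3_mul {B C : ℝ} {f g : X → ℝ} (hf : BM B f) (hg : BM C g) :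
    BM (B * C) (fun x => f x * g x) :=
  ⟨hf.1.mul hg.1, fun x => by
    rw [abs_mul]
    exact mul_le_mul (hf.2 x) (hg.2 x) (abs_nonneg _) (b3_nonneg hf)⟩

private theorem b3_comp {B : ℝ} {f : X → ℝ} (hf : BM B f) (T : Aut) (n : ℕ) :
    BM B (fun x => f ((T.1 : X → X)^[n] x)) :=
  ⟨hf.1.comp (iter_pres T n).measurable, fun _ => hf.2 _⟩

private theorem b3_abs {B : ℝ} {f : X → ℝ} (hf : BM B f) : BM B (fun x => |f x|) :=
  ⟨hf.1.abs, fun x => by rw [abs_abs]; exact hf.2 x⟩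

private theorem b3_sub {B C : ℝ} {f g : X → ℝ} (hf : BM B f) (hg : BM C g) :
    BM (B + C) (fun x => f x - g x) :=
  ⟨hf.1.sub hg.1, fun x => (abs_sub _ _).trans (add_le_add (hf.2 x) (hg.2 x))⟩

private theorem b3_int_comp {h : X → ℝ} (hh : Measurable h) (T : Aut) (n : ℕ) :
    ∫ x, h ((T.1 : X → X)^[n] x) ∂μ = ∫ x, h x ∂μ := by
  have h1 := integral_map (μ := μ) (iter_pres T n).measurable.aemeasurable
    (f := h) hh.aestronglyMeasurable
  rw [(iter_pres T n).map_eq] at h1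
  exact h1.symm

/-- the correlations depend continuously on the functions, uniformly in `T` and `n` -/
theorem cr_sub_le {B C : ℝ} {f f' g g' : X → ℝ} (hf : BM B f) (hf' : BM B f') (hg : BM C g)
    (hg' : BM C g') (T : Aut) (n : ℕ) :
    |cr f g T n - cr f' g' T n| ≤ C * (∫ x, |f x - f' x| ∂μ) + B * ∫ x, |g x - g' x| ∂μ := by
  have hB := b3_nonneg hf
  have hC := b3_nonneg hg
  have hgT := b3_comp hg T n
  have hgT' := b3_comp hg' T n
  have i1 := (b3_mul hf hgT).integrable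
  have i2 := (b3_mul hf' hgT').integrable
  have j1 := (b3_abs (b3_sub hf hf')).integrable
  have j2 := (b3_abs (b3_comp (b3_sub hg hg') T n)).integrable
  have e1 : cr f g T n - cr f' g' T n =
      ∫ x, (f x * g ((T.1 : X → X)^[n] x) - f' x * g' ((T.1 : X → X)^[n] x)) ∂μ := by
    unfold cr
    exact (integral_sub i1 i2).symm
  have e2 : ∫ x, |g ((T.1 : X → X)^[n] x) - g' ((T.1 : X → X)^[n] x)| ∂μ =
      ∫ x, |g x - g' x| ∂μ :=
    b3_int_comp (h := fun x => |g x - g' x|) (hg.1.sub hg'.1).abs T n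
  rw [e1, ← e2, ← integral_const_mul, ← integral_const_mul,
    ← integral_add (j1.const_mul C) (j2.const_mul B)]
  refine (abs_integral_le_integral_abs).trans ?_
  refine integral_mono (i1.sub i2).abs ((j1.const_mul C).add (j2.const_mul B)) fun x => ?_
  have k1 : f x * g ((T.1 : X → X)^[n] x) - f' x * g' ((T.1 : X → X)^[n] x) =
      (f x - f' x) * g ((T.1 : X → X)^[n] x) +
        f' x * (g ((T.1 : X → X)^[n] x) - g' ((T.1 : X → X)^[n] x)) := by ring
  have k2 : |(f x - f' x) * g ((T.1 : X → X)^[n] x)| ≤ C * |f x - f' x| := by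
    rw [abs_mul, mul_comm]
    exact mul_le_mul_of_nonneg_right (hg.2 _) (abs_nonneg _)
  have k3 : |f' x * (g ((T.1 : X → X)^[n] x) - g' ((T.1 : X → X)^[n] x))| ≤
      B * |g ((T.1 : X → X)^[n] x) - g' ((T.1 : X → X)^[n] x)| := by
    rw [abs_mul]
    exact mul_le_mul_of_nonneg_right (hf'.2 _) (abs_nonneg _)
  show |f x * g ((T.1 : X → X)^[n] x) - f' x * g' ((T.1 : X → X)^[n] x)| ≤
    C * |f x - f' x| + B * |g ((T.1 : X → X)^[n] x) - g' ((T.1 : X → X)^[n] x)|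
  rw [k1]
  exact (abs_add_le _ _).trans (add_le_add k2 k3)

theorem co_eq_cr (f : X → ℝ) (T : Aut) (n : ℕ) : co f T n = cr f f T n := rfl

theorem co_add {B C : ℝ} {f g : X → ℝ} (hf : BM B f) (hg : BM C g) (c : ℝ) (T : Aut) (n : ℕ) :
    co (fun x => f x + c * g x) T n =
      co f T n + c ^ 2 * co g T n + c * (cr f g T n + cr g f T n) := by
  have hfT := b3_comp hf T n
  have hgT := b3_comp hg T n
  have i1 := (b3_mul hf hfT).integrable
  have i2 := (b3_mul hg hgT).integrable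
  have i3 := (b3_mul hf hgT).integrable
  have i4 := (b3_mul hg hfT).integrable
  have i5 : Integrable (fun x => c ^ 2 * (g x * g ((T.1 : X → X)^[n] x))) μ := i2.const_mul _
  have i6 : Integrable (fun x => f x * g ((T.1 : X → X)^[n] x) +
      g x * f ((T.1 : X → X)^[n] x)) μ := i3.add i4
  have i7 : Integrable (fun x => f x * f ((T.1 : X → X)^[n] x) +
      c ^ 2 * (g x * g ((T.1 : X → X)^[n] x))) μ := i1.add i5
  have i8 : Integrable (fun x => c * (f x * g ((T.1 : X → X)^[n] x) +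
      g x * f ((T.1 : X → X)^[n] x))) μ := i6.const_mul _
  have e1 : cr f g T n + cr g f T n = ∫ x, (f x * g ((T.1 : X → X)^[n] x) +
      g x * f ((T.1 : X → X)^[n] x)) ∂μ := by
    unfold cr
    exact (integral_add i3 i4).symm
  have e2 : c ^ 2 * co g T n = ∫ x, c ^ 2 * (g x * g ((T.1 : X → X)^[n] x)) ∂μ := by
    unfold co
    exact (integral_const_mul _ _).symm
  have e3 : co f T n + c ^ 2 * co g T n = ∫ x, (f x * f ((T.1 : X → X)^[n] x) +
      c ^ 2 * (g x * g ((T.1 : X → X)^[n] x))) ∂μ := by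
    rw [e2]
    unfold co
    exact (integral_add i1 i5).symm
  have e4 : c * (cr f g T n + cr g f T n) = ∫ x, c * (f x * g ((T.1 : X → X)^[n] x) +
      g x * f ((T.1 : X → X)^[n] x)) ∂μ := by
    rw [e1]
    exact (integral_const_mul _ _).symm
  rw [e3, e4, ← integral_add i7 i8]
  unfold co
  refine integral_congr_ae (Filter.Eventually.of_forall fun x => ?_)
  show (f x + c * g x) * (f ((T.1 : X → X)^[n] x) + c * g ((T.1 : X → X)^[n] x)) =
    f x * f ((T.1 : X → X)^[n] x) + c ^ 2 * (g x * g ((T.1 : X → X)^[n] x)) +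
      c * (f x * g ((T.1 : X → X)^[n] x) + g x * f ((T.1 : X → X)^[n] x))
  ring
-- END b3

end Pool.Agent.Gor
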