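import Mathlib

/-!
# Definitions used in the statement

The group `Aut` of all invertible Borel maps of the circle which preserve Lebesgue measure, with the
weak topology, and weak mixing.
-/

set_option autoImplicit false

open MeasureTheory Filter Topology Set
open scoped symmDiff

namespace Pool.Agent.Gor

/-- the circle `ℝ/ℤ` -/
abbrev X : Type := AddCircle (1 : ℝ)

instance : IsProbabilityMeasure (volume : Measure X) := ⟨UnitAddCircle.measure_univ⟩

/-- Lebesgue measure -/
noncomputable abbrev μ : Measure X := volume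

/-- invertible measure preserving maps -/
def Aut : Type := {T : X ≃ᵐ X // MeasurePreserving T μ μ}

/-- the weak topology: generated by the sets `{S | μ (S⁻¹ A ∆ T⁻¹ A) < ε}` -/
instance : TopologicalSpace Aut := TopologicalSpace.generateFrom
  {U | ∃ (T : Aut) (A : Set X) (ε : ℝ), MeasurableSet A ∧ 0 < ε ∧
    U = {S : Aut | μ.real ((S.1 ⁻¹' A) ∆ (T.1 ⁻¹' A)) < ε}}

/-- weak mixing, as in the problem file -/
def WeaklyMixing (T : Aut) : Prop := ∀ A B : Set X, MeasurableSet A → MeasurableSet B →
  Tendsto (fun N : ℕ => (1 / (N : ℝ)) * ∑ n ∈ Finset.Icc 1 N,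
    |μ.real (A ∩ ((T.1 : X → X)^[n]) ⁻¹' B) - μ.real A * μ.real B|) atTop (𝓝 0)

end Pool.Agent.Gor
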