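import Mathlib

/-!
# A tree of open sets gives a residual set
-/

set_option autoImplicit false

open Filter Topology Set

namespace Pool.Agent.Gor

-- BEGIN r1
/-- a maximal pairwise disjoint family of nonempty open subsets of `U` with the property `p` has a
dense union, if every nonempty open subset of `U` contains a nonempty open set with `p` -/
theorem exists_family {Z D : Type} [TopologicalSpace Z] {U : Set Z} (hU : IsOpen U)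
    (p : Set Z → D → Prop)
    (hp : ∀ W : Set Z, IsOpen W → W.Nonempty → W ⊆ U → ∃ V d, IsOpen V ∧ V.Nonempty ∧ V ⊆ W ∧ p V d) :
    ∃ 𝓕 : Set (Set Z × D), (∀ q ∈ 𝓕, IsOpen q.1 ∧ q.1.Nonempty ∧ q.1 ⊆ U ∧ p q.1 q.2) ∧
      (∀ q ∈ 𝓕, ∀ q' ∈ 𝓕, q ≠ q' → Disjoint q.1 q'.1) ∧
      U ⊆ closure (⋃ q ∈ 𝓕, q.1) := by
  obtain ⟨𝓕, h𝓕⟩ := zorn_subset
    {𝓕 : Set (Set Z × D) | (∀ q ∈ 𝓕, IsOpen q.1 ∧ q.1.Nonempty ∧ q.1 ⊆ U ∧ p q.1 q.2) ∧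
      (∀ q ∈ 𝓕, ∀ q' ∈ 𝓕, q ≠ q' → Disjoint q.1 q'.1)} (by
    intro c hc hchain
    refine ⟨⋃₀ c, ⟨?_, ?_⟩, fun s hs => subset_sUnion_of_mem hs⟩
    · rintro q ⟨s, hs, hq⟩
      exact (hc hs).1 q hq
    · rintro q ⟨s, hs, hq⟩ q' ⟨s', hs', hq'⟩ hne
      rcases hchain.total hs hs' with h | h
      · exact (hc hs').2 q (h hq) q' hq' hne
      · exact (hc hs).2 q hq q' (h hq') hne)
  obtain ⟨h1, h2⟩ := h𝓕.prop
  refine ⟨𝓕, h1, h2, ?_⟩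
  by_contra hcon
  obtain ⟨x, hxU, hx⟩ := not_subset.1 hcon
  obtain ⟨V, d, hV, hVn, hVW, hpV⟩ := hp (U ∩ (closure (⋃ q ∈ 𝓕, q.1))ᶜ)
    (hU.inter isClosed_closure.isOpen_compl) ⟨x, hxU, hx⟩ inter_subset_left
  have hdis : ∀ q ∈ 𝓕, Disjoint V q.1 := by
    intro q hq
    rw [Set.disjoint_left]
    intro y hy hy'
    exact (hVW hy).2 (subset_closure (mem_biUnion hq hy'))
  have hins : insert (V, d) 𝓕 ∈
      {𝓕 : Set (Set Z × D) | (∀ q ∈ 𝓕, IsOpen q.1 ∧ q.1.Nonempty ∧ q.1 ⊆ U ∧ p q.1 q.2) ∧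
      (∀ q ∈ 𝓕, ∀ q' ∈ 𝓕, q ≠ q' → Disjoint q.1 q'.1)} := by
    refine ⟨?_, ?_⟩
    · intro q hq
      rcases mem_insert_iff.1 hq with rfl | hq
      · exact ⟨hV, hVn, hVW.trans inter_subset_left, hpV⟩
      · exact h1 q hq
    · intro q hq q' hq' hne
      rcases mem_insert_iff.1 hq with hq | hq
      · rcases mem_insert_iff.1 hq' with hq' | hq'
        · exact absurd (hq.trans hq'.symm) hne
        · rw [hq]
          exact hdis q' hq'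
      · rcases mem_insert_iff.1 hq' with hq' | hq'
        · rw [hq']
          exact (hdis q hq).symm
        · exact h2 q hq q' hq' hne
  have hmem : (V, d) ∈ 𝓕 := h𝓕.le_of_ge hins (subset_insert _ _) (mem_insert _ _)
  obtain ⟨y, hy⟩ := hVn
  exact Set.disjoint_left.1 (hdis _ hmem) hy hy
-- END r1

-- BEGIN r2
/-- the tree -/
theorem tree {Z D : Type} [TopologicalSpace Z] (nd : ℕ → Z → D → Prop) (ex : ℕ → Z → D → D → Prop)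
    (d₀ : D) (h0 : ∀ z, nd 0 z d₀)
    (hs : ∀ (i : ℕ) (U : Set Z) (d : D), IsOpen U → U.Nonempty → (∀ z ∈ U, nd i z d) →
      ∃ (V : Set Z) (d' : D), IsOpen V ∧ V.Nonempty ∧ V ⊆ U ∧
        ∀ z ∈ V, nd (i + 1) z d' ∧ ex i z d d') :
    {z | ∃ s : ℕ → D, s 0 = d₀ ∧ ∀ i, nd i z (s i) ∧ ex i z (s i) (s (i + 1))} ∈ residual Z := by
  rcases isEmpty_or_nonempty Z with hZ | hZ
  · have : {z : Z | ∃ s : ℕ → D, s 0 = d₀ ∧ ∀ i, nd i z (s i) ∧ ex i z (s i) (s (i + 1))} = univ := by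
      ext z
      exact isEmptyElim z
    rw [this]
    exact univ_mem
  have step : ∀ (i : ℕ) (L : {L : Set (Set Z × D) //
      (∀ q ∈ L, IsOpen q.1 ∧ q.1.Nonempty ∧ ∀ z ∈ q.1, nd i z q.2) ∧
      (∀ q ∈ L, ∀ q' ∈ L, q ≠ q' → Disjoint q.1 q'.1) ∧ Dense (⋃ q ∈ L, q.1)}),
      ∃ L' : {L : Set (Set Z × D) //
      (∀ q ∈ L, IsOpen q.1 ∧ q.1.Nonempty ∧ ∀ z ∈ q.1, nd (i + 1) z q.2) ∧
      (∀ q ∈ L, ∀ q' ∈ L, q ≠ q' → Disjoint q.1 q'.1) ∧ Dense (⋃ q ∈ L, q.1)},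
        ∀ q' ∈ L'.1, ∃ q ∈ L.1, q'.1 ⊆ q.1 ∧ ∀ z ∈ q'.1, ex i z q.2 q'.2 := by
    rintro i ⟨L, hL1, hL2, hL3⟩
    have hfam : ∀ q ∈ L, ∃ 𝓕 : Set (Set Z × D), (∀ r ∈ 𝓕, IsOpen r.1 ∧ r.1.Nonempty ∧ r.1 ⊆ q.1 ∧
        ∀ z ∈ r.1, nd (i + 1) z r.2 ∧ ex i z q.2 r.2) ∧
        (∀ r ∈ 𝓕, ∀ r' ∈ 𝓕, r ≠ r' → Disjoint r.1 r'.1) ∧ q.1 ⊆ closure (⋃ r ∈ 𝓕, r.1) := by
      intro q hq
      exact exists_family (hL1 q hq).1 (fun V d' => ∀ z ∈ V, nd (i + 1) z d' ∧ ex i z q.2 d')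
        fun W hW hWn hWU => hs i W q.2 hW hWn fun z hz => (hL1 q hq).2.2 z (hWU hz)
    choose! 𝓕 h1 h2 h3 using hfam
    refine ⟨⟨⋃ q ∈ L, 𝓕 q, ?_, ?_, ?_⟩, ?_⟩
    · intro r hr
      obtain ⟨q, hq, hr⟩ := mem_iUnion₂.1 hr
      obtain ⟨a1, a2, -, a3⟩ := h1 q hq r hr
      exact ⟨a1, a2, fun z hz => (a3 z hz).1⟩
    · intro r hr r' hr' hne
      obtain ⟨q, hq, hr⟩ := mem_iUnion₂.1 hr
      obtain ⟨q', hq', hr'⟩ := mem_iUnion₂.1 hr'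
      by_cases hqq : q = q'
      · subst hqq
        exact h2 q hq r hr r' hr' hne
      · exact (hL2 q hq q' hq' hqq).mono (h1 q hq r hr).2.2.1 (h1 q' hq' r' hr').2.2.1
    · have hsub : (⋃ q ∈ L, q.1) ⊆ closure (⋃ r ∈ ⋃ q ∈ L, 𝓕 q, r.1) := by
        refine iUnion₂_subset fun q hq => (h3 q hq).trans (closure_mono ?_)
        refine iUnion₂_subset fun r hr => ?_
        intro z hz
        exact mem_iUnion₂.2 ⟨r, mem_iUnion₂.2 ⟨q, hq, hr⟩, hz⟩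
      exact dense_closure.1 (hL3.mono hsub)
    · intro r hr
      obtain ⟨q, hq, hr⟩ := mem_iUnion₂.1 hr
      obtain ⟨-, -, a2, a3⟩ := h1 q hq r hr
      exact ⟨q, hq, a2, fun z hz => (a3 z hz).2⟩
  choose nx hnx using step
  have hbase : (∀ q ∈ ({(univ, d₀)} : Set (Set Z × D)),
      IsOpen q.1 ∧ q.1.Nonempty ∧ ∀ z ∈ q.1, nd 0 z q.2) ∧
      (∀ q ∈ ({(univ, d₀)} : Set (Set Z × D)), ∀ q' ∈ ({(univ, d₀)} : Set (Set Z × D)),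
        q ≠ q' → Disjoint q.1 q'.1) ∧ Dense (⋃ q ∈ ({(univ, d₀)} : Set (Set Z × D)), q.1) := by
    refine ⟨?_, ?_, ?_⟩
    · rintro q rfl
      exact ⟨isOpen_univ, univ_nonempty, fun z _ => h0 z⟩
    · rintro q rfl q' rfl hne
      exact absurd rfl hne
    · rw [biUnion_singleton]
      exact dense_univ
  let Lv : ∀ i : ℕ, {L : Set (Set Z × D) //
      (∀ q ∈ L, IsOpen q.1 ∧ q.1.Nonempty ∧ ∀ z ∈ q.1, nd i z q.2) ∧
      (∀ q ∈ L, ∀ q' ∈ L, q ≠ q' → Disjoint q.1 q'.1) ∧ Dense (⋃ q ∈ L, q.1)} :=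
    fun i => Nat.rec ⟨{(univ, d₀)}, hbase⟩ (fun i L => nx i L) i
  have hLv0 : (Lv 0).1 = {(univ, d₀)} := rfl
  have hLvs : ∀ i, ∀ q' ∈ (Lv (i + 1)).1, ∃ q ∈ (Lv i).1, q'.1 ⊆ q.1 ∧ ∀ z ∈ q'.1, ex i z q.2 q'.2 :=
    fun i => hnx i (Lv i)
  have hres : (⋂ i, ⋃ q ∈ (Lv i).1, q.1) ∈ residual Z := by
    rw [countable_iInter_mem]
    intro i
    exact residual_of_dense_open (isOpen_biUnion fun q hq => ((Lv i).2.1 q hq).1) (Lv i).2.2.2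
  refine mem_of_superset hres fun z hz => ?_
  rw [mem_iInter] at hz
  have hz' : ∀ i, ∃ q ∈ (Lv i).1, z ∈ q.1 := by
    intro i
    obtain ⟨q, hq, hzq⟩ := mem_iUnion₂.1 (hz i)
    exact ⟨q, hq, hzq⟩
  choose q hq hzq using hz'
  refine ⟨fun i => (q i).2, ?_, fun i => ⟨((Lv i).2.1 _ (hq i)).2.2 z (hzq i), ?_⟩⟩
  · have h := hq 0
    rw [hLv0, mem_singleton_iff] at h
    show (q 0).2 = d₀
    rw [h]
  · obtain ⟨r, hr, hsub, hex⟩ := hLvs i _ (hq (i + 1))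
    have hrq : r = q i := by
      by_contra hne
      exact Set.disjoint_left.1 ((Lv i).2.2.1 r hr (q i) (hq i) hne) (hsub (hzq (i + 1))) (hzq i)
    have h5 := hex z (hzq (i + 1))
    rw [hrq] at h5
    exact h5
-- END r2

end Pool.Agent.Gor
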