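import Pool.Agent.Gor.Stp
import Pool.Agent.Gor.Tre

/-!
# The limit function and the theorem
-/

set_option autoImplicit false

open MeasureTheory Filter Topology Set

namespace Pool.Agent.Gor

/-- nodes -/
def Nd (i : ℕ) (T : Aut) (f : X → ℝ) : Prop :=
  (∃ B, BM B f) ∧ ∫ x, f x ∂μ = 0 ∧ ∀ n : ℕ, 1 ≤ n → -((1 : ℝ) / 16 ^ i) ≤ co f T n

/-- edges; `mm i` is the time up to which the correlations grow in the step `i` -/
def Ex (mm : ℕ → ℕ) (i : ℕ) (T : Aut) (f f' : X → ℝ) : Prop :=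
  (∀ x, |f' x - f x| ≤ 12 / 4 ^ i) ∧
    ∀ n : ℕ, 1 ≤ n → n ≤ mm i → co f T n + 1 / 16 ^ i ≤ co f' T n

-- BEGIN f1
private theorem f1_sqrt (i : ℕ) : 8 * √(2 * (1 / 16 ^ i : ℝ)) ≤ 12 / 4 ^ i := by
  have h4 : (0 : ℝ) < 4 ^ i := by positivity
  have h16 : (16 : ℝ) ^ i = (4 ^ i) ^ 2 := by
    rw [← pow_mul, mul_comm, pow_mul]; norm_num
  have h1 : √(2 * (1 / 16 ^ i : ℝ)) ≤ (3 / 2) / 4 ^ i := by
    apply Real.sqrt_le_iff.2
    refine ⟨by positivity, ?_⟩
    rw [h16, div_pow, mul_one_div]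
    apply div_le_div_of_nonneg_right _ (by positivity)
    norm_num
  calc 8 * √(2 * (1 / 16 ^ i : ℝ)) ≤ 8 * ((3 / 2) / 4 ^ i) := by linarith
    _ = 12 / 4 ^ i := by ring

/-- the sequences exist for the elements of a residual set -/
theorem residual_seq (mm : ℕ → ℕ) : {T : Aut | ∃ s : ℕ → X → ℝ, s 0 = (fun _ => 0) ∧
    ∀ i, Nd i T (s i) ∧ Ex mm i T (s i) (s (i + 1))} ∈ residual Aut := by
  refine tree (Z := Aut) (D := X → ℝ) Nd (Ex mm) (fun _ => 0) ?_ ?_
  · intro T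
    refine ⟨⟨0, measurable_const, fun x => by simp⟩, by simp, fun n _ => ?_⟩
    simp [co]
  · intro i U f hU hne hnd
    obtain ⟨T0, hT0⟩ := hne
    obtain ⟨⟨B, hB⟩, h0, -⟩ := hnd T0 hT0
    have hη : (0 : ℝ) < 1 / 16 ^ i := by positivity
    obtain ⟨U', f', hU', hne', hsub, hBM, h0', hdiff, hlow, hgain⟩ :=
      step hU ⟨T0, hT0⟩ hB h0 hη (fun T hT n hn => (hnd T hT).2.2 n hn) (mm i)
    refine ⟨U', f', hU', hne', hsub, fun T hT => ⟨⟨⟨_, hBM⟩, h0', fun n hn => ?_⟩,
      fun x => (hdiff x).trans (f1_sqrt i), fun n h1 hn => hgain T hT n h1 hn⟩⟩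
    have := hlow T hT n hn
    have he : (1 : ℝ) / 16 ^ (i + 1) = 1 / 16 ^ i / 16 := by
      rw [pow_succ, div_div]
    rw [he]
    exact this
-- END f1

-- BEGIN f2
private theorem f2_tail {s : ℕ → X → ℝ} (hs : ∀ i x, |s (i + 1) x - s i x| ≤ 12 / 4 ^ i) (x : X)
    (i k : ℕ) : |s (i + k) x - s i x| ≤ 16 / 4 ^ i - 16 / 4 ^ (i + k) := by
  induction k with
  | zero => simp
  | succ k ih =>
    have h1 := hs (i + k) x
    have h2 : |s (i + (k + 1)) x - s i x| ≤ |s (i + k + 1) x - s (i + k) x| + |s (i + k) x - s i x| := by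
      have e : s (i + (k + 1)) x - s i x = (s (i + k + 1) x - s (i + k) x) + (s (i + k) x - s i x) := by
        rw [← add_assoc]; ring
      rw [e]
      exact abs_add_le _ _
    have h3 : (16 : ℝ) / 4 ^ (i + (k + 1)) = 4 / 4 ^ (i + k) := by
      rw [← add_assoc, pow_succ]
      field_simp
      norm_num
    have h4 : (12 : ℝ) / 4 ^ (i + k) = 16 / 4 ^ (i + k) - 4 / 4 ^ (i + k) := by ring
    rw [h3]
    linarith

/-- the limit -/
theorem exists_limit {mm : ℕ → ℕ} {T : Aut} {s : ℕ → X → ℝ} (h0 : s 0 = fun _ => 0)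
    (hs : ∀ i, Nd i T (s i) ∧ Ex mm i T (s i) (s (i + 1))) :
    ∃ f : X → ℝ, BM 16 f ∧ ∫ x, f x ∂μ = 0 ∧
      (∀ n : ℕ, 1 ≤ n → (∀ i, n ≤ mm i) → 1 ≤ co f T n) ∧
      ∀ n : ℕ, 1 ≤ n → ∀ j : ℕ, (∀ i, j ≤ i → n ≤ mm i) → 1 / 16 ^ (j + 1) ≤ co f T n := by
  have hstep : ∀ i x, |s (i + 1) x - s i x| ≤ 12 / 4 ^ i := fun i x => (hs i).2.1 x
  have htail := fun x => f2_tail hstep x
  have h4t : Tendsto (fun i : ℕ => (16 : ℝ) / 4 ^ i) atTop (𝓝 0) := by
    have h := (tendsto_pow_atTop_nhds_zero_of_lt_one (r := (1 / 4 : ℝ)) (by norm_num)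
      (by norm_num)).const_mul 16
    simp only [mul_zero] at h
    refine h.congr (fun i => ?_)
    rw [one_div, inv_pow, div_eq_mul_inv]
  have hcau : ∀ x, CauchySeq (fun i => s i x) := by
    intro x
    refine cauchySeq_of_le_tendsto_0' (fun i : ℕ => (16 : ℝ) / 4 ^ i) ?_ h4t
    intro i j hij
    obtain ⟨k, rfl⟩ := Nat.exists_eq_add_of_le hij
    rw [dist_comm, Real.dist_eq]
    have h1 := htail x i k
    have h2 : (0 : ℝ) ≤ 16 / 4 ^ (i + k) := by positivity
    linarith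
  choose f hf using fun x => cauchySeq_tendsto_of_complete (hcau x)
  have hfs : ∀ i x, |f x - s i x| ≤ 16 / 4 ^ i := by
    intro i x
    have h1 : Tendsto (fun k => |s (i + k) x - s i x|) atTop (𝓝 |f x - s i x|) := by
      have h2 : Tendsto (fun k => s (i + k) x) atTop (𝓝 (f x)) := by
        have h3 := (tendsto_add_atTop_iff_nat i).2 (hf x)
        refine h3.congr (fun k => ?_)
        rw [add_comm]
      exact (h2.sub_const _).abs
    refine le_of_tendsto h1 (Eventually.of_forall fun k => ?_)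
    have h1 := htail x i k
    have h2 : (0 : ℝ) ≤ 16 / 4 ^ (i + k) := by positivity
    linarith
  have hmeas : ∀ i, Measurable (s i) := fun i => by
    obtain ⟨B, hB⟩ := (hs i).1.1
    exact hB.1
  have hfm : Measurable f := measurable_of_tendsto_metrizable hmeas (tendsto_pi_nhds.2 hf)
  have hf16 : ∀ x, |f x| ≤ 16 := by
    intro x
    have := hfs 0 x
    rw [h0] at this
    simpa using this
  have hfB : BM 32 f := ⟨hfm, fun x => (hf16 x).trans (by norm_num)⟩
  have hsB : ∀ i, BM 32 (s i) := by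
    intro i
    refine ⟨hmeas i, fun x => ?_⟩
    have h1 := hfs i x
    have h2 : (16 : ℝ) / 4 ^ i ≤ 16 := by
      refine div_le_self (by norm_num) ?_
      exact one_le_pow₀ (by norm_num)
    have h3 : |s i x| ≤ |f x| + |f x - s i x| := by
      have e : s i x = f x - (f x - s i x) := by ring
      calc |s i x| = |f x - (f x - s i x)| := by rw [← e]
        _ ≤ |f x| + |f x - s i x| := abs_sub _ _
    have h4 := hf16 x
    linarith
  have hint : ∀ i, ∫ x, |f x - s i x| ∂μ ≤ 16 / 4 ^ i := by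
    intro i
    have h1 : ∫ x, |f x - s i x| ∂μ ≤ ∫ _x, (16 : ℝ) / 4 ^ i ∂μ := by
      refine integral_mono_of_nonneg (Eventually.of_forall fun x => abs_nonneg _)
        (integrable_const _) (Eventually.of_forall fun x => hfs i x)
    simpa using h1
  have hI : ∫ x, f x ∂μ = 0 := by
    have h1 : ∀ i, |∫ x, f x ∂μ| ≤ 16 / 4 ^ i := by
      intro i
      have h2 : ∫ x, f x ∂μ = ∫ x, (f x - s i x) ∂μ := by
        rw [integral_sub hfB.integrable (hsB i).integrable, (hs i).1.2.1, sub_zero]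
      rw [h2]
      exact (abs_integral_le_integral_abs).trans (hint i)
    have h2 : |∫ x, f x ∂μ| ≤ 0 := ge_of_tendsto h4t (Eventually.of_forall h1)
    exact abs_eq_zero.1 (le_antisymm h2 (abs_nonneg _))
  have hcl : ∀ n i, |co f T n - co (s i) T n| ≤ 64 * (16 / 4 ^ i) := by
    intro n i
    have h1 := cr_sub_le hfB (hsB i) hfB (hsB i) T n
    rw [co_eq_cr, co_eq_cr]
    have h2 := hint i
    linarith
  have key : ∀ (n q : ℕ) (c : ℝ), (∀ k, c ≤ co (s (q + k)) T n) → c ≤ co f T n := by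
    intro n q c hlow
    have hge : ∀ k, c - 64 * (16 / 4 ^ (q + k)) ≤ co f T n := by
      intro k
      have h1 := hlow k
      have h2 := (abs_le.1 (hcl n (q + k))).1
      linarith
    have hlim : Tendsto (fun k : ℕ => c - 64 * (16 / 4 ^ (q + k))) atTop
        (𝓝 (c - 64 * 0)) := by
      refine Tendsto.sub tendsto_const_nhds (Tendsto.const_mul _ ?_)
      have h3 := (tendsto_add_atTop_iff_nat q).2 h4t
      refine h3.congr (fun k => ?_)
      rw [add_comm]
    have hfin := le_of_tendsto hlim (Eventually.of_forall hge)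
    linarith
  refine ⟨f, ⟨hfm, hf16⟩, hI, fun n hn hmm => key n 1 1 ?_, fun n hn j hmm => key n (j + 2) _ ?_⟩
  · intro k
    induction k with
    | zero =>
      have a2 := (hs 0).2.2 n hn (hmm 0)
      have a3 : co (s 0) T n = 0 := by rw [h0]; simp [co]
      have a4 : co (s (1 + 0)) T n = co (s (0 + 1)) T n := rfl
      rw [a4]
      norm_num at a2 ⊢
      linarith
    | succ k ih =>
      have a3 := (hs (1 + k)).2.2 n hn (hmm _)
      have a4 : co (s (1 + (k + 1))) T n = co (s (1 + k + 1)) T n := rfl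
      have a5 : (0 : ℝ) ≤ 1 / 16 ^ (1 + k) := by positivity
      rw [a4]
      linarith
  · intro k
    induction k with
    | zero =>
      have a1 := (hs j).1.2.2 n hn
      have a2 := (hs j).2.2 n hn (hmm j le_rfl)
      have a3 := (hs (j + 1)).2.2 n hn (hmm _ (Nat.le_succ j))
      have a4 : co (s (j + 2 + 0)) T n = co (s (j + 1 + 1)) T n := rfl
      rw [a4]
      linarith
    | succ k ih =>
      have a3 := (hs (j + 2 + k)).2.2 n hn (hmm _ (by omega))
      have a4 : co (s (j + 2 + (k + 1))) T n = co (s (j + 2 + k + 1)) T n := rfl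
      have a5 : (0 : ℝ) ≤ 1 / 16 ^ (j + 2 + k) := by positivity
      rw [a4]
      linarith
-- END f2

-- BEGIN f3
private theorem f3_calc {B c : ℝ} {f : X → ℝ} (hf : BM B f) (h0 : ∫ x, f x ∂μ = 0) (S : X → X)
    (hS : MeasurePreserving S μ μ) :
    ∫ x, ((1 / 2 : ℝ) + c * f x) * ((1 / 2 : ℝ) + c * f (S x)) ∂μ
      = 1 / 4 + c ^ 2 * ∫ x, f x * f (S x) ∂μ := by
  have hB0 : 0 ≤ B := (abs_nonneg _).trans (hf.2 0)
  have hfi : Integrable f μ := hf.integrable
  have hfTm : Measurable (fun x => f (S x)) := hf.1.comp hS.measurable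
  have hfTi : Integrable (fun x => f (S x)) μ :=
    Integrable.of_bound hfTm.aestronglyMeasurable B
      (Filter.Eventually.of_forall fun x => by rw [Real.norm_eq_abs]; exact hf.2 _)
  have hprod : Integrable (fun x => f x * f (S x)) μ :=
    Integrable.of_bound (hf.1.mul hfTm).aestronglyMeasurable (B * B)
      (Filter.Eventually.of_forall fun x => by
        rw [Real.norm_eq_abs, abs_mul]
        exact mul_le_mul (hf.2 _) (hf.2 _) (abs_nonneg _) hB0)
  have h0T : ∫ x, f (S x) ∂μ = 0 := by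
    have h := integral_map (μ := μ) (φ := S) (f := f) hS.measurable.aemeasurable
      hf.1.aestronglyMeasurable
    rw [hS.map_eq] at h
    rw [← h, h0]
  have e3 : ∀ x, ((1 / 2 : ℝ) + c * f x) * ((1 / 2 : ℝ) + c * f (S x))
    = (1 / 4 + c / 2 * f x) + (c / 2 * f (S x) + c ^ 2 * (f x * f (S x))) := fun x => by ring
  have i1 : Integrable (fun x => (1 / 4 : ℝ) + c / 2 * f x) μ :=
    (integrable_const _).add (hfi.const_mul _)
  have i2 : Integrable (fun x => c / 2 * f (S x) + c ^ 2 * (f x * f (S x))) μ :=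
    (hfTi.const_mul _).add (hprod.const_mul _)
  rw [integral_congr_ae (Filter.Eventually.of_forall e3), integral_add i1 i2,
    integral_add (integrable_const _) (hfi.const_mul _),
    integral_add (hfTi.const_mul _) (hprod.const_mul _),
    integral_const_mul, integral_const_mul, integral_const_mul, h0, h0T]
  simp

/-- values in `[0,1]` -/
theorem to_unit {T : Aut} {B : ℝ} {f : X → ℝ} (hf : BM B f) (h0 : ∫ x, f x ∂μ = 0)
    (hp : ∀ n : ℕ, 1 ≤ n → 0 < co f T n) :
    ∃ g : X → ℝ, Measurable g ∧ (∀ x, g x ∈ Icc (0 : ℝ) 1) ∧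
      ∀ n : ℕ, 1 ≤ n → (∫ x, g x ∂μ) ^ 2 < ∫ x, g x * g ((T.1 : X → X)^[n] x) ∂μ := by
  have hB0 : 0 ≤ B := (abs_nonneg _).trans (hf.2 0)
  have hC : 0 < B + 1 := by linarith
  refine ⟨fun x => (1 / 2 : ℝ) + (1 / (2 * (B + 1))) * f x,
    measurable_const.add (hf.1.const_mul _), ?_, ?_⟩
  · intro x
    have h1 := abs_le.1 (hf.2 x)
    have h2 : (1 / (2 * (B + 1))) * f x ≤ 1 / 2 := by
      rw [one_div_mul_eq_div, div_le_div_iff₀ (by linarith) (by norm_num)]
      nlinarith [h1.2]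
    have h3 : -(1 / 2 : ℝ) ≤ (1 / (2 * (B + 1))) * f x := by
      rw [one_div_mul_eq_div, ← neg_div, div_le_div_iff₀ (by norm_num) (by linarith)]
      nlinarith [h1.1]
    constructor
    · show (0 : ℝ) ≤ 1 / 2 + (1 / (2 * (B + 1))) * f x
      linarith
    · show 1 / 2 + (1 / (2 * (B + 1))) * f x ≤ (1 : ℝ)
      linarith
  · intro n hn
    have hfi : Integrable f μ := hf.integrable
    have e1 : ∫ x, ((1 / 2 : ℝ) + (1 / (2 * (B + 1))) * f x) ∂μ = 1 / 2 := by
      rw [integral_add (integrable_const _) (hfi.const_mul _), integral_const_mul, h0]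
      simp
    have e2 := f3_calc (c := 1 / (2 * (B + 1))) hf h0 _ (iter_pres T n)
    have h4 : 0 < (1 / (2 * (B + 1))) ^ 2 * co f T n := mul_pos (by positivity) (hp n hn)
    unfold co at h4
    show (∫ x, ((1 / 2 : ℝ) + (1 / (2 * (B + 1))) * f x) ∂μ) ^ 2 <
      ∫ x, ((1 / 2 : ℝ) + (1 / (2 * (B + 1))) * f x) *
        ((1 / 2 : ℝ) + (1 / (2 * (B + 1))) * f ((T.1 : X → X)^[n] x)) ∂μ
    rw [e1, e2]
    linarith
-- END f3

/-- the cutoffs for a given sequence -/
theorem exists_cutoff {a : ℕ → ℝ} (ha : Tendsto a atTop (𝓝 0)) {A : ℝ} (hA : 0 < A) :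
    ∃ mm : ℕ → ℕ, (∀ j, j ≤ mm j) ∧ Monotone mm ∧
      ∀ j n, mm j < n → a n < A / 16 ^ (j + 2) := by
  have h1 : ∀ j : ℕ, ∃ m : ℕ, ∀ n, m ≤ n → a n < A / 16 ^ (j + 2) := by
    intro j
    have h2 : ∀ᶠ n in atTop, a n < A / 16 ^ (j + 2) :=
      ha.eventually_lt_const (by positivity)
    exact eventually_atTop.1 h2
  choose m hm using h1
  refine ⟨fun j => j + ∑ i ∈ Finset.range (j + 1), m i, fun j => Nat.le_add_right _ _, ?_, ?_⟩
  · refine monotone_nat_of_le_succ fun j => ?_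
    show j + ∑ i ∈ Finset.range (j + 1), m i ≤ j + 1 + ∑ i ∈ Finset.range (j + 1 + 1), m i
    rw [Finset.sum_range_succ _ (j + 1)]
    omega
  · intro j n hn
    refine hm j n ?_
    have h3 : m j ≤ ∑ i ∈ Finset.range (j + 1), m i :=
      Finset.single_le_sum (f := m) (fun _ _ => Nat.zero_le _) (Finset.self_mem_range_succ j)
    have h4 : j + ∑ i ∈ Finset.range (j + 1), m i < n := hn
    omega

/-- the theorem for sequences -/
theorem main_seq {a : ℕ → ℝ} (ha : Tendsto a atTop (𝓝 0)) {A : ℝ} (hA : 0 < A)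
    (haA : ∀ n : ℕ, 1 ≤ n → a n < A) :
    {T : Aut | ∃ f : X → ℝ, Measurable f ∧ (∀ x, |f x| ≤ 16 * √A) ∧ ∫ x, f x ∂μ = 0 ∧
      ∀ n : ℕ, 1 ≤ n → a n < ∫ x, f x * f ((T.1 : X → X)^[n] x) ∂μ} ∈ residual Aut := by
  obtain ⟨mm, h1, h2, h3⟩ := exists_cutoff ha hA
  refine Filter.mem_of_superset (residual_seq mm) ?_
  rintro T ⟨s, h0, hs⟩
  obtain ⟨f, hf, hI, hc0, hc⟩ := exists_limit h0 hs
  refine ⟨fun x => √A * f x, hf.1.const_mul _, fun x => ?_, ?_, fun n hn => ?_⟩
  · rw [abs_mul, abs_of_nonneg (Real.sqrt_nonneg A), mul_comm]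
    exact mul_le_mul_of_nonneg_right (hf.2 x) (Real.sqrt_nonneg A)
  · rw [integral_const_mul, hI, mul_zero]
  · have e1 : ∫ x, √A * f x * (√A * f ((T.1 : X → X)^[n] x)) ∂μ = A * co f T n := by
      unfold co
      rw [← integral_const_mul]
      refine integral_congr_ae (Eventually.of_forall fun x => ?_)
      show √A * f x * (√A * f ((T.1 : X → X)^[n] x)) = A * (f x * f ((T.1 : X → X)^[n] x))
      have : √A * √A = A := Real.mul_self_sqrt hA.le
      calc √A * f x * (√A * f ((T.1 : X → X)^[n] x))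
          = (√A * √A) * (f x * f ((T.1 : X → X)^[n] x)) := by ring
        _ = _ := by rw [this]
    show a n < ∫ x, √A * f x * (√A * f ((T.1 : X → X)^[n] x)) ∂μ
    rw [e1]
    have hex : ∃ i, n ≤ mm i := ⟨n, h1 n⟩
    classical
    obtain ⟨i0, hi0, hmin⟩ : ∃ i, n ≤ mm i ∧ ∀ k, k < i → ¬ n ≤ mm k :=
      ⟨Nat.find hex, Nat.find_spec hex, fun k hk => Nat.find_min hex hk⟩
    rcases i0 with _ | j
    · have h4 := hc0 n hn (fun i => hi0.trans (h2 (Nat.zero_le i)))
      have h5 := haA n hn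
      nlinarith
    · have h4 := hc n hn (j + 1) (fun i hi => hi0.trans (h2 hi))
      have h5 := h3 j n (not_le.1 (hmin j (Nat.lt_succ_self j)))
      have h6 : A / 16 ^ (j + 2) = A * (1 / 16 ^ (j + 1 + 1)) := by ring
      rw [h6] at h5
      exact h5.trans_le (mul_le_mul_of_nonneg_left h4 hA.le)

theorem main : {T : Aut | ∃ g : X → ℝ, Measurable g ∧ (∀ x, g x ∈ Icc (0 : ℝ) 1) ∧
      ∀ n : ℕ, 1 ≤ n → (∫ x, g x ∂μ) ^ 2 < ∫ x, g x * g ((T.1 : X → X)^[n] x) ∂μ} ∈
    residual Aut := by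
  refine Filter.mem_of_superset (main_seq (a := fun _ => 0) tendsto_const_nhds (A := 1)
    one_pos (fun _ _ => one_pos)) ?_
  rintro T ⟨f, hf, hB, h0', hp⟩
  exact to_unit ⟨hf, hB⟩ h0' hp

end Pool.Agent.Gor
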