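import Pool.Agent.Gor.Bas

/-!
# The partitions of the circle into `n` equal intervals
-/

set_option autoImplicit false

open MeasureTheory Filter Topology Set
open scoped symmDiff

namespace Pool.Agent.Gor

/-- the representative in `[0,1)` -/
noncomputable def rep (x : X) : ℝ := (AddCircle.equivIco (1 : ℝ) 0 x : ℝ)

/-- the number of the interval `[a/n, (a+1)/n)` which contains `x` -/
noncomputable def P (n : ℕ) [NeZero n] (x : X) : Fin n := Fin.ofNat n ⌊(n : ℝ) * rep x⌋₊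

/-- the permutation `σ` of the `n` intervals, by translations -/
noncomputable def mv (n : ℕ) [NeZero n] (σ : Equiv.Perm (Fin n)) (x : X) : X :=
  x + (((((σ (P n x) : Fin n) : ℕ) : ℝ) - ((P n x : ℕ) : ℝ)) / n : ℝ)

-- BEGIN g1
theorem rep_nonneg (x : X) : 0 ≤ rep x := by
  exact (AddCircle.equivIco (1 : ℝ) 0 x).2.1

theorem rep_lt_one (x : X) : rep x < 1 := by
  have h := (AddCircle.equivIco (1 : ℝ) 0 x).2.2
  unfold rep
  linarith

theorem coe_rep (x : X) : ((rep x : ℝ) : X) = x := by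
  exact AddCircle.coe_equivIco

theorem rep_coe {t : ℝ} (h0 : 0 ≤ t) (h1 : t < 1) : rep (t : X) = t := by
  have ht : t ∈ Set.Ico (0 : ℝ) (0 + 1) := ⟨h0, by linarith⟩
  unfold rep
  rw [AddCircle.equivIco_coe_eq ht]

theorem measurable_rep : Measurable rep := by
  exact measurable_subtype_coe.comp (AddCircle.measurableEquivIco (1 : ℝ) 0).measurable

theorem val_P (n : ℕ) [NeZero n] (x : X) : ((P n x : Fin n) : ℕ) = ⌊(n : ℝ) * rep x⌋₊ := by
  have hn : (0 : ℝ) < n := by exact_mod_cast Nat.pos_of_ne_zero (NeZero.ne n)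
  have h : ⌊(n : ℝ) * rep x⌋₊ < n := by
    rw [Nat.floor_lt (mul_nonneg hn.le (rep_nonneg x))]
    nlinarith [rep_lt_one x]
  unfold P
  rw [Fin.val_ofNat]
  exact Nat.mod_eq_of_lt h

theorem measurable_P (n : ℕ) [NeZero n] : Measurable (P n) := by
  have h1 : Measurable fun x : X => ⌊(n : ℝ) * rep x⌋₊ :=
    Nat.measurable_floor.comp (measurable_rep.const_mul (n : ℝ))
  exact (measurable_from_nat (f := Fin.ofNat n)).comp h1
-- END g1

-- BEGIN g2
private theorem g2_floor (n : ℕ) [NeZero n] (a : Fin n) (t : ℝ) (h0 : 0 ≤ t) :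
    ⌊(n : ℝ) * t⌋₊ = (a : ℕ) ↔ t ∈ Ico (((a : ℕ) : ℝ) / n) ((((a : ℕ) : ℝ) + 1) / n) := by
  have hn : (0 : ℝ) < n := Nat.cast_pos.2 (Nat.pos_of_ne_zero (NeZero.ne n))
  rw [Nat.floor_eq_iff (by positivity), mem_Ico, div_le_iff₀ hn, lt_div_iff₀ hn, mul_comm (n : ℝ) t]

/-- every interval has measure `1/n` -/
theorem vol_P (n : ℕ) [NeZero n] (a : Fin n) : μ.real (P n ⁻¹' {a}) = 1 / n := by
  have hn : (0 : ℝ) < n := Nat.cast_pos.2 (Nat.pos_of_ne_zero (NeZero.ne n))
  have hmp := AddCircle.measurePreserving_mk (1 : ℝ) 0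
  have hS : MeasurableSet (P n ⁻¹' {a}) := measurable_P n (measurableSet_singleton a)
  have h1 := hmp.measure_preimage hS.nullMeasurableSet
  rw [Measure.restrict_apply (hmp.measurable hS)] at h1
  have h2 : (((↑) : ℝ → X) ⁻¹' (P n ⁻¹' {a}) ∩ Ioc 0 (0 + 1) : Set ℝ) =ᵐ[volume]
      Ico (((a : ℕ) : ℝ) / n) ((((a : ℕ) : ℝ) + 1) / n) := by
    have hn1 : ∀ᵐ t : ℝ ∂volume, t ≠ 0 := by
      simp [ae_iff]
    have hn2 : ∀ᵐ t : ℝ ∂volume, t ≠ 1 := by
      simp [ae_iff]
    filter_upwards [hn1, hn2] with t ht0 ht1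
    apply propext
    have ha1 : (((a : ℕ) : ℝ) + 1) / n ≤ 1 := by
      rw [div_le_one hn]
      exact_mod_cast a.2
    have ha0 : 0 ≤ ((a : ℕ) : ℝ) / n := by positivity
    constructor
    · rintro ⟨hP, ht⟩
      rw [zero_add] at ht
      have htlt : t < 1 := lt_of_le_of_ne ht.2 ht1
      rw [mem_preimage, mem_preimage, mem_singleton_iff] at hP
      have h3 := val_P n (t : X)
      rw [hP, rep_coe ht.1.le htlt] at h3
      exact (g2_floor n a t ht.1.le).1 h3.symm
    · intro ht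
      have ht' : t ∈ Ico (((a : ℕ) : ℝ) / n) ((((a : ℕ) : ℝ) + 1) / n) := ht
      have h0 : 0 ≤ t := ha0.trans ht'.1
      have h0' : 0 < t := lt_of_le_of_ne h0 (Ne.symm ht0)
      have htlt : t < 1 := lt_of_lt_of_le ht'.2 ha1
      refine ⟨?_, ?_⟩
      · rw [mem_preimage, mem_preimage, mem_singleton_iff]
        apply Fin.ext
        rw [val_P, rep_coe h0 htlt]
        exact (g2_floor n a t h0).2 ht'
      · rw [zero_add]
        exact ⟨h0', htlt.le⟩
  rw [measure_congr h2, Real.volume_Ico] at h1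
  rw [measureReal_def, ← h1, ENNReal.toReal_ofReal]
  · ring
  · have h4 : (((a : ℕ) : ℝ) + 1) / n - ((a : ℕ) : ℝ) / n = 1 / n := by ring
    rw [h4]
    positivity
-- END g2

-- BEGIN g3
private theorem g3_rep (n : ℕ) [NeZero n] (x : X) :
    (((P n x : Fin n) : ℕ) : ℝ) ≤ (n : ℝ) * rep x ∧ (n : ℝ) * rep x < (((P n x : Fin n) : ℕ) : ℝ) + 1 := by
  have hn : (0 : ℝ) < n := Nat.cast_pos.2 (Nat.pos_of_ne_zero (NeZero.ne n))
  have h0 : 0 ≤ (n : ℝ) * rep x := mul_nonneg hn.le (rep_nonneg x)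
  rw [val_P]
  exact ⟨Nat.floor_le h0, Nat.lt_floor_add_one _⟩

private theorem g3_mv (n : ℕ) [NeZero n] (σ : Equiv.Perm (Fin n)) (x : X) :
    mv n σ x = ((rep x + ((((σ (P n x) : Fin n) : ℕ) : ℝ) - ((P n x : ℕ) : ℝ)) / n : ℝ) : X) := by
  rw [mv, AddCircle.coe_add, coe_rep]

theorem P_mv (n : ℕ) [NeZero n] (σ : Equiv.Perm (Fin n)) (x : X) : P n (mv n σ x) = σ (P n x) := by
  have hn : (0 : ℝ) < n := Nat.cast_pos.2 (Nat.pos_of_ne_zero (NeZero.ne n))
  obtain ⟨h1, h2⟩ := g3_rep n x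
  have hc : (((σ (P n x) : Fin n) : ℕ) : ℝ) + 1 ≤ n := by exact_mod_cast (σ (P n x)).2
  have hc0 : (0 : ℝ) ≤ (((σ (P n x) : Fin n) : ℕ) : ℝ) := Nat.cast_nonneg _
  have e : (n : ℝ) * (rep x + ((((σ (P n x) : Fin n) : ℕ) : ℝ) - ((P n x : ℕ) : ℝ)) / n) =
      (n : ℝ) * rep x - ((P n x : ℕ) : ℝ) + (((σ (P n x) : Fin n) : ℕ) : ℝ) := by
    field_simp
    ring
  have h3 : 0 ≤ rep x + ((((σ (P n x) : Fin n) : ℕ) : ℝ) - ((P n x : ℕ) : ℝ)) / n := by
    by_contra hneg
    push Not at hneg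
    have h4 := mul_neg_of_pos_of_neg hn hneg
    rw [e] at h4
    linarith
  have h5 : rep x + ((((σ (P n x) : Fin n) : ℕ) : ℝ) - ((P n x : ℕ) : ℝ)) / n < 1 := by
    by_contra hge
    push Not at hge
    have h6 := mul_le_mul_of_nonneg_left hge hn.le
    rw [e, mul_one] at h6
    linarith
  apply Fin.ext
  rw [val_P, g3_mv, rep_coe h3 h5, e, Nat.floor_eq_iff (by linarith)]
  constructor <;> linarith

theorem mv_mv (n : ℕ) [NeZero n] (σ : Equiv.Perm (Fin n)) (x : X) :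
    mv n σ.symm (mv n σ x) = x := by
  have h1 : mv n σ.symm (mv n σ x) = mv n σ x +
      (((((σ.symm (P n (mv n σ x)) : Fin n) : ℕ) : ℝ) - ((P n (mv n σ x) : ℕ) : ℝ)) / n : ℝ) := rfl
  rw [h1, P_mv, Equiv.symm_apply_apply, mv, add_assoc, ← AddCircle.coe_add, ← add_div]
  have e : (((σ (P n x) : Fin n) : ℕ) : ℝ) - ((P n x : ℕ) : ℝ) +
      (((P n x : ℕ) : ℝ) - (((σ (P n x) : Fin n) : ℕ) : ℝ)) = 0 := by ring
  rw [e, zero_div, AddCircle.coe_zero, add_zero]

theorem measurable_mv (n : ℕ) [NeZero n] (σ : Equiv.Perm (Fin n)) : Measurable (mv n σ) := by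
  have h1 : Measurable fun a : Fin n => ((((((σ a : Fin n) : ℕ) : ℝ) - ((a : ℕ) : ℝ)) / n : ℝ) : X) :=
    measurable_of_finite _
  exact measurable_id.add (h1.comp (measurable_P n))
-- END g3

-- BEGIN g4
private theorem g4_split (n : ℕ) [NeZero n] (S : Set X) :
    μ S = ∑ a : Fin n, μ (P n ⁻¹' {a} ∩ S) := by
  have h := MeasureTheory.sum_measure_preimage_singleton (μ := μ.restrict S)
    (Finset.univ : Finset (Fin n)) (f := P n)
    (fun y _ => measurable_P n (MeasurableSet.singleton y))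
  have h2 : (μ.restrict S) (P n ⁻¹' (↑(Finset.univ : Finset (Fin n)) : Set (Fin n))) = μ S := by
    simp
  rw [h2] at h
  rw [← h]
  refine Finset.sum_congr rfl fun a _ => ?_
  rw [Measure.restrict_apply (measurable_P n (MeasurableSet.singleton a))]

private theorem g4_mem (n : ℕ) [NeZero n] (σ : Equiv.Perm (Fin n)) (A : Set X) (a : Fin n) :
    P n ⁻¹' {a} ∩ mv n σ ⁻¹' A =
      (fun x : X => x + (((((σ a : Fin n) : ℕ) : ℝ) - ((a : ℕ) : ℝ)) / n : ℝ)) ⁻¹'
        (P n ⁻¹' {σ a} ∩ A) := by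
  ext x
  simp only [mem_inter_iff, mem_preimage, mem_singleton_iff]
  constructor
  · rintro ⟨h1, h2⟩
    have h3 : mv n σ x = x + (((((σ a : Fin n) : ℕ) : ℝ) - ((a : ℕ) : ℝ)) / n : ℝ) := by
      unfold mv; rw [h1]
    rw [← h3]
    exact ⟨by rw [P_mv, h1], h2⟩
  · rintro ⟨h1, h2⟩
    have h3 : mv n σ.symm (x + (((((σ a : Fin n) : ℕ) : ℝ) - ((a : ℕ) : ℝ)) / n : ℝ)) = x := by
      unfold mv
      rw [h1, Equiv.symm_apply_apply, add_assoc, ← AddCircle.coe_add]
      have : (((((σ a : Fin n) : ℕ) : ℝ) - ((a : ℕ) : ℝ)) / n +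
        ((((a : Fin n) : ℕ) : ℝ) - (((σ a : Fin n) : ℕ) : ℝ)) / n : ℝ) = 0 := by ring
      rw [this]
      simp
    have h4 : P n x = a := by
      have h5 := P_mv n σ.symm (x + (((((σ a : Fin n) : ℕ) : ℝ) - ((a : ℕ) : ℝ)) / n : ℝ))
      rw [h3, h1, Equiv.symm_apply_apply] at h5
      exact h5
    refine ⟨h4, ?_⟩
    have h6 : mv n σ x = x + (((((σ a : Fin n) : ℕ) : ℝ) - ((a : ℕ) : ℝ)) / n : ℝ) := by
      unfold mv; rw [h4]
    rw [h6]
    exact h2

theorem mv_pres (n : ℕ) [NeZero n] (σ : Equiv.Perm (Fin n)) : MeasurePreserving (mv n σ) μ μ := by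
  refine ⟨measurable_mv n σ, ?_⟩
  refine Measure.ext fun A hA => ?_
  rw [Measure.map_apply (measurable_mv n σ) hA, g4_split n (mv n σ ⁻¹' A),
    g4_split n A]
  have h1 : ∀ a : Fin n, μ (P n ⁻¹' {a} ∩ mv n σ ⁻¹' A) = μ (P n ⁻¹' {σ a} ∩ A) := by
    intro a
    rw [g4_mem]
    exact (measurePreserving_add_right μ _).measure_preimage
      ((measurable_P n (MeasurableSet.singleton _)).inter hA).nullMeasurableSet
  rw [Finset.sum_congr rfl (fun a _ => h1 a)]
  exact Equiv.sum_comp σ (fun a => μ (P n ⁻¹' {a} ∩ A))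
-- END g4

/-- the permutation `σ` of the `n` intervals as an element of `Aut` -/
noncomputable def Sa (n : ℕ) [NeZero n] (σ : Equiv.Perm (Fin n)) : Aut :=
  ⟨{ toFun := mv n σ
     invFun := mv n σ.symm
     left_inv := mv_mv n σ
     right_inv := fun x => by simpa using mv_mv n σ.symm x
     measurable_toFun := measurable_mv n σ
     measurable_invFun := measurable_mv n σ.symm }, mv_pres n σ⟩

theorem P_Sa (n : ℕ) [NeZero n] (σ : Equiv.Perm (Fin n)) (x : X) :
    P n ((Sa n σ).1 x) = σ (P n x) := P_mv n σ x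

/-- the cyclic permutation of `Fin n` given by the cyclic order `e` -/
def cyc {n : ℕ} (e : ZMod n ≃ Fin n) : Equiv.Perm (Fin n) :=
  e.symm.trans ((Equiv.addRight (1 : ZMod n)).trans e)

theorem cyc_apply {n : ℕ} (e : ZMod n ≃ Fin n) (t : ZMod n) : cyc e (e t) = e (t + 1) := by
  simp [cyc]

/-- the cyclic map -/
noncomputable def Cy (n : ℕ) [NeZero n] (e : ZMod n ≃ Fin n) : Aut := Sa n (cyc e)

theorem P_Cy (n : ℕ) [NeZero n] (e : ZMod n ≃ Fin n) (x : X) :
    P n ((Cy n e).1 x) = e (e.symm (P n x) + 1) := by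
  rw [Cy, P_Sa]; conv_lhs => rw [← e.apply_symm_apply (P n x), cyc_apply]

-- BEGIN g5
private theorem g5_meas (n : ℕ) [NeZero n] (a : Fin n) : MeasurableSet (P n ⁻¹' {a}) :=
  measurable_P n (measurableSet_singleton a)

/-- the integral of a step function -/
private theorem g5_integral (n : ℕ) [NeZero n] (F : Fin n → ℝ) :
    ∫ x, F (P n x) ∂μ = (1 / n) * ∑ a, F a := by
  have h1 : ∀ x, F (P n x) = ∑ a, (P n ⁻¹' {a}).indicator (fun _ => F a) x := by
    intro x
    rw [Finset.sum_eq_single (P n x)]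
    · rw [Set.indicator_of_mem]
      exact rfl
    · intro b _ hb
      rw [Set.indicator_of_notMem]
      intro h
      exact hb h.symm
    · intro h
      exact absurd (Finset.mem_univ _) h
  simp_rw [h1]
  rw [integral_finsetSum]
  · rw [Finset.mul_sum]
    refine Finset.sum_congr rfl fun a _ => ?_
    rw [integral_indicator (g5_meas n a), integral_const, smul_eq_mul, measureReal_restrict_apply_univ, vol_P]
  · intro a _
    exact (integrable_const _).indicator (g5_meas n a)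

/-- measure of a union of intervals -/
theorem vol_set (n : ℕ) [NeZero n] (J : Finset (Fin n)) :
    μ.real {x | P n x ∈ J} = (J.card : ℝ) / n := by
  have hm : MeasurableSet {x | P n x ∈ J} :=
    measurable_P n (Finset.measurableSet J)
  have h1 := g5_integral n (fun a => if a ∈ J then (1 : ℝ) else 0)
  have h2 : (fun x => if P n x ∈ J then (1 : ℝ) else 0) =
      Set.indicator {x | P n x ∈ J} (fun _ => (1 : ℝ)) := by
    funext x
    by_cases hx : P n x ∈ J
    · rw [Set.indicator_of_mem (by exact hx)]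
      simp [hx]
    · rw [Set.indicator_of_notMem (by exact hx)]
      simp [hx]
  rw [h2, integral_indicator hm, integral_const, smul_eq_mul, mul_one,
    measureReal_restrict_apply_univ] at h1
  rw [h1]
  simp
  ring

/-- the integral of a step function -/
theorem integral_P (n : ℕ) [NeZero n] (F : Fin n → ℝ) :
    ∫ x, F (P n x) ∂μ = (1 / n) * ∑ a, F a := g5_integral n F

/-- refinement -/
theorem P_refine (n k : ℕ) [NeZero n] [NeZero (n * k)] (x : X) :
    ((P n x : Fin n) : ℕ) = ((P (n * k) x : Fin (n * k)) : ℕ) / k := by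
  rw [val_P, val_P]
  have hk : k ≠ 0 := fun h => NeZero.ne (n * k) (by rw [h, Nat.mul_zero])
  rw [← Nat.floor_div_natCast]
  congr 1
  have : (k : ℝ) ≠ 0 := by exact_mod_cast hk
  push_cast
  field_simp
-- END g5

-- BEGIN g6
/-- the average over an interval -/
private noncomputable def g6_av (n : ℕ) [NeZero n] (h : X → ℝ) (a : Fin n) : ℝ :=
  n * ∫ x in P n ⁻¹' {a}, h x ∂μ

private theorem g6_meas (n : ℕ) [NeZero n] (a : Fin n) : MeasurableSet (P n ⁻¹' {a}) :=
  measurable_P n (measurableSet_singleton a)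

private theorem g6_cells (n : ℕ) [NeZero n] {h : X → ℝ} (hh : Integrable h μ) :
    ∫ x, h x ∂μ = ∑ a : Fin n, ∫ x in P n ⁻¹' {a}, h x ∂μ := by
  rw [← integral_iUnion_fintype (fun a => g6_meas n a) (fun a b hab => by
    rw [Function.onFun, Set.disjoint_left]
    intro x h1 h2
    exact hab (h1.symm.trans h2)) (fun a => hh.integrableOn)]
  have : (⋃ a : Fin n, P n ⁻¹' {a}) = Set.univ := by
    ext x; simp
  rw [this, Measure.restrict_univ]

private theorem g6_int (n : ℕ) [NeZero n] {h : X → ℝ} (hh : Integrable h μ) :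
    ∫ x, g6_av n h (P n x) ∂μ = ∫ x, h x ∂μ := by
  have hn : (n : ℝ) ≠ 0 := Nat.cast_ne_zero.2 (NeZero.ne n)
  rw [integral_P n (g6_av n h), g6_cells n hh]
  unfold g6_av
  rw [← Finset.mul_sum, ← mul_assoc, one_div, inv_mul_cancel₀ hn, one_mul]

private theorem g6_sub (n : ℕ) [NeZero n] {f g : X → ℝ} (hf : Integrable f μ)
    (hg : Integrable g μ) (a : Fin n) :
    g6_av n f a - g6_av n g a = g6_av n (fun x => f x - g x) a := by
  unfold g6_av
  rw [integral_sub hf.integrableOn hg.integrableOn, mul_sub]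

private theorem g6_abs (n : ℕ) [NeZero n] (h : X → ℝ) (a : Fin n) :
    |g6_av n h a| ≤ g6_av n (fun x => |h x|) a := by
  unfold g6_av
  rw [abs_mul, Nat.abs_cast]
  exact mul_le_mul_of_nonneg_left (abs_integral_le_integral_abs) (Nat.cast_nonneg n)

private theorem g6_le (n : ℕ) [NeZero n] {h : X → ℝ} (hh : Integrable h μ) {c : ℝ} {a : Fin n}
    (hc : ∀ x, P n x = a → h x ≤ c) : g6_av n h a ≤ c := by
  have hn : (0 : ℝ) < n := Nat.cast_pos.2 (Nat.pos_of_ne_zero (NeZero.ne n))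
  have h1 : ∫ x in P n ⁻¹' {a}, h x ∂μ ≤ ∫ x in P n ⁻¹' {a}, c ∂μ :=
    setIntegral_mono_on hh.integrableOn (integrable_const c).integrableOn (g6_meas n a)
      fun x hx => hc x hx
  rw [setIntegral_const, vol_P n a, smul_eq_mul] at h1
  unfold g6_av
  calc (n : ℝ) * ∫ x in P n ⁻¹' {a}, h x ∂μ ≤ n * (1 / n * c) :=
        mul_le_mul_of_nonneg_left h1 hn.le
    _ = c := by field_simp

private theorem g6_dist (n : ℕ) [NeZero n] {x y : X} (h : P n x = P n y) :
    dist x y < 1 / n := by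
  have hn : (0 : ℝ) < n := Nat.cast_pos.2 (Nat.pos_of_ne_zero (NeZero.ne n))
  have h0 : ⌊(n : ℝ) * rep x⌋₊ = ⌊(n : ℝ) * rep y⌋₊ := by
    rw [← val_P, ← val_P, h]
  have hx0 : 0 ≤ (n : ℝ) * rep x := mul_nonneg hn.le (rep_nonneg x)
  have hy0 : 0 ≤ (n : ℝ) * rep y := mul_nonneg hn.le (rep_nonneg y)
  have h1 := Nat.floor_le hx0
  have h2 := Nat.lt_floor_add_one ((n : ℝ) * rep x)
  have h3 := Nat.floor_le hy0
  have h4 := Nat.lt_floor_add_one ((n : ℝ) * rep y)
  rw [h0] at h1 h2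
  have h5 : |(n : ℝ) * (rep x - rep y)| < 1 := by
    rw [abs_lt]; constructor <;> linarith
  rw [abs_mul, abs_of_pos hn] at h5
  have h6 : |rep x - rep y| < 1 / n := by
    rw [lt_div_iff₀ hn]; linarith
  have h7 : dist x y ≤ |rep x - rep y| := by
    rw [dist_eq_norm]
    have h8 : x - y = ((rep x - rep y : ℝ) : X) := by
      rw [AddCircle.coe_sub, coe_rep, coe_rep]
    rw [h8]
    exact QuotientAddGroup.norm_mk_le_norm
  exact lt_of_le_of_lt h7 h6

/-- approximation by step functions -/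
theorem exists_step {B : ℝ} {f : X → ℝ} (hf : BM B f) {ε : ℝ} (hε : 0 < ε) :
    ∃ N0 : ℕ, ∀ (n : ℕ) [NeZero n], N0 ≤ n → ∃ F : Fin n → ℝ, (∀ a, |F a| ≤ B) ∧
      (∫ x, F (P n x) ∂μ = ∫ x, f x ∂μ) ∧ ∫ x, |f x - F (P n x)| ∂μ < ε := by
  have hfi := hf.integrable
  obtain ⟨g, hg1, hg2⟩ := hfi.exists_boundedContinuous_integral_sub_le (ε := ε / 4) (by linarith)
  have huc : UniformContinuous (g : X → ℝ) :=
    CompactSpace.uniformContinuous_of_continuous g.continuous
  obtain ⟨δ, hδ, hδ2⟩ := Metric.uniformContinuous_iff.1 huc (ε / 4) (by linarith)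
  obtain ⟨N0, hN0⟩ := exists_nat_gt (1 / δ)
  refine ⟨N0, fun n _ hn => ⟨g6_av n f, ?_, g6_int n hfi, ?_⟩⟩
  · intro a
    refine (g6_abs n f a).trans (g6_le n hfi.abs fun x _ => hf.2 x)
  have hn0 : (0 : ℝ) < n := Nat.cast_pos.2 (Nat.pos_of_ne_zero (NeZero.ne n))
  have hnδ : 1 / (n : ℝ) < δ := by
    have h1 : (N0 : ℝ) ≤ n := by exact_mod_cast hn
    have h2 : 1 / δ < n := lt_of_lt_of_le hN0 h1
    rw [div_lt_iff₀ hδ] at h2
    rw [div_lt_iff₀ hn0]
    linarith
  have hd : Integrable (fun x => |f x - g x|) μ := (hfi.sub hg2).abs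
  have key : ∀ x, |f x - g6_av n f (P n x)| ≤
      |f x - g x| + ε / 4 + g6_av n (fun y => |f y - g y|) (P n x) := by
    intro x
    have hc : Integrable (fun _ : X => (g x : ℝ)) μ := integrable_const _
    have h1 : g x = g6_av n (fun _ => g x) (P n x) := by
      refine le_antisymm ?_ (g6_le n hc fun _ _ => le_refl _)
      have h2 := g6_le n (h := fun _ => - g x) (c := - g x) (a := P n x) hc.neg
        fun _ _ => le_refl _
      have h3 : g6_av n (fun _ => - g x) (P n x) = - g6_av n (fun _ => g x) (P n x) := by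
        unfold g6_av
        rw [integral_neg, mul_neg]
      linarith
    have h2 : |g x - g6_av n g (P n x)| ≤ ε / 4 := by
      have h3 : g x - g6_av n g (P n x) = g6_av n (fun y => g x - g y) (P n x) := by
        rw [← g6_sub n hc hg2, ← h1]
      rw [h3]
      refine (g6_abs n _ _).trans (g6_le n (hc.sub hg2).abs fun y hy => ?_)
      have h4 : dist x y < δ := lt_trans (g6_dist n hy.symm) hnδ
      have h5 := hδ2 h4
      rw [Real.dist_eq] at h5
      exact h5.le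
    have h3 : |g6_av n g (P n x) - g6_av n f (P n x)| ≤
        g6_av n (fun y => |f y - g y|) (P n x) := by
      rw [abs_sub_comm, g6_sub n hfi hg2]
      exact g6_abs n _ _
    calc |f x - g6_av n f (P n x)|
        = |(f x - g x) + (g x - g6_av n g (P n x)) + (g6_av n g (P n x) - g6_av n f (P n x))| := by
          congr 1; ring
      _ ≤ |f x - g x| + |g x - g6_av n g (P n x)| + |g6_av n g (P n x) - g6_av n f (P n x)| :=
          abs_add_three _ _ _
      _ ≤ _ := by linarith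
  have hav : ∀ h : X → ℝ, Integrable (fun x => g6_av n h (P n x)) μ := fun h => by
    have h1 : Measurable (fun x => g6_av n h (P n x)) :=
      (measurable_of_finite (g6_av n h)).comp (measurable_P n)
    obtain ⟨C, hC⟩ : ∃ C : ℝ, ∀ a, |g6_av n h a| ≤ C :=
      ⟨∑ a, |g6_av n h a|, fun a => Finset.single_le_sum (f := fun a => |g6_av n h a|)
        (fun i _ => abs_nonneg _) (Finset.mem_univ a)⟩
    exact BM.integrable (B := C) ⟨h1, fun x => hC _⟩
  calc ∫ x, |f x - g6_av n f (P n x)| ∂μ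
      ≤ ∫ x, (|f x - g x| + ε / 4 + g6_av n (fun y => |f y - g y|) (P n x)) ∂μ :=
        integral_mono (hfi.sub (hav f)).abs ((hd.add (integrable_const _)).add (hav _)) key
    _ = (∫ x, |f x - g x| ∂μ) + ε / 4 + ∫ x, |f x - g x| ∂μ := by
        have e1 : ∫ x, (|f x - g x| + ε / 4 + g6_av n (fun y => |f y - g y|) (P n x)) ∂μ =
            (∫ x, (|f x - g x| + ε / 4) ∂μ) + ∫ x, g6_av n (fun y => |f y - g y|) (P n x) ∂μ :=
          integral_add (f := fun x => |f x - g x| + ε / 4) (hd.add (integrable_const _)) (hav _)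
        have e2 : ∫ x, (|f x - g x| + ε / 4) ∂μ = (∫ x, |f x - g x| ∂μ) + ∫ _x : X, ε / 4 ∂μ :=
          integral_add hd (integrable_const _)
        rw [e1, e2, g6_int n hd]
        simp
    _ ≤ ε / 4 + ε / 4 + ε / 4 := by
        have : ∫ x, |f x - g x| ∂μ ≤ ε / 4 := by simpa [Real.norm_eq_abs] using hg1
        linarith
    _ < ε := by linarith
-- END g6

-- BEGIN g7
/-- approximation of a finite partition -/
theorem exists_label {r : ℕ} {Q : X → Fin r} (hQ : Measurable Q) {ε : ℝ} (hε : 0 < ε) :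
    ∃ N0 : ℕ, ∀ (n : ℕ) [NeZero n], N0 ≤ n → ∃ l : Fin n → Fin r,
      μ.real {x | Q x ≠ l (P n x)} < ε := by
  classical
  have hfm : Measurable (fun x : X => (((Q x : Fin r) : ℕ) : ℝ)) :=
    (measurable_of_countable (fun i : Fin r => ((i : ℕ) : ℝ))).comp hQ
  have hf : BM (r : ℝ) (fun x : X => (((Q x : Fin r) : ℕ) : ℝ)) := by
    refine ⟨hfm, fun x => ?_⟩
    show |(((Q x : Fin r) : ℕ) : ℝ)| ≤ (r : ℝ)
    rw [abs_of_nonneg (Nat.cast_nonneg _)]
    exact Nat.cast_le.mpr (Q x).isLt.le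
  obtain ⟨N0, h⟩ := exists_step hf (ε := ε / 2) (by positivity)
  refine ⟨N0, fun n _ hn => ?_⟩
  obtain ⟨F, hF1, -, hF3⟩ := h n hn
  have : Nonempty (Fin r) := ⟨Q 0⟩
  have hl : ∀ a : Fin n, ∃ j : Fin r, ∀ i : Fin r,
      |((j : ℕ) : ℝ) - F a| ≤ |((i : ℕ) : ℝ) - F a| := fun a =>
    Finite.exists_min (fun i : Fin r => |((i : ℕ) : ℝ) - F a|)
  choose l hl using hl
  refine ⟨l, ?_⟩
  have hgm : Measurable (fun x : X => F (P n x)) :=
    (measurable_of_countable F).comp (measurable_P n)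
  have hg : BM (r : ℝ) (fun x : X => F (P n x)) := ⟨hgm, fun x => hF1 _⟩
  have hint : Integrable (fun x : X => |(((Q x : Fin r) : ℕ) : ℝ) - F (P n x)|) μ :=
    (hf.integrable.sub hg.integrable).abs
  have hmk := mul_meas_ge_le_integral_of_nonneg (μ := μ)
    (f := fun x : X => |(((Q x : Fin r) : ℕ) : ℝ) - F (P n x)|)
    (Filter.Eventually.of_forall fun x => abs_nonneg _) hint (1 / 2)
  have hsub : {x : X | Q x ≠ l (P n x)} ⊆
      {x : X | (1 / 2 : ℝ) ≤ |(((Q x : Fin r) : ℕ) : ℝ) - F (P n x)|} := by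
    intro x hx
    change Q x ≠ l (P n x) at hx
    show (1 / 2 : ℝ) ≤ |(((Q x : Fin r) : ℕ) : ℝ) - F (P n x)|
    have h1 := hl (P n x) (Q x)
    have h2 : (1 : ℝ) ≤ |(((Q x : Fin r) : ℕ) : ℝ) - ((l (P n x) : ℕ) : ℝ)| := by
      have h3 : ((Q x : ℕ) : ℤ) - ((l (P n x) : ℕ) : ℤ) ≠ 0 := by
        intro h0
        apply hx
        apply Fin.ext
        omega
      have h4 : (1 : ℤ) ≤ |((Q x : ℕ) : ℤ) - ((l (P n x) : ℕ) : ℤ)| := Int.one_le_abs h3
      exact_mod_cast h4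
    have h5 : |(((Q x : Fin r) : ℕ) : ℝ) - ((l (P n x) : ℕ) : ℝ)| ≤
        |(((Q x : Fin r) : ℕ) : ℝ) - F (P n x)| + |((l (P n x) : ℕ) : ℝ) - F (P n x)| := by
      have := abs_sub_le (((Q x : Fin r) : ℕ) : ℝ) (F (P n x)) ((l (P n x) : ℕ) : ℝ)
      rw [abs_sub_comm (F (P n x))] at this
      exact this
    linarith
  have hmono : μ.real {x : X | Q x ≠ l (P n x)} ≤
      μ.real {x : X | (1 / 2 : ℝ) ≤ |(((Q x : Fin r) : ℕ) : ℝ) - F (P n x)|} :=
    measureReal_mono hsub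
  linarith
-- END g7

end Pool.Agent.Gor
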