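import Pool.Agent.Gor.Grd

/-!
# Approximation of an element of `Aut` by cyclic permutations of intervals (Halmos)
-/

set_option autoImplicit false

open MeasureTheory Filter Topology Set
open scoped symmDiff

namespace Pool.Agent.Gor

-- BEGIN h1
/-- matching of two labelings -/
theorem exists_match {N r : ℕ} (l₁ l₂ : Fin N → Fin r) : ∃ τ : Equiv.Perm (Fin N),
    ((Finset.univ.filter fun a => l₁ (τ a) ≠ l₂ a).card : ℝ) ≤
      ∑ j, |((Finset.univ.filter fun a => l₁ a = j).card : ℝ)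
        - ((Finset.univ.filter fun a => l₂ a = j).card : ℝ)| := by
  classical
  obtain ⟨τ, hτ⟩ := Finite.exists_max fun τ : Equiv.Perm (Fin N) =>
    (Finset.univ.filter fun a => l₁ (τ a) = l₂ a).card
  refine ⟨τ, ?_⟩
  have key : ∀ a b : Fin N, ∀ j, l₂ a = j → l₁ (τ a) ≠ j → l₁ (τ b) = j → l₂ b = j := by
    intro a b j ha ha' hb
    by_contra hb'
    have h1 := hτ (τ * Equiv.swap a b)
    have h2 : insert a (Finset.univ.filter fun x => l₁ (τ x) = l₂ x) ⊆
        Finset.univ.filter fun x => l₁ ((τ * Equiv.swap a b) x) = l₂ x := by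
      intro x hx
      rw [Finset.mem_filter]
      refine ⟨Finset.mem_univ _, ?_⟩
      rw [Equiv.Perm.mul_apply]
      rcases Finset.mem_insert.1 hx with rfl | hx
      · rw [Equiv.swap_apply_left, hb, ha]
      · have hx' := (Finset.mem_filter.1 hx).2
        have hxa : x ≠ a := by
          rintro rfl
          exact ha' (hx'.trans ha)
        have hxb : x ≠ b := by
          rintro rfl
          exact hb' (hx'.symm.trans hb)
        rw [Equiv.swap_apply_of_ne_of_ne hxa hxb]
        exact hx'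
    have h3 := Finset.card_le_card h2
    rw [Finset.card_insert_of_notMem (by
      rw [Finset.mem_filter]
      rintro ⟨-, h4⟩
      exact ha' (h4.trans ha))] at h3
    omega
  rw [Finset.card_eq_sum_card_fiberwise (f := l₂) (t := Finset.univ)
    (fun _ _ => Finset.mem_coe.2 (Finset.mem_univ _)), Nat.cast_sum]
  refine Finset.sum_le_sum fun j _ => ?_
  by_cases hex : ∃ a, l₂ a = j ∧ l₁ (τ a) ≠ j
  · obtain ⟨a, ha, ha'⟩ := hex
    have e1 : (Finset.univ.filter fun x => l₁ x = j).card =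
        (Finset.univ.filter fun x => l₂ x = j ∧ l₁ (τ x) = j).card := by
      refine (Finset.card_bij (fun x _ => τ x) ?_ ?_ ?_).symm
      · intro x hx
        exact Finset.mem_filter.2 ⟨Finset.mem_univ _, (Finset.mem_filter.1 hx).2.2⟩
      · intro x _ y _ h
        exact τ.injective h
      · intro y hy
        have hy' := (Finset.mem_filter.1 hy).2
        refine ⟨τ.symm y, ?_, τ.apply_symm_apply y⟩
        have h5 : l₁ (τ (τ.symm y)) = j := by rw [τ.apply_symm_apply]; exact hy'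
        exact Finset.mem_filter.2 ⟨Finset.mem_univ _, key a _ j ha ha' h5, h5⟩
    have e2 : (Finset.univ.filter fun x => l₂ x = j).card =
        (Finset.univ.filter fun x => l₂ x = j ∧ l₁ (τ x) = j).card +
          ((Finset.univ.filter fun x => l₁ (τ x) ≠ l₂ x).filter fun x => l₂ x = j).card := by
      rw [← Finset.card_union_of_disjoint]
      · congr 1
        ext x
        simp only [Finset.mem_filter, Finset.mem_union, Finset.mem_univ, true_and]
        constructor
        · intro hx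
          by_cases h : l₁ (τ x) = j
          · exact Or.inl ⟨hx, h⟩
          · exact Or.inr ⟨fun h' => h (h'.trans hx), hx⟩
        · rintro (⟨hx, -⟩ | ⟨-, hx⟩) <;> exact hx
      · rw [Finset.disjoint_left]
        intro x hx hx'
        simp only [Finset.mem_filter, Finset.mem_univ, true_and] at hx hx'
        exact hx'.1 (hx.2.trans hx.1.symm)
    rw [e1, e2]
    push_cast
    rw [sub_add_cancel_left, abs_neg]
    exact le_abs_self _
  · have e3 : ((Finset.univ.filter fun x => l₁ (τ x) ≠ l₂ x).filter fun x => l₂ x = j) = ∅ := by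
      rw [Finset.filter_eq_empty_iff]
      intro x hx hx'
      exact hex ⟨x, hx', fun h => (Finset.mem_filter.1 hx).2 (h.trans hx'.symm)⟩
    rw [e3, Finset.card_empty, Nat.cast_zero]
    exact abs_nonneg _
-- END h1

-- BEGIN h2
theorem count_label {r : ℕ} {Q : X → Fin r} (hQ : Measurable Q) (n : ℕ) [NeZero n]
    (l : Fin n → Fin r) (j : Fin r) :
    |((Finset.univ.filter fun a => l a = j).card : ℝ) / n - μ.real {x | Q x = j}| ≤
      μ.real {x | Q x ≠ l (P n x)} := by
  have h0 : μ.real {x | l (P n x) = j} =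
      ((Finset.univ.filter fun a => l a = j).card : ℝ) / n := by
    rw [← vol_set n (Finset.univ.filter fun a => l a = j)]
    congr 1
    ext x
    simp
  rw [← h0, abs_le]
  have h1 : μ.real {x | l (P n x) = j} ≤
      μ.real {x | Q x = j} + μ.real {x | Q x ≠ l (P n x)} := by
    refine le_trans (measureReal_mono ?_) (measureReal_union_le _ _)
    intro x hx
    by_cases h : Q x = l (P n x)
    · left
      exact h.trans hx
    · right
      exact h
  have h2 : μ.real {x | Q x = j} ≤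
      μ.real {x | l (P n x) = j} + μ.real {x | Q x ≠ l (P n x)} := by
    refine le_trans (measureReal_mono ?_) (measureReal_union_le _ _)
    intro x hx
    by_cases h : Q x = l (P n x)
    · left
      exact h.symm.trans hx
    · right
      exact h
  constructor <;> linarith

theorem vol_label {r : ℕ} (n : ℕ) [NeZero n] (l l' : Fin n → Fin r) :
    μ.real {x | l (P n x) ≠ l' (P n x)} =
      ((Finset.univ.filter fun a => l a ≠ l' a).card : ℝ) / n := by
  rw [← vol_set n (Finset.univ.filter fun a => l a ≠ l' a)]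
  congr 1
  ext x
  simp
-- END h2

-- BEGIN h3
/-- a (not necessarily cyclic) permutation of intervals near `T` -/
theorem exists_perm {r : ℕ} {Q : X → Fin r} (hQ : Measurable Q) (T : Aut) {ε : ℝ} (hε : 0 < ε) :
    ∃ (M : ℕ) (_ : NeZero M) (τ : Equiv.Perm (Fin M)) (κ : Fin M → Fin r),
      μ.real {x | Q x ≠ κ (P M x)} < ε ∧ μ.real {x | κ (τ (P M x)) ≠ Q (T.1 x)} < ε := by
  have hr : (0 : ℝ) < 2 * r + 2 := by positivity
  set δ : ℝ := ε / (2 * r + 2) with hδdef
  have hδ : 0 < δ := by positivity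
  have hQT : Measurable fun x => Q (T.1 x) := hQ.comp T.1.measurable
  obtain ⟨N1, h1⟩ := exists_label hQ hδ
  obtain ⟨N2, h2⟩ := exists_label hQT hδ
  set n : ℕ := max (max N1 N2) 1 with hn
  have hn0 : n ≠ 0 := by
    have : 1 ≤ n := le_max_right _ _
    omega
  have : NeZero n := ⟨hn0⟩
  have hnpos : (0 : ℝ) < n := by exact_mod_cast Nat.pos_of_ne_zero hn0
  obtain ⟨l₁, hl1⟩ := h1 n ((le_max_left _ _).trans (le_max_left _ _))
  obtain ⟨l₂, hl2⟩ := h2 n ((le_max_right _ _).trans (le_max_left _ _))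
  obtain ⟨τ, hτ⟩ := exists_match l₁ l₂
  refine ⟨n, inferInstance, τ, l₁, ?_, ?_⟩
  · refine hl1.trans_le ?_
    rw [hδdef, div_le_iff₀ hr]
    have : (0 : ℝ) ≤ r := by positivity
    nlinarith
  · have hpres : ∀ j : Fin r, μ.real {x | Q (T.1 x) = j} = μ.real {x | Q x = j} := by
      intro j
      have hm : MeasurableSet {x : X | Q x = j} := hQ (measurableSet_singleton j)
      have := T.2.measure_preimage hm.nullMeasurableSet
      rw [Measure.real, Measure.real]
      exact congrArg ENNReal.toReal this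
    have hj : ∀ j : Fin r, |((Finset.univ.filter fun a => l₁ a = j).card : ℝ)
        - ((Finset.univ.filter fun a => l₂ a = j).card : ℝ)| ≤ 2 * δ * n := by
      intro j
      have e1 := (count_label hQ n l₁ j).trans hl1.le
      have e2 := (count_label hQT n l₂ j).trans hl2.le
      rw [hpres j] at e2
      set A : ℝ := ((Finset.univ.filter fun a => l₁ a = j).card : ℝ)
      set B : ℝ := ((Finset.univ.filter fun a => l₂ a = j).card : ℝ)
      have e3 : |A / n - B / n| ≤ 2 * δ := by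
        rw [abs_le] at e1 e2 ⊢
        constructor <;> linarith [e1.1, e1.2, e2.1, e2.2]
      have e4 : A - B = (A / n - B / n) * n := by
        field_simp
      rw [e4, abs_mul, abs_of_pos hnpos]
      exact mul_le_mul_of_nonneg_right e3 hnpos.le
    have hcard : ((Finset.univ.filter fun a => l₁ (τ a) ≠ l₂ a).card : ℝ) ≤ r * (2 * δ * n) := by
      refine hτ.trans ?_
      refine (Finset.sum_le_sum fun j _ => hj j).trans ?_
      simp
    have hvol : μ.real {x | l₁ (τ (P n x)) ≠ l₂ (P n x)} ≤ r * (2 * δ) := by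
      rw [vol_label n (fun a => l₁ (τ a)) l₂, div_le_iff₀ hnpos]
      calc _ ≤ _ := hcard
        _ = _ := by ring
    have hsub : {x : X | l₁ (τ (P n x)) ≠ Q (T.1 x)} ⊆
        {x | l₁ (τ (P n x)) ≠ l₂ (P n x)} ∪ {x | Q (T.1 x) ≠ l₂ (P n x)} := by
      intro x hx
      by_contra hcon
      simp only [Set.mem_union, Set.mem_ofPred_eq, not_or, not_not] at hcon
      exact hx (hcon.1.trans hcon.2.symm)
    calc μ.real {x : X | l₁ (τ (P n x)) ≠ Q (T.1 x)}
        ≤ μ.real ({x : X | l₁ (τ (P n x)) ≠ l₂ (P n x)} ∪ {x | Q (T.1 x) ≠ l₂ (P n x)}) :=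
          measureReal_mono hsub
      _ ≤ μ.real {x : X | l₁ (τ (P n x)) ≠ l₂ (P n x)} + μ.real {x | Q (T.1 x) ≠ l₂ (P n x)} :=
          measureReal_union_le _ _
      _ < r * (2 * δ) + δ := add_lt_add_of_le_of_lt hvol hl2
      _ ≤ ε := by
          have e : ε = δ * (2 * r + 2) := by
            rw [hδdef]
            field_simp
          nlinarith
-- END h3

-- BEGIN h4
/-- a cyclic order of `Fin N` which follows `τ` most of the time: `M` runs of length `L` -/
theorem exists_order {N M : ℕ} [NeZero N] [NeZero M] (τ : Equiv.Perm (Fin M)) (l : Fin N → Fin M)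
    (L : ℕ) (hL : ∀ q, L ≤ (Finset.univ.filter fun a => l a = q).card) :
    ∃ e : ZMod N ≃ Fin N,
      (Finset.univ.filter fun t : ZMod N => l (e (t + 1)) ≠ τ (l (e t))).card + M * L ≤ N + M := by
  classical
  have hML : M * L ≤ N := by
    have h1 : (Finset.univ : Finset (Fin N)).card =
        ∑ q ∈ (Finset.univ : Finset (Fin M)), (Finset.univ.filter fun a => l a = q).card :=
      Finset.card_eq_sum_card_fiberwise (f := l) (fun a _ => Finset.mem_coe.2 (Finset.mem_univ _))
    have h2 : ∑ q ∈ (Finset.univ : Finset (Fin M)), L ≤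
        ∑ q ∈ (Finset.univ : Finset (Fin M)), (Finset.univ.filter fun a => l a = q).card :=
      Finset.sum_le_sum fun q _ => hL q
    rw [← h1] at h2
    simpa using h2
  have hemb : ∀ q : Fin M, ∃ a : Fin L → Fin N, Function.Injective a ∧ ∀ i, l (a i) = q := by
    intro q
    have hc : Fintype.card (Fin L) ≤ Fintype.card {a : Fin N // l a = q} := by
      rw [Fintype.card_fin, Fintype.card_subtype]
      exact hL q
    obtain ⟨g⟩ := Function.Embedding.nonempty_of_card_le hc
    exact ⟨fun i => (g i).1, fun i j h => g.injective (Subtype.ext h), fun i => (g i).2⟩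
  choose a ha1 ha2 using hemb
  let f : Fin M × Fin L → Fin N := fun x => a ((τ ^ (x.2 : ℕ)) x.1) x.2
  have hlf : ∀ x, l (f x) = (τ ^ (x.2 : ℕ)) x.1 := fun x => ha2 _ _
  have hf : Function.Injective f := by
    rintro ⟨q, i⟩ ⟨q', i'⟩ h
    have h1 : (τ ^ (i : ℕ)) q = (τ ^ (i' : ℕ)) q' := by
      rw [← hlf (q, i), ← hlf (q', i'), h]
    have h2 : a ((τ ^ (i : ℕ)) q) i = a ((τ ^ (i' : ℕ)) q') i' := h
    rw [h1] at h2
    have h3 : i = i' := ha1 _ h2
    subst h3
    have h4 : q = q' := (τ ^ (i : ℕ)).injective h1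
    rw [h4]
  let p : Fin M × Fin L → ZMod N := fun x => (((x.1 : ℕ) * L + (x.2 : ℕ) : ℕ) : ZMod N)
  have hlt : ∀ x : Fin M × Fin L, (x.1 : ℕ) * L + (x.2 : ℕ) < N := by
    intro x
    have h1 : ((x.1 : ℕ) + 1) * L ≤ M * L := Nat.mul_le_mul_right _ x.1.2
    have h2 := x.2.2
    nlinarith
  have hp : Function.Injective p := by
    rintro ⟨q, i⟩ ⟨q', i'⟩ h
    have h1 : (((q : ℕ) * L + (i : ℕ) : ℕ) : ZMod N) = (((q' : ℕ) * L + (i' : ℕ) : ℕ) : ZMod N) := h
    rw [ZMod.natCast_eq_natCast_iff'] at h1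
    rw [Nat.mod_eq_of_lt (hlt (q, i)), Nat.mod_eq_of_lt (hlt (q', i'))] at h1
    have hL0 : 0 < L := lt_of_le_of_lt (Nat.zero_le _) i.2
    have h2 : (i : ℕ) = i' := by
      have := congrArg (fun n => n % L) h1
      simpa [Nat.add_mod, Nat.mod_eq_of_lt i.2, Nat.mod_eq_of_lt i'.2] using this
    have h3 : (q : ℕ) = q' := by
      have h5 : (q : ℕ) * L + (i : ℕ) = (q' : ℕ) * L + (i' : ℕ) := h1
      have h4 : (q : ℕ) * L = q' * L := by omega
      exact Nat.eq_of_mul_eq_mul_right hL0 h4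
    exact Prod.ext (Fin.ext h3) (Fin.ext h2)
  obtain ⟨g, hg⟩ := Finset.exists_equiv_extend_of_card_eq (α := ZMod N) (β := Fin N)
    (t := Finset.univ) (by rw [ZMod.card, Finset.card_univ, Fintype.card_fin])
    (s := Finset.univ.image p) (f := Function.extend p f (fun _ => 0)) (Finset.subset_univ _)
    (by
      intro x hx y hy hxy
      simp only [Finset.coe_image, Finset.coe_univ, Set.image_univ, Set.mem_range] at hx hy
      obtain ⟨x', rfl⟩ := hx
      obtain ⟨y', rfl⟩ := hy
      rw [hp.extend_apply, hp.extend_apply] at hxy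
      rw [hf hxy])
  let e : ZMod N ≃ Fin N := g.trans (Equiv.subtypeUnivEquiv fun x => Finset.mem_univ x)
  have he : ∀ x, e (p x) = f x := by
    intro x
    have h1 := hg (p x) (Finset.mem_image_of_mem _ (Finset.mem_univ _))
    rw [hp.extend_apply] at h1
    exact h1
  refine ⟨e, ?_⟩
  rcases Nat.eq_zero_or_pos L with h0 | hpos
  · subst h0
    have h1 : (Finset.univ.filter fun t : ZMod N => l (e (t + 1)) ≠ τ (l (e t))).card ≤ N := by
      refine le_trans (Finset.card_le_univ _) ?_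
      rw [ZMod.card]
    omega
  obtain ⟨K, rfl⟩ : ∃ K, L = K + 1 := ⟨L - 1, by omega⟩
  let G : Finset (ZMod N) := Finset.univ.image fun x : Fin M × Fin K => p (x.1, x.2.castSucc)
  have hGc : G.card = M * K := by
    rw [Finset.card_image_of_injective]
    · rw [Finset.card_univ, Fintype.card_prod, Fintype.card_fin, Fintype.card_fin]
    · rintro ⟨q, i⟩ ⟨q', i'⟩ h
      have h1 := hp h
      rw [Prod.mk.injEq] at h1
      exact Prod.ext h1.1 (Fin.castSucc_injective _ h1.2)
  have hsub : (Finset.univ.filter fun t : ZMod N => l (e (t + 1)) ≠ τ (l (e t))) ⊆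
      Finset.univ \ G := by
    intro t ht
    rw [Finset.mem_filter] at ht
    rw [Finset.mem_sdiff]
    refine ⟨Finset.mem_univ _, fun hG => ht.2 ?_⟩
    obtain ⟨⟨q, i⟩, -, rfl⟩ := Finset.mem_image.1 hG
    have h1 : p (q, i.castSucc) + 1 = p (q, i.succ) := by
      show ((((q : ℕ) * (K + 1) + ((i.castSucc : Fin (K + 1)) : ℕ) : ℕ) : ZMod N)) + 1 =
        (((q : ℕ) * (K + 1) + ((i.succ : Fin (K + 1)) : ℕ) : ℕ) : ZMod N)
      rw [Fin.val_castSucc, Fin.val_succ]
      push_cast
      ring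
    rw [h1, he, he, hlf, hlf]
    show (τ ^ ((i.succ : Fin (K + 1)) : ℕ)) q = τ ((τ ^ ((i.castSucc : Fin (K + 1)) : ℕ)) q)
    rw [Fin.val_castSucc, Fin.val_succ, pow_succ']
    rfl
  have h1 := Finset.card_le_card hsub
  rw [Finset.card_sdiff_of_subset (Finset.subset_univ _), Finset.card_univ, ZMod.card, hGc] at h1
  have h2 : M * K ≤ N := le_trans (Nat.mul_le_mul_left _ (Nat.le_succ _)) hML
  have h3 : M * (K + 1) = M * K + M := by ring
  omega
-- END h4

-- BEGIN h5
private theorem h5_pre (C : Aut) (E : Set X) : μ.real (C.1 ⁻¹' E) = μ.real E := by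
  unfold Measure.real
  rw [C.2.measure_preimage_equiv E]

private theorem h5_card {N M : ℕ} [NeZero N] (τ : Equiv.Perm (Fin M)) (l : Fin N → Fin M)
    (e : ZMod N ≃ Fin N) :
    (Finset.univ.filter fun a : Fin N => l (e (e.symm a + 1)) ≠ τ (l a)).card =
      (Finset.univ.filter fun t : ZMod N => l (e (t + 1)) ≠ τ (l (e t))).card := by
  symm
  apply Finset.card_bij (fun t _ => e t)
  · intro t ht
    simp only [Finset.mem_filter, Finset.mem_univ, true_and, Equiv.symm_apply_apply] at ht ⊢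
    exact ht
  · intro a _ b _ hab
    exact e.injective hab
  · intro a ha
    refine ⟨e.symm a, ?_, by simp⟩
    simp only [Finset.mem_filter, Finset.mem_univ, true_and, Equiv.apply_symm_apply] at ha ⊢
    exact ha

private theorem h5_sub {r N M : ℕ} [NeZero N] [NeZero M] (Q : X → Fin r) (T : Aut)
    (τ : Equiv.Perm (Fin M)) (κ : Fin M → Fin r) (l : Fin N → Fin M) (e : ZMod N ≃ Fin N) :
    dQ Q (Cy N e) T ≤ μ.real {x | Q x ≠ κ (P M x)} + 2 * μ.real {x | P M x ≠ l (P N x)}
      + ((Finset.univ.filter fun t : ZMod N => l (e (t + 1)) ≠ τ (l (e t))).card : ℝ) / N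
      + μ.real {x | κ (τ (P M x)) ≠ Q (T.1 x)} := by
  have hsub : {x : X | Q ((Cy N e).1 x) ≠ Q (T.1 x)} ⊆
      ((Cy N e).1 ⁻¹' {x | Q x ≠ κ (P M x)}) ∪ (((Cy N e).1 ⁻¹' {x | P M x ≠ l (P N x)}) ∪
        ({x | P N x ∈ Finset.univ.filter fun a : Fin N => l (e (e.symm a + 1)) ≠ τ (l a)} ∪
          ({x | P M x ≠ l (P N x)} ∪ {x | κ (τ (P M x)) ≠ Q (T.1 x)}))) := by
    intro x hx
    by_contra hno
    simp only [mem_union, mem_preimage, mem_ofPred_eq, Finset.mem_filter, Finset.mem_univ,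
      true_and, not_or, not_not] at hno
    obtain ⟨h1, h2, h3, h4, h5⟩ := hno
    apply hx
    rw [h1, h2, P_Cy, h3, ← h4, h5]
  have hm := measureReal_mono (μ := μ) hsub (measure_ne_top _ _)
  have u1 := measureReal_union_le (μ := μ) ((Cy N e).1 ⁻¹' {x | Q x ≠ κ (P M x)})
    (((Cy N e).1 ⁻¹' {x | P M x ≠ l (P N x)}) ∪
        ({x | P N x ∈ Finset.univ.filter fun a : Fin N => l (e (e.symm a + 1)) ≠ τ (l a)} ∪
          ({x | P M x ≠ l (P N x)} ∪ {x | κ (τ (P M x)) ≠ Q (T.1 x)})))
  have u2 := measureReal_union_le (μ := μ) ((Cy N e).1 ⁻¹' {x | P M x ≠ l (P N x)})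
    ({x | P N x ∈ Finset.univ.filter fun a : Fin N => l (e (e.symm a + 1)) ≠ τ (l a)} ∪
          ({x | P M x ≠ l (P N x)} ∪ {x | κ (τ (P M x)) ≠ Q (T.1 x)}))
  have u3 := measureReal_union_le (μ := μ)
    {x | P N x ∈ Finset.univ.filter fun a : Fin N => l (e (e.symm a + 1)) ≠ τ (l a)}
    ({x | P M x ≠ l (P N x)} ∪ {x | κ (τ (P M x)) ≠ Q (T.1 x)})
  have u4 := measureReal_union_le (μ := μ) {x | P M x ≠ l (P N x)}
    {x | κ (τ (P M x)) ≠ Q (T.1 x)}
  rw [h5_pre] at u1 u2
  rw [vol_set, h5_card] at u3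
  unfold dQ
  linarith

/-- cyclic permutations are dense, for every large number `N` of intervals -/
theorem exists_cyc {r : ℕ} {Q : X → Fin r} (hQ : Measurable Q) (T : Aut) {ε : ℝ} (hε : 0 < ε) :
    ∃ N0 : ℕ, ∀ (N : ℕ) [NeZero N], N0 ≤ N → ∃ e : ZMod N ≃ Fin N, dQ Q (Cy N e) T < ε := by
  obtain ⟨M, hM, τ, κ, h1, h2⟩ := exists_perm hQ T (show (0 : ℝ) < ε / 8 by positivity)
  have hM0 : (0 : ℝ) < M := by exact_mod_cast Nat.pos_of_ne_zero (NeZero.ne M)
  obtain ⟨δ, hδ0, hδ1, hδ2, hδ3⟩ : ∃ δ : ℝ, 0 < δ ∧ δ ≤ ε / 16 ∧ M * δ ≤ ε / 8 ∧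
      δ ≤ 1 / (2 * M) := by
    refine ⟨min (ε / 16) (min (ε / (8 * M)) (1 / (2 * M))), by positivity, min_le_left _ _, ?_,
      le_trans (min_le_right _ _) (min_le_right _ _)⟩
    have h3 : min (ε / 16) (min (ε / (8 * M)) (1 / (2 * M))) ≤ ε / (8 * M) :=
      le_trans (min_le_right _ _) (min_le_left _ _)
    calc (M : ℝ) * min (ε / 16) (min (ε / (8 * M)) (1 / (2 * M))) ≤ M * (ε / (8 * M)) :=
          mul_le_mul_of_nonneg_left h3 hM0.le
      _ = ε / 8 := by field_simp
  obtain ⟨N1, hN1⟩ := exists_label (measurable_P M) hδ0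
  obtain ⟨N2, hN2⟩ := exists_nat_gt (16 * M / ε)
  refine ⟨max N1 N2, fun N _ hN => ?_⟩
  obtain ⟨l, hl⟩ := hN1 N (le_trans (le_max_left _ _) hN)
  have hN0 : (0 : ℝ) < N := by exact_mod_cast Nat.pos_of_ne_zero (NeZero.ne N)
  have hN3 : 16 * M / ε < N := lt_of_lt_of_le hN2 (by exact_mod_cast le_trans (le_max_right _ _) hN)
  have hN4 : 2 * (M : ℝ) / N < ε / 8 := by
    rw [div_lt_iff₀ hε] at hN3
    rw [div_lt_div_iff₀ hN0 (by norm_num)]
    linarith
  have hq : 0 ≤ 1 / (M : ℝ) - δ := by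
    have h3 : 1 / (2 * (M : ℝ)) ≤ 1 / M := by
      apply one_div_le_one_div_of_le hM0
      linarith
    linarith
  have hf0 : 0 ≤ (N : ℝ) * (1 / M - δ) := mul_nonneg hN0.le hq
  have hLe := Nat.floor_le hf0
  have hLt := Nat.lt_floor_add_one ((N : ℝ) * (1 / M - δ))
  set L := ⌊(N : ℝ) * (1 / M - δ)⌋₊ with hLdef
  have hL : ∀ q, L ≤ (Finset.univ.filter fun a => l a = q).card := by
    intro q
    have h3 := count_label (measurable_P M) N l q
    have h4 : μ.real {x | P M x = q} = 1 / M := vol_P M q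
    rw [h4] at h3
    have h5 := (abs_le.1 h3).1
    have h6 : 1 / (M : ℝ) - δ ≤ ((Finset.univ.filter fun a => l a = q).card : ℝ) / N := by
      linarith
    rw [le_div_iff₀ hN0] at h6
    have h7 : (L : ℝ) ≤ ((Finset.univ.filter fun a => l a = q).card : ℝ) := by
      nlinarith
    exact_mod_cast h7
  obtain ⟨e, he⟩ := exists_order τ l L hL
  refine ⟨e, ?_⟩
  have hb := h5_sub Q T τ κ l e
  have he' : ((Finset.univ.filter fun t : ZMod N => l (e (t + 1)) ≠ τ (l (e t))).card : ℝ)
      + M * L ≤ N + M := by exact_mod_cast he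
  have h7 : ((Finset.univ.filter fun t : ZMod N => l (e (t + 1)) ≠ τ (l (e t))).card : ℝ)
      ≤ 2 * M + N * (M * δ) := by
    have h8 : (M : ℝ) * ((N : ℝ) * (1 / M - δ) - 1) ≤ M * L := by
      apply mul_le_mul_of_nonneg_left _ hM0.le
      linarith
    have h9 : (M : ℝ) * ((N : ℝ) * (1 / M - δ) - 1) = N - N * (M * δ) - M := by
      field_simp
    linarith
  have h8 : ((Finset.univ.filter fun t : ZMod N => l (e (t + 1)) ≠ τ (l (e t))).card : ℝ) / N
      ≤ 2 * M / N + M * δ := by
    rw [div_le_iff₀ hN0]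
    calc _ ≤ 2 * (M : ℝ) + N * (M * δ) := h7
      _ = (2 * M / N + M * δ) * N := by field_simp
  linarith
-- END h5

end Pool.Agent.Gor
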