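import Pool.Agent.Gor.Sfi

/-!
# A generic map has no over-recurrent function in a given `σ`-compact set
-/

set_option autoImplicit false

open MeasureTheory Filter Topology Set
open scoped symmDiff RealInnerProductSpace

namespace Pool.Agent.Gor

-- BEGIN n1
private theorem n1_cast {N : ℕ} [NeZero N] (G : ZMod N → ℝ) :
    ∑ m ∈ Finset.range N, G (m : ZMod N) = ∑ x : ZMod N, G x := by
  classical
  refine Finset.sum_bij (fun m _ => (m : ZMod N)) (fun _ _ => Finset.mem_univ _) ?_ ?_ fun _ _ => rfl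
  · intro a ha b hb h
    have h1 := (ZMod.natCast_eq_natCast_iff' a b N).1 h
    rwa [Nat.mod_eq_of_lt (Finset.mem_range.1 ha), Nat.mod_eq_of_lt (Finset.mem_range.1 hb)] at h1
  · intro x _
    exact ⟨x.val, Finset.mem_range.2 (ZMod.val_lt x), ZMod.natCast_zmod_val x⟩

/-- the sum of the correlations over the whole cycle -/
theorem cN_sum {N : ℕ} [NeZero N] (F : ZMod N → ℝ) :
    ∑ m ∈ Finset.range N, cN F F m = N * ((1 / N) * ∑ x, F x) ^ 2 := by
  have hN : (N : ℝ) ≠ 0 := Nat.cast_ne_zero.2 (NeZero.ne N)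
  have h1 : ∀ x : ZMod N, ∑ m ∈ Finset.range N, F (x + (m : ZMod N)) = ∑ y, F y := by
    intro x
    rw [n1_cast (fun y => F (x + y))]
    exact Equiv.sum_comp (Equiv.addLeft x) F
  unfold cN
  rw [← Finset.mul_sum, Finset.sum_comm]
  simp only [← Finset.mul_sum, h1]
  rw [← Finset.sum_mul]
  field_simp

private theorem n1_block {n : ℕ} (hn : 1 ≤ n) (a b : ℝ) (K : ℕ) :
    ∑ m ∈ Finset.range (n * K), (if n ∣ m then a else b) = K * (a + (n - 1) * b) := by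
  induction K with
  | zero => simp
  | succ K ih =>
    have h0 : 0 < n := hn
    rw [Nat.mul_succ, Finset.sum_range_add, ih]
    have h1 : ∀ m ∈ Finset.range n, (if n ∣ n * K + m then a else b) = if m = 0 then a else b := by
      intro m hm
      have h2 : n ∣ n * K + m ↔ m = 0 := by
        constructor
        · intro h
          have h3 : n ∣ m := (Nat.dvd_add_right (dvd_mul_right n K)).1 h
          exact Nat.eq_zero_of_dvd_of_lt h3 (Finset.mem_range.1 hm)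
        · rintro rfl
          simp
      simp only [h2]
    rw [Finset.sum_congr rfl h1, Finset.sum_ite, Finset.sum_const, Finset.sum_const]
    have h4 : (Finset.range n).filter (fun m => m = 0) = {0} := by
      ext m
      simp only [Finset.mem_filter, Finset.mem_range, Finset.mem_singleton]
      constructor
      · exact fun h => h.2
      · rintro rfl
        exact ⟨h0, rfl⟩
    have h5 : ((Finset.range n).filter (fun m => ¬m = 0)).card = n - 1 := by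
      have h6 := Finset.card_filter_add_card_filter_not (s := Finset.range n) (fun m => m = 0)
      rw [h4, Finset.card_singleton, Finset.card_range] at h6
      omega
    rw [h4, h5, Finset.card_singleton]
    simp only [nsmul_eq_mul, Nat.cast_one, one_mul]
    rw [Nat.cast_sub hn]
    push_cast
    ring

/-- large correlations at the multiples of `n` force a small one -/
theorem cN_small {n K : ℕ} [NeZero (n * K)] {F : ZMod (n * K) → ℝ} {t : ℝ} (ht : 0 < t)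
    (h : ∀ j, ((1 / (n * K : ℕ)) * ∑ x, F x) ^ 2 + t ≤ cN F F (n * j)) :
    ∃ m, cN F F m ≤ ((1 / (n * K : ℕ)) * ∑ x, F x) ^ 2 - t / n := by
  have hne := NeZero.ne (n * K)
  have hn : 1 ≤ n := Nat.one_le_iff_ne_zero.2 fun h => hne (by rw [h, Nat.zero_mul])
  have hK : 1 ≤ K := Nat.one_le_iff_ne_zero.2 fun h => hne (by rw [h, Nat.mul_zero])
  have hn0 : (0 : ℝ) < n := by exact_mod_cast hn
  have hK0 : (0 : ℝ) < K := by exact_mod_cast hK
  by_contra hcon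
  push Not at hcon
  obtain ⟨c, hc⟩ : ∃ c : ℝ, c = ((1 / (n * K : ℕ)) * ∑ x, F x) ^ 2 := ⟨_, rfl⟩
  rw [← hc] at h hcon
  have h1 := cN_sum F
  rw [← hc] at h1
  have h2 : ∑ m ∈ Finset.range (n * K), (if n ∣ m then c + t else c - t / n) ≤
      ∑ m ∈ Finset.range (n * K), cN F F m := by
    refine Finset.sum_le_sum fun m _ => ?_
    split_ifs with hm
    · obtain ⟨j, rfl⟩ := hm
      exact h j
    · exact (hcon m).le
  rw [n1_block hn, h1] at h2
  have h3 : (K : ℝ) * (c + t + (n - 1) * (c - t / n)) = n * K * c + K * (t / n) := by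
    field_simp
    ring
  rw [h3] at h2
  have h4 : 0 < (K : ℝ) * (t / n) := by positivity
  push_cast at h2
  linarith
-- END n1

-- BEGIN n2
/-- correlation of an `L²` function -/
noncomputable def c2 (f : Lp ℝ 2 μ) (T : Aut) (n : ℕ) : ℝ :=
  ∫ x, f x * f ((T.1 : X → X)^[n] x) ∂μ

/-- mean of an `L²` function -/
noncomputable def m2 (f : Lp ℝ 2 μ) : ℝ := ∫ x, f x ∂μ

private noncomputable def n2_V (T : Aut) (n : ℕ) : Lp ℝ 2 μ →ₗᵢ[ℝ] Lp ℝ 2 μ :=
  Lp.compMeasurePreservingₗᵢ ℝ _ (iter_pres T n)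

private theorem n2_inner (f : Lp ℝ 2 μ) (T : Aut) (n : ℕ) : c2 f T n = ⟪f, n2_V T n f⟫ := by
  rw [L2.inner_def]
  unfold c2
  refine integral_congr_ae ?_
  filter_upwards [Lp.coeFn_compMeasurePreserving f (iter_pres T n)] with x hx
  have h1 : (n2_V T n f) x = f ((T.1 : X → X)^[n] x) := hx
  rw [h1]
  exact mul_comm _ _

theorem c2_sub_le (f g : Lp ℝ 2 μ) (T : Aut) (n : ℕ) :
    |c2 f T n - c2 g T n| ≤ ‖f - g‖ * (‖f‖ + ‖g‖) := by
  have h1 : c2 f T n - c2 g T n = ⟪f - g, n2_V T n f⟫ + ⟪g, n2_V T n (f - g)⟫ := by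
    rw [n2_inner, n2_inner, map_sub, inner_sub_left, inner_sub_right]
    ring
  rw [h1]
  have h2 := abs_real_inner_le_norm (f - g) (n2_V T n f)
  have h3 := abs_real_inner_le_norm g (n2_V T n (f - g))
  rw [LinearIsometry.norm_map] at h2 h3
  calc _ ≤ |⟪f - g, n2_V T n f⟫| + |⟪g, n2_V T n (f - g)⟫| := abs_add_le _ _
    _ ≤ ‖f - g‖ * ‖f‖ + ‖g‖ * ‖f - g‖ := add_le_add h2 h3
    _ = _ := by ring

theorem nsq (f : Lp ℝ 2 μ) : ‖f‖ ^ 2 = ∫ x, f x ^ 2 ∂μ := by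
  rw [← real_inner_self_eq_norm_sq, L2.inner_def]
  refine integral_congr_ae (Eventually.of_forall fun x => ?_)
  show f x * f x = f x ^ 2
  ring

theorem c2_zero (f : Lp ℝ 2 μ) (T : Aut) : c2 f T 0 = ‖f‖ ^ 2 := by
  rw [nsq]
  unfold c2
  refine integral_congr_ae (Eventually.of_forall fun x => ?_)
  show f x * f x = f x ^ 2
  ring

private theorem n2_add (T : Aut) (p m : ℕ) (f : Lp ℝ 2 μ) :
    n2_V T (p + m) f = n2_V T m (n2_V T p f) := by
  refine Lp.ext ?_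
  filter_upwards [Lp.coeFn_compMeasurePreserving f (iter_pres T (p + m)),
    Lp.coeFn_compMeasurePreserving (n2_V T p f) (iter_pres T m),
    (iter_pres T m).quasiMeasurePreserving.ae_eq_comp
      (Lp.coeFn_compMeasurePreserving f (iter_pres T p))] with x h1 h2 h3
  have k1 : (n2_V T (p + m) f) x = f ((T.1 : X → X)^[p + m] x) := h1
  have k2 : (n2_V T m (n2_V T p f)) x = (n2_V T p f) ((T.1 : X → X)^[m] x) := h2
  have k3 : (n2_V T p f) ((T.1 : X → X)^[m] x) =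
      f ((T.1 : X → X)^[p] ((T.1 : X → X)^[m] x)) := h3
  rw [k1, k2, k3, Function.iterate_add_apply]

/-- if `T ^ p` almost fixes `f`, the correlations at `p + m` and `m` are close -/
theorem c2_shift (f : Lp ℝ 2 μ) (T : Aut) (p m : ℕ) :
    |c2 f T (p + m) - c2 f T m| ≤ ‖f‖ * √(2 * (‖f‖ ^ 2 - c2 f T p)) := by
  have h1 : c2 f T (p + m) - c2 f T m = ⟪f, n2_V T m (n2_V T p f - f)⟫ := by
    rw [n2_inner, n2_inner, n2_add, map_sub, inner_sub_right]
  have h2 : ‖n2_V T p f - f‖ ^ 2 = 2 * (‖f‖ ^ 2 - c2 f T p) := by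
    rw [norm_sub_sq_real, LinearIsometry.norm_map, real_inner_comm, ← n2_inner]
    ring
  have h3 := abs_real_inner_le_norm f (n2_V T m (n2_V T p f - f))
  rw [LinearIsometry.norm_map] at h3
  rw [h1, ← h2, Real.sqrt_sq (norm_nonneg _)]
  exact h3

private noncomputable def n2_one : Lp ℝ 2 μ :=
  indicatorConstLp 2 (μ := μ) MeasurableSet.univ (measure_ne_top μ _) (1 : ℝ)

private theorem n2_mean (f : Lp ℝ 2 μ) : m2 f = ⟪n2_one, f⟫ := by
  unfold n2_one m2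
  rw [L2.inner_indicatorConstLp_one, setIntegral_univ]

private theorem n2_norm_one : ‖n2_one‖ = 1 := by
  unfold n2_one
  rw [norm_indicatorConstLp two_ne_zero ENNReal.ofNat_ne_top]
  simp

theorem continuous_m2 : Continuous m2 := by
  have : m2 = fun f => ⟪n2_one, f⟫ := funext n2_mean
  rw [this]
  exact continuous_const.inner continuous_id

theorem m2_abs_le (f : Lp ℝ 2 μ) : |m2 f| ≤ ‖f‖ := by
  rw [n2_mean]
  have := abs_real_inner_le_norm n2_one f
  rwa [n2_norm_one, one_mul] at this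

theorem m2_sub (f g : Lp ℝ 2 μ) : m2 (f - g) = m2 f - m2 g := by
  rw [n2_mean, n2_mean, n2_mean, inner_sub_right]

theorem m2_sq_sub_le (f g : Lp ℝ 2 μ) : |m2 f ^ 2 - m2 g ^ 2| ≤ ‖f - g‖ * (‖f‖ + ‖g‖) := by
  have h1 : m2 f ^ 2 - m2 g ^ 2 = m2 (f - g) * (m2 f + m2 g) := by
    rw [m2_sub]
    ring
  rw [h1, abs_mul]
  exact mul_le_mul (m2_abs_le _) ((abs_add_le _ _).trans (add_le_add (m2_abs_le _) (m2_abs_le _)))
    (abs_nonneg _) (norm_nonneg _)

/-- no variance: a.e. constant -/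
theorem const_of_var {f : Lp ℝ 2 μ} (h : ‖f‖ ^ 2 ≤ m2 f ^ 2) : ∃ c : ℝ, ∀ᵐ x ∂μ, f x = c := by
  refine ⟨m2 f, ?_⟩
  have hf : MemLp f 2 μ := Lp.memLp f
  have hfi : Integrable f μ := hf.integrable one_le_two
  have hsq : Integrable (fun x => f x ^ 2) μ := hf.integrable_sq
  have h1 : ∫ x, (f x - m2 f) ^ 2 ∂μ = ‖f‖ ^ 2 - m2 f ^ 2 := by
    have e1 : (fun x => (f x - m2 f) ^ 2) = fun x => f x ^ 2 - (2 * m2 f) * f x + m2 f ^ 2 := by
      funext x
      ring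
    have i1 : Integrable (fun x => f x ^ 2 - (2 * m2 f) * f x) μ := hsq.sub (hfi.const_mul _)
    rw [e1, integral_add i1 (integrable_const _), integral_sub hsq (hfi.const_mul _),
      integral_const_mul, nsq]
    have e2 : ∫ x, f x ∂μ = m2 f := rfl
    rw [e2]
    simp
    ring
  have h2 : ∫ x, (f x - m2 f) ^ 2 ∂μ = 0 := by
    refine le_antisymm (by linarith) (integral_nonneg fun x => sq_nonneg _)
  have hi : Integrable (fun x => (f x - m2 f) ^ 2) μ := (hf.sub (memLp_const _)).integrable_sq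
  rw [integral_eq_zero_iff_of_nonneg (fun x => sq_nonneg _) hi] at h2
  filter_upwards [h2] with x hx
  have h3 : (f x - m2 f) ^ 2 = 0 := hx
  exact sub_eq_zero.1 (pow_eq_zero_iff two_ne_zero |>.1 h3)
-- END n2

-- BEGIN n3
private theorem n3_bm (n : ℕ) [NeZero n] (L : Fin n → ℝ) : BM (∑ a, |L a|) (fun x => L (P n x)) :=
  ⟨(measurable_of_countable L).comp (measurable_P n), fun _ =>
    Finset.single_le_sum (f := fun a => |L a|) (fun _ _ => abs_nonneg _) (Finset.mem_univ _)⟩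

theorem BM.memLp {B : ℝ} {f : X → ℝ} (hf : BM B f) : MemLp f 2 μ :=
  MemLp.of_bound hf.1.aestronglyMeasurable B
    (Eventually.of_forall fun x => by rw [Real.norm_eq_abs]; exact hf.2 x)

/-- step functions in `L²` -/
noncomputable def st (n : ℕ) [NeZero n] (L : Fin n → ℝ) : Lp ℝ 2 μ := (n3_bm n L).memLp.toLp _

theorem st_coe (n : ℕ) [NeZero n] (L : Fin n → ℝ) : st n L =ᵐ[μ] fun x => L (P n x) :=
  MemLp.coeFn_toLp _

private theorem n3_c2 {f : Lp ℝ 2 μ} {g : X → ℝ} (h : f =ᵐ[μ] g) (T : Aut) (n : ℕ) :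
    c2 f T n = co g T n := by
  unfold c2 co
  refine integral_congr_ae ?_
  have h2 := (iter_pres T n).quasiMeasurePreserving.ae_eq_comp h
  filter_upwards [h, h2] with x h3 h4
  have h5 : f ((T.1 : X → X)^[n] x) = g ((T.1 : X → X)^[n] x) := h4
  rw [h3, h5]

theorem c2_st (n : ℕ) [NeZero n] (L : Fin n → ℝ) (T : Aut) (m : ℕ) :
    c2 (st n L) T m = co (fun x => L (P n x)) T m := n3_c2 (st_coe n L) T m

theorem m2_st (n : ℕ) [NeZero n] (L : Fin n → ℝ) : m2 (st n L) = (1 / n) * ∑ a, L a := by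
  unfold m2
  rw [integral_congr_ae (st_coe n L), integral_P]

/-- step functions are dense -/
theorem st_dense (f : Lp ℝ 2 μ) {ε : ℝ} (hε : 0 < ε) : ∃ N0 : ℕ, ∀ (n : ℕ) [NeZero n], N0 ≤ n →
    ∃ L : Fin n → ℝ, ‖f - st n L‖ < ε := by
  obtain ⟨g, hg1, hg2⟩ := (Lp.memLp f).exists_boundedContinuous_eLpNorm_sub_le ENNReal.ofNat_ne_top
    (ε := ENNReal.ofReal (ε / 2)) (by simpa using hε)
  obtain ⟨B, hB⟩ : ∃ B : ℝ, B = ‖g‖ + 1 := ⟨_, rfl⟩
  have hB0 : 0 < B := by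
    rw [hB]
    linarith [norm_nonneg g]
  have hgB : BM B g := ⟨g.continuous.measurable, fun x => by
    have := g.norm_coe_le_norm x
    rw [Real.norm_eq_abs] at this
    linarith⟩
  obtain ⟨N0, hN0⟩ := exists_step hgB (ε := (ε / 2) ^ 2 / (2 * B)) (by positivity)
  refine ⟨N0, fun n _ hn => ?_⟩
  obtain ⟨L, hL1, -, hL2⟩ := hN0 n hn
  refine ⟨L, ?_⟩
  have hLB : BM B (fun x => L (P n x)) :=
    ⟨(measurable_of_countable L).comp (measurable_P n), fun _ => hL1 _⟩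
  have h1 : ‖f - hg2.toLp g‖ ≤ ε / 2 := by
    have e1 : f - hg2.toLp (g : X → ℝ) = ((Lp.memLp f).sub hg2).toLp ((f : X → ℝ) - (g : X → ℝ)) := by
      rw [MemLp.toLp_sub (Lp.memLp f) hg2, Lp.toLp_coeFn]
    rw [e1, Lp.norm_toLp]
    exact ENNReal.toReal_le_of_le_ofReal (by positivity) hg1
  have h2 : ‖hg2.toLp g - st n L‖ < ε / 2 := by
    have h3 : ‖hg2.toLp g - st n L‖ ^ 2 < (ε / 2) ^ 2 := by
      rw [nsq]
      have e2 : ∫ x, (hg2.toLp g - st n L : Lp ℝ 2 μ) x ^ 2 ∂μ = ∫ x, (g x - L (P n x)) ^ 2 ∂μ := by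
        refine integral_congr_ae ?_
        filter_upwards [Lp.coeFn_sub (hg2.toLp g) (st n L), hg2.coeFn_toLp, st_coe n L]
          with x k1 k2 k3
        rw [k1, Pi.sub_apply, k2, k3]
      have i1 : Integrable (fun x => (g x - L (P n x)) ^ 2) μ :=
        (hgB.memLp.sub hLB.memLp).integrable_sq
      have i2 : Integrable (fun x => |g x - L (P n x)|) μ :=
        (hgB.integrable.sub hLB.integrable).abs
      have e3 : ∫ x, (g x - L (P n x)) ^ 2 ∂μ ≤ ∫ x, 2 * B * |g x - L (P n x)| ∂μ := by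
        refine integral_mono i1 (i2.const_mul _) fun x => ?_
        show (g x - L (P n x)) ^ 2 ≤ 2 * B * |g x - L (P n x)|
        have k1 : |g x - L (P n x)| ≤ 2 * B := by
          have := (abs_sub (g x) (L (P n x))).trans (add_le_add (hgB.2 x) (hLB.2 x))
          linarith
        rw [← sq_abs, pow_two]
        exact mul_le_mul_of_nonneg_right k1 (abs_nonneg _)
      rw [integral_const_mul] at e3
      rw [lt_div_iff₀ (by positivity)] at hL2
      rw [e2]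
      linarith
    exact lt_of_pow_lt_pow_left₀ 2 (by positivity) h3
  have h4 := norm_sub_le_norm_sub_add_norm_sub f (hg2.toLp g) (st n L)
  linarith

/-- uniformly on compact sets -/
theorem st_dense_compact {K : Set (Lp ℝ 2 μ)} (hK : IsCompact K) {ε : ℝ} (hε : 0 < ε) :
    ∃ N0 : ℕ, ∀ (n : ℕ) [NeZero n], N0 ≤ n → ∀ f ∈ K, ∃ L : Fin n → ℝ, ‖f - st n L‖ < ε := by
  obtain ⟨t, -, ht, hc⟩ := hK.finite_cover_balls (half_pos hε)
  choose D hD using fun f : Lp ℝ 2 μ => st_dense f (half_pos hε)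
  obtain ⟨N0, hN0⟩ := (ht.image D).bddAbove
  refine ⟨N0, fun n _ hn f hf => ?_⟩
  obtain ⟨g, hg, hfg⟩ := mem_iUnion₂.1 (hc hf)
  obtain ⟨L, hL⟩ := hD g n ((hN0 (mem_image_of_mem D hg)).trans hn)
  refine ⟨L, ?_⟩
  have h1 := norm_sub_le_norm_sub_add_norm_sub f g (st n L)
  rw [Metric.mem_ball, dist_eq_norm] at hfg
  linarith
-- END n3

-- BEGIN n4
private theorem n4_lt {n K : ℕ} [NeZero (n * K)] (a : Fin n) (u : ZMod (n * K)) :
    K * (a : ℕ) + u.val / n < n * K := by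
  have h1 : u.val / n < K := Nat.div_lt_of_lt_mul (ZMod.val_lt u)
  have h2 : K * ((a : ℕ) + 1) ≤ K * n := Nat.mul_le_mul_left K a.2
  have h3 : K * n = n * K := Nat.mul_comm K n
  rw [Nat.mul_add, Nat.mul_one] at h2
  omega

private def n4_fun {n K : ℕ} [NeZero (n * K)] (e : ZMod n ≃ Fin n) (u : ZMod (n * K)) :
    Fin (n * K) := ⟨K * (e (u.val : ZMod n) : ℕ) + u.val / n, n4_lt _ u⟩

private theorem n4_bij {n K : ℕ} [NeZero (n * K)] (e : ZMod n ≃ Fin n) :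
    Function.Bijective (n4_fun (K := K) e) := by
  refine (Fintype.bijective_iff_injective_and_card _).2 ⟨fun u v h => ?_, by
    rw [ZMod.card, Fintype.card_fin]⟩
  have h0 : K * (e (u.val : ZMod n) : ℕ) + u.val / n = K * (e (v.val : ZMod n) : ℕ) + v.val / n :=
    congrArg Fin.val h
  have hu : u.val / n < K := Nat.div_lt_of_lt_mul (ZMod.val_lt u)
  have hv : v.val / n < K := Nat.div_lt_of_lt_mul (ZMod.val_lt v)
  have hK : 0 < K := lt_of_le_of_lt (Nat.zero_le _) hu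
  have h1 : (e (u.val : ZMod n) : ℕ) = (e (v.val : ZMod n) : ℕ) := by
    have := congrArg (· / K) h0
    simp only [Nat.mul_add_div hK, Nat.div_eq_of_lt hu, Nat.div_eq_of_lt hv, Nat.add_zero] at this
    exact this
  have h2 : u.val / n = v.val / n := by
    rw [h1] at h0
    omega
  have h3 := (ZMod.natCast_eq_natCast_iff' _ _ _).1 (e.injective (Fin.ext h1))
  have h4 : u.val = v.val := by
    rw [← Nat.div_add_mod u.val n, ← Nat.div_add_mod v.val n, h2, h3]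
  exact ZMod.val_injective _ h4

/-- the lift of a cyclic order of `n` intervals to `n * K` intervals -/
noncomputable def lft {n K : ℕ} [NeZero (n * K)] (e : ZMod n ≃ Fin n) :
    ZMod (n * K) ≃ Fin (n * K) := Equiv.ofBijective _ (n4_bij e)

private theorem n4_val {n K : ℕ} [NeZero (n * K)] (e : ZMod n ≃ Fin n) (u : ZMod (n * K)) :
    (lft (K := K) e u : ℕ) = K * (e (u.val : ZMod n) : ℕ) + u.val / n := rfl

private theorem n4_P {n K : ℕ} [NeZero n] [NeZero (n * K)] (e : ZMod n ≃ Fin n) (x : X) :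
    P n x = e (((lft e).symm (P (n * K) x)).val : ZMod n) := by
  obtain ⟨u, hu⟩ : ∃ u, u = (lft e).symm (P (n * K) x) := ⟨_, rfl⟩
  have h1 : P (n * K) x = lft e u := by rw [hu, Equiv.apply_symm_apply]
  have h2 : u.val / n < K := Nat.div_lt_of_lt_mul (ZMod.val_lt u)
  apply Fin.ext
  rw [P_refine n K, h1, n4_val, Equiv.symm_apply_apply,
    Nat.mul_add_div (lt_of_le_of_lt (Nat.zero_le _) h2), Nat.div_eq_of_lt h2, Nat.add_zero]

/-- step functions of level `n` are periodic along the lifted map -/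
theorem co_lft {n K : ℕ} [NeZero n] [NeZero (n * K)] (e : ZMod n ≃ Fin n) (L : Fin n → ℝ) (j : ℕ) :
    co (fun x => L (P n x)) (Cy (n * K) (lft e)) (n * j) =
      co (fun x => L (P n x)) (Cy (n * K) (lft e)) 0 := by
  have h1 : (fun x => L (P n x)) = fun x =>
      (fun u : ZMod (n * K) => L (e (u.val : ZMod n))) ((lft e).symm (P (n * K) x)) := by
    funext x
    rw [n4_P (K := K) e x]
  rw [h1, co_Cy (lft e) (fun u : ZMod (n * K) => L (e (u.val : ZMod n))) (n * j),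
    co_Cy (lft e) (fun u : ZMod (n * K) => L (e (u.val : ZMod n))) 0]
  unfold cN
  congr 1
  refine Finset.sum_congr rfl fun u _ => ?_
  have h2 : ∀ v w : ZMod (n * K), ((v + w).val : ZMod n) = (v.val : ZMod n) + (w.val : ZMod n) := by
    intro v w
    rw [ZMod.natCast_val, ZMod.natCast_val, ZMod.natCast_val, ZMod.cast_add (dvd_mul_right n K)]
  have h3 : (((n * j : ℕ) : ZMod (n * K)).val : ZMod n) = 0 := by
    rw [ZMod.natCast_val, ZMod.cast_natCast (dvd_mul_right n K)]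
    simp
  show L (e (u.val : ZMod n)) * L (e ((u + ((n * j : ℕ) : ZMod (n * K))).val : ZMod n)) =
    L (e (u.val : ZMod n)) * L (e ((u + ((0 : ℕ) : ZMod (n * K))).val : ZMod n))
  rw [h2, h2, h3]
  simp

/-- the lifted map is close to the map -/
theorem dQ_lft {r : ℕ} (Q : X → Fin r) {n K : ℕ} [NeZero n] [NeZero (n * K)]
    (e : ZMod n ≃ Fin n) : dQ Q (Cy (n * K) (lft e)) (Cy n e) ≤ 1 / n := by
  rw [← vol_P n (e (-1))]
  unfold dQ
  refine measureReal_mono fun x hx => ?_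
  by_contra hne
  apply hx
  obtain ⟨u, hu⟩ : ∃ u, u = (lft e).symm (P (n * K) x) := ⟨_, rfl⟩
  have hn : 0 < n := Nat.pos_of_ne_zero (NeZero.ne n)
  have hN : 0 < n * K := Nat.pos_of_ne_zero (NeZero.ne (n * K))
  have hK : 0 < K := Nat.pos_of_mul_pos_left hN
  have h1 : P (n * K) x = lft e u := by rw [hu, Equiv.apply_symm_apply]
  have h2 : P n x = e (u.val : ZMod n) := by rw [n4_P (K := K) e x, ← hu]
  have h3 : (u.val : ZMod n) ≠ -1 := by
    intro h
    apply hne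
    show P n x = e (-1)
    rw [h2, h]
  have h4 : ¬ n ∣ u.val + 1 := by
    intro h
    apply h3
    have := (ZMod.natCast_eq_zero_iff (u.val + 1) n).2 h
    push_cast at this
    exact eq_neg_of_add_eq_zero_left this
  have hlt := ZMod.val_lt u
  have h5 : (u + 1).val = u.val + 1 := by
    have h6 : u.val + 1 < n * K := by
      rcases Nat.lt_or_ge (u.val + 1) (n * K) with h | h
      · exact h
      · exfalso
        apply h4
        have : u.val + 1 = n * K := by omega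
        rw [this]
        exact dvd_mul_right n K
    have h7 : u + 1 = ((u.val + 1 : ℕ) : ZMod (n * K)) := by
      push_cast
      rw [ZMod.natCast_zmod_val]
    rw [h7, ZMod.val_natCast, Nat.mod_eq_of_lt h6]
  have h6 : (u.val + 1) / n = u.val / n := by
    rw [Nat.succ_div_of_not_dvd h4]
  have h8 : (Cy (n * K) (lft e)).1 x = (Cy n e).1 x := by
    show mv (n * K) (cyc (lft e)) x = mv n (cyc e) x
    unfold mv
    rw [h1, h2, cyc_apply, cyc_apply, n4_val, n4_val, h5, h6]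
    congr 2
    have hn0 : (n : ℝ) ≠ 0 := by exact_mod_cast hn.ne'
    have hK0 : (K : ℝ) ≠ 0 := by exact_mod_cast hK.ne'
    push_cast
    field_simp
    ring
  rw [h8]
-- END n4

-- BEGIN n5
/-- the maps for which every `f ∈ K` has some correlation below `(∫ f)²` -/
def Ng (K : Set (Lp ℝ 2 μ)) : Set Aut := {T | ∀ f ∈ K, ∃ m, c2 f T m < m2 f ^ 2}

/-- the maps which are almost periodic on `K`, at some time `p ≥ M` -/
def Rg (K : Set (Lp ℝ 2 μ)) (ε : ℝ) (M : ℕ) : Set Aut :=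
  {T | ∃ p, M ≤ p ∧ ∀ f ∈ K, ‖f‖ ^ 2 - ε < c2 f T p}

private theorem n5_step {n K : ℕ} [NeZero n] [NeZero (n * K)] (e : ZMod n ≃ Fin n)
    {f : Lp ℝ 2 μ} {v R e0 e1 : ℝ} (hv : 0 < v) (hR : 1 ≤ R) (hfR : ‖f‖ ≤ R) (he0 : e0 ≤ 1)
    (he : e1 ≤ e0) (h0 : 14 * R * e0 ≤ v / 2) (h1 : 12 * R * e1 ≤ v / 2 / n)
    (hf : m2 f ^ 2 + v ≤ ‖f‖ ^ 2) (he1 : 0 < e1)
    (L : Fin n → ℝ) (hL : ‖f - st n L‖ < e0) (F : Fin (n * K) → ℝ)
    (hF : ‖f - st (n * K) F‖ < e1) :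
    ∃ m, c2 f (Cy (n * K) (lft e)) m < m2 f ^ 2 := by
  have hn : (0 : ℝ) < n := Nat.cast_pos.2 (Nat.pos_of_ne_zero (NeZero.ne n))
  obtain ⟨T, hT⟩ : ∃ T, T = Cy (n * K) (lft e) := ⟨_, rfl⟩
  obtain ⟨A, hA⟩ : ∃ A, A = st n L := ⟨_, rfl⟩
  obtain ⟨B, hB⟩ : ∃ B, B = st (n * K) F := ⟨_, rfl⟩
  rw [← hA] at hL
  rw [← hB] at hF
  have hAn : ‖A‖ ≤ 2 * R := by
    have := norm_sub_norm_le A f
    rw [norm_sub_rev] at this
    linarith
  have hBn : ‖B‖ ≤ 2 * R := by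
    have := norm_sub_norm_le B f
    rw [norm_sub_rev] at this
    linarith
  have hAB : ‖B - A‖ ≤ 2 * e0 := by
    have := norm_sub_le_norm_sub_add_norm_sub B f A
    rw [norm_sub_rev B f] at this
    linarith
  have hper : ∀ j, c2 A T (n * j) = ‖A‖ ^ 2 := by
    intro j
    rw [hT, hA, c2_st, co_lft, ← c2_st, c2_zero]
  have hcor : ∀ m, c2 B T m = cN (fun u => F (lft e u)) (fun u => F (lft e u)) m := by
    intro m
    rw [hT, hB, c2_st, ← co_Cy (lft e) (fun u => F (lft e u)) m]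
    simp only [Equiv.apply_symm_apply]
  have hmean : m2 B = (1 / (n * K : ℕ)) * ∑ u, F (lft e u) := by
    rw [hB, m2_st]
    congr 1
    exact (Equiv.sum_comp (lft e) F).symm
  have b1 : ∀ j, c2 A T (n * j) - 8 * R * e0 ≤ c2 B T (n * j) := by
    intro j
    have k1 := (abs_le.1 (c2_sub_le B A T (n * j))).1
    have k2 : ‖B - A‖ * (‖B‖ + ‖A‖) ≤ (2 * e0) * (4 * R) :=
      mul_le_mul hAB (by linarith) (by positivity) ((norm_nonneg _).trans hAB)
    linarith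
  have b2 : ‖f‖ ^ 2 - 3 * R * e0 ≤ ‖A‖ ^ 2 := by
    have k1 := (abs_le.1 (c2_sub_le f A T 0)).2
    rw [c2_zero, c2_zero] at k1
    have k2 : ‖f - A‖ * (‖f‖ + ‖A‖) ≤ e0 * (3 * R) :=
      mul_le_mul hL.le (by linarith) (by positivity) (by linarith)
    linarith
  have b3 : |m2 f ^ 2 - m2 B ^ 2| ≤ 3 * R * e1 := by
    refine (m2_sq_sub_le f B).trans ?_
    have k2 : ‖f - B‖ * (‖f‖ + ‖B‖) ≤ e1 * (3 * R) :=
      mul_le_mul hF.le (by linarith) (by positivity) he1.le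
    linarith
  have b4 : ∀ m, |c2 f T m - c2 B T m| ≤ 3 * R * e1 := by
    intro m
    refine (c2_sub_le f B T m).trans ?_
    have k2 : ‖f - B‖ * (‖f‖ + ‖B‖) ≤ e1 * (3 * R) :=
      mul_le_mul hF.le (by linarith) (by positivity) he1.le
    linarith
  have hRe : R * e1 ≤ R * e0 := mul_le_mul_of_nonneg_left he (by linarith)
  obtain ⟨m, hm⟩ := cN_small (n := n) (K := K) (F := fun u => F (lft e u)) (t := v / 2)
    (by positivity) (fun j => by
      rw [← hcor, ← hmean]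
      have k1 := b1 j
      rw [hper] at k1
      have k2 := (abs_le.1 b3).1
      linarith)
  rw [← hcor, ← hmean] at hm
  refine ⟨m, ?_⟩
  have k1 := (abs_le.1 (b4 m)).2
  have k2 := (abs_le.1 b3).1
  rw [← hT]
  have k3 : 0 < v / 2 / n := by positivity
  have k4 : 0 < R * e1 := by positivity
  linarith

theorem Ng_dense {K : Set (Lp ℝ 2 μ)} (hK : IsCompact K) {v : ℝ} (hv : 0 < v)
    (h : ∀ f ∈ K, m2 f ^ 2 + v ≤ ‖f‖ ^ 2) : Dense (Ng K) := by
  rw [dense_iff_inter_open]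
  rintro U hU ⟨T0, hT0⟩
  obtain ⟨r, Q, hQ, ε, hε, hUQ⟩ := exists_part hU hT0
  obtain ⟨R0, hR0⟩ := hK.isBounded.exists_norm_le
  obtain ⟨R, hR⟩ : ∃ R, R = max R0 1 := ⟨_, rfl⟩
  have hR1 : 1 ≤ R := by rw [hR]; exact le_max_right _ _
  have hRf : ∀ f ∈ K, ‖f‖ ≤ R := fun f hf => (hR0 f hf).trans (by rw [hR]; exact le_max_left _ _)
  obtain ⟨e0, he0, he01, he02⟩ : ∃ e0 : ℝ, 0 < e0 ∧ e0 ≤ 1 ∧ 14 * R * e0 ≤ v / 2 := by
    refine ⟨min 1 (v / (28 * R)), by positivity, min_le_left _ _, ?_⟩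
    calc 14 * R * min 1 (v / (28 * R)) ≤ 14 * R * (v / (28 * R)) :=
          mul_le_mul_of_nonneg_left (min_le_right _ _) (by positivity)
      _ = v / 2 := by field_simp; ring
  obtain ⟨N1, hN1⟩ := st_dense_compact hK he0
  obtain ⟨N2, hN2⟩ := exists_cyc hQ T0 (half_pos hε)
  obtain ⟨N3, hN3⟩ := exists_nat_gt (2 / ε)
  obtain ⟨n, hn⟩ : ∃ n, n = N1 + N2 + N3 + 1 := ⟨_, rfl⟩
  have : NeZero n := ⟨by omega⟩
  have hn0 : (0 : ℝ) < n := Nat.cast_pos.2 (Nat.pos_of_ne_zero (NeZero.ne n))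
  obtain ⟨e, he⟩ := hN2 n (by omega)
  obtain ⟨e1, he1, he10, he11⟩ : ∃ e1 : ℝ, 0 < e1 ∧ e1 ≤ e0 ∧ 12 * R * e1 ≤ v / 2 / n := by
    refine ⟨min e0 (v / (24 * R * n)), by positivity, min_le_left _ _, ?_⟩
    calc 12 * R * min e0 (v / (24 * R * n)) ≤ 12 * R * (v / (24 * R * n)) :=
          mul_le_mul_of_nonneg_left (min_le_right _ _) (by positivity)
      _ = v / 2 / n := by field_simp; ring
  obtain ⟨N4, hN4⟩ := st_dense_compact hK he1
  have : NeZero (n * (N4 + 1)) := ⟨Nat.mul_ne_zero (NeZero.ne n) (Nat.succ_ne_zero _)⟩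
  have hbig : N4 ≤ n * (N4 + 1) := by
    have : 1 * (N4 + 1) ≤ n * (N4 + 1) := Nat.mul_le_mul_right _ (by omega)
    omega
  refine ⟨Cy (n * (N4 + 1)) (lft e), hUQ _ ?_, ?_⟩
  · have k1 := dQ_lft (K := N4 + 1) Q e
    have k2 := dQ_triangle Q hQ (Cy (n * (N4 + 1)) (lft e)) (Cy n e) T0
    have k3 : 1 / (n : ℝ) < ε / 2 := by
      have k4 : (N3 : ℝ) ≤ n := by
        have : N3 ≤ n := by omega
        exact_mod_cast this
      have k5 : 2 / ε < n := lt_of_lt_of_le hN3 k4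
      rw [div_lt_iff₀ hε] at k5
      rw [div_lt_iff₀ hn0]
      linarith
    linarith
  · intro f hf
    obtain ⟨L, hL⟩ := hN1 n (by omega) f hf
    obtain ⟨F, hF⟩ := hN4 (n * (N4 + 1)) hbig f hf
    exact n5_step e hv hR1 (hRf f hf) he01 he10 he02 he11 (h f hf) he1 L hL F hF

theorem Rg_dense {K : Set (Lp ℝ 2 μ)} (hK : IsCompact K) {ε' : ℝ} (hε' : 0 < ε') (M : ℕ) :
    Dense (Rg K ε' M) := by
  rw [dense_iff_inter_open]
  rintro U hU ⟨T0, hT0⟩
  obtain ⟨r, Q, hQ, ε, hε, hUQ⟩ := exists_part hU hT0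
  obtain ⟨R0, hR0⟩ := hK.isBounded.exists_norm_le
  obtain ⟨R, hR⟩ : ∃ R, R = max R0 1 := ⟨_, rfl⟩
  have hR1 : 1 ≤ R := by rw [hR]; exact le_max_right _ _
  have hRf : ∀ f ∈ K, ‖f‖ ≤ R := fun f hf => (hR0 f hf).trans (by rw [hR]; exact le_max_left _ _)
  obtain ⟨e0, he0, he01, he02⟩ : ∃ e0 : ℝ, 0 < e0 ∧ e0 ≤ 1 ∧ 12 * R * e0 ≤ ε' := by
    refine ⟨min 1 (ε' / (12 * R)), by positivity, min_le_left _ _, ?_⟩
    calc 12 * R * min 1 (ε' / (12 * R)) ≤ 12 * R * (ε' / (12 * R)) :=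
          mul_le_mul_of_nonneg_left (min_le_right _ _) (by positivity)
      _ = ε' := by field_simp
  obtain ⟨N1, hN1⟩ := st_dense_compact hK he0
  obtain ⟨N2, hN2⟩ := exists_cyc hQ T0 hε
  obtain ⟨n, hn⟩ : ∃ n, n = N1 + N2 + 1 := ⟨_, rfl⟩
  have : NeZero n := ⟨by omega⟩
  obtain ⟨e, he⟩ := hN2 n (by omega)
  refine ⟨Cy n e, hUQ _ he, n * M, ?_, fun f hf => ?_⟩
  · have h3 : 1 * M ≤ n * M := Nat.mul_le_mul_right M (by omega)
    omega
  · obtain ⟨L, hL⟩ := hN1 n (by omega) f hf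
    have hfR := hRf f hf
    have h1 : ∀ m, c2 (st n L) (Cy n e) m = cN (fun u => L (e u)) (fun u => L (e u)) m := by
      intro m
      rw [c2_st, ← co_Cy e (fun u => L (e u)) m]
      simp only [Equiv.apply_symm_apply]
    have h2 : c2 (st n L) (Cy n e) (n * M) = c2 (st n L) (Cy n e) 0 := by
      rw [h1, h1]
      unfold cN
      simp
    have hLn : ‖st n L‖ ≤ 2 * R := by
      have := norm_sub_norm_le (st n L) f
      rw [norm_sub_rev] at this
      linarith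
    have h3 : ∀ m, |c2 f (Cy n e) m - c2 (st n L) (Cy n e) m| ≤ 3 * R * e0 := by
      intro m
      refine (c2_sub_le f (st n L) _ m).trans ?_
      have k2 : ‖f - st n L‖ * (‖f‖ + ‖st n L‖) ≤ e0 * (3 * R) :=
        mul_le_mul hL.le (by linarith) (by positivity) he0.le
      linarith
    have h4 := (abs_le.1 (h3 (n * M))).1
    have h5 := (abs_le.1 (h3 0)).2
    rw [h2] at h4
    rw [c2_zero f] at h5
    have h6 : 0 < R * e0 := by positivity
    linarith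
-- END n5

-- BEGIN n6
/-- joint continuity of the correlations -/
theorem c2_near (T : Aut) (f : Lp ℝ 2 μ) (m : ℕ) {ε : ℝ} (hε : 0 < ε) :
    ∀ᶠ z : Aut × Lp ℝ 2 μ in 𝓝 (T, f), |c2 z.2 z.1 m - c2 f T m| < ε := by
  obtain ⟨R, hR⟩ : ∃ R, R = 2 * ‖f‖ + 1 := ⟨_, rfl⟩
  have hf0 := norm_nonneg f
  have hR0 : 0 < R := by linarith
  obtain ⟨d, hd0, hd1, hd2⟩ : ∃ d : ℝ, 0 < d ∧ d ≤ 1 ∧ d * R ≤ ε / 4 := by
    refine ⟨min 1 (ε / (4 * R)), by positivity, min_le_left _ _, ?_⟩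
    calc min 1 (ε / (4 * R)) * R ≤ ε / (4 * R) * R :=
          mul_le_mul_of_nonneg_right (min_le_right _ _) hR0.le
      _ = ε / 4 := by field_simp
  obtain ⟨N0, hN0⟩ := st_dense f hd0
  obtain ⟨L, hL⟩ := hN0 (N0 + 1) (Nat.le_succ N0)
  have hbd : ∀ g : Lp ℝ 2 μ, ‖f - g‖ < d → ∀ S : Aut, |c2 f S m - c2 g S m| ≤ ε / 4 := by
    intro g hg S
    refine (c2_sub_le f g S m).trans ?_
    have h1 := norm_sub_norm_le g f
    rw [norm_sub_rev] at h1
    refine le_trans (mul_le_mul hg.le (show ‖f‖ + ‖g‖ ≤ R by linarith) (by positivity) hd0.le) hd2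
  have hLB : BM (∑ a, |L a|) (fun x => L (P (N0 + 1) x)) :=
    ⟨(measurable_of_countable L).comp (measurable_P _), fun _ =>
      Finset.single_le_sum (f := fun a => |L a|) (fun _ _ => abs_nonneg _) (Finset.mem_univ _)⟩
  obtain ⟨V, hV, hTV, hVS⟩ := co_near hLB T m (show 0 < ε / 4 by positivity)
  have h1 : ∀ᶠ S in 𝓝 T, S ∈ V := hV.mem_nhds hTV
  have h2 : ∀ᶠ g in 𝓝 f, ‖f - g‖ < d := by
    filter_upwards [Metric.ball_mem_nhds f hd0] with g hg
    rw [Metric.mem_ball, dist_comm, dist_eq_norm] at hg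
    exact hg
  filter_upwards [h1.prod_inl_nhds f, h2.prod_inr_nhds T] with z k1 k2
  have e1 := abs_le.1 (hbd _ k2 z.1)
  have e2 := abs_le.1 (hbd _ hL z.1)
  have e3 := abs_le.1 (hbd _ hL T)
  have e4 := abs_lt.1 (hVS _ k1)
  rw [c2_st] at e2 e3
  rw [abs_lt]
  constructor
  · linarith [e1.1, e1.2, e2.1, e2.2, e3.1, e3.2, e4.1, e4.2]
  · linarith [e1.1, e1.2, e2.1, e2.2, e3.1, e3.2, e4.1, e4.2]

theorem Ng_open {K : Set (Lp ℝ 2 μ)} (hK : IsCompact K) : IsOpen (Ng K) := by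
  rw [isOpen_iff_mem_nhds]
  intro T hT
  refine hK.eventually_forall_of_forall_eventually (P := fun T f => ∃ m,
    c2 f T m < m2 f ^ 2) fun f hf => ?_
  obtain ⟨m, hlt⟩ := hT f hf
  have hε : 0 < (m2 f ^ 2 - c2 f T m) / 2 := by linarith
  have h1 := c2_near T f m hε
  have h2 : ∀ᶠ g in 𝓝 f, m2 f ^ 2 - (m2 f ^ 2 - c2 f T m) / 2 < m2 g ^ 2 :=
    (continuous_m2.pow 2).continuousAt.eventually (lt_mem_nhds
      (show m2 f ^ 2 - (m2 f ^ 2 - c2 f T m) / 2 < m2 f ^ 2 by linarith))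
  filter_upwards [h1, h2.prod_inr_nhds T] with z k1 k2
  refine ⟨m, ?_⟩
  have k3 := (abs_lt.1 k1).2
  linarith

theorem Rg_open {K : Set (Lp ℝ 2 μ)} (hK : IsCompact K) (ε : ℝ) (M : ℕ) : IsOpen (Rg K ε M) := by
  rw [isOpen_iff_mem_nhds]
  rintro T ⟨p, hp, hT⟩
  have h0 : ∀ᶠ S in 𝓝 T, ∀ f ∈ K, ‖f‖ ^ 2 - ε < c2 f S p := by
    refine hK.eventually_forall_of_forall_eventually (P := fun S f => ‖f‖ ^ 2 - ε < c2 f S p)
      fun f hf => ?_
    have hlt := hT f hf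
    have hε : 0 < (c2 f T p - (‖f‖ ^ 2 - ε)) / 2 := by linarith
    have h1 := c2_near T f p hε
    have h2 : ∀ᶠ g in 𝓝 f, ‖g‖ ^ 2 < ‖f‖ ^ 2 + (c2 f T p - (‖f‖ ^ 2 - ε)) / 2 := by
      have hc : Continuous fun g : Lp ℝ 2 μ => ‖g‖ ^ 2 := continuous_norm.pow 2
      exact hc.continuousAt.eventually (gt_mem_nhds
        (show ‖f‖ ^ 2 < ‖f‖ ^ 2 + (c2 f T p - (‖f‖ ^ 2 - ε)) / 2 by linarith))
    filter_upwards [h1, h2.prod_inr_nhds T] with z k1 k2
    have k3 := (abs_lt.1 k1).1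
    linarith
  filter_upwards [h0] with S hS
  exact ⟨p, hp, hS⟩
-- END n6

-- BEGIN n7
/-- a generic map has no over-recurrent function in a given `σ`-compact set, not even up to an
error which tends to `0` -/
theorem neg_residual {K : Set (Lp ℝ 2 μ)} (hK : IsSigmaCompact K) :
    {T : Aut | ∀ f ∈ K, (¬ ∃ c : ℝ, ∀ᵐ x ∂μ, f x = c) → ∃ δ : ℝ, 0 < δ ∧ ∀ M : ℕ, ∃ n, M ≤ n ∧
      ∫ x, f x * f ((T.1 : X → X)^[n] x) ∂μ < (∫ x, f x ∂μ) ^ 2 - δ} ∈ residual Aut := by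
  obtain ⟨κ, hκ, rfl⟩ := hK
  have hcl : ∀ i : ℕ, IsClosed {f : Lp ℝ 2 μ | m2 f ^ 2 + 1 / ((i : ℝ) + 1) ≤ ‖f‖ ^ 2} := fun i =>
    isClosed_le ((continuous_m2.pow 2).add continuous_const) (continuous_norm.pow 2)
  have h1 : ∀ j i : ℕ,
      Ng (κ j ∩ {f : Lp ℝ 2 μ | m2 f ^ 2 + 1 / ((i : ℝ) + 1) ≤ ‖f‖ ^ 2}) ∈ residual Aut :=
    fun j i => residual_of_dense_open (Ng_open ((hκ j).inter_right (hcl i)))
      (Ng_dense ((hκ j).inter_right (hcl i)) (v := 1 / ((i : ℝ) + 1)) (by positivity)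
        (fun f hf => hf.2))
  have h2 : (⋂ j : ℕ, ⋂ i : ℕ,
      Ng (κ j ∩ {f : Lp ℝ 2 μ | m2 f ^ 2 + 1 / ((i : ℝ) + 1) ≤ ‖f‖ ^ 2})) ∈ residual Aut := by
    simp only [countable_iInter_mem]
    exact h1
  have h3 : (⋂ j : ℕ, ⋂ l : ℕ, ⋂ M : ℕ, Rg (κ j) (1 / ((l : ℝ) + 1)) M) ∈ residual Aut := by
    simp only [countable_iInter_mem]
    exact fun j l M => residual_of_dense_open (Rg_open (hκ j) _ M)
      (Rg_dense (hκ j) (by positivity) M)
  refine Filter.mem_of_superset (Filter.inter_mem h2 h3) fun T hT f hf hne => ?_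
  obtain ⟨j, hj⟩ := mem_iUnion.1 hf
  have hpos : 0 < ‖f‖ ^ 2 - m2 f ^ 2 := by
    by_contra hcon
    exact hne (const_of_var (by linarith))
  obtain ⟨i, hi⟩ := exists_nat_one_div_lt hpos
  obtain ⟨m, hm⟩ := mem_iInter.1 (mem_iInter.1 hT.1 j) i f ⟨hj, by
    show m2 f ^ 2 + 1 / ((i : ℝ) + 1) ≤ ‖f‖ ^ 2
    linarith⟩
  obtain ⟨δ, hδ⟩ : ∃ δ, δ = (m2 f ^ 2 - c2 f T m) / 2 := ⟨_, rfl⟩
  have hδ0 : 0 < δ := by linarith
  refine ⟨δ, hδ0, fun M => ?_⟩
  have hf0 : 0 < ‖f‖ ^ 2 := by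
    have := sq_nonneg (m2 f)
    linarith
  obtain ⟨l, hl⟩ := exists_nat_one_div_lt (show 0 < δ ^ 2 / (2 * ‖f‖ ^ 2) by positivity)
  obtain ⟨p, hp, hpf⟩ := mem_iInter.1 (mem_iInter.1 (mem_iInter.1 hT.2 j) l) M
  refine ⟨p + m, by omega, ?_⟩
  have k1 := (abs_le.1 (c2_shift f T p m)).2
  have k2 : ‖f‖ * √(2 * (‖f‖ ^ 2 - c2 f T p)) < δ := by
    have k3 := hpf f hj
    have k4 : 2 * (‖f‖ ^ 2 - c2 f T p) < δ ^ 2 / ‖f‖ ^ 2 := by
      have : δ ^ 2 / ‖f‖ ^ 2 = 2 * (δ ^ 2 / (2 * ‖f‖ ^ 2)) := by field_simp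
      rw [this]
      linarith
    have hn : 0 < ‖f‖ := by
      rcases (norm_nonneg f).lt_or_eq with h | h
      · exact h
      · rw [← h] at hf0
        norm_num at hf0
    have k5 : √(2 * (‖f‖ ^ 2 - c2 f T p)) < δ / ‖f‖ := by
      rw [Real.sqrt_lt' (by positivity), div_pow]
      exact k4
    calc ‖f‖ * √(2 * (‖f‖ ^ 2 - c2 f T p)) < ‖f‖ * (δ / ‖f‖) :=
          mul_lt_mul_of_pos_left k5 hn
      _ = δ := by field_simp
  have k6 : c2 f T (p + m) < m2 f ^ 2 - δ := by linarith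
  exact k6
-- END n7

end Pool.Agent.Gor
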