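import Pool.Agent.Gor.Stp

/-!
# Weak mixing is generic (Halmos), proved with the mixing words
-/

set_option autoImplicit false

open MeasureTheory Filter Topology Set

namespace Pool.Agent.Gor

/-- averages of the squares of the correlations -/
noncomputable def sq (f : X → ℝ) (T : Aut) (N : ℕ) : ℝ :=
  (1 / (N : ℝ)) * ∑ n ∈ Finset.range N, (co f T n) ^ 2

/-- `f` is asymptotically uncorrelated to everything, in mean square -/
def Wk (T : Aut) (f : X → ℝ) : Prop := ∀ (C : ℝ) (g : X → ℝ), BM C g →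
  Tendsto (fun N : ℕ => (1 / (N : ℝ)) * ∑ n ∈ Finset.range N, (cr g f T n) ^ 2) atTop (𝓝 0)

-- BEGIN x1
/-- the `n`-th power is continuous: induction on `n` with `exists_open_part` for `Q ∘ T^n` -/
theorem near_iter {r : ℕ} {Q : X → Fin r} (hQ : Measurable Q) (T : Aut) (n : ℕ) {ε : ℝ}
    (hε : 0 < ε) : ∃ V : Set Aut, IsOpen V ∧ T ∈ V ∧
      ∀ S ∈ V, μ.real {x | Q ((S.1 : X → X)^[n] x) ≠ Q ((T.1 : X → X)^[n] x)} < ε := by
  induction n generalizing ε with
  | zero =>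
    refine ⟨Set.univ, isOpen_univ, Set.mem_univ _, fun S _ => ?_⟩
    have h0 : {x : X | Q ((S.1 : X → X)^[0] x) ≠ Q ((T.1 : X → X)^[0] x)} = ∅ := by
      ext x
      simp
    rw [h0, measureReal_empty]
    exact hε
  | succ n ih =>
    obtain ⟨V, hV, hTV, h1⟩ := ih (half_pos hε)
    have hQT : Measurable (fun x => Q ((T.1 : X → X)^[n] x)) :=
      hQ.comp (iter_pres T n).measurable
    obtain ⟨W, hW, hTW, h2⟩ := exists_open_part hQT T (half_pos hε)
    refine ⟨V ∩ W, hV.inter hW, ⟨hTV, hTW⟩, fun S hS => ?_⟩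
    have h3 := h1 S hS.1
    have h4 := h2 S hS.2
    unfold dQ at h4
    have hms : MeasurableSet {y : X | Q ((S.1 : X → X)^[n] y) ≠ Q ((T.1 : X → X)^[n] y)} :=
      (measurableSet_eq_fun (hQ.comp (iter_pres S n).measurable) hQT).compl
    have h5 : μ.real ((S.1 : X → X) ⁻¹'
        {y : X | Q ((S.1 : X → X)^[n] y) ≠ Q ((T.1 : X → X)^[n] y)}) =
        μ.real {y : X | Q ((S.1 : X → X)^[n] y) ≠ Q ((T.1 : X → X)^[n] y)} :=
      S.2.measureReal_preimage hms.nullMeasurableSet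
    have h6 : {x : X | Q ((S.1 : X → X)^[n + 1] x) ≠ Q ((T.1 : X → X)^[n + 1] x)} ⊆
        ((S.1 : X → X) ⁻¹' {y : X | Q ((S.1 : X → X)^[n] y) ≠ Q ((T.1 : X → X)^[n] y)}) ∪
          {x : X | Q ((T.1 : X → X)^[n] (S.1 x)) ≠ Q ((T.1 : X → X)^[n] (T.1 x))} := by
      intro x hx
      have hx' : Q ((S.1 : X → X)^[n] (S.1 x)) ≠ Q ((T.1 : X → X)^[n] (T.1 x)) := hx
      by_cases h : Q ((S.1 : X → X)^[n] (S.1 x)) = Q ((T.1 : X → X)^[n] (S.1 x))
      · exact Or.inr fun h' => hx' (h.trans h')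
      · exact Or.inl h
    have h7 := (measureReal_mono (μ := μ) h6 (measure_ne_top _ _)).trans
      (measureReal_union_le _ _)
    rw [h5] at h7
    linarith
-- END x1

-- BEGIN x2
private theorem x2_bm {B : ℝ} {k : ℕ} [NeZero k] (F : Fin k → ℝ) (hF : ∀ a, |F a| ≤ B) :
    BM B (fun x => F (P k x)) :=
  ⟨(measurable_of_countable F).comp (measurable_P k), fun _ => hF _⟩

private theorem x2_step {B : ℝ} (hB : 0 ≤ B) {k : ℕ} [NeZero k] (F : Fin k → ℝ)
    (hF : ∀ a, |F a| ≤ B) (S T : Aut) (n : ℕ) :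
    |co (fun x => F (P k x)) S n - co (fun x => F (P k x)) T n| ≤
      2 * B ^ 2 * μ.real {x | P k ((S.1 : X → X)^[n] x) ≠ P k ((T.1 : X → X)^[n] x)} := by
  have hm : Measurable (fun x => F (P k x)) := (x2_bm F hF).1
  have hmS : Measurable (fun x => P k ((S.1 : X → X)^[n] x)) :=
    (measurable_P k).comp (iter_pres S n).measurable
  have hmT : Measurable (fun x => P k ((T.1 : X → X)^[n] x)) :=
    (measurable_P k).comp (iter_pres T n).measurable
  have hbS : BM (B * B) (fun x => F (P k x) * F (P k ((S.1 : X → X)^[n] x))) :=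
    ⟨hm.mul ((measurable_of_countable F).comp hmS), fun x => by
      rw [abs_mul]
      exact mul_le_mul (hF _) (hF _) (abs_nonneg _) hB⟩
  have hbT : BM (B * B) (fun x => F (P k x) * F (P k ((T.1 : X → X)^[n] x))) :=
    ⟨hm.mul ((measurable_of_countable F).comp hmT), fun x => by
      rw [abs_mul]
      exact mul_le_mul (hF _) (hF _) (abs_nonneg _) hB⟩
  have hset : MeasurableSet {x | P k ((S.1 : X → X)^[n] x) ≠ P k ((T.1 : X → X)^[n] x)} :=
    (measurableSet_eq_fun hmS hmT).compl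
  have e1 : co (fun x => F (P k x)) S n - co (fun x => F (P k x)) T n =
      ∫ x, (F (P k x) * F (P k ((S.1 : X → X)^[n] x)) -
        F (P k x) * F (P k ((T.1 : X → X)^[n] x))) ∂μ := by
    unfold co
    exact (integral_sub hbS.integrable hbT.integrable).symm
  have e2 : 2 * B ^ 2 * μ.real {x | P k ((S.1 : X → X)^[n] x) ≠ P k ((T.1 : X → X)^[n] x)} =
      ∫ x, Set.indicator {x | P k ((S.1 : X → X)^[n] x) ≠ P k ((T.1 : X → X)^[n] x)}
        (fun _ => 2 * B ^ 2) x ∂μ := by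
    rw [integral_indicator_const _ hset, smul_eq_mul, mul_comm]
  rw [e1, e2]
  refine (abs_integral_le_integral_abs).trans ?_
  refine integral_mono (hbS.integrable.sub hbT.integrable).abs
    ((integrable_const (2 * B ^ 2)).indicator hset) fun x => ?_
  by_cases hx : P k ((S.1 : X → X)^[n] x) = P k ((T.1 : X → X)^[n] x)
  · have h1 : |F (P k x) * F (P k ((S.1 : X → X)^[n] x)) -
        F (P k x) * F (P k ((T.1 : X → X)^[n] x))| = 0 := by
      rw [hx, sub_self, abs_zero]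
    show |F (P k x) * F (P k ((S.1 : X → X)^[n] x)) -
        F (P k x) * F (P k ((T.1 : X → X)^[n] x))| ≤ _
    rw [h1]
    exact Set.indicator_nonneg (fun _ _ => by positivity) x
  · have h2 : x ∈ {x | P k ((S.1 : X → X)^[n] x) ≠ P k ((T.1 : X → X)^[n] x)} := hx
    rw [Set.indicator_of_mem h2]
    show |F (P k x) * F (P k ((S.1 : X → X)^[n] x)) -
        F (P k x) * F (P k ((T.1 : X → X)^[n] x))| ≤ 2 * B ^ 2
    have h3 := hbS.2 x
    have h4 := hbT.2 x
    refine (abs_sub _ _).trans ?_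
    nlinarith [h3, h4]

/-- from `exists_step` and `near_iter` -/
theorem co_near {B : ℝ} {f : X → ℝ} (hf : BM B f) (T : Aut) (n : ℕ) {ε : ℝ} (hε : 0 < ε) :
    ∃ V : Set Aut, IsOpen V ∧ T ∈ V ∧ ∀ S ∈ V, |co f S n - co f T n| < ε := by
  have hB : 0 ≤ B := (abs_nonneg _).trans (hf.2 0)
  have hδ : 0 < ε / (8 * (B + 1)) := by positivity
  have hη : 0 < ε / (4 * (B ^ 2 + 1)) := by positivity
  obtain ⟨N0, hN0⟩ := exists_step hf hδ
  obtain ⟨F, hF, -, hF2⟩ := hN0 (N0 + 1) (Nat.le_succ N0)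
  obtain ⟨V, hV, hTV, hVS⟩ := near_iter (measurable_P (N0 + 1)) T n hη
  have hbF : BM B (fun x => F (P (N0 + 1) x)) := x2_bm F hF
  have happ : ∀ S : Aut, |co f S n - co (fun x => F (P (N0 + 1) x)) S n| ≤
      2 * B * (ε / (8 * (B + 1))) := by
    intro S
    have h1 := cr_sub_le hf hbF hf hbF S n
    rw [← co_eq_cr, ← co_eq_cr] at h1
    have h2 : B * (∫ x, |f x - F (P (N0 + 1) x)| ∂μ) ≤ B * (ε / (8 * (B + 1))) :=
      mul_le_mul_of_nonneg_left hF2.le hB
    linarith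
  refine ⟨V, hV, hTV, fun S hS => ?_⟩
  have h3 := happ S
  have h4 := happ T
  have h5 := x2_step hB F hF S T n
  have h6 : 2 * B ^ 2 * μ.real {x | P (N0 + 1) ((S.1 : X → X)^[n] x) ≠
      P (N0 + 1) ((T.1 : X → X)^[n] x)} ≤ 2 * B ^ 2 * (ε / (4 * (B ^ 2 + 1))) :=
    mul_le_mul_of_nonneg_left (hVS S hS).le (by positivity)
  have h7 : 4 * B * (ε / (8 * (B + 1))) < ε / 2 := by
    have hB1 : 0 < B + 1 := by linarith
    have e1 : 4 * B * (ε / (8 * (B + 1))) = ε / 2 * (B / (B + 1)) := by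
      field_simp
      ring
    have e2 : B / (B + 1) < 1 := by
      rw [div_lt_one hB1]
      linarith
    rw [e1]
    nlinarith
  have h8 : 2 * B ^ 2 * (ε / (4 * (B ^ 2 + 1))) ≤ ε / 2 := by
    have hB1 : 0 < B ^ 2 + 1 := by positivity
    have e1 : 2 * B ^ 2 * (ε / (4 * (B ^ 2 + 1))) = ε / 2 * (B ^ 2 / (B ^ 2 + 1)) := by
      field_simp
      ring
    have e2 : B ^ 2 / (B ^ 2 + 1) ≤ 1 := by
      rw [div_le_one hB1]
      linarith
    rw [e1]
    nlinarith
  rw [abs_le] at h3 h4 h5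
  rw [abs_lt]
  constructor
  · linarith [h3.1, h3.2, h4.1, h4.2, h5.1, h5.2]
  · linarith [h3.1, h3.2, h4.1, h4.2, h5.1, h5.2]

private theorem x2_cont {B : ℝ} {f : X → ℝ} (hf : BM B f) (n : ℕ) :
    Continuous (fun T : Aut => co f T n) := by
  rw [continuous_iff_continuousAt]
  intro T
  show Tendsto (fun S : Aut => co f S n) (𝓝 T) (𝓝 (co f T n))
  rw [Metric.tendsto_nhds]
  intro ε hε
  obtain ⟨V, hV, hTV, hVS⟩ := co_near hf T n hε
  filter_upwards [hV.mem_nhds hTV] with S hS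
  rw [Real.dist_eq]
  exact hVS S hS

theorem sq_open {B : ℝ} {f : X → ℝ} (hf : BM B f) (N : ℕ) (c : ℝ) :
    IsOpen {T : Aut | sq f T N < c} := by
  have h1 : Continuous (fun T : Aut => sq f T N) := by
    unfold sq
    exact continuous_const.mul (continuous_finsetSum _ fun n _ => (x2_cont hf n).pow 2)
  exact isOpen_lt h1 continuous_const
-- END x2

-- BEGIN x3
private theorem x3_triv (h : ℕ) {B : ℝ} (F G : ℕ → ℝ) (hF : ∀ x, |F x| ≤ B) (hG : ∀ x, |G x| ≤ B)
    (t : ℕ) : |ch h F G t| ≤ B ^ 2 := by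
  have hB : 0 ≤ B := (abs_nonneg _).trans (hF 0)
  unfold ch
  rw [abs_mul, abs_of_nonneg (by positivity : (0 : ℝ) ≤ 1 / (h : ℝ))]
  have h1 : |∑ a ∈ Finset.range h, F a * G (a + t)| ≤ h * B ^ 2 := by
    refine (Finset.abs_sum_le_sum_abs _ _).trans ?_
    have h2 : ∑ a ∈ Finset.range h, |F a * G (a + t)| ≤ ∑ _a ∈ Finset.range h, B ^ 2 := by
      refine Finset.sum_le_sum fun a _ => ?_
      rw [abs_mul, pow_two]
      exact mul_le_mul (hF a) (hG _) (abs_nonneg _) hB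
    refine h2.trans (le_of_eq ?_)
    rw [Finset.sum_const, Finset.card_range, nsmul_eq_mul]
  rcases Nat.eq_zero_or_pos h with h0 | h0
  · subst h0
    simp only [Nat.cast_zero, div_zero, zero_mul]
    positivity
  · have h3 : (0 : ℝ) < h := by exact_mod_cast h0
    calc 1 / (h : ℝ) * |∑ a ∈ Finset.range h, F a * G (a + t)| ≤ 1 / (h : ℝ) * (h * B ^ 2) :=
          mul_le_mul_of_nonneg_left h1 (by positivity)
      _ = B ^ 2 := by field_simp

/-- the word is mixing on average: `wd_corr_mid` for `N K ≤ n ≤ h - N K`, the trivial bound `B ^ 2`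
for the other `2 N K` values of `n` -/
theorem word_sq {N K : ℕ} [Fact N.Prime] (hN : Odd N) (hK : 1 ≤ K) {B : ℝ} {F : ZMod N → ℝ}
    (hF : ∑ x, F x = 0) (hB : ∀ x, |F x| ≤ B) :
    (1 / ((N * (N * K) : ℕ) : ℝ)) * ∑ n ∈ Finset.range (N * (N * K)),
      (ch (N * (N * K)) (fun a => F (wd N K a)) (fun a => F (wd N K a)) n) ^ 2 ≤
        2 * B ^ 4 / N + 16 * B ^ 4 / K ^ 2 := by
  have hN0 : 0 < N := (Fact.out : N.Prime).pos
  have hL : 0 < N * K := Nat.mul_pos hN0 hK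
  have hh : 0 < N * (N * K) := Nat.mul_pos hN0 hL
  have hNr : (0 : ℝ) < N := by exact_mod_cast hN0
  have hKr : (0 : ℝ) < K := by exact_mod_cast hK
  set L : ℕ := N * K with hLdef
  set c : ℕ → ℝ := fun n => ch (N * L) (fun a => F (wd N K a)) (fun a => F (wd N K a)) n with hc
  have htriv : ∀ n, (c n) ^ 2 ≤ B ^ 4 := by
    intro n
    have h1 : |c n| ≤ B ^ 2 := x3_triv _ _ _ (fun x => hB _) (fun x => hB _) n
    have h2 : (c n) ^ 2 = |c n| ^ 2 := (sq_abs _).symm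
    rw [h2]
    calc |c n| ^ 2 ≤ (B ^ 2) ^ 2 := pow_le_pow_left₀ (abs_nonneg _) h1 2
      _ = B ^ 4 := by ring
  have hB4 : (0 : ℝ) ≤ B ^ 4 := by positivity
  have hE : (0 : ℝ) ≤ 16 * B ^ 4 / K ^ 2 := by positivity
  have hpt : ∀ n ∈ Finset.range (N * L), (c n) ^ 2 ≤
      ((if n < L then B ^ 4 else 0) + (if N * L - L < n then B ^ 4 else 0)) +
        16 * B ^ 4 / K ^ 2 := by
    intro n _
    by_cases h1 : n < L
    · rw [if_pos h1]
      have h3 : (0 : ℝ) ≤ (if N * L - L < n then B ^ 4 else 0) := by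
        split_ifs
        · exact hB4
        · exact le_refl _
      linarith [htriv n]
    · by_cases h2 : N * L - L < n
      · rw [if_pos h2, if_neg h1]
        linarith [htriv n]
      · rw [if_neg h1, if_neg h2]
        have hLh : L ≤ N * L := Nat.le_mul_of_pos_left _ hN0
        have ha : L ≤ n := by omega
        have hb : n + L ≤ N * L := by omega
        have h4 : |c n| ≤ 4 * B ^ 2 / K := wd_corr_mid hN hK hF hB (t := n) ha hb
        have h5 : (c n) ^ 2 = |c n| ^ 2 := (sq_abs _).symm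
        rw [h5, add_zero, zero_add]
        calc |c n| ^ 2 ≤ (4 * B ^ 2 / K) ^ 2 := pow_le_pow_left₀ (abs_nonneg _) h4 2
          _ = 16 * B ^ 4 / K ^ 2 := by
            rw [div_pow]
            ring
  have hs1 : ∑ n ∈ Finset.range (N * L), (if n < L then B ^ 4 else (0 : ℝ)) ≤ L * B ^ 4 := by
    rw [← Finset.sum_filter, Finset.sum_const, nsmul_eq_mul]
    refine mul_le_mul_of_nonneg_right ?_ hB4
    have h6 : ((Finset.range (N * L)).filter fun n => n < L).card ≤ (Finset.range L).card := by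
      refine Finset.card_le_card fun n hn => ?_
      rw [Finset.mem_filter] at hn
      exact Finset.mem_range.2 hn.2
    rw [Finset.card_range] at h6
    exact_mod_cast h6
  have hs2 : ∑ n ∈ Finset.range (N * L), (if N * L - L < n then B ^ 4 else (0 : ℝ)) ≤
      L * B ^ 4 := by
    rw [← Finset.sum_filter, Finset.sum_const, nsmul_eq_mul]
    refine mul_le_mul_of_nonneg_right ?_ hB4
    have h6 : ((Finset.range (N * L)).filter fun n => N * L - L < n).card ≤
        (Finset.Ico (N * L - L) (N * L)).card := by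
      refine Finset.card_le_card fun n hn => ?_
      rw [Finset.mem_filter, Finset.mem_range] at hn
      rw [Finset.mem_Ico]
      omega
    rw [Nat.card_Ico] at h6
    have h7 : ((Finset.range (N * L)).filter fun n => N * L - L < n).card ≤ L := by omega
    exact_mod_cast h7
  have hsum : ∑ n ∈ Finset.range (N * L), (c n) ^ 2 ≤
      (L * B ^ 4 + L * B ^ 4) + ((N * L : ℕ) : ℝ) * (16 * B ^ 4 / K ^ 2) := by
    refine (Finset.sum_le_sum hpt).trans ?_
    rw [Finset.sum_add_distrib, Finset.sum_add_distrib, Finset.sum_const, Finset.card_range,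
      nsmul_eq_mul]
    linarith
  have hhr : (0 : ℝ) < ((N * L : ℕ) : ℝ) := by exact_mod_cast hh
  have hLr : (0 : ℝ) < (L : ℝ) := by exact_mod_cast hL
  calc (1 / ((N * L : ℕ) : ℝ)) * ∑ n ∈ Finset.range (N * L), (c n) ^ 2
      ≤ (1 / ((N * L : ℕ) : ℝ)) *
        ((L * B ^ 4 + L * B ^ 4) + ((N * L : ℕ) : ℝ) * (16 * B ^ 4 / K ^ 2)) :=
        mul_le_mul_of_nonneg_left hsum (by positivity)
    _ = 2 * B ^ 4 / N + 16 * B ^ 4 / K ^ 2 := by
      rw [Nat.cast_mul]
      field_simp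
      ring
-- END x3

-- BEGIN x4
private theorem x4_choose (B : ℝ) {c : ℝ} (hc : 0 < c) : ∃ (δ : ℝ) (n : ℕ), 0 < δ ∧ 1 ≤ n ∧
    ∀ N K : ℝ, (n : ℝ) ≤ N → (n : ℝ) ≤ K →
      2 * (2 * B ^ 4 / N + 16 * B ^ 4 / K ^ 2) + 8 * B ^ 2 * δ ^ 2 < c := by
  obtain ⟨n, hn⟩ := exists_nat_gt (200 * (B ^ 4 + 1) / c)
  have hB4 : 0 ≤ B ^ 4 := by positivity
  have hn0 : (0 : ℝ) < n := lt_trans (by positivity) hn
  have hn1 : 1 ≤ n := by exact_mod_cast hn0
  have hn1r : (1 : ℝ) ≤ n := by exact_mod_cast hn1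
  set δ : ℝ := √(c / (16 * (B ^ 2 + 1))) with hδ
  have hδ2 : δ ^ 2 = c / (16 * (B ^ 2 + 1)) := Real.sq_sqrt (by positivity)
  refine ⟨δ, n, Real.sqrt_pos.2 (by positivity), hn1, fun N K hN hK => ?_⟩
  have hN0 : 0 < N := hn0.trans_le hN
  have hK0 : 0 < K := hn0.trans_le hK
  have h1 : 2 * B ^ 4 / N ≤ 2 * B ^ 4 / n := div_le_div_of_nonneg_left (by positivity) hn0 hN
  have h2 : 16 * B ^ 4 / K ^ 2 ≤ 16 * B ^ 4 / n := by
    refine div_le_div_of_nonneg_left (by positivity) hn0 ?_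
    nlinarith
  have h3 : 200 * (B ^ 4 + 1) < n * c := by
    rwa [div_lt_iff₀ hc] at hn
  have h4 : 2 * (2 * B ^ 4 / n + 16 * B ^ 4 / n) ≤ c / 4 := by
    have : 2 * (2 * B ^ 4 / (n : ℝ) + 16 * B ^ 4 / n) = 36 * B ^ 4 / n := by ring
    rw [this, div_le_iff₀ hn0]
    nlinarith
  have h5 : 8 * B ^ 2 * δ ^ 2 ≤ c / 2 := by
    rw [hδ2]
    have : 8 * B ^ 2 * (c / (16 * (B ^ 2 + 1))) = c / 2 * (B ^ 2 / (B ^ 2 + 1)) := by
      field_simp
      ring
    rw [this]
    have h6 : B ^ 2 / (B ^ 2 + 1) ≤ 1 := by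
      rw [div_le_one (by positivity)]
      linarith
    have h7 : 0 ≤ c / 2 := by positivity
    calc c / 2 * (B ^ 2 / (B ^ 2 + 1)) ≤ c / 2 * 1 := mul_le_mul_of_nonneg_left h6 h7
      _ = c / 2 := mul_one _
  linarith

/-- density: `exists_data'`, `P_word`, `stable_near` with `e = 0`, `word_sq`, `cr_sub_le` -/
theorem sq_dense {B : ℝ} {f : X → ℝ} (hf : BM B f) (h0 : ∫ x, f x ∂μ = 0) {U : Set Aut}
    (hU : IsOpen U) (hne : U.Nonempty) (M : ℕ) {c : ℝ} (hc : 0 < c) :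
    ∃ T ∈ U, ∃ N : ℕ, M ≤ N ∧ 1 ≤ N ∧ sq f T N < c := by
  have hB0 : 0 ≤ B := (abs_nonneg _).trans (hf.2 0)
  obtain ⟨δ, n, hδ, hn1, hδn⟩ := x4_choose B hc
  obtain ⟨N, K, hNp, hne', e, E, F, hodd, -, hN0, -, hK1, hK0, hm, hFB, hF0, hFd, -, hEU, hE⟩ :=
    exists_data' hU hne hf h0 hδ M n n
  have hN1 : 1 ≤ N := hNp.out.one_le
  have hh : 0 < N * (N * K) := Nat.pos_of_ne_zero (NeZero.ne _)
  refine ⟨Cy (N * (N * K)) E, hEU, N * (N * K), ?_, hh, ?_⟩
  · exact hm.trans (Nat.le_mul_of_pos_left _ hN1)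
  set T := Cy (N * (N * K)) E with hT
  set G : ℕ → ℝ := fun a => F (wd N K a) with hG
  have hGB : ∀ a, |G a| ≤ B := fun a => hFB _
  have hGp : ∀ a, G (a + N * (N * K)) = G a := fun a => by
    show F (wd N K (a + N * (N * K))) = F (wd N K a)
    rw [wd_period hodd hK1]
  have hdQ : dQ (P (N * (N * K))) T T ≤ 0 := by
    unfold dQ
    have : {x | P (N * (N * K)) (T.1 x) ≠ P (N * (N * K)) (T.1 x)} = ∅ := by
      ext x
      simp
    rw [this, measureReal_empty]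
  have hco : ∀ k : ℕ, co (lv E G) T k = ch (N * (N * K)) G G k := by
    intro k
    have h := stable_near E T (e := 0) hdQ (n := k) hGB hGp
    simp only [mul_zero, add_zero, abs_nonpos_iff] at h
    exact sub_eq_zero.1 h
  have hlv : ∀ x, lv E G x = F (e.symm (P N x)) := by
    intro x
    show F (wd N K (E.symm (P (N * (N * K)) x)).val) = F (e.symm (P N x))
    rw [P_word e E hE x]
  have hint : ∫ x, |f x - lv E G x| ∂μ < δ := by
    simp only [hlv]
    exact hFd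
  have hclose : ∀ k : ℕ, |co f T k - co (lv E G) T k| ≤ 2 * B * δ := by
    intro k
    have h := cr_sub_le hf (lv_BM E hGB) hf (lv_BM E hGB) T k
    rw [co_eq_cr, co_eq_cr]
    have h1 : B * ∫ x, |f x - lv E G x| ∂μ ≤ B * δ := mul_le_mul_of_nonneg_left hint.le hB0
    linarith
  have hterm : ∀ k : ℕ, (co f T k) ^ 2 ≤
      2 * (ch (N * (N * K)) G G k) ^ 2 + 8 * B ^ 2 * δ ^ 2 := by
    intro k
    have h1 := hclose k
    rw [hco k] at h1
    have h2 : (co f T k - ch (N * (N * K)) G G k) ^ 2 ≤ (2 * B * δ) ^ 2 := by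
      rw [← sq_abs]
      exact pow_le_pow_left₀ (abs_nonneg _) h1 2
    nlinarith [sq_nonneg (co f T k - 2 * ch (N * (N * K)) G G k)]
  have hws := word_sq (N := N) (K := K) hodd hK1 hF0 hFB
  have hhr : (0 : ℝ) < ((N * (N * K) : ℕ) : ℝ) := by exact_mod_cast hh
  have hsum : sq f T (N * (N * K)) ≤ 2 * ((1 / ((N * (N * K) : ℕ) : ℝ)) *
      ∑ k ∈ Finset.range (N * (N * K)), (ch (N * (N * K)) G G k) ^ 2) + 8 * B ^ 2 * δ ^ 2 := by
    unfold sq
    calc (1 / ((N * (N * K) : ℕ) : ℝ)) * ∑ k ∈ Finset.range (N * (N * K)), (co f T k) ^ 2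
        ≤ (1 / ((N * (N * K) : ℕ) : ℝ)) * ∑ k ∈ Finset.range (N * (N * K)),
          (2 * (ch (N * (N * K)) G G k) ^ 2 + 8 * B ^ 2 * δ ^ 2) :=
          mul_le_mul_of_nonneg_left (Finset.sum_le_sum fun k _ => hterm k) (by positivity)
      _ = _ := by
          rw [Finset.sum_add_distrib, ← Finset.mul_sum, Finset.sum_const, Finset.card_range,
            nsmul_eq_mul]
          field_simp
  have hfin := hδn N K (by exact_mod_cast hN0) (by exact_mod_cast hK0)
  linarith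
-- END x4

-- BEGIN x5
/-- mean ergodic theorem (`ContinuousLinearMap.tendsto_birkhoffAverage_orthogonalProjection`) -/
theorem hilbert_avg {H : Type} [NormedAddCommGroup H] [InnerProductSpace ℝ H] [CompleteSpace H]
    (U : H →L[ℝ] H) (hU : ‖U‖ ≤ 1) (x : H)
    (h : ∀ (M : ℕ) (c : ℝ), 0 < c → ∃ N : ℕ, M ≤ N ∧ 1 ≤ N ∧
      (1 / (N : ℝ)) * ∑ n ∈ Finset.range N, inner ℝ x ((U ^ n) x) < c) (y : H) :
    Tendsto (fun N : ℕ => (1 / (N : ℝ)) * ∑ n ∈ Finset.range N, inner ℝ y ((U ^ n) x))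
      atTop (𝓝 0) := by
  have hmain := ContinuousLinearMap.tendsto_birkhoffAverage_orthogonalProjection U hU x
  set p : H := ((U.eqLocus (1 : H →L[ℝ] H)).orthogonalProjectionOnto x : H) with hp
  have key : ∀ z : H, Tendsto
      (fun N : ℕ => (1 / (N : ℝ)) * ∑ n ∈ Finset.range N, inner ℝ z ((U ^ n) x))
      atTop (𝓝 (inner ℝ z p)) := by
    intro z
    have h1 : Tendsto (fun N : ℕ => inner ℝ z (birkhoffAverage ℝ U _root_.id N x)) atTop
        (𝓝 (inner ℝ z p)) := by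
      exact (tendsto_const_nhds (x := z)).inner hmain
    refine h1.congr fun N => ?_
    unfold birkhoffAverage birkhoffSum
    rw [inner_smul_right, inner_sum, one_div]
    refine congrArg _ (Finset.sum_congr rfl fun n _ => ?_)
    rw [id, ← FunLike.coe_pow_eq_iterate]
  have hxp : inner ℝ x p = ‖p‖ ^ 2 := by
    have h2 : inner ℝ (x - p) p = 0 :=
      Submodule.starProjection_inner_eq_zero x p (Submodule.coe_mem _)
    have h3 : inner ℝ x p = inner ℝ (x - p) p + inner ℝ p p := by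
      rw [← inner_add_left, sub_add_cancel]
    rw [h3, h2, zero_add, real_inner_self_eq_norm_sq]
  have hle : ‖p‖ ^ 2 ≤ 0 := by
    rw [← hxp]
    refine le_of_forall_pos_le_add fun c hc => ?_
    rw [zero_add]
    by_contra hcon
    rw [not_le] at hcon
    have h4 := (key x).eventually (lt_mem_nhds hcon)
    obtain ⟨M, hM⟩ := eventually_atTop.1 h4
    obtain ⟨N, h5, _, h6⟩ := h M c hc
    exact absurd (hM N h5) (not_lt.2 h6.le)
  have hp0 : p = 0 := by
    have h7 : ‖p‖ = 0 := by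
      have h8 : ‖p‖ ^ 2 = 0 := le_antisymm hle (by positivity)
      exact pow_eq_zero_iff (by norm_num) |>.1 h8
    exact norm_eq_zero.1 h7
  have h9 := key y
  rw [hp0, inner_zero_right] at h9
  exact h9
-- END x5

-- BEGIN x6
private theorem x6_bm {B C : ℝ} {f g : X → ℝ} (hf : BM B f) (hg : BM C g) :
    ∀ x, |f x * g x| ≤ B * C := fun x => by
  rw [abs_mul]
  exact mul_le_mul (hf.2 x) (hg.2 x) (abs_nonneg _) ((abs_nonneg _).trans (hf.2 x))

private theorem x6_memLp {B : ℝ} {f : X → ℝ} (hf : BM B f) :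
    MemLp (fun p : X × X => f p.1 * f p.2) 2 (μ.prod μ) := by
  refine MemLp.of_bound ?_ (B * B) ?_
  · exact ((hf.1.comp measurable_fst).mul (hf.1.comp measurable_snd)).aestronglyMeasurable
  · refine Filter.Eventually.of_forall fun p => ?_
    rw [Real.norm_eq_abs, abs_mul]
    exact mul_le_mul (hf.2 _) (hf.2 _) (abs_nonneg _) ((abs_nonneg _).trans (hf.2 p.1))

private theorem x6_pow (T : Aut) {u : X × X → ℝ} (hu : MemLp u 2 (μ.prod μ)) (n : ℕ)
    (hS : MeasurePreserving (Prod.map (T.1 : X → X) (T.1 : X → X)) (μ.prod μ) (μ.prod μ)) :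
    ((Lp.compMeasurePreservingₗᵢ ℝ (Prod.map (T.1 : X → X) (T.1 : X → X)) hS :
      Lp ℝ 2 (μ.prod μ) →ₗᵢ[ℝ] Lp ℝ 2 (μ.prod μ)).toContinuousLinearMap ^ n) (hu.toLp u) =
      (hu.comp_measurePreserving (hS.iterate n)).toLp
        (u ∘ (Prod.map (T.1 : X → X) (T.1 : X → X))^[n]) := by
  induction n with
  | zero => rfl
  | succ n ih =>
    rw [pow_succ', mul_apply_eq_comp, ih]
    rfl

private theorem x6_inner (T : Aut) {B C : ℝ} {f g : X → ℝ} (hf : BM B f) (hg : BM C g) (n : ℕ)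
    (hS : MeasurePreserving (Prod.map (T.1 : X → X) (T.1 : X → X)) (μ.prod μ) (μ.prod μ)) :
    inner ℝ ((x6_memLp hg).toLp _)
      (((x6_memLp hf).comp_measurePreserving (hS.iterate n)).toLp _) = (cr g f T n) ^ 2 := by
  rw [L2.inner_def]
  have h1 : ∫ p, inner ℝ (((x6_memLp hg).toLp _ : Lp ℝ 2 (μ.prod μ)) p)
      ((((x6_memLp hf).comp_measurePreserving (hS.iterate n)).toLp _ : Lp ℝ 2 (μ.prod μ)) p)
      ∂(μ.prod μ) = ∫ p : X × X, (g p.1 * f ((T.1 : X → X)^[n] p.1)) *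
        (g p.2 * f ((T.1 : X → X)^[n] p.2)) ∂(μ.prod μ) := by
    refine integral_congr_ae ?_
    filter_upwards [(x6_memLp hg).coeFn_toLp,
      ((x6_memLp hf).comp_measurePreserving (hS.iterate n)).coeFn_toLp] with p h2 h3
    rw [h2, h3, Function.comp_apply, Prod.map_iterate]
    simp only [Prod.map_fst, Prod.map_snd, RCLike.inner_apply, conj_trivial]
    ring
  rw [h1, integral_prod_mul (fun x => g x * f ((T.1 : X → X)^[n] x))
    (fun x => g x * f ((T.1 : X → X)^[n] x))]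
  rw [pow_two]
  rfl

/-- `hilbert_avg` in `L²(μ × μ)` with `x = f ⊗ f`, `y = g ⊗ g` and `U` the composition with
`T × T` (`Lp.compMeasurePreservingₗᵢ`) -/
theorem Wk_of_sq {B : ℝ} {f : X → ℝ} (hf : BM B f) (T : Aut)
    (h : ∀ (M : ℕ) (c : ℝ), 0 < c → ∃ N : ℕ, M ≤ N ∧ 1 ≤ N ∧ sq f T N < c) : Wk T f := by
  have hS : MeasurePreserving (Prod.map (T.1 : X → X) (T.1 : X → X)) (μ.prod μ) (μ.prod μ) :=
    T.2.prod T.2
  intro C g hg
  have key := hilbert_avg (H := Lp ℝ 2 (μ.prod μ))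
    (Lp.compMeasurePreservingₗᵢ ℝ (Prod.map (T.1 : X → X) (T.1 : X → X)) hS :
      Lp ℝ 2 (μ.prod μ) →ₗᵢ[ℝ] Lp ℝ 2 (μ.prod μ)).toContinuousLinearMap
    (LinearIsometry.norm_toContinuousLinearMap_le _) ((x6_memLp hf).toLp _) ?_
    ((x6_memLp hg).toLp _)
  · refine key.congr fun N => ?_
    refine congrArg _ (Finset.sum_congr rfl fun n _ => ?_)
    rw [x6_pow T (x6_memLp hf) n hS, x6_inner T hf hg n hS]
  · intro M c hc
    obtain ⟨N, h1, h2, h3⟩ := h M c hc
    refine ⟨N, h1, h2, lt_of_eq_of_lt ?_ h3⟩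
    unfold sq
    refine congrArg _ (Finset.sum_congr rfl fun n _ => ?_)
    rw [x6_pow T (x6_memLp hf) n hS, x6_inner T hf hf n hS, co_eq_cr]
-- END x6

-- BEGIN x7
private theorem x7_nonneg {B : ℝ} {f : X → ℝ} (hf : BM B f) : 0 ≤ B :=
  (abs_nonneg _).trans (hf.2 0)

private theorem x7_ind (n : ℕ) [NeZero n] (a : Fin n) :
    BM (1 + 1 / (n : ℝ)) (fun x : X => (if P n x = a then (1 : ℝ) else 0) - 1 / n) := by
  refine ⟨?_, fun x => ?_⟩
  · have h1 : Measurable (fun i : Fin n => (if i = a then (1 : ℝ) else 0) - 1 / n) :=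
      measurable_of_countable _
    exact h1.comp (measurable_P n)
  · show |(if P n x = a then (1 : ℝ) else 0) - 1 / n| ≤ 1 + 1 / (n : ℝ)
    have h2 : (0 : ℝ) ≤ 1 / n := by positivity
    refine (abs_sub _ _).trans ?_
    rw [abs_of_nonneg h2]
    split_ifs <;> simp

private theorem x7_int {B C : ℝ} {f g : X → ℝ} (hf : BM B f) (hg : BM C g) (T : Aut) (m : ℕ) :
    Integrable (fun x => g x * f ((T.1 : X → X)^[m] x)) μ := by
  have hm : Measurable (fun x => g x * f ((T.1 : X → X)^[m] x)) :=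
    hg.1.mul (hf.1.comp (iter_pres T m).measurable)
  have hb : BM (C * B) (fun x => g x * f ((T.1 : X → X)^[m] x)) := by
    refine ⟨hm, fun x => ?_⟩
    show |g x * f ((T.1 : X → X)^[m] x)| ≤ C * B
    rw [abs_mul]
    exact mul_le_mul (hg.2 x) (hf.2 _) (abs_nonneg _) (x7_nonneg hg)
  exact hb.integrable

private theorem x7_lin {n : ℕ} [NeZero n] {F : Fin n → ℝ} (h0 : ∑ a, F a = 0) {C : ℝ} {g : X → ℝ}
    (hg : BM C g) (T : Aut) (m : ℕ) :
    cr g (fun x => F (P n x)) T m =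
      ∑ a, F a * cr g (fun x => (if P n x = a then (1 : ℝ) else 0) - 1 / n) T m := by
  have hpt : ∀ y : X, F (P n y) =
      ∑ a, F a * ((if P n y = a then (1 : ℝ) else 0) - 1 / n) := by
    intro y
    have h1 : ∑ a, F a * ((if P n y = a then (1 : ℝ) else 0) - 1 / n) =
        (∑ a, F a * (if P n y = a then (1 : ℝ) else 0)) - (∑ a, F a) * (1 / n) := by
      rw [Finset.sum_mul, ← Finset.sum_sub_distrib]
      exact Finset.sum_congr rfl fun a _ => by ring
    rw [h1, h0]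
    simp
  unfold cr
  simp only [← integral_const_mul]
  rw [← integral_finsetSum _ (fun a _ => (x7_int (x7_ind n a) hg T m).const_mul (F a))]
  refine integral_congr_ae (Filter.Eventually.of_forall fun x => ?_)
  show g x * F (P n ((T.1 : X → X)^[m] x)) = _
  rw [hpt, Finset.mul_sum]
  exact Finset.sum_congr rfl fun a _ => by ring

/-- from the intervals to all bounded functions: linear combinations and `exists_step`,
`cr_sub_le` -/
theorem Wk_all (T : Aut)
    (h : ∀ (k : ℕ) [NeZero k] (a : Fin k), Wk T (fun x => (if P k x = a then 1 else 0) - 1 / k))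
    {B : ℝ} {f : X → ℝ} (hf : BM B f) (h0 : ∫ x, f x ∂μ = 0) : Wk T f := by
  intro C g hg
  have hC := x7_nonneg hg
  rw [Metric.tendsto_atTop]
  intro δ hδ
  obtain ⟨e, he, he2⟩ : ∃ e : ℝ, 0 < e ∧ 2 * (C * e) ^ 2 < δ / 2 := by
    refine ⟨min 1 (δ / (8 * (C + 1) ^ 2)), by positivity, ?_⟩
    have h1 : min 1 (δ / (8 * (C + 1) ^ 2)) ≤ 1 := min_le_left _ _
    have h2 : min 1 (δ / (8 * (C + 1) ^ 2)) ≤ δ / (8 * (C + 1) ^ 2) := min_le_right _ _
    have h3 : 0 < min 1 (δ / (8 * (C + 1) ^ 2)) := by positivity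
    generalize min 1 (δ / (8 * (C + 1) ^ 2)) = e at h1 h2 h3
    have h4 : e * (8 * (C + 1) ^ 2) ≤ δ := by
      rwa [le_div_iff₀ (by positivity)] at h2
    have h5 : C ^ 2 ≤ (C + 1) ^ 2 := by nlinarith
    have h6 : e ^ 2 ≤ e := by nlinarith
    have h7 : (C * e) ^ 2 ≤ (C + 1) ^ 2 * e := by
      rw [mul_pow]
      exact mul_le_mul h5 h6 (by positivity) (by positivity)
    nlinarith
  obtain ⟨N0, hN0⟩ := exists_step hf he
  have hne : NeZero (N0 + 1) := ⟨Nat.succ_ne_zero _⟩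
  obtain ⟨F, hF1, hF2, hF3⟩ := hN0 (N0 + 1) (Nat.le_succ _)
  have hsum : ∑ a, F a = 0 := by
    rw [h0, integral_P] at hF2
    have hn : (1 / ((N0 + 1 : ℕ) : ℝ)) ≠ 0 := by positivity
    exact (mul_eq_zero.1 hF2).resolve_left hn
  have hF : BM B (fun x => F (P (N0 + 1) x)) :=
    ⟨(measurable_of_countable F).comp (measurable_P _), fun x => hF1 _⟩
  have hlim : Tendsto (fun N : ℕ => (∑ a, F a ^ 2) * ∑ a : Fin (N0 + 1), ((1 / (N : ℝ)) *
      ∑ n ∈ Finset.range N,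
        (cr g (fun x => (if P (N0 + 1) x = a then (1 : ℝ) else 0) - 1 / (N0 + 1 : ℕ)) T n) ^ 2))
      atTop (𝓝 ((∑ a, F a ^ 2) * ∑ a : Fin (N0 + 1), 0)) :=
    (tendsto_finsetSum _ fun a _ => h (N0 + 1) a C g hg).const_mul _
  rw [Finset.sum_const_zero, mul_zero] at hlim
  obtain ⟨M, hM⟩ := (Metric.tendsto_atTop.1 hlim) (δ / 4) (by positivity)
  refine ⟨M, fun N hN => ?_⟩
  have hM' := hM N hN
  rw [Real.dist_eq, sub_zero] at hM' ⊢
  have hM2 := (abs_lt.1 hM').2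
  have hN0' : (0 : ℝ) ≤ 1 / (N : ℝ) := by positivity
  have hpos : 0 ≤ (1 / (N : ℝ)) * ∑ n ∈ Finset.range N, (cr g f T n) ^ 2 :=
    mul_nonneg hN0' (Finset.sum_nonneg fun n _ => sq_nonneg _)
  rw [abs_of_nonneg hpos]
  have hone : ∀ n : ℕ, (cr g f T n) ^ 2 ≤
      2 * ((∑ a, F a ^ 2) * ∑ a : Fin (N0 + 1),
        (cr g (fun x => (if P (N0 + 1) x = a then (1 : ℝ) else 0) - 1 / (N0 + 1 : ℕ)) T n) ^ 2) +
      2 * (C * e) ^ 2 := by
    intro n
    have h1 := cr_sub_le hg hg hf hF T n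
    have h2 : (∫ x, |g x - g x| ∂μ) = 0 := by simp
    rw [h2, mul_zero, zero_add] at h1
    have h3 : |cr g f T n - cr g (fun x => F (P (N0 + 1) x)) T n| ≤ C * e :=
      h1.trans (mul_le_mul_of_nonneg_left hF3.le hC)
    have h4 : (cr g (fun x => F (P (N0 + 1) x)) T n) ^ 2 ≤
        (∑ a, F a ^ 2) * ∑ a : Fin (N0 + 1),
        (cr g (fun x => (if P (N0 + 1) x = a then (1 : ℝ) else 0) - 1 / (N0 + 1 : ℕ)) T n) ^ 2 := by
      rw [x7_lin hsum hg T n]
      exact Finset.sum_mul_sq_le_sq_mul_sq _ _ _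
    have h5 : (cr g f T n - cr g (fun x => F (P (N0 + 1) x)) T n) ^ 2 ≤ (C * e) ^ 2 := by
      rw [← sq_abs (cr g f T n - cr g (fun x => F (P (N0 + 1) x)) T n)]
      exact pow_le_pow_left₀ (abs_nonneg _) h3 2
    nlinarith [sq_nonneg (cr g f T n - 2 * cr g (fun x => F (P (N0 + 1) x)) T n)]
  have hsumle : (1 / (N : ℝ)) * ∑ n ∈ Finset.range N, (cr g f T n) ^ 2 ≤
      (1 / (N : ℝ)) * ∑ n ∈ Finset.range N,
      (2 * ((∑ a, F a ^ 2) * ∑ a : Fin (N0 + 1),
        (cr g (fun x => (if P (N0 + 1) x = a then (1 : ℝ) else 0) - 1 / (N0 + 1 : ℕ)) T n) ^ 2) +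
      2 * (C * e) ^ 2) :=
    mul_le_mul_of_nonneg_left (Finset.sum_le_sum fun n _ => hone n) hN0'
  have heq : (1 / (N : ℝ)) * ∑ n ∈ Finset.range N,
      (2 * ((∑ a, F a ^ 2) * ∑ a : Fin (N0 + 1),
        (cr g (fun x => (if P (N0 + 1) x = a then (1 : ℝ) else 0) - 1 / (N0 + 1 : ℕ)) T n) ^ 2) +
      2 * (C * e) ^ 2) =
      2 * ((∑ a, F a ^ 2) * ∑ a : Fin (N0 + 1), ((1 / (N : ℝ)) *
      ∑ n ∈ Finset.range N,
        (cr g (fun x => (if P (N0 + 1) x = a then (1 : ℝ) else 0) - 1 / (N0 + 1 : ℕ)) T n) ^ 2)) +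
      (1 / (N : ℝ)) * (N * (2 * (C * e) ^ 2)) := by
    rw [Finset.sum_add_distrib, Finset.sum_const, Finset.card_range, nsmul_eq_mul,
      ← Finset.mul_sum, ← Finset.mul_sum, Finset.sum_comm, ← Finset.mul_sum]
    ring
  have hlast : (1 / (N : ℝ)) * (N * (2 * (C * e) ^ 2)) ≤ 2 * (C * e) ^ 2 := by
    rcases Nat.eq_zero_or_pos N with h0 | h0
    · subst h0
      simp
      positivity
    · have : (N : ℝ) ≠ 0 := by positivity
      rw [← mul_assoc, one_div_mul_cancel this, one_mul]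
  linarith
-- END x7

-- BEGIN x8
private theorem x8_cr {A B : Set X} (hA : MeasurableSet A) (hB : MeasurableSet B) (T : Aut) (n : ℕ) :
    cr (A.indicator fun _ => (1 : ℝ)) (fun x => B.indicator (fun _ => (1 : ℝ)) x - μ.real B) T n =
      μ.real (A ∩ ((T.1 : X → X)^[n]) ⁻¹' B) - μ.real A * μ.real B := by
  have hT : Measurable ((T.1 : X → X)^[n]) := (iter_pres T n).measurable
  unfold cr
  have e1 : ∀ x, A.indicator (fun _ => (1 : ℝ)) x *
      (B.indicator (fun _ => (1 : ℝ)) ((T.1 : X → X)^[n] x) - μ.real B) =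
      (A ∩ ((T.1 : X → X)^[n]) ⁻¹' B).indicator (fun _ => (1 : ℝ)) x -
        μ.real B * A.indicator (fun _ => (1 : ℝ)) x := by
    intro x
    by_cases hx : x ∈ A
    · by_cases hy : (T.1 : X → X)^[n] x ∈ B
      · have hxy : x ∈ A ∩ ((T.1 : X → X)^[n]) ⁻¹' B := ⟨hx, hy⟩
        simp only [Set.indicator_of_mem hx, Set.indicator_of_mem hy, Set.indicator_of_mem hxy]
        ring
      · have hxy : x ∉ A ∩ ((T.1 : X → X)^[n]) ⁻¹' B := fun h => hy h.2
        simp only [Set.indicator_of_mem hx, Set.indicator_of_notMem hy,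
          Set.indicator_of_notMem hxy]
        ring
    · have hxy : x ∉ A ∩ ((T.1 : X → X)^[n]) ⁻¹' B := fun h => hx h.1
      simp only [Set.indicator_of_notMem hx, Set.indicator_of_notMem hxy]
      ring
  have hAB : MeasurableSet (A ∩ ((T.1 : X → X)^[n]) ⁻¹' B) := hA.inter (hT hB)
  rw [integral_congr_ae (Eventually.of_forall e1), integral_sub, integral_const_mul,
    integral_indicator_const _ hAB, integral_indicator_const _ hA]
  · simp only [smul_eq_mul, mul_one]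
    ring
  · exact (integrable_const _).indicator hAB
  · exact ((integrable_const _).indicator hA).const_mul _

/-- `|cr| ` instead of squares: Cauchy-Schwarz, with `f = 1_B - μ B`, `g = 1_A` -/
theorem wm_of_Wk (T : Aut)
    (h : ∀ (B : ℝ) (f : X → ℝ), BM B f → ∫ x, f x ∂μ = 0 → Wk T f) : WeaklyMixing T := by
  intro A B hA hB
  have hind : ∀ {C : Set X}, MeasurableSet C → Measurable (C.indicator fun _ => (1 : ℝ)) :=
    fun hC => measurable_const.indicator hC
  have hb : ∀ (C : Set X) x, 0 ≤ C.indicator (fun _ => (1 : ℝ)) x ∧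
      C.indicator (fun _ => (1 : ℝ)) x ≤ 1 := by
    intro C x
    by_cases hx : x ∈ C
    · simp [Set.indicator_of_mem hx]
    · simp [Set.indicator_of_notMem hx]
  have hg : BM 1 (A.indicator fun _ => (1 : ℝ)) := by
    refine ⟨hind hA, fun x => ?_⟩
    rw [abs_of_nonneg (hb A x).1]
    exact (hb A x).2
  have hμ0 : ∀ C : Set X, 0 ≤ μ.real C := fun C => measureReal_nonneg
  have hμ1 : ∀ C : Set X, μ.real C ≤ 1 := fun C => measureReal_le_one
  have hf : BM 1 (fun x => B.indicator (fun _ => (1 : ℝ)) x - μ.real B) := by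
    refine ⟨(hind hB).sub_const _, fun x => ?_⟩
    rw [abs_le]
    have h1 := hb B x
    have h2 := hμ0 B
    have h3 := hμ1 B
    constructor <;> linarith
  have hf0 : ∫ x, (B.indicator (fun _ => (1 : ℝ)) x - μ.real B) ∂μ = 0 := by
    rw [integral_sub ((integrable_const _).indicator hB) (integrable_const _),
      integral_indicator_const _ hB]
    simp
  have hW := h 1 _ hf hf0 1 _ hg
  set d : ℕ → ℝ := fun n => μ.real (A ∩ ((T.1 : X → X)^[n]) ⁻¹' B) - μ.real A * μ.real B with hd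
  have hW' : Tendsto (fun N : ℕ => (1 / (N : ℝ)) * ∑ n ∈ Finset.range N, (d n) ^ 2) atTop (𝓝 0) := by
    refine hW.congr fun N => ?_
    congr 1
    refine Finset.sum_congr rfl fun n _ => ?_
    rw [x8_cr hA hB T n]
  have hd1 : ∀ n, |d n| ≤ 1 := by
    intro n
    rw [abs_le]
    have h1 := hμ0 (A ∩ ((T.1 : X → X)^[n]) ⁻¹' B)
    have h2 := hμ1 (A ∩ ((T.1 : X → X)^[n]) ⁻¹' B)
    have h3 : 0 ≤ μ.real A * μ.real B := mul_nonneg (hμ0 A) (hμ0 B)
    have h4 : μ.real A * μ.real B ≤ 1 := mul_le_one₀ (hμ1 A) (hμ0 B) (hμ1 B)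
    constructor
    · show -1 ≤ μ.real (A ∩ ((T.1 : X → X)^[n]) ⁻¹' B) - μ.real A * μ.real B
      linarith
    · show μ.real (A ∩ ((T.1 : X → X)^[n]) ⁻¹' B) - μ.real A * μ.real B ≤ 1
      linarith
  have hcs : ∀ N : ℕ, (1 / (N : ℝ)) * ∑ n ∈ Finset.Icc 1 N, |d n| ≤
      √((1 / (N : ℝ)) * ∑ n ∈ Finset.range N, (d n) ^ 2) + 1 / N := by
    intro N
    rcases Nat.eq_zero_or_pos N with rfl | hN
    · simp
    have hNr : (0 : ℝ) < N := by exact_mod_cast hN
    have h1 : ∑ n ∈ Finset.Icc 1 N, |d n| ≤ ∑ n ∈ Finset.range N, |d n| + 1 := by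
      have h2 : ∑ n ∈ Finset.Icc 1 N, |d n| ≤ ∑ n ∈ Finset.range (N + 1), |d n| := by
        refine Finset.sum_le_sum_of_subset_of_nonneg ?_ fun _ _ _ => abs_nonneg _
        intro k hk
        rw [Finset.mem_Icc] at hk
        exact Finset.mem_range.2 (by omega)
      rw [Finset.sum_range_succ] at h2
      have h3 := hd1 N
      linarith
    have h2 : (∑ n ∈ Finset.range N, |d n|) ^ 2 ≤ N * ∑ n ∈ Finset.range N, (d n) ^ 2 := by
      have h3 := sq_sum_le_card_mul_sum_sq (s := Finset.range N) (f := fun n => |d n|)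
      simpa [sq_abs] using h3
    have h3 : (1 / (N : ℝ)) * ∑ n ∈ Finset.range N, |d n| ≤
        √((1 / (N : ℝ)) * ∑ n ∈ Finset.range N, (d n) ^ 2) := by
      apply Real.le_sqrt_of_sq_le
      rw [mul_pow]
      calc (1 / (N : ℝ)) ^ 2 * (∑ n ∈ Finset.range N, |d n|) ^ 2
          ≤ (1 / (N : ℝ)) ^ 2 * (N * ∑ n ∈ Finset.range N, (d n) ^ 2) :=
            mul_le_mul_of_nonneg_left h2 (by positivity)
        _ = (1 / (N : ℝ)) * ∑ n ∈ Finset.range N, (d n) ^ 2 := by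
            field_simp
    calc (1 / (N : ℝ)) * ∑ n ∈ Finset.Icc 1 N, |d n|
        ≤ (1 / (N : ℝ)) * (∑ n ∈ Finset.range N, |d n| + 1) :=
          mul_le_mul_of_nonneg_left h1 (by positivity)
      _ = (1 / (N : ℝ)) * ∑ n ∈ Finset.range N, |d n| + 1 / N := by ring
      _ ≤ _ := by linarith
  have hlim : Tendsto (fun N : ℕ => √((1 / (N : ℝ)) * ∑ n ∈ Finset.range N, (d n) ^ 2) + 1 / (N : ℝ))
      atTop (𝓝 0) := by
    have h1 := (Real.continuous_sqrt.tendsto 0).comp hW'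
    rw [Real.sqrt_zero] at h1
    have h2 : Tendsto (fun N : ℕ => 1 / (N : ℝ)) atTop (𝓝 0) := tendsto_one_div_atTop_nhds_zero_nat
    simpa using h1.add h2
  exact squeeze_zero (fun N => mul_nonneg (by positivity)
    (Finset.sum_nonneg fun _ _ => abs_nonneg _)) hcs hlim
-- END x8

-- BEGIN x9
/-- the sets `{T | ∃ N ≥ M, sq f T N < 1 / (M + 1)}` for `f = 1_(P k = a) - 1 / k` are open
and dense -/
theorem wm_residual : {T : Aut | WeaklyMixing T} ∈ residual Aut := by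
  classical
  let F : (Σ k : ℕ, Fin (k + 1)) → X → ℝ := fun i x =>
    (if P (i.1 + 1) x = i.2 then 1 else 0) - 1 / ((i.1 + 1 : ℕ) : ℝ)
  have hBM : ∀ i, BM 1 (F i) := by
    intro i
    constructor
    · refine Measurable.sub_const (Measurable.ite ?_ measurable_const measurable_const) _
      exact (measurable_P (i.1 + 1)) (measurableSet_singleton i.2)
    · intro x
      have h1 : (0 : ℝ) ≤ 1 / ((i.1 + 1 : ℕ) : ℝ) := by positivity
      have h2 : 1 / ((i.1 + 1 : ℕ) : ℝ) ≤ 1 := by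
        rw [div_le_one (by positivity)]
        exact_mod_cast Nat.succ_le_succ (Nat.zero_le _)
      simp only [F]
      split_ifs
      · rw [abs_le]; constructor <;> linarith
      · rw [abs_le]; constructor <;> linarith
  have h0 : ∀ i, ∫ x, F i x ∂μ = 0 := by
    intro i
    have h := integral_P (i.1 + 1) (fun b : Fin (i.1 + 1) =>
      (if b = i.2 then (1 : ℝ) else 0) - 1 / ((i.1 + 1 : ℕ) : ℝ))
    refine h.trans ?_
    rw [Finset.sum_sub_distrib]
    simp
    field_simp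
    simp
  let O : (Σ k : ℕ, Fin (k + 1)) × ℕ → Set Aut := fun j =>
    ⋃ N : ℕ, ⋃ _ : j.2 ≤ N ∧ 1 ≤ N, {T | sq (F j.1) T N < 1 / ((j.2 : ℝ) + 1)}
  have ho : ∀ j, IsOpen (O j) := fun j =>
    isOpen_iUnion fun N => isOpen_iUnion fun _ => sq_open (hBM j.1) N _
  have hd : ∀ j, Dense (O j) := by
    intro j
    rw [dense_iff_inter_open]
    intro U hU hne
    obtain ⟨T, hT, N, hN1, hN2, hN3⟩ := sq_dense (hBM j.1) (h0 j.1) hU hne j.2
      (c := 1 / ((j.2 : ℝ) + 1)) (by positivity)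
    exact ⟨T, hT, Set.mem_iUnion.2 ⟨N, Set.mem_iUnion.2 ⟨⟨hN1, hN2⟩, hN3⟩⟩⟩
  refine Filter.mem_of_superset
    (countable_iInter_mem.2 fun j => residual_of_dense_open (ho j) (hd j)) ?_
  intro T hT
  have hT' : ∀ j, T ∈ O j := Set.mem_iInter.1 hT
  refine wm_of_Wk T fun B f hf hf0 => Wk_all T ?_ hf hf0
  intro k hk a
  obtain ⟨k', rfl⟩ : ∃ k', k = k' + 1 := Nat.exists_eq_succ_of_ne_zero (NeZero.ne k)
  refine Wk_of_sq (hBM ⟨k', a⟩) T ?_
  intro M c hc
  obtain ⟨n, hn⟩ := exists_nat_one_div_lt hc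
  have hm := hT' (⟨k', a⟩, max M n)
  simp only [O, Set.mem_iUnion] at hm
  obtain ⟨N, ⟨hN1, hN2⟩, hN3⟩ := hm
  refine ⟨N, (le_max_left M n).trans hN1, hN2, ?_⟩
  refine lt_of_lt_of_le (hN3 : sq (F ⟨k', a⟩) T N < _) (le_trans ?_ hn.le)
  apply one_div_le_one_div_of_le (by positivity)
  have : (n : ℝ) ≤ ((max M n : ℕ) : ℝ) := by exact_mod_cast le_max_right M n
  linarith
-- END x9

end Pool.Agent.Gor
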