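import Pool.Agent.Gor.Sst
import Pool.Agent.Gor.Wmx
import Pool.Agent.Gor.Tre
import Pool.Agent.Gor.Bai

/-!
# The limit set and the theorem for sets
-/

set_option autoImplicit false

open MeasureTheory Filter Topology Set

namespace Pool.Agent.Gor

/-- nodes -/
def NdS (i : ℕ) (T : Aut) (f : X → ℝ) : Prop :=
  Ind f ∧ ∫ x, f x ∂μ ≤ 1 / 320 * (1 - 1 / 16 ^ i) ∧
    ∀ n : ℕ, 1 ≤ n → -((1 : ℝ) / (1024 * 16 ^ i)) ≤ cv f T n

/-- edges; `mm i` is the time up to which the correlations grow in the step `i` -/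
def ExS (mm : ℕ → ℕ) (i : ℕ) (T : Aut) (f f' : X → ℝ) : Prop :=
  ∫ x, |f' x - f x| ∂μ ≤ 3 / (1024 * 16 ^ i) ∧
    ∀ n : ℕ, 1 ≤ n → n ≤ mm i → cv f T n + 1 / (1024 * 16 ^ i) ≤ cv f' T n

-- BEGIN u1
/-- the sequences exist for the elements of a residual set: `tree` and `stepS` -/
theorem residual_seqS (mm : ℕ → ℕ) : {T : Aut | ∃ s : ℕ → X → ℝ, s 0 = (fun _ => 0) ∧
    ∀ i, NdS i T (s i) ∧ ExS mm i T (s i) (s (i + 1))} ∈ residual Aut := by
  refine tree (Z := Aut) (D := X → ℝ) NdS (ExS mm) (fun _ => 0) ?_ ?_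
  · intro T
    refine ⟨⟨measurable_const, fun x => Or.inl rfl⟩, by simp, fun n _ => ?_⟩
    simp only [cv, co, zero_mul, integral_zero]
    norm_num
  · intro i U f hU hne hnd
    obtain ⟨T0, hT0⟩ := hne
    obtain ⟨hf, hf1, -⟩ := hnd T0 hT0
    have hp : (0 : ℝ) < 1 / 16 ^ i := by positivity
    have hp1 : (1 : ℝ) / 16 ^ i ≤ 1 := by
      rw [div_le_one (by positivity)]
      exact one_le_pow₀ (by norm_num)
    have e1 : (1 : ℝ) / (1024 * 16 ^ i) = 1 / 1024 * (1 / 16 ^ i) := by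
      rw [div_mul_div_comm, one_mul]
    have e2 : (3 : ℝ) / (1024 * 16 ^ i) = 3 * (1 / (1024 * 16 ^ i)) := by
      rw [mul_one_div]
    have e3 : (1 : ℝ) / 16 ^ (i + 1) = 1 / 16 ^ i / 16 := by
      rw [pow_succ, div_div]
    have e4 : (1 : ℝ) / (1024 * 16 ^ (i + 1)) = 1 / (1024 * 16 ^ i) / 16 := by
      rw [pow_succ, div_div, mul_assoc]
    have hη : (0 : ℝ) < 1 / (1024 * 16 ^ i) := by positivity
    have hη1 : (1 : ℝ) / (1024 * 16 ^ i) ≤ 1 / 1024 := by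
      rw [e1]
      linarith
    obtain ⟨U', f', hU', hne', hsub, hf', hdiff, hlow, hgain⟩ :=
      stepS hU ⟨T0, hT0⟩ hf (by linarith) hη hη1 (fun T hT n hn => (hnd T hT).2.2 n hn) (mm i)
    have hint : ∫ x, f' x ∂μ ≤ 1 / 320 * (1 - 1 / 16 ^ (i + 1)) := by
      have i1 : Integrable f μ := hf.BM.integrable
      have i2 : Integrable f' μ := hf'.BM.integrable
      have h1 : ∫ x, f' x ∂μ - ∫ x, f x ∂μ ≤ ∫ x, |f' x - f x| ∂μ := by
        rw [← integral_sub i2 i1]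
        exact integral_mono (i2.sub i1) (i2.sub i1).abs fun x => le_abs_self _
      rw [e3]
      rw [e1] at hdiff
      linarith
    refine ⟨U', f', hU', hne', hsub, fun T hT => ⟨⟨hf', hint, fun n hn => ?_⟩, ?_,
      fun n h1 hn => hgain T hT n h1 hn⟩⟩
    · rw [e4]
      exact hlow T hT n hn
    · rw [e2]
      exact hdiff
-- END u1

-- BEGIN u2
private theorem u2_abs_ne {a b : ℝ} (ha : a = 0 ∨ a = 1) (hb : b = 0 ∨ b = 1) (h : a ≠ b) :
    |a - b| = 1 := by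
  rcases ha with rfl | rfl <;> rcases hb with rfl | rfl <;> simp_all

private theorem u2_abs_le {a b : ℝ} (ha : a = 0 ∨ a = 1) (hb : b = 0 ∨ b = 1) :
    |a - b| ≤ 1 := by
  rcases ha with rfl | rfl <;> rcases hb with rfl | rfl <;> norm_num

private theorem u2_int {f g : X → ℝ} (hf : Ind f) (hg : Ind g) :
    Integrable (fun x => |f x - g x|) μ :=
  Integrable.of_bound (hf.1.sub hg.1).abs.aestronglyMeasurable 1
    (Filter.Eventually.of_forall fun x => by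
      rw [Real.norm_eq_abs, abs_abs]
      exact u2_abs_le (hf.2 x) (hg.2 x))

/-- the limit set `{x | s i x = 1 for all large i}`:
`|1_A x - s i x| ≤ ∑ j ≥ i, |s (j + 1) x - s j x|` in `[0, ∞]` -/
theorem limit_set {s : ℕ → X → ℝ} (hs : ∀ i, Ind (s i)) {c : ℝ}
    (h : ∀ i, ∫ x, |s (i + 1) x - s i x| ∂μ ≤ c / 16 ^ i) :
    ∃ A : Set X, MeasurableSet A ∧
      ∀ i, ∫ x, |A.indicator (fun _ => (1 : ℝ)) x - s i x| ∂μ ≤ 16 / 15 * c / 16 ^ i := by
  classical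
  have hc : 0 ≤ c := by
    have h0 := h 0
    have h1 : 0 ≤ ∫ x, |s (0 + 1) x - s 0 x| ∂μ := integral_nonneg fun x => abs_nonneg _
    rw [pow_zero, div_one] at h0
    exact h1.trans h0
  have hset : ∀ i, MeasurableSet {x | s i x = 1} := fun i =>
    (hs i).1 (measurableSet_singleton 1)
  refine ⟨⋃ k : ℕ, ⋂ i : ℕ, ⋂ _ : k ≤ i, {x | s i x = 1}, ?_, ?_⟩
  · exact MeasurableSet.iUnion fun k => MeasurableSet.iInter fun i =>
      MeasurableSet.iInter fun _ => hset i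
  intro i
  have hA : MeasurableSet (⋃ k : ℕ, ⋂ i : ℕ, ⋂ _ : k ≤ i, {x : X | s i x = 1}) :=
    MeasurableSet.iUnion fun k => MeasurableSet.iInter fun i =>
      MeasurableSet.iInter fun _ => hset i
  have hInd : Ind ((⋃ k : ℕ, ⋂ i : ℕ, ⋂ _ : k ≤ i, {x : X | s i x = 1}).indicator
      (fun _ => (1 : ℝ))) := by
    refine ⟨measurable_const.indicator hA, fun x => ?_⟩
    by_cases hx : x ∈ (⋃ k : ℕ, ⋂ i : ℕ, ⋂ _ : k ≤ i, {x : X | s i x = 1})
    · right; exact Set.indicator_of_mem hx _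
    · left; exact Set.indicator_of_notMem hx _
  have hpt : ∀ x : X, ENNReal.ofReal |(⋃ k : ℕ, ⋂ i : ℕ, ⋂ _ : k ≤ i,
      {x : X | s i x = 1}).indicator (fun _ => (1 : ℝ)) x - s i x| ≤
      ∑' j : ℕ, ENNReal.ofReal |s (i + j + 1) x - s (i + j) x| := by
    intro x
    by_cases hex : ∃ j, s (i + j + 1) x ≠ s (i + j) x
    · obtain ⟨j, hj⟩ := hex
      have h1 : |s (i + j + 1) x - s (i + j) x| = 1 :=
        u2_abs_ne ((hs _).2 x) ((hs _).2 x) hj
      have h2 := ENNReal.le_tsum (f := fun j : ℕ =>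
        ENNReal.ofReal |s (i + j + 1) x - s (i + j) x|) j
      refine le_trans ?_ h2
      show _ ≤ ENNReal.ofReal |s (i + j + 1) x - s (i + j) x|
      rw [h1]
      exact ENNReal.ofReal_le_ofReal (u2_abs_le (hInd.2 x) ((hs i).2 x))
    · have h1 : ∀ j, s (i + j) x = s i x := by
        intro j
        induction j with
        | zero => rfl
        | succ j ih =>
          by_contra hne
          refine hex ⟨j, fun h3 => hne ?_⟩
          rw [← ih]
          exact h3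
      have h2 : (⋃ k : ℕ, ⋂ i : ℕ, ⋂ _ : k ≤ i, {x : X | s i x = 1}).indicator
          (fun _ => (1 : ℝ)) x = s i x := by
        rcases (hs i).2 x with h3 | h3
        · rw [h3]
          refine Set.indicator_of_notMem ?_ _
          intro hx
          obtain ⟨k, hk⟩ := Set.mem_iUnion.1 hx
          have h4 := Set.mem_iInter.1 (Set.mem_iInter.1 hk (i + k)) (Nat.le_add_left k i)
          have h5 : s (i + k) x = 1 := h4
          rw [h1 k, h3] at h5
          exact zero_ne_one h5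
        · rw [h3]
          refine Set.indicator_of_mem ?_ _
          refine Set.mem_iUnion.2 ⟨i, Set.mem_iInter.2 fun k => Set.mem_iInter.2 fun hk => ?_⟩
          obtain ⟨d, rfl⟩ := Nat.exists_eq_add_of_le hk
          show s (i + d) x = 1
          rw [h1 d, h3]
      rw [h2, sub_self, abs_zero, ENNReal.ofReal_zero]
      exact zero_le
  have e1 := ofReal_integral_eq_lintegral_ofReal (u2_int hInd (hs i))
    (Filter.Eventually.of_forall fun x => abs_nonneg _)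
  have hsum : Summable (fun j : ℕ => c / 16 ^ i * (1 / 16 : ℝ) ^ j) :=
    (summable_geometric_of_lt_one (by norm_num) (by norm_num)).mul_left _
  have hval : ∑' j : ℕ, c / 16 ^ i * (1 / 16 : ℝ) ^ j = 16 / 15 * c / 16 ^ i := by
    rw [tsum_mul_left, tsum_geometric_of_lt_one (by norm_num) (by norm_num)]
    norm_num
    ring
  have hterm : ∀ j : ℕ, ∫⁻ x, ENNReal.ofReal |s (i + j + 1) x - s (i + j) x| ∂μ ≤
      ENNReal.ofReal (c / 16 ^ i * (1 / 16 : ℝ) ^ j) := by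
    intro j
    rw [← ofReal_integral_eq_lintegral_ofReal (u2_int (hs (i + j + 1)) (hs (i + j)))
      (Filter.Eventually.of_forall fun x => abs_nonneg _)]
    refine ENNReal.ofReal_le_ofReal ((h (i + j)).trans (le_of_eq ?_))
    rw [pow_add, one_div, inv_pow]
    field_simp
  have hmain : ENNReal.ofReal (∫ x, |(⋃ k : ℕ, ⋂ i : ℕ, ⋂ _ : k ≤ i,
      {x : X | s i x = 1}).indicator (fun _ => (1 : ℝ)) x - s i x| ∂μ) ≤
      ENNReal.ofReal (16 / 15 * c / 16 ^ i) := by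
    rw [e1, ← hval, ENNReal.ofReal_tsum_of_nonneg (fun j => by positivity) hsum]
    refine (lintegral_mono hpt).trans ?_
    have hm : ∀ j : ℕ, AEMeasurable
        (fun x : X => ENNReal.ofReal |s (i + j + 1) x - s (i + j) x|) μ := fun j =>
      (((hs (i + j + 1)).1.sub (hs (i + j)).1).abs.ennreal_ofReal).aemeasurable
    rw [lintegral_tsum hm]
    exact ENNReal.tsum_le_tsum hterm
  exact (ENNReal.ofReal_le_ofReal_iff (by positivity)).1 hmain
-- END u2

-- BEGIN u3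
theorem ind_indicator {A : Set X} (hA : MeasurableSet A) : Ind (A.indicator fun _ => (1 : ℝ)) := by
  refine ⟨measurable_const.indicator hA, fun x => ?_⟩
  by_cases hx : x ∈ A
  · right; simp [hx]
  · left; simp [hx]

theorem cv_indicator {A : Set X} (hA : MeasurableSet A) (T : Aut) (n : ℕ) :
    cv (A.indicator fun _ => (1 : ℝ)) T n =
      μ.real (A ∩ ((T.1 : X → X)^[n]) ⁻¹' A) - μ.real A ^ 2 := by
  have hm : MeasurableSet (A ∩ ((T.1 : X → X)^[n]) ⁻¹' A) :=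
    hA.inter ((iter_pres T n).measurable hA)
  have h1 : ∫ x, A.indicator (fun _ => (1 : ℝ)) x ∂μ = μ.real A := by
    rw [integral_indicator_const _ hA]
    simp
  have h2 : co (A.indicator fun _ => (1 : ℝ)) T n = μ.real (A ∩ ((T.1 : X → X)^[n]) ⁻¹' A) := by
    have e : (fun x => A.indicator (fun _ => (1 : ℝ)) x *
        A.indicator (fun _ => (1 : ℝ)) ((T.1 : X → X)^[n] x)) =
        (A ∩ ((T.1 : X → X)^[n]) ⁻¹' A).indicator fun _ => (1 : ℝ) := by
      funext x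
      by_cases h1 : x ∈ A
      · by_cases h2 : (T.1 : X → X)^[n] x ∈ A
        · have h3 : x ∈ A ∩ ((T.1 : X → X)^[n]) ⁻¹' A := ⟨h1, h2⟩
          rw [Set.indicator_of_mem h1, Set.indicator_of_mem h2, Set.indicator_of_mem h3, mul_one]
        · have h3 : x ∉ A ∩ ((T.1 : X → X)^[n]) ⁻¹' A := fun h => h2 h.2
          rw [Set.indicator_of_notMem h2, Set.indicator_of_notMem h3, mul_zero]
      · have h3 : x ∉ A ∩ ((T.1 : X → X)^[n]) ⁻¹' A := fun h => h1 h.1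
        rw [Set.indicator_of_notMem h1, Set.indicator_of_notMem h3, zero_mul]
    unfold co
    rw [e, integral_indicator_const _ hm]
    simp
  rw [cv, h1, h2]

theorem cv_close {f g : X → ℝ} (hf : Ind f) (hg : Ind g) (T : Aut) (n : ℕ) :
    |cv f T n - cv g T n| ≤ 4 * ∫ x, |f x - g x| ∂μ := by
  have hb : ∀ {u : X → ℝ}, Ind u → BM 1 u := by
    intro u hu
    refine ⟨hu.1, fun x => ?_⟩
    rcases hu.2 x with h | h <;> simp [h]
  have h01 : ∀ {u : X → ℝ}, Ind u → 0 ≤ ∫ x, u x ∂μ ∧ ∫ x, u x ∂μ ≤ 1 := by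
    intro u hu
    constructor
    · exact integral_nonneg fun x => by rcases hu.2 x with h | h <;> simp [h]
    · have h1 : ∫ x, u x ∂μ ≤ ∫ _ : X, (1 : ℝ) ∂μ :=
        integral_mono (hb hu).integrable (integrable_const _)
          (fun x => by rcases hu.2 x with h | h <;> simp [h])
      simpa using h1
  have h1 := cr_sub_le (hb hf) (hb hg) (hb hf) (hb hg) T n
  have h2 : |∫ x, f x ∂μ - ∫ x, g x ∂μ| ≤ ∫ x, |f x - g x| ∂μ := by
    rw [← integral_sub (hb hf).integrable (hb hg).integrable]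
    exact abs_integral_le_integral_abs
  have h3 : |(∫ x, f x ∂μ) ^ 2 - (∫ x, g x ∂μ) ^ 2| ≤ 2 * ∫ x, |f x - g x| ∂μ := by
    have e : (∫ x, f x ∂μ) ^ 2 - (∫ x, g x ∂μ) ^ 2 =
        (∫ x, f x ∂μ + ∫ x, g x ∂μ) * (∫ x, f x ∂μ - ∫ x, g x ∂μ) := by ring
    rw [e, abs_mul]
    have h4 : |∫ x, f x ∂μ + ∫ x, g x ∂μ| ≤ 2 := by
      rw [abs_of_nonneg (add_nonneg (h01 hf).1 (h01 hg).1)]
      linarith [(h01 hf).2, (h01 hg).2]
    exact mul_le_mul h4 h2 (abs_nonneg _) (by norm_num)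
  have h5 : |co f T n - co g T n| ≤ 2 * ∫ x, |f x - g x| ∂μ := by
    rw [co_eq_cr, co_eq_cr]
    linarith
  unfold cv
  calc |co f T n - (∫ x, f x ∂μ) ^ 2 - (co g T n - (∫ x, g x ∂μ) ^ 2)|
      = |(co f T n - co g T n) - ((∫ x, f x ∂μ) ^ 2 - (∫ x, g x ∂μ) ^ 2)| := by ring_nf
    _ ≤ |co f T n - co g T n| + |(∫ x, f x ∂μ) ^ 2 - (∫ x, g x ∂μ) ^ 2| := abs_sub _ _
    _ ≤ 4 * ∫ x, |f x - g x| ∂μ := by linarith
-- END u3

-- BEGIN u4
private theorem u4_aux {mm : ℕ → ℕ} {T : Aut} {s : ℕ → X → ℝ}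
    (hs : ∀ i, NdS i T (s i) ∧ ExS mm i T (s i) (s (i + 1))) :
    ∃ A : Set X, MeasurableSet A ∧ ∀ (n k : ℕ),
      cv (s k) T n - 4 * (16 / 15 * (3 / 1024) / 16 ^ k) ≤
        μ.real (A ∩ ((T.1 : X → X)^[n]) ⁻¹' A) - μ.real A ^ 2 := by
  have hI : ∀ i, Ind (s i) := fun i => (hs i).1.1
  have hst : ∀ i, ∫ x, |s (i + 1) x - s i x| ∂μ ≤ 3 / 1024 / 16 ^ i := by
    intro i
    refine ((hs i).2.1).trans (le_of_eq ?_)
    rw [div_div]
  obtain ⟨A, hA, hlim⟩ := limit_set hI hst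
  refine ⟨A, hA, fun n k => ?_⟩
  have h1 := cv_close (ind_indicator hA) (hI k) T n
  have h2 := hlim k
  rw [cv_indicator hA] at h1
  have h3 := (abs_le.1 h1).1
  linarith

private theorem u4_zero (T : Aut) (n : ℕ) : cv (fun _ => 0) T n = 0 := by
  unfold cv co
  simp

/-- the limit; `limit_set`, `cv_close` and the growth of the correlations -/
theorem exists_limitS {mm : ℕ → ℕ} {T : Aut} {s : ℕ → X → ℝ} (h0 : s 0 = fun _ => 0)
    (hs : ∀ i, NdS i T (s i) ∧ ExS mm i T (s i) (s (i + 1))) :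
    ∃ A : Set X, MeasurableSet A ∧
      (∀ n : ℕ, 1 ≤ n → (∀ i, n ≤ mm i) →
        1 / 1024 ≤ μ.real (A ∩ ((T.1 : X → X)^[n]) ⁻¹' A) - μ.real A ^ 2) ∧
      ∀ n : ℕ, 1 ≤ n → ∀ j : ℕ, (∀ i, j ≤ i → n ≤ mm i) →
        1 / (1024 * 16 ^ (j + 1)) ≤ μ.real (A ∩ ((T.1 : X → X)^[n]) ⁻¹' A) - μ.real A ^ 2 := by
  obtain ⟨A, hA, hc⟩ := u4_aux hs
  refine ⟨A, hA, fun n hn hm => ?_, fun n hn j hm => ?_⟩
  · have g0 := (hs 0).2.2 n hn (hm 0)
    have g1 := (hs 1).2.2 n hn (hm 1)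
    have g2 := hc n 2
    rw [h0, u4_zero] at g0
    norm_num at g0 g1 g2 ⊢
    linarith
  · have g0 := (hs j).1.2.2 n hn
    have g1 := (hs j).2.2 n hn (hm j le_rfl)
    have g2 := (hs (j + 1)).2.2 n hn (hm (j + 1) (Nat.le_succ j))
    have g3 := (hs (j + 2)).2.2 n hn (hm (j + 2) (by omega))
    have g4 := hc n (j + 3)
    have hp : (0 : ℝ) < 16 ^ j := by positivity
    set q : ℝ := 1 / (1024 * 16 ^ j) with hq
    have hq0 : 0 < q := by positivity
    have e1 : (1 : ℝ) / (1024 * 16 ^ (j + 1)) = q / 16 := by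
      rw [hq, pow_succ]
      field_simp
    have e2 : (1 : ℝ) / (1024 * 16 ^ (j + 2)) = q / 256 := by
      rw [hq, pow_add]
      field_simp
      norm_num
    have e3 : (4 : ℝ) * (16 / 15 * (3 / 1024) / 16 ^ (j + 3)) = 64 / 5 * q / 4096 := by
      rw [hq, pow_add]
      field_simp
      norm_num
    rw [e1] at g2
    rw [e2] at g3
    rw [e3] at g4
    rw [e1]
    linarith
-- END u4

/-- the cutoffs for a given sequence -/
theorem exists_cutoffS {a : ℕ → ℝ} (ha : Tendsto a atTop (𝓝 0)) :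
    ∃ mm : ℕ → ℕ, (∀ j, j ≤ mm j) ∧ Monotone mm ∧
      ∀ j n, mm j < n → a n < 1 / (1024 * 16 ^ (j + 2)) := by
  have h1 : ∀ j : ℕ, ∃ m : ℕ, ∀ n, m ≤ n → a n < 1 / (1024 * 16 ^ (j + 2)) := by
    intro j
    have h2 : ∀ᶠ n in atTop, a n < 1 / (1024 * 16 ^ (j + 2)) :=
      ha.eventually_lt_const (by positivity)
    exact eventually_atTop.1 h2
  choose m hm using h1
  refine ⟨fun j => j + ∑ i ∈ Finset.range (j + 1), m i, fun j => Nat.le_add_right _ _, ?_, ?_⟩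
  · refine monotone_nat_of_le_succ fun j => ?_
    show j + ∑ i ∈ Finset.range (j + 1), m i ≤ j + 1 + ∑ i ∈ Finset.range (j + 1 + 1), m i
    rw [Finset.sum_range_succ _ (j + 1)]
    omega
  · intro j n hn
    refine hm j n ?_
    have h3 : m j ≤ ∑ i ∈ Finset.range (j + 1), m i :=
      Finset.single_le_sum (f := m) (fun _ _ => Nat.zero_le _) (Finset.self_mem_range_succ j)
    have h4 : j + ∑ i ∈ Finset.range (j + 1), m i < n := hn
    omega

/-- sets, for sequences -/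
theorem set_seq {a : ℕ → ℝ} (ha : Tendsto a atTop (𝓝 0)) (haA : ∀ n : ℕ, 1 ≤ n → a n < 1 / 1024) :
    {T : Aut | ∃ A : Set X, MeasurableSet A ∧
      ∀ n : ℕ, 1 ≤ n → μ.real A ^ 2 + a n < μ.real (A ∩ ((T.1 : X → X)^[n]) ⁻¹' A)} ∈
    residual Aut := by
  obtain ⟨mm, h1, h2, h3⟩ := exists_cutoffS ha
  refine Filter.mem_of_superset (residual_seqS mm) ?_
  rintro T ⟨s, h0, hs⟩
  obtain ⟨A, hA, hc0, hc⟩ := exists_limitS h0 hs
  refine ⟨A, hA, fun n hn => ?_⟩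
  have hex : ∃ i, n ≤ mm i := ⟨n, h1 n⟩
  classical
  obtain ⟨i0, hi0, hmin⟩ : ∃ i, n ≤ mm i ∧ ∀ k, k < i → ¬ n ≤ mm k :=
    ⟨Nat.find hex, Nat.find_spec hex, fun k hk => Nat.find_min hex hk⟩
  rcases i0 with _ | j
  · have h4 := hc0 n hn (fun i => hi0.trans (h2 (Nat.zero_le i)))
    have h5 := haA n hn
    linarith
  · have h4 := hc n hn (j + 1) (fun i hi => hi0.trans (h2 hi))
    have h5 := h3 j n (not_le.1 (hmin j (Nat.lt_succ_self j)))
    have h6 : (1 : ℝ) / (1024 * 16 ^ (j + 2)) = 1 / (1024 * 16 ^ (j + 1 + 1)) := by ring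
    rw [h6] at h5
    linarith

/-- THE THEOREM -/
theorem main_set {a : ℕ → ℝ} (ha : Tendsto a atTop (𝓝 0)) (haA : ∀ n : ℕ, 1 ≤ n → a n < 1 / 1024) :
    {T : Aut | WeaklyMixing T ∧ ∃ A : Set X, MeasurableSet A ∧
      ∀ n : ℕ, 1 ≤ n → μ.real A ^ 2 + a n < μ.real (A ∩ ((T.1 : X → X)^[n]) ⁻¹' A)} ∈
    residual Aut :=
  Filter.inter_mem wm_residual (set_seq ha haA)

/-- the same, with density (`Aut` is a Baire space) -/
theorem main_dense {a : ℕ → ℝ} (ha : Tendsto a atTop (𝓝 0))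
    (haA : ∀ n : ℕ, 1 ≤ n → a n < 1 / 1024) :
    ∃ S : Set Aut, S ∈ residual Aut ∧ Dense S ∧ ∀ T ∈ S, WeaklyMixing T ∧
      ∃ A : Set X, MeasurableSet A ∧
        ∀ n : ℕ, 1 ≤ n → μ.real A ^ 2 + a n < μ.real (A ∩ ((T.1 : X → X)^[n]) ⁻¹' A) := by
  have := baire
  exact ⟨_, main_set ha haA, dense_of_mem_residual (main_set ha haA), fun T hT => hT⟩

end Pool.Agent.Gor
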