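import Pool.Agent.Gor.Stp

/-!
# The step for SETS: add the first `w` levels of the mixing word to the set

`A' = A ∪ W` with `μ W = κ` about `2 η`: the correlations at the times `n ≤ N K` grow by about `κ`,
at all other times they are at least `- 2 κ μ(A) - κ ^ 2`.
-/

set_option autoImplicit false

open MeasureTheory Filter Topology Set

namespace Pool.Agent.Gor

/-- indicator functions of measurable sets -/
def Ind (f : X → ℝ) : Prop := Measurable f ∧ ∀ x, f x = 0 ∨ f x = 1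

/-- covariance -/
noncomputable def cv (f : X → ℝ) (T : Aut) (n : ℕ) : ℝ := co f T n - (∫ x, f x ∂μ) ^ 2

/-- the sequence `F` with the first `w` places of every period replaced by `1` -/
noncomputable def GG (h w : ℕ) (F : ℕ → ℝ) (a : ℕ) : ℝ := if a % h < w then 1 else F a

-- BEGIN z1
theorem Ind.BM {f : X → ℝ} (hf : Ind f) : BM 1 f := by
  refine ⟨hf.1, fun x => ?_⟩
  rcases hf.2 x with h | h <;> rw [h] <;> simp

private theorem z1_round (u y : ℝ) (hu : u = 0 ∨ u = 1) :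
    |u - (if (1 : ℝ) / 2 ≤ y then 1 else 0)| ≤ 2 * |u - y| := by
  rcases hu with rfl | rfl
  · split_ifs with h
    · have h1 : (1 : ℝ) / 2 ≤ |0 - y| := by
        rw [zero_sub, abs_neg]
        exact h.trans (le_abs_self y)
      have h2 : |(0 : ℝ) - 1| = 1 := by norm_num
      rw [h2]
      linarith
    · simp
  · split_ifs with h
    · simp
    · have h1 : (1 : ℝ) / 2 ≤ |1 - y| := by
        push Not at h
        exact le_trans (by linarith) (le_abs_self (1 - y))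
      have h2 : |(1 : ℝ) - 0| = 1 := by norm_num
      rw [h2]
      linarith

/-- from `exists_data'` for `f - ∫ f`, rounding `F + ∫ f` to `0` or `1` -/
theorem exists_dataS {U : Set Aut} (hU : IsOpen U) (hne : U.Nonempty) {f : X → ℝ}
    (hf : Ind f) {δ : ℝ} (hδ : 0 < δ) (m K0 N0 : ℕ) :
    ∃ (N K : ℕ) (_ : Fact N.Prime) (_ : NeZero (N * (N * K))) (e : ZMod N ≃ Fin N)
      (E : ZMod (N * (N * K)) ≃ Fin (N * (N * K))) (F : ZMod N → ℝ),
      Odd N ∧ N0 ≤ N ∧ 1 ≤ K ∧ K0 ≤ K ∧ m ≤ N * K ∧ (∀ x, F x = 0 ∨ F x = 1) ∧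
      ∫ x, |f x - F (e.symm (P N x))| ∂μ < δ ∧ Cy N e ∈ U ∧ Cy (N * (N * K)) E ∈ U ∧
      ∀ a : ZMod (N * (N * K)), ((E a : Fin (N * (N * K))) : ℕ) / (N * K) =
        ((e (wd N K a.val) : Fin N) : ℕ) := by
  have hfB := hf.BM
  have hfi := hfB.integrable
  set c : ℝ := ∫ x, f x ∂μ with hc
  have hc0 : 0 ≤ c := integral_nonneg fun x => by
    rcases hf.2 x with h | h <;> simp [h]
  have hc1 : c ≤ 1 := by
    have h1 : ∫ x, f x ∂μ ≤ ∫ x, (1 : ℝ) ∂μ :=
      integral_mono hfi (integrable_const _) fun x => by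
        rcases hf.2 x with h | h <;> simp [h]
    simpa using h1
  have hg : BM 1 (fun x => f x - c) := by
    refine ⟨hf.1.sub_const c, fun x => ?_⟩
    show |f x - c| ≤ 1
    rw [abs_le]
    rcases hf.2 x with h | h <;> rw [h] <;> constructor <;> linarith
  have hg0 : ∫ x, (f x - c) ∂μ = 0 := by
    rw [integral_sub hfi (integrable_const _)]
    simp [hc]
  obtain ⟨N, K, hN, hNK, e, E, F, h1, _, h3, _, h5, h6, h7, h8, _, h10, h11, h12, h13⟩ :=
    exists_data' hU hne hg hg0 (half_pos hδ) m K0 N0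
  refine ⟨N, K, hN, hNK, e, E, fun x => if (1 : ℝ) / 2 ≤ F x + c then 1 else 0, h1, h3, h5, h6, h7,
    ?_, ?_, h11, h12, h13⟩
  · intro x
    by_cases h : (1 : ℝ) / 2 ≤ F x + c
    · right; simp only [if_pos h]
    · left; simp only [if_neg h]
  · have hmF : Measurable fun x => F (e.symm (P N x)) :=
      (measurable_of_finite fun a : Fin N => F (e.symm a)).comp (measurable_P N)
    have hmG : Measurable fun x => (if (1 : ℝ) / 2 ≤ F (e.symm (P N x)) + c then (1 : ℝ) else 0) :=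
      (measurable_of_finite fun a : Fin N =>
        (if (1 : ℝ) / 2 ≤ F (e.symm a) + c then (1 : ℝ) else 0)).comp (measurable_P N)
    have i1 : Integrable (fun x => |f x - c - F (e.symm (P N x))|) μ := by
      have hb : BM 2 (fun x => |f x - c - F (e.symm (P N x))|) := by
        refine ⟨((hf.1.sub_const c).sub hmF).abs, fun x => ?_⟩
        rw [abs_abs]
        refine (abs_sub _ _).trans ?_
        have k1 := hg.2 x
        have k2 := h8 (e.symm (P N x))
        simp only at k1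
        linarith
      exact hb.integrable
    have i2 : Integrable (fun x => |f x -
        (if (1 : ℝ) / 2 ≤ F (e.symm (P N x)) + c then (1 : ℝ) else 0)|) μ := by
      have hb : BM 2 (fun x => |f x -
          (if (1 : ℝ) / 2 ≤ F (e.symm (P N x)) + c then (1 : ℝ) else 0)|) := by
        refine ⟨(hf.1.sub hmG).abs, fun x => ?_⟩
        rw [abs_abs]
        refine (abs_sub _ _).trans ?_
        have k1 := hfB.2 x
        have k2 : |(if (1 : ℝ) / 2 ≤ F (e.symm (P N x)) + c then (1 : ℝ) else 0)| ≤ 1 := by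
          split_ifs <;> simp
        linarith
      exact hb.integrable
    have h14 : ∫ x, |f x - (if (1 : ℝ) / 2 ≤ F (e.symm (P N x)) + c then (1 : ℝ) else 0)| ∂μ ≤
        ∫ x, 2 * |f x - c - F (e.symm (P N x))| ∂μ := by
      refine integral_mono i2 (i1.const_mul 2) fun x => ?_
      have k := z1_round (f x) (F (e.symm (P N x)) + c) (hf.2 x)
      have k2 : f x - (F (e.symm (P N x)) + c) = f x - c - F (e.symm (P N x)) := by ring
      rw [k2] at k
      exact k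
    rw [integral_const_mul] at h14
    have h15 : ∫ x, |f x - c - F (e.symm (P N x))| ∂μ < δ / 2 := h10
    exact lt_of_le_of_lt h14 (by linarith)
-- END z1

-- BEGIN z2
private theorem z2_shift {h : ℕ} {g : ℕ → ℝ} (hp : ∀ a, g (a + h) = g a) (t : ℕ) :
    ∑ a ∈ Finset.range h, g (a + t) = ∑ a ∈ Finset.range h, g a := by
  induction t with
  | zero => simp
  | succ t ih =>
    have h1 : ∑ a ∈ Finset.range (h + 1), g (a + t) = ∑ a ∈ Finset.range h, g (a + t) + g (h + t) :=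
      Finset.sum_range_succ _ _
    have h2 : ∑ a ∈ Finset.range (h + 1), g (a + t) =
        ∑ a ∈ Finset.range h, g (a + 1 + t) + g (0 + t) := Finset.sum_range_succ' _ _
    have h3 : g (h + t) = g (0 + t) := by
      rw [Nat.zero_add, Nat.add_comm]
      exact hp t
    have h4 : ∑ a ∈ Finset.range h, g (a + (t + 1)) = ∑ a ∈ Finset.range h, g (a + 1 + t) :=
      Finset.sum_congr rfl fun a _ => by rw [Nat.add_right_comm, Nat.add_assoc]
    rw [h4, ← ih]
    linarith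

private theorem z2_alpha {N : ℕ} [Fact N.Prime] {F : ZMod N → ℝ}
    (hF : ∀ x, F x = 0 ∨ F x = 1) {α : ℝ} (hα : α = (1 / (N : ℝ)) * ∑ x, F x) :
    0 ≤ α ∧ α ≤ 1 := by
  have hN : (0 : ℝ) < N := by exact_mod_cast (Fact.out : N.Prime).pos
  have h0 : 0 ≤ ∑ x, F x := Finset.sum_nonneg fun x _ => by rcases hF x with h | h <;> simp [h]
  have h1 : ∑ x, F x ≤ N := by
    calc ∑ x, F x ≤ ∑ _x : ZMod N, (1 : ℝ) :=
          Finset.sum_le_sum fun x _ => by rcases hF x with h | h <;> simp [h]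
      _ = N := by simp [ZMod.card]
  rw [hα]
  refine ⟨by positivity, ?_⟩
  rw [one_div, inv_mul_le_iff₀ hN, mul_one]
  exact h1

private theorem z2_bd {N : ℕ} [Fact N.Prime] {F : ZMod N → ℝ}
    (hF : ∀ x, F x = 0 ∨ F x = 1) {α : ℝ} (hα : α = (1 / (N : ℝ)) * ∑ x, F x) (x : ZMod N) :
    |F x - α| ≤ 1 := by
  obtain ⟨h0, h1⟩ := z2_alpha hF hα
  rw [abs_le]
  rcases hF x with h | h <;> rw [h] <;> constructor <;> linarith

private theorem z2_sum {N : ℕ} [NeZero N] {F : ZMod N → ℝ} {α : ℝ}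
    (hα : α = (1 / (N : ℝ)) * ∑ x, F x) : ∑ x, (F x - α) = 0 := by
  have hN : (N : ℝ) ≠ 0 := by exact_mod_cast NeZero.ne N
  rw [Finset.sum_sub_distrib, Finset.sum_const, Finset.card_univ, ZMod.card, nsmul_eq_mul, hα]
  field_simp
  ring

private theorem z2_ch {N K : ℕ} [Fact N.Prime] (hN : Odd N) (hK : 1 ≤ K) {F : ZMod N → ℝ}
    {α : ℝ} (hα : α = (1 / (N : ℝ)) * ∑ x, F x) (t : ℕ) :
    ch (N * (N * K)) (fun a => F (wd N K a)) (fun a => F (wd N K a)) t =
      ch (N * (N * K)) (fun a => (fun x => F x - α) (wd N K a))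
        (fun a => (fun x => F x - α) (wd N K a)) t + α ^ 2 := by
  have hNp : 0 < N := (Fact.out : N.Prime).pos
  have hh : 0 < N * (N * K) := Nat.mul_pos hNp (Nat.mul_pos hNp hK)
  have hh' : ((N * (N * K) : ℕ) : ℝ) ≠ 0 := by exact_mod_cast hh.ne'
  have s0 : ∑ x, (fun x => F x - α) x = 0 := z2_sum hα
  have s1 : ∑ a ∈ Finset.range (N * (N * K)), (fun x => F x - α) (wd N K a) = 0 := wd_sum hK s0
  have s2 : ∑ a ∈ Finset.range (N * (N * K)), (fun x => F x - α) (wd N K (a + t)) = 0 := by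
    rw [← s1]
    exact z2_shift (g := fun a => (fun x => F x - α) (wd N K a))
      (fun a => by simp only [wd_period hN hK]) t
  unfold ch
  have e : ∑ a ∈ Finset.range (N * (N * K)), F (wd N K a) * F (wd N K (a + t)) =
      ∑ a ∈ Finset.range (N * (N * K)), (F (wd N K a) - α) * (F (wd N K (a + t)) - α) +
        α * (∑ a ∈ Finset.range (N * (N * K)), (F (wd N K a) - α) +
          ∑ a ∈ Finset.range (N * (N * K)), (F (wd N K (a + t)) - α)) +
        (N * (N * K) : ℕ) * α ^ 2 := by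
    have hc : ((N * (N * K) : ℕ) : ℝ) * α ^ 2 = ∑ _a ∈ Finset.range (N * (N * K)), α ^ 2 := by
      rw [Finset.sum_const, Finset.card_range, nsmul_eq_mul]
    rw [hc, ← Finset.sum_add_distrib, Finset.mul_sum, ← Finset.sum_add_distrib,
      ← Finset.sum_add_distrib]
    exact Finset.sum_congr rfl fun a _ => by ring
  have s1' : ∑ a ∈ Finset.range (N * (N * K)), (F (wd N K a) - α) = 0 := s1
  have s2' : ∑ a ∈ Finset.range (N * (N * K)), (F (wd N K (a + t)) - α) = 0 := s2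
  show 1 / ((N * (N * K) : ℕ) : ℝ) * ∑ a ∈ Finset.range (N * (N * K)),
      F (wd N K a) * F (wd N K (a + t)) =
    1 / ((N * (N * K) : ℕ) : ℝ) * ∑ a ∈ Finset.range (N * (N * K)),
      (F (wd N K a) - α) * (F (wd N K (a + t)) - α) + α ^ 2
  rw [e, s1', s2', add_zero, mul_zero, add_zero, mul_add, one_div, inv_mul_cancel_left₀ hh']

private theorem z2_cN {N : ℕ} [NeZero N] {F : ZMod N → ℝ} {α : ℝ}
    (hα : α = (1 / (N : ℝ)) * ∑ x, F x) (t : ℕ) :
    cN F F t = cN (fun x => F x - α) (fun x => F x - α) t + α ^ 2 := by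
  have hN : (N : ℝ) ≠ 0 := by exact_mod_cast NeZero.ne N
  have s0 : ∑ x, (F x - α) = 0 := z2_sum hα
  have s2 : ∑ x : ZMod N, (F (x + (t : ZMod N)) - α) = 0 := by
    rw [← s0]
    exact Equiv.sum_comp (Equiv.addRight (t : ZMod N)) (fun x => F x - α)
  unfold cN
  have e : ∑ x : ZMod N, F x * F (x + (t : ZMod N)) =
      ∑ x : ZMod N, (F x - α) * (F (x + (t : ZMod N)) - α) +
        α * (∑ x : ZMod N, (F x - α) + ∑ x : ZMod N, (F (x + (t : ZMod N)) - α)) +
        N * α ^ 2 := by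
    have hc : (N : ℝ) * α ^ 2 = ∑ _a : ZMod N, α ^ 2 := by
      rw [Finset.sum_const, Finset.card_univ, ZMod.card, nsmul_eq_mul]
    rw [hc, ← Finset.sum_add_distrib, Finset.mul_sum, ← Finset.sum_add_distrib,
      ← Finset.sum_add_distrib]
    exact Finset.sum_congr rfl fun a _ => by ring
  rw [e, s0, s2, add_zero, mul_zero, add_zero, mul_add, one_div, inv_mul_cancel_left₀ hN]

/-- the correlations of the word of a set: `wd_corr_small`, `wd_corr_mid`, `wd_sum_Ico` for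
`F - α`, `B = 1` -/
theorem word_near {N K : ℕ} [Fact N.Prime] (hN : Odd N) (hK : 1 ≤ K) {F : ZMod N → ℝ}
    (hF : ∀ x, F x = 0 ∨ F x = 1) {α : ℝ} (hα : α = (1 / (N : ℝ)) * ∑ x, F x) {t : ℕ}
    (ht : t ≤ N * K) :
    |ch (N * (N * K)) (fun a => F (wd N K a)) (fun a => F (wd N K a)) t - α ^ 2
      - (1 - (t : ℝ) / (N * K : ℕ)) * (cN F F t - α ^ 2)| ≤ (4 : ℝ) / K := by
  have h := wd_corr_small hN hK (B := 1) (F := fun x => F x - α) (z2_sum hα) (z2_bd hF hα) ht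
  rw [z2_ch hN hK hα, z2_cN hα]
  rw [one_pow, mul_one] at h
  simpa only [add_sub_cancel_right] using h

theorem word_far {N K : ℕ} [Fact N.Prime] (hN : Odd N) (hK : 1 ≤ K) {F : ZMod N → ℝ}
    (hF : ∀ x, F x = 0 ∨ F x = 1) {α : ℝ} (hα : α = (1 / (N : ℝ)) * ∑ x, F x) {t : ℕ}
    (ht : N * K ≤ t) (ht' : t + N * K ≤ N * (N * K)) :
    |ch (N * (N * K)) (fun a => F (wd N K a)) (fun a => F (wd N K a)) t - α ^ 2| ≤ (4 : ℝ) / K := by
  have h := wd_corr_mid hN hK (B := 1) (F := fun x => F x - α) (z2_sum hα) (z2_bd hF hα) ht ht'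
  rw [z2_ch hN hK hα]
  rw [one_pow, mul_one] at h
  simpa only [add_sub_cancel_right] using h

theorem word_count {N K : ℕ} [Fact N.Prime] (hK : 1 ≤ K) {F : ZMod N → ℝ}
    (hF : ∀ x, F x = 0 ∨ F x = 1) {α : ℝ} (hα : α = (1 / (N : ℝ)) * ∑ x, F x) {w : ℕ}
    (hw : w ≤ N * (N * K)) :
    |∑ a ∈ Finset.range w, F (wd N K a) - (w : ℝ) * α| ≤ ((N : ℝ) + 2) * N := by
  have h := wd_sum_Ico hK (B := 1) (F := fun x => F x - α) (z2_sum hα) (z2_bd hF hα) (s := 0) hw
  rw [mul_one] at h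
  have e : ∑ a ∈ Finset.Ico 0 (0 + w), (fun x => F x - α) (wd N K a) =
      ∑ a ∈ Finset.range w, F (wd N K a) - (w : ℝ) * α := by
    rw [Nat.zero_add, ← Finset.range_eq_Ico]
    show ∑ a ∈ Finset.range w, (F (wd N K a) - α) = _
    rw [Finset.sum_sub_distrib, Finset.sum_const, Finset.card_range, nsmul_eq_mul]
  rw [← e]
  exact h

theorem word_mean {N K : ℕ} [Fact N.Prime] (hK : 1 ≤ K) {F : ZMod N → ℝ} {α : ℝ}
    (hα : α = (1 / (N : ℝ)) * ∑ x, F x) :
    (1 / ((N * (N * K) : ℕ) : ℝ)) * ∑ a ∈ Finset.range (N * (N * K)), F (wd N K a) = α := by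
  have hNp : 0 < N := (Fact.out : N.Prime).pos
  have hh : 0 < N * (N * K) := Nat.mul_pos hNp (Nat.mul_pos hNp hK)
  have hh' : ((N * (N * K) : ℕ) : ℝ) ≠ 0 := by exact_mod_cast hh.ne'
  have s1 : ∑ a ∈ Finset.range (N * (N * K)), (fun x => F x - α) (wd N K a) = 0 :=
    wd_sum hK (z2_sum hα)
  have s1' : ∑ a ∈ Finset.range (N * (N * K)), (F (wd N K a) - α) = 0 := s1
  rw [Finset.sum_sub_distrib, Finset.sum_const, Finset.card_range, nsmul_eq_mul] at s1'
  rw [sub_eq_zero.mp s1', one_div, inv_mul_cancel_left₀ hh']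
-- END z2

-- BEGIN z3
private theorem z3_nonneg {F : ℕ → ℝ} (hF : ∀ a, F a = 0 ∨ F a = 1) (a : ℕ) : 0 ≤ F a := by
  rcases hF a with h | h <;> simp [h]

private theorem z3_le_one {F : ℕ → ℝ} (hF : ∀ a, F a = 0 ∨ F a = 1) (a : ℕ) : F a ≤ 1 := by
  rcases hF a with h | h <;> simp [h]

private theorem z3_le {h w : ℕ} {F : ℕ → ℝ} (hF : ∀ a, F a = 0 ∨ F a = 1) (a : ℕ) :
    F a ≤ GG h w F a := by
  unfold GG
  split_ifs
  · exact z3_le_one hF a
  · exact le_refl _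

private theorem z3_term {h w : ℕ} {F : ℕ → ℝ} (hF : ∀ a, F a = 0 ∨ F a = 1) (a b : ℕ) :
    F a * F b ≤ GG h w F a * GG h w F b :=
  mul_le_mul (z3_le hF a) (z3_le hF b) (z3_nonneg hF b) ((z3_nonneg hF a).trans (z3_le hF a))

theorem GG_mean {h w : ℕ} (hw : w ≤ h) (F : ℕ → ℝ) :
    ∑ a ∈ Finset.range h, GG h w F a =
      ∑ a ∈ Finset.range h, F a + ((w : ℝ) - ∑ a ∈ Finset.range w, F a) := by
  have h1 : ∑ a ∈ Finset.range h, (GG h w F a - F a) = ∑ a ∈ Finset.range w, (1 - F a) := by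
    rw [← Finset.sum_subset (Finset.range_subset_range.2 hw)]
    · refine Finset.sum_congr rfl fun a ha => ?_
      have h2 : a < w := Finset.mem_range.1 ha
      unfold GG
      rw [Nat.mod_eq_of_lt (lt_of_lt_of_le h2 hw), if_pos h2]
    · intro a ha ha'
      have h2 : a < h := Finset.mem_range.1 ha
      have h3 : ¬ a < w := fun h4 => ha' (Finset.mem_range.2 h4)
      unfold GG
      rw [Nat.mod_eq_of_lt h2, if_neg h3, sub_self]
  rw [Finset.sum_sub_distrib, Finset.sum_sub_distrib, Finset.sum_const, Finset.card_range,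
    nsmul_eq_mul, mul_one] at h1
  linarith

theorem GG_period {h w : ℕ} {F : ℕ → ℝ} (hFp : ∀ a, F (a + h) = F a) (a : ℕ) :
    GG h w F (a + h) = GG h w F a := by
  unfold GG
  rw [Nat.add_mod_right, hFp]

theorem GG_mem {h w : ℕ} {F : ℕ → ℝ} (hF : ∀ a, F a = 0 ∨ F a = 1) (a : ℕ) :
    GG h w F a = 0 ∨ GG h w F a = 1 := by
  unfold GG
  split_ifs
  · exact Or.inr rfl
  · exact hF a

/-- `GG ≥ F ≥ 0` -/
theorem GG_far {h w : ℕ} {F : ℕ → ℝ} (hF : ∀ a, F a = 0 ∨ F a = 1) (t : ℕ) :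
    ch h F F t ≤ ch h (GG h w F) (GG h w F) t := by
  unfold ch
  exact mul_le_mul_of_nonneg_left (Finset.sum_le_sum fun a _ => z3_term hF a (a + t))
    (by positivity)

/-- near the diagonal: `w - t` places with both `1` instead of `F`; subtract those where `F` was
`1` -/
theorem GG_near {h w : ℕ} (h0 : 0 < h) (hw : w ≤ h) {F : ℕ → ℝ} (hF : ∀ a, F a = 0 ∨ F a = 1)
    (hFp : ∀ a, F (a + h) = F a) {t : ℕ} (ht : t ≤ h) :
    ch h F F t + (1 / (h : ℝ)) * ((w : ℝ) - t - 2 * ∑ a ∈ Finset.range w, F a) ≤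
      ch h (GG h w F) (GG h w F) t := by
  have _ := h0
  have _ := hFp
  have _ := ht
  have hs : 0 ≤ ∑ a ∈ Finset.range w, F a := Finset.sum_nonneg fun a _ => z3_nonneg hF a
  have key : ∑ a ∈ Finset.range h, F a * F (a + t) +
      ((w : ℝ) - t - 2 * ∑ a ∈ Finset.range w, F a) ≤
      ∑ a ∈ Finset.range h, GG h w F a * GG h w F (a + t) := by
    rcases le_total w t with hwt | htw
    · have h1 : ∑ a ∈ Finset.range h, F a * F (a + t) ≤
          ∑ a ∈ Finset.range h, GG h w F a * GG h w F (a + t) :=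
        Finset.sum_le_sum fun a _ => z3_term hF a (a + t)
      have h2 : (w : ℝ) ≤ t := by exact_mod_cast hwt
      linarith
    · have h1 : ∑ a ∈ Finset.range (w - t), (1 - F a) ≤
          ∑ a ∈ Finset.range h, (GG h w F a * GG h w F (a + t) - F a * F (a + t)) := by
        refine le_trans (Finset.sum_le_sum fun a ha => ?_)
          (Finset.sum_le_sum_of_subset_of_nonneg
            (Finset.range_subset_range.2 ((Nat.sub_le w t).trans hw))
            fun a _ _ => sub_nonneg.2 (z3_term hF a (a + t)))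
        have h2 : a + t < w := by
          have := Finset.mem_range.1 ha
          omega
        have h3 : a < w := by omega
        have e1 : GG h w F a = 1 := by
          unfold GG
          rw [Nat.mod_eq_of_lt (lt_of_lt_of_le h3 hw), if_pos h3]
        have e2 : GG h w F (a + t) = 1 := by
          unfold GG
          rw [Nat.mod_eq_of_lt (lt_of_lt_of_le h2 hw), if_pos h2]
        rw [e1, e2, mul_one]
        have h4 : F a * F (a + t) ≤ F a * 1 :=
          mul_le_mul_of_nonneg_left (z3_le_one hF _) (z3_nonneg hF a)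
        linarith
      rw [Finset.sum_sub_distrib, Finset.sum_sub_distrib, Finset.sum_const, Finset.card_range,
        nsmul_eq_mul, mul_one, Nat.cast_sub htw] at h1
      have h5 : ∑ a ∈ Finset.range (w - t), F a ≤ ∑ a ∈ Finset.range w, F a :=
        Finset.sum_le_sum_of_subset_of_nonneg
          (Finset.range_subset_range.2 (Nat.sub_le w t)) fun a _ _ => z3_nonneg hF a
      linarith
  unfold ch
  rw [← mul_add]
  exact mul_le_mul_of_nonneg_left key (by positivity)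
-- END z3

-- BEGIN z4
private theorem z4_sig {N K w : ℕ} [Fact N.Prime] (hN : Odd N) (hK : 1 ≤ K) {η α κ : ℝ}
    {F : ZMod N → ℝ} (hF : ∀ x, F x = 0 ∨ F x = 1) (hα : α = (1 / (N : ℝ)) * ∑ x, F x)
    (hw : w ≤ N * (N * K)) (hκ : κ = (w : ℝ) / (N * (N * K) : ℕ)) (hKη : (4 : ℝ) / K ≤ η / 256)
    {S : ℝ} (hS : S = ∑ a ∈ Finset.range w, F (wd N K a)) :
    |S / (N * (N * K) : ℕ) - κ * α| ≤ η / 512 := by
  have hN3 : 3 ≤ N := by
    have h1 := (Fact.out : N.Prime).two_le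
    obtain ⟨k, hk⟩ := hN
    omega
  have hNr : (3 : ℝ) ≤ N := by exact_mod_cast hN3
  have hKr : (1 : ℝ) ≤ K := by exact_mod_cast hK
  have hcast : ((N * (N * K) : ℕ) : ℝ) = N * (N * K) := by push_cast; ring
  have hpos : (0 : ℝ) < ((N * (N * K) : ℕ) : ℝ) := by rw [hcast]; positivity
  have h1 : |S - (w : ℝ) * α| ≤ ((N : ℝ) + 2) * N := by
    rw [hS]
    exact word_count hK hF hα hw
  have h2 : S / (N * (N * K) : ℕ) - κ * α = (S - (w : ℝ) * α) / (N * (N * K) : ℕ) := by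
    rw [hκ]
    ring
  rw [h2, abs_div, abs_of_pos hpos]
  have h3 : |S - (w : ℝ) * α| / ((N * (N * K) : ℕ) : ℝ) ≤ 2 / K := by
    rw [div_le_div_iff₀ hpos (by positivity), hcast]
    have h4 : ((N : ℝ) + 2) * N ≤ 2 * N * N := by nlinarith
    calc |S - (w : ℝ) * α| * (K : ℝ) ≤ (2 * N * N) * K :=
          mul_le_mul_of_nonneg_right (h1.trans h4) (by positivity)
      _ = 2 * ((N : ℝ) * (N * K)) := by ring
  have h5 : (2 : ℝ) / K = (4 / K) / 2 := by ring
  rw [h5] at h3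
  linarith

/-- the cyclic form of the step for sets -/
theorem cyc_stepS {N K w : ℕ} [Fact N.Prime] (hN : Odd N) (hK : 1 ≤ K) {η α κ : ℝ} (hη : 0 < η)
    {F : ZMod N → ℝ} (hF : ∀ x, F x = 0 ∨ F x = 1) (hα : α = (1 / (N : ℝ)) * ∑ x, F x)
    (hw : w ≤ N * (N * K)) (hκ : κ = (w : ℝ) / (N * (N * K) : ℕ)) (hα1 : α ≤ 1 / 128)
    (hκ1 : κ ≤ 1 / 128) (hκ2 : 2 * η ≤ κ) (hκ3 : κ ≤ 17 / 8 * η)
    (hlow : ∀ t : ℕ, 1 ≤ t → α ^ 2 - (η + η / 16) ≤ cN F F t) (hNη : (1 : ℝ) / N ≤ η / 32)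
    (hKη : (4 : ℝ) / K ≤ η / 256) {mG : ℝ}
    (hmG : mG = (1 / ((N * (N * K) : ℕ) : ℝ)) *
      ∑ a ∈ Finset.range (N * (N * K)), GG (N * (N * K)) w (fun a => F (wd N K a)) a) :
    (∀ t : ℕ, mG ^ 2 - 15 / 256 * η ≤ ch (N * (N * K))
      (GG (N * (N * K)) w (fun a => F (wd N K a))) (GG (N * (N * K)) w (fun a => F (wd N K a))) t) ∧
    ∀ t : ℕ, t ≤ N * K → ch (N * (N * K)) (fun a => F (wd N K a)) (fun a => F (wd N K a)) t
      - α ^ 2 + 3 / 2 * η ≤ ch (N * (N * K))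
      (GG (N * (N * K)) w (fun a => F (wd N K a))) (GG (N * (N * K)) w (fun a => F (wd N K a))) t
      - mG ^ 2 := by
  have hN1 : 1 ≤ N := (Fact.out : N.Prime).one_le
  have hNr : (1 : ℝ) ≤ N := by exact_mod_cast hN1
  have hKr : (1 : ℝ) ≤ K := by exact_mod_cast hK
  obtain ⟨S, hS⟩ : ∃ S : ℝ, S = ∑ a ∈ Finset.range w, F (wd N K a) := ⟨_, rfl⟩
  have hsig := z4_sig hN hK hF hα hw hκ hKη hS
  have hL0 : 0 < N * K := Nat.mul_pos hN1 hK
  have hh0 : 0 < N * (N * K) := Nat.mul_pos hN1 hL0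
  have hhr : (0 : ℝ) < ((N * (N * K) : ℕ) : ℝ) := by exact_mod_cast hh0
  have hLr : (0 : ℝ) < ((N * K : ℕ) : ℝ) := by exact_mod_cast hL0
  have hLh : N * K ≤ N * (N * K) := Nat.le_mul_of_pos_left _ hN1
  have hFw : ∀ a, (fun a => F (wd N K a)) a = 0 ∨ (fun a => F (wd N K a)) a = 1 := fun a => hF _
  have hFp : ∀ a, (fun a => F (wd N K a)) (a + N * (N * K)) = (fun a => F (wd N K a)) a := by
    intro a
    show F (wd N K (a + N * (N * K))) = F (wd N K a)
    rw [wd_period hN hK]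
  have hF0 : ∀ x, 0 ≤ F x := fun x => by
    rcases hF x with h | h <;> rw [h] <;> norm_num
  have hS0 : 0 ≤ S := by
    rw [hS]
    exact Finset.sum_nonneg fun a _ => hF0 _
  have hα0 : 0 ≤ α := by
    rw [hα]
    exact mul_nonneg (by positivity) (Finset.sum_nonneg fun x _ => hF0 x)
  have hSw : S ≤ w := by
    rw [hS]
    calc ∑ a ∈ Finset.range w, F (wd N K a) ≤ ∑ _a ∈ Finset.range w, (1 : ℝ) := by
          refine Finset.sum_le_sum fun a _ => ?_
          rcases hF (wd N K a) with h | h <;> rw [h] <;> norm_num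
      _ = w := by simp
  obtain ⟨σ, hσ⟩ : ∃ σ : ℝ, σ = S / (N * (N * K) : ℕ) := ⟨_, rfl⟩
  rw [← hσ] at hsig
  have hσ0 : 0 ≤ σ := by rw [hσ]; positivity
  have hσκ : σ ≤ κ := by
    rw [hσ, hκ]
    exact div_le_div_of_nonneg_right hSw hhr.le
  have hκ0 : 0 ≤ κ := by linarith
  have hmG2 : mG = α + κ - σ := by
    have h1 := GG_mean hw (fun a => F (wd N K a))
    have h2 := word_mean (N := N) (K := K) hK hα
    rw [hmG, h1, mul_add, h2, hκ, hσ, hS]
    ring
  have hακ : 0 ≤ α * κ := mul_nonneg hα0 hκ0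
  have hακ1 : α * κ ≤ κ / 128 := by
    have h1 := mul_le_mul_of_nonneg_right hα1 hκ0
    linarith
  have hκκ : κ ^ 2 ≤ κ / 128 := by
    have h1 := mul_le_mul_of_nonneg_right hκ1 hκ0
    rw [sq]
    linarith
  have hm2 : mG ^ 2 ≤ α ^ 2 + 2 * (α * κ) + κ ^ 2 := by
    have h1 : 0 ≤ mG := by rw [hmG2]; linarith
    have h2 : mG ≤ α + κ := by rw [hmG2]; linarith
    have h3 : mG ^ 2 ≤ (α + κ) ^ 2 := pow_le_pow_left₀ h1 h2 2
    calc mG ^ 2 ≤ (α + κ) ^ 2 := h3
      _ = α ^ 2 + 2 * (α * κ) + κ ^ 2 := by ring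
  have he := (abs_le.1 hsig).2
  -- near the diagonal
  have hnear : ∀ t : ℕ, t ≤ N * K → ch (N * (N * K)) (fun a => F (wd N K a))
      (fun a => F (wd N K a)) t - α ^ 2 + 3 / 2 * η ≤ ch (N * (N * K))
      (GG (N * (N * K)) w (fun a => F (wd N K a))) (GG (N * (N * K)) w (fun a => F (wd N K a))) t
      - mG ^ 2 := by
    intro t ht
    have h1 := GG_near hh0 hw hFw hFp (ht.trans hLh)
    have h2 : (1 / ((N * (N * K) : ℕ) : ℝ)) * ((w : ℝ) - t - 2 * ∑ a ∈ Finset.range w,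
        (fun a => F (wd N K a)) a) = κ - (t : ℝ) / (N * (N * K) : ℕ) - 2 * σ := by
      rw [hκ, hσ, hS]
      ring
    rw [h2] at h1
    have h3 : (t : ℝ) / (N * (N * K) : ℕ) ≤ η / 32 := by
      refine le_trans ?_ hNη
      rw [div_le_div_iff₀ hhr (by linarith)]
      have h4 : (t : ℝ) ≤ (N * K : ℕ) := by exact_mod_cast ht
      calc (t : ℝ) * N ≤ ((N * K : ℕ) : ℝ) * N := mul_le_mul_of_nonneg_right h4 (by linarith)
        _ = 1 * ((N * (N * K) : ℕ) : ℝ) := by push_cast; ring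
    linarith
  -- small times
  have hsmall : ∀ t : ℕ, t ≤ N * K → mG ^ 2 - 15 / 256 * η ≤ ch (N * (N * K))
      (GG (N * (N * K)) w (fun a => F (wd N K a))) (GG (N * (N * K)) w (fun a => F (wd N K a))) t := by
    intro t ht
    have h1 := hnear t ht
    have h2 := (abs_le.1 (word_near (N := N) (K := K) hN hK hF hα ht)).1
    have h4 : (t : ℝ) / (N * K : ℕ) ≤ 1 := by
      rw [div_le_one hLr]
      exact_mod_cast ht
    have h5 : (0 : ℝ) ≤ (t : ℝ) / (N * K : ℕ) := by positivity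
    have h3 : -(η + η / 16) ≤ (1 - (t : ℝ) / (N * K : ℕ)) * (cN F F t - α ^ 2) := by
      rcases Nat.eq_zero_or_pos t with h0 | h0
      · subst h0
        have h6 : cN F F 0 = α := by
          rw [hα]
          unfold cN
          congr 1
          refine Finset.sum_congr rfl fun x _ => ?_
          rw [Nat.cast_zero, add_zero]
          rcases hF x with h | h <;> rw [h] <;> norm_num
        have h7 : (1 - ((0 : ℕ) : ℝ) / (N * K : ℕ)) * (cN F F 0 - α ^ 2) = cN F F 0 - α ^ 2 := by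
          rw [Nat.cast_zero, zero_div, sub_zero, one_mul]
        rw [h7, h6]
        have h8 : α ^ 2 ≤ α := by
          have h9 := mul_le_mul_of_nonneg_right hα1 hα0
          rw [sq]
          linarith
        linarith
      · have h6 := hlow t h0
        have h7 : 0 ≤ 1 - (t : ℝ) / (N * K : ℕ) := by linarith
        have h8 : 0 ≤ (t : ℝ) / (N * K : ℕ) * (η + η / 16) := by positivity
        calc -(η + η / 16) ≤ (1 - (t : ℝ) / (N * K : ℕ)) * (-(η + η / 16)) := by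
              linarith
          _ ≤ _ := mul_le_mul_of_nonneg_left (by linarith) h7
    linarith
  refine ⟨?_, hnear⟩
  have hmid : ∀ t : ℕ, N * K ≤ t → t + N * K ≤ N * (N * K) → mG ^ 2 - 15 / 256 * η ≤
      ch (N * (N * K)) (GG (N * (N * K)) w (fun a => F (wd N K a)))
      (GG (N * (N * K)) w (fun a => F (wd N K a))) t := by
    intro t ht ht'
    have h1 := (abs_le.1 (word_far (N := N) (K := K) hN hK hF hα ht ht')).1
    have h2 := GG_far (h := N * (N * K)) (w := w) hFw t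
    linarith
  have hWp : ∀ a, GG (N * (N * K)) w (fun a => F (wd N K a)) (a + N * (N * K)) =
      GG (N * (N * K)) w (fun a => F (wd N K a)) a := fun a => GG_period hFp a
  intro t
  -- reduce modulo `h`
  have hmod : t = t % (N * (N * K)) + (t / (N * (N * K))) * (N * (N * K)) := by
    rw [Nat.mul_comm (t / (N * (N * K))) (N * (N * K))]
    exact (Nat.mod_add_div t (N * (N * K))).symm
  rw [hmod, s4_mul_period hWp]
  have hlt : t % (N * (N * K)) < N * (N * K) := Nat.mod_lt _ hh0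
  obtain ⟨s, hs⟩ : ∃ s : ℕ, s = t % (N * (N * K)) := ⟨_, rfl⟩
  rw [← hs] at hlt ⊢
  rcases Nat.le_total s (N * K) with h1 | h1
  · exact hsmall s h1
  · rcases Nat.le_total (s + N * K) (N * (N * K)) with h2 | h2
    · exact hmid s h1 h2
    · have h3 : N * (N * K) - (N * (N * K) - s) = s := Nat.sub_sub_self hlt.le
      have h4 := ch_symm hWp hWp (t := N * (N * K) - s) (Nat.sub_le _ _)
      have h5 : N * (N * K) - s ≤ N * K := Nat.sub_le_iff_le_add'.2 h2
      rw [h3] at h4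
      rw [h4]
      exact hsmall (N * (N * K) - s) h5
-- END z4

-- BEGIN z5
private theorem z5_co_sub {f g : X → ℝ} (hf : Ind f) (hg : Ind g) (T : Aut) (n : ℕ) :
    |co f T n - co g T n| ≤ 2 * ∫ x, |f x - g x| ∂μ := by
  have h := cr_sub_le hf.BM hg.BM hf.BM hg.BM T n
  rw [co_eq_cr, co_eq_cr]
  linarith

private theorem z5_int {f : X → ℝ} (hf : Ind f) : 0 ≤ ∫ x, f x ∂μ ∧ ∫ x, f x ∂μ ≤ 1 := by
  constructor
  · refine integral_nonneg fun x => ?_
    rcases hf.2 x with h | h <;> rw [Pi.zero_apply, h]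
    exact zero_le_one
  · have h1 : ∫ x, f x ∂μ ≤ ∫ _x : X, (1 : ℝ) ∂μ := by
      refine integral_mono hf.BM.integrable (integrable_const _) fun x => ?_
      rcases hf.2 x with h | h <;> rw [h]
      exact zero_le_one
    rwa [integral_const, smul_eq_mul, mul_one, probReal_univ] at h1

private theorem z5_diff {f g : X → ℝ} (hf : Ind f) (hg : Ind g) :
    |(∫ x, f x ∂μ) - ∫ x, g x ∂μ| ≤ ∫ x, |f x - g x| ∂μ := by
  rw [← integral_sub hf.BM.integrable hg.BM.integrable]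
  exact abs_integral_le_integral_abs

private theorem z5_sq {a b : ℝ} (ha : 0 ≤ a) (ha1 : a ≤ 1) (hb : 0 ≤ b) (hb1 : b ≤ 1) {d : ℝ}
    (h : |a - b| ≤ d) : |a ^ 2 - b ^ 2| ≤ 2 * d := by
  have h1 : a ^ 2 - b ^ 2 = (a + b) * (a - b) := by ring
  rw [h1, abs_mul, abs_of_nonneg (add_nonneg ha hb)]
  calc (a + b) * |a - b| ≤ 2 * |a - b| :=
        mul_le_mul_of_nonneg_right (by linarith) (abs_nonneg _)
    _ ≤ 2 * d := by linarith

private theorem z5_lv {h : ℕ} [NeZero h] (E : ZMod h ≃ Fin h) {F : ℕ → ℝ}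
    (hF : ∀ a, F a = 0 ∨ F a = 1) : Ind (lv E F) :=
  ⟨(lv_BM E (B := 1) fun a => by rcases hF a with h | h <;> rw [h] <;> norm_num).1,
    fun _ => hF _⟩

private theorem z5_abs {F : ℕ → ℝ} (hF : ∀ a, F a = 0 ∨ F a = 1) (a : ℕ) : |F a| ≤ 1 := by
  rcases hF a with h | h <;> rw [h] <;> norm_num

private theorem z5_w {h : ℕ} {η : ℝ} (hη : 0 < η) (hη1 : η ≤ 1 / 1024) (h1 : (1 : ℝ) / h ≤ η / 32)
    (h0 : 0 < h) : ∃ w : ℕ, w ≤ h ∧ 2 * η ≤ (w : ℝ) / h ∧ (w : ℝ) / h ≤ 17 / 8 * η := by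
  have hh : (0 : ℝ) < h := by exact_mod_cast h0
  have h2 : (⌈2 * η * h⌉₊ : ℝ) < 2 * η * h + 1 := Nat.ceil_lt_add_one (by positivity)
  have h3 : 2 * η * h ≤ (⌈2 * η * h⌉₊ : ℝ) := Nat.le_ceil _
  have h4 : (⌈2 * η * h⌉₊ : ℝ) / h ≤ 17 / 8 * η := by
    rw [div_le_iff₀ hh]
    rw [div_le_iff₀ hh] at h1
    nlinarith
  refine ⟨⌈2 * η * h⌉₊, ?_, by rw [le_div_iff₀ hh]; exact h3, h4⟩
  have h5 : (⌈2 * η * h⌉₊ : ℝ) ≤ h := by
    rw [div_le_iff₀ hh] at h4
    nlinarith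
  exact_mod_cast h5

private theorem z5_main {U : Set Aut} (hU : IsOpen U) {f : X → ℝ} (hf : Ind f) {η δ : ℝ}
    (hη : 0 < η) (hδ : δ = η / 2048) (m : ℕ) {h : ℕ} [NeZero h] (E : ZMod h ≃ Fin h)
    (hU2 : Cy h E ∈ U) {Fw : ℕ → ℝ} (hFw : ∀ a, Fw a = 0 ∨ Fw a = 1)
    (hFwp : ∀ a, Fw (a + h) = Fw a) {α : ℝ} (hα : α = ∫ x, lv E Fw x ∂μ)
    (hint : ∫ x, |f x - lv E Fw x| ∂μ < δ) {w : ℕ} (hw : w ≤ h)
    (hκ : (w : ℝ) / h ≤ 17 / 8 * η)
    {mG : ℝ} (hmG : mG = (1 / (h : ℝ)) * ∑ a ∈ Finset.range h, GG h w Fw a)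
    (hs1 : ∀ t : ℕ, mG ^ 2 - 15 / 256 * η ≤ ch h (GG h w Fw) (GG h w Fw) t)
    (hs2 : ∀ t : ℕ, t ≤ m → ch h Fw Fw t - α ^ 2 + 3 / 2 * η ≤
      ch h (GG h w Fw) (GG h w Fw) t - mG ^ 2) :
    ∃ (U' : Set Aut) (f' : X → ℝ), IsOpen U' ∧ U'.Nonempty ∧ U' ⊆ U ∧ Ind f' ∧
      ∫ x, |f' x - f x| ∂μ ≤ 3 * η ∧
      (∀ T ∈ U', ∀ n : ℕ, 1 ≤ n → -(η / 16) ≤ cv f' T n) ∧
      ∀ T ∈ U', ∀ n : ℕ, 1 ≤ n → n ≤ m → cv f T n + η ≤ cv f' T n := by
  have hG : ∀ a, GG h w Fw a = 0 ∨ GG h w Fw a = 1 := GG_mem hFw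
  have hGp : ∀ a, GG h w Fw (a + h) = GG h w Fw a := GG_period hFwp
  have hh : (0 : ℝ) < h := by exact_mod_cast Nat.pos_of_ne_zero (NeZero.ne h)
  -- the first levels
  obtain ⟨W, hW⟩ : ∃ W : ℕ → ℝ, W = fun a => if a < w then 1 else 0 := ⟨_, rfl⟩
  have hWm : ∀ a, W a = 0 ∨ W a = 1 := fun a => by
    rw [hW]
    by_cases h1 : a < w
    · right; exact if_pos h1
    · left; exact if_neg h1
  have hWint : ∫ x, lv E W x ∂μ = (w : ℝ) / h := by
    rw [integral_lv, hW]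
    have h1 : ∑ a ∈ Finset.range h, (if a < w then (1 : ℝ) else 0) = w := by
      rw [Finset.sum_ite, Finset.sum_const_zero, add_zero, Finset.sum_const, nsmul_eq_mul, mul_one]
      have h2 : (Finset.range h).filter (fun a => a < w) = Finset.range w := by
        ext a
        rw [Finset.mem_filter, Finset.mem_range, Finset.mem_range]
        exact ⟨fun h => h.2, fun h => ⟨lt_of_lt_of_le h hw, h⟩⟩
      rw [h2, Finset.card_range]
    show (1 : ℝ) / h * ∑ a ∈ Finset.range h, (if a < w then (1 : ℝ) else 0) = w / h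
    rw [h1]
    ring
  have hWI : Ind (lv E W) := z5_lv E hWm
  -- the new set
  obtain ⟨f', hf'⟩ : ∃ f' : X → ℝ, f' = fun x => f x + lv E W x * (1 - f x) := ⟨_, rfl⟩
  have hval : ∀ x, (lv E W x = 0 ∧ f' x = f x ∧ lv E (GG h w Fw) x = lv E Fw x) ∨
      (lv E W x = 1 ∧ f' x = 1 ∧ lv E (GG h w Fw) x = 1) := by
    intro x
    have hmod : (E.symm (P h x)).val % h = (E.symm (P h x)).val := Nat.mod_eq_of_lt (ZMod.val_lt _)
    by_cases h1 : (E.symm (P h x)).val < w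
    · right
      have h2 : lv E W x = 1 := by
        rw [hW]; exact if_pos h1
      refine ⟨h2, ?_, ?_⟩
      · rw [hf']
        show f x + lv E W x * (1 - f x) = 1
        rw [h2]; ring
      · show GG h w Fw (E.symm (P h x)).val = 1
        unfold GG
        rw [hmod, if_pos h1]
    · left
      have h2 : lv E W x = 0 := by
        rw [hW]; exact if_neg h1
      refine ⟨h2, ?_, ?_⟩
      · rw [hf']
        show f x + lv E W x * (1 - f x) = f x
        rw [h2]; ring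
      · show GG h w Fw (E.symm (P h x)).val = Fw (E.symm (P h x)).val
        unfold GG
        rw [hmod, if_neg h1]
  have hf'I : Ind f' := by
    refine ⟨?_, fun x => ?_⟩
    · rw [hf']
      exact hf.1.add (hWI.1.mul (measurable_const.sub hf.1))
    · rcases hval x with h1 | h1
      · rw [h1.2.1]; exact hf.2 x
      · right; exact h1.2.1
  have hFI : Ind (lv E Fw) := z5_lv E hFw
  have hGI : Ind (lv E (GG h w Fw)) := z5_lv E hG
  have hiabs : ∀ {u v : X → ℝ}, Ind u → Ind v → Integrable (fun x => |u x - v x|) μ :=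
    fun hu hv => (hu.BM.integrable.sub hv.BM.integrable).abs
  have hdist : ∫ x, |f' x - f x| ∂μ ≤ 3 * η := by
    have h1 : ∫ x, |f' x - f x| ∂μ ≤ ∫ x, lv E W x ∂μ := by
      refine integral_mono (hiabs hf'I hf) hWI.BM.integrable fun x => ?_
      show |f' x - f x| ≤ lv E W x
      rcases hval x with h1 | h1
      · rw [h1.1, h1.2.1, sub_self, abs_zero]
      · rw [h1.1, h1.2.1]
        rcases hf.2 x with h2 | h2 <;> rw [h2] <;> norm_num
    rw [hWint] at h1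
    linarith
  have hint' : ∫ x, |f' x - lv E (GG h w Fw) x| ∂μ < δ := by
    refine lt_of_le_of_lt ?_ hint
    refine integral_mono (hiabs hf'I hGI) (hiabs hf hFI) fun x => ?_
    show |f' x - lv E (GG h w Fw) x| ≤ |f x - lv E Fw x|
    rcases hval x with h1 | h1
    · rw [h1.2.1, h1.2.2]
    · rw [h1.2.1, h1.2.2, sub_self, abs_zero]
      exact abs_nonneg _
  have hmG' : mG = ∫ x, lv E (GG h w Fw) x ∂μ := by rw [integral_lv, hmG]
  -- the squares of the means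
  have hq1 : |(∫ x, f' x ∂μ) ^ 2 - mG ^ 2| ≤ 2 * δ := by
    have h1 := z5_int hf'I
    have h2 := z5_int hGI
    rw [hmG']
    exact z5_sq h1.1 h1.2 h2.1 h2.2 ((z5_diff hf'I hGI).trans hint'.le)
  have hq2 : |(∫ x, f x ∂μ) ^ 2 - α ^ 2| ≤ 2 * δ := by
    have h1 := z5_int hf
    have h2 := z5_int hFI
    rw [hα]
    exact z5_sq h1.1 h1.2 h2.1 h2.2 ((z5_diff hf hFI).trans hint.le)
  have hcoH : ∀ (T : Aut) (n : ℕ), |co f' T n - co (lv E (GG h w Fw)) T n| ≤ 2 * δ := fun T n =>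
    (z5_co_sub hf'I hGI T n).trans (by linarith)
  have hcof : ∀ (T : Aut) (n : ℕ), |co f T n - co (lv E Fw) T n| ≤ 2 * δ := fun T n =>
    (z5_co_sub hf hFI T n).trans (by linarith)
  -- the neighbourhood
  obtain ⟨D, hD⟩ : ∃ D : ℝ, D = (h : ℝ) ^ 3 + m + 1 := ⟨_, rfl⟩
  have hm0 : (0 : ℝ) ≤ m := Nat.cast_nonneg m
  have hD0 : 0 < D := by rw [hD]; positivity
  obtain ⟨ε, hε⟩ : ∃ ε : ℝ, ε = η / (1024 * D) := ⟨_, rfl⟩
  have hε0 : 0 < ε := by rw [hε]; positivity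
  have hDε : 2 * D * ε = η / 512 := by
    rw [hε]; field_simp; norm_num
  obtain ⟨V, hV, hCV, hVd⟩ := exists_open_part (measurable_P h) (Cy h E) hε0
  have herr1 : 2 * (h : ℝ) ^ 3 * 1 ^ 2 * ε ≤ η / 512 := by
    rw [← hDε, hD]
    nlinarith
  have herr2 : ∀ n : ℕ, n ≤ m → 2 * (h : ℝ) ^ 3 * 1 ^ 2 * ε + 2 * n * 1 ^ 2 * ε ≤ η / 512 := by
    intro n hn
    have h1 : (n : ℝ) ≤ m := by exact_mod_cast hn
    rw [← hDε, hD]
    nlinarith
  refine ⟨U ∩ V, f', hU.inter hV, ⟨_, hU2, hCV⟩, inter_subset_left, hf'I, hdist, ?_, ?_⟩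
  · rintro T ⟨-, hTV⟩ n -
    have h1 := stable_ge E T (hVd T hTV).le n (z5_abs hG) hGp hs1
    have h2 := (abs_le.1 (hcoH T n)).1
    have h3 := (abs_le.1 hq1).2
    unfold cv
    linarith
  · rintro T ⟨-, hTV⟩ n - hnm
    have h1 := (abs_le.1 (stable_near E T (hVd T hTV).le (n := n) (z5_abs hG) hGp)).1
    have h2 := (abs_le.1 (stable_near E T (hVd T hTV).le (n := n) (z5_abs hFw) hFwp)).2
    have h3 := hs2 n hnm
    have h4 := (abs_le.1 (hcoH T n)).1
    have h5 := (abs_le.1 (hcof T n)).2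
    have h6 := herr2 n hnm
    have h7 := (abs_le.1 hq1).2
    have h8 := (abs_le.1 hq2).1
    unfold cv
    linarith

/-- THE STEP FOR SETS -/
theorem stepS {U : Set Aut} (hU : IsOpen U) (hne : U.Nonempty) {f : X → ℝ} (hf : Ind f)
    (hf1 : ∫ x, f x ∂μ ≤ 1 / 256) {η : ℝ} (hη : 0 < η) (hη1 : η ≤ 1 / 1024)
    (hlow : ∀ T ∈ U, ∀ n : ℕ, 1 ≤ n → -η ≤ cv f T n) (m : ℕ) :
    ∃ (U' : Set Aut) (f' : X → ℝ), IsOpen U' ∧ U'.Nonempty ∧ U' ⊆ U ∧ Ind f' ∧
      ∫ x, |f' x - f x| ∂μ ≤ 3 * η ∧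
      (∀ T ∈ U', ∀ n : ℕ, 1 ≤ n → -(η / 16) ≤ cv f' T n) ∧
      ∀ T ∈ U', ∀ n : ℕ, 1 ≤ n → n ≤ m → cv f T n + η ≤ cv f' T n := by
  obtain ⟨δ, hδ⟩ : ∃ δ : ℝ, δ = η / 2048 := ⟨_, rfl⟩
  have hδ0 : 0 < δ := by rw [hδ]; positivity
  obtain ⟨N0, hN0⟩ := exists_nat_ge (32 / η)
  obtain ⟨K0, hK0⟩ := exists_nat_ge (1024 / η)
  obtain ⟨N, K, hNp, hNz, e, E, F, hodd, hNN0, hK1, hKK0, hmNK, hF01, hFδ, hU1, hU2, hE⟩ :=
    exists_dataS hU hne hf hδ0 m K0 N0
  have hKpos : (0 : ℝ) < K := by exact_mod_cast hK1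
  have hNpos' : 0 < N := hodd.pos
  have hNpos : (0 : ℝ) < N := by exact_mod_cast hNpos'
  have hNη : (1 : ℝ) / N ≤ η / 32 := by
    have h1 : (N0 : ℝ) ≤ N := by exact_mod_cast hNN0
    have h2 : 32 / η ≤ N := hN0.trans h1
    rw [div_le_iff₀ hη] at h2
    rw [div_le_iff₀ hNpos]
    linarith
  have hKη : (4 : ℝ) / K ≤ η / 256 := by
    have h1 : (K0 : ℝ) ≤ K := by exact_mod_cast hKK0
    have h2 : 1024 / η ≤ K := hK0.trans h1
    rw [div_le_iff₀ hη] at h2
    rw [div_le_iff₀ hKpos]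
    linarith
  have hpos : 0 < N * (N * K) := Nat.mul_pos hNpos' (Nat.mul_pos hNpos' hK1)
  have hhη : (1 : ℝ) / (N * (N * K) : ℕ) ≤ η / 32 := by
    refine le_trans ?_ hNη
    refine one_div_le_one_div_of_le hNpos ?_
    have h1 : N ≤ N * (N * K) := Nat.le_mul_of_pos_right _ (Nat.mul_pos hNpos' hK1)
    exact_mod_cast h1
  obtain ⟨w, hw, hκ2, hκ3⟩ := z5_w hη hη1 hhη hpos
  have hlvw : (fun x : X => F (e.symm (P N x))) = lv E (fun a => F (wd N K a)) := by
    funext x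
    show F (e.symm (P N x)) = F (wd N K (E.symm (P (N * (N * K)) x)).val)
    rw [P_word e E hE x]
  have hFw01 : ∀ a : ℕ, (fun a => F (wd N K a)) a = 0 ∨ (fun a => F (wd N K a)) a = 1 :=
    fun a => hF01 _
  have hFI : Ind (lv E (fun a => F (wd N K a))) := z5_lv E hFw01
  have hint : ∫ x, |f x - lv E (fun a => F (wd N K a)) x| ∂μ < δ := by
    have : (fun x : X => |f x - lv E (fun a => F (wd N K a)) x|) =
        fun x => |f x - F (e.symm (P N x))| := by
      funext x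
      rw [← hlvw]
    rw [this]
    exact hFδ
  -- the mean
  obtain ⟨α, hα⟩ : ∃ α : ℝ, α = (1 / (N : ℝ)) * ∑ x, F x := ⟨_, rfl⟩
  have hα' : α = ∫ x, lv E (fun a => F (wd N K a)) x ∂μ := by
    rw [← hlvw, integral_P N (fun a => F (e.symm a)), hα]
    congr 1
    exact (Equiv.sum_comp e.symm F).symm
  have hdα : |(∫ x, f x ∂μ) - α| ≤ δ := by
    rw [hα']
    exact (z5_diff hf hFI).trans hint.le
  have hα1 : α ≤ 1 / 128 := by
    have h1 := (abs_le.1 hdα).1
    linarith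
  have hqα : |(∫ x, f x ∂μ) ^ 2 - α ^ 2| ≤ 2 * δ := by
    have h1 := z5_int hf
    have h2 := z5_int hFI
    rw [← hα'] at h2
    exact z5_sq h1.1 h1.2 h2.1 h2.2 hdα
  -- the lower bound for the cyclic correlations
  have hlowN : ∀ t : ℕ, 1 ≤ t → α ^ 2 - (η + η / 16) ≤ cN F F t := by
    intro t ht
    have h1 := hlow _ hU1 t ht
    have h2 := z5_co_sub hf hFI (Cy N e) t
    have h3 : co (lv E (fun a => F (wd N K a))) (Cy N e) t = cN F F t := by
      rw [← hlvw]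
      exact co_Cy e F t
    rw [h3] at h2
    have h5 := (abs_le.1 h2).2
    have h6 := (abs_le.1 hqα).1
    unfold cv at h1
    linarith
  obtain ⟨hs1, hs2⟩ := cyc_stepS (κ := (w : ℝ) / (N * (N * K) : ℕ)) hodd hK1 hη hF01 hα hw rfl hα1
    (by linarith) hκ2 hκ3 hlowN hNη hKη rfl
  exact z5_main hU hf hη hδ m E hU2 hFw01
    (fun a => by
      show F (wd N K (a + N * (N * K))) = F (wd N K a)
      rw [wd_period hodd hK1 a]) hα' hint hw hκ3 rfl hs1 fun t ht => hs2 t (ht.trans hmNK)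
-- END z5

end Pool.Agent.Gor
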