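import Pool.Agent.Gor.Wrd

/-!
# Stability: correlations of step functions for all `T` near a cyclic map and ALL times
-/

set_option autoImplicit false

open MeasureTheory Filter Topology Set

namespace Pool.Agent.Gor

/-- a step function with the levels in the cyclic order `E` -/
noncomputable def lv {h : ℕ} [NeZero h] (E : ZMod h ≃ Fin h) (F : ℕ → ℝ) (x : X) : ℝ :=
  F (E.symm (P h x)).val

/-- the weight of the offset `t` at time `n` -/
noncomputable def wt {h : ℕ} [NeZero h] (E : ZMod h ≃ Fin h) (T : Aut) (n : ℕ) (t : ZMod h) : ℝ :=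
  μ.real {x | E.symm (P h ((T.1 : X → X)^[n] x)) = E.symm (P h x) + t}

-- BEGIN t1
private theorem t1_meas_set {h : ℕ} [NeZero h] (T : Aut) (n : ℕ) (q : Fin h → Fin h → Prop) :
    MeasurableSet {x : X | q (P h x) (P h ((T.1 : X → X)^[n] x))} := by
  have hm : Measurable fun x : X => ((P h x, P h ((T.1 : X → X)^[n] x)) : Fin h × Fin h) :=
    (measurable_P h).prodMk ((measurable_P h).comp (T.1.measurable.iterate n))
  exact hm (Set.toFinite {p : Fin h × Fin h | q p.1 p.2}).measurableSet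

private theorem t1_step {h : ℕ} [NeZero h] (E : ZMod h ≃ Fin h) (T : Aut) (y : X)
    (hy : ¬ (P h (T.1 y) ≠ P h ((Cy h E).1 y))) :
    E.symm (P h (T.1 y)) = E.symm (P h y) + 1 := by
  rw [not_not.1 hy, P_Cy, Equiv.symm_apply_apply]

theorem lv_BM {h : ℕ} [NeZero h] (E : ZMod h ≃ Fin h) {B : ℝ} {F : ℕ → ℝ} (hF : ∀ a, |F a| ≤ B) :
    BM B (lv E F) := by
  refine ⟨?_, fun x => hF _⟩
  exact (measurable_of_finite fun a : Fin h => F (E.symm a).val).comp (measurable_P h)

theorem integral_lv {h : ℕ} [NeZero h] (E : ZMod h ≃ Fin h) (F : ℕ → ℝ) :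
    ∫ x, lv E F x ∂μ = (1 / h) * ∑ a ∈ Finset.range h, F a := by
  have h1 := integral_P h (fun a => F (E.symm a).val)
  have h2 : ∑ a : Fin h, F (E.symm a).val = ∑ a ∈ Finset.range h, F a := by
    rw [Equiv.sum_comp E.symm (fun t : ZMod h => F t.val), ← Fin.sum_univ_eq_sum_range]
    refine Finset.sum_bij' (i := fun (a : ZMod h) _ => (⟨a.val, ZMod.val_lt a⟩ : Fin h))
      (j := fun (a : Fin h) _ => ((a : ℕ) : ZMod h)) (fun _ _ => Finset.mem_univ _)
      (fun _ _ => Finset.mem_univ _) ?_ ?_ ?_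
    · intro a _
      simp
    · intro a _
      ext
      simp [ZMod.val_natCast, Nat.mod_eq_of_lt a.2]
    · intro a _
      rfl
  rw [← h2]
  exact h1

theorem wt_nonneg {h : ℕ} [NeZero h] (E : ZMod h ≃ Fin h) (T : Aut) (n : ℕ) (t : ZMod h) :
    0 ≤ wt E T n t := measureReal_nonneg

theorem wt_sum {h : ℕ} [NeZero h] (E : ZMod h ≃ Fin h) (T : Aut) (n : ℕ) :
    ∑ t, wt E T n t = 1 := by
  classical
  have hd : Set.PairwiseDisjoint (↑(Finset.univ : Finset (ZMod h)))
      (fun t : ZMod h => {x : X | E.symm (P h ((T.1 : X → X)^[n] x)) = E.symm (P h x) + t}) := by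
    intro s _ t _ hst
    rw [Function.onFun, Set.disjoint_left]
    intro x hx hx'
    exact hst (add_left_cancel ((show _ = _ from hx).symm.trans (show _ = _ from hx')))
  have hm : ∀ t ∈ (Finset.univ : Finset (ZMod h)),
      MeasurableSet {x : X | E.symm (P h ((T.1 : X → X)^[n] x)) = E.symm (P h x) + t} :=
    fun t _ => t1_meas_set T n (fun a b => E.symm b = E.symm a + t)
  have h1 := measureReal_biUnion_finset (μ := μ) hd hm
  have h2 : (⋃ t ∈ (Finset.univ : Finset (ZMod h)),
      {x : X | E.symm (P h ((T.1 : X → X)^[n] x)) = E.symm (P h x) + t}) = Set.univ := by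
    ext x
    simp only [mem_iUnion, Finset.mem_univ, exists_prop, true_and, mem_univ, iff_true]
    exact ⟨E.symm (P h ((T.1 : X → X)^[n] x)) - E.symm (P h x), (add_sub_cancel _ _).symm⟩
  rw [h2, probReal_univ] at h1
  exact h1.symm

/-- at bounded times a `T` near the cyclic map moves almost everything by `n` levels -/
theorem wt_near {h : ℕ} [NeZero h] (E : ZMod h ≃ Fin h) (T : Aut) {e : ℝ}
    (hT : dQ (P h) T (Cy h E) ≤ e) (n : ℕ) : 1 - n * e ≤ wt E T n (n : ZMod h) := by
  have hc : ∀ n : ℕ, μ.real {x | E.symm (P h ((T.1 : X → X)^[n] x)) = E.symm (P h x) + (n : ZMod h)}ᶜ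
      ≤ n * e := by
    intro n
    induction n with
    | zero =>
      have h0 : {x : X | E.symm (P h ((T.1 : X → X)^[0] x)) = E.symm (P h x) + ((0 : ℕ) : ZMod h)}ᶜ
          = ∅ := by
        ext x
        simp
      rw [h0]
      simp
    | succ n ih =>
      have hsub : {x : X | E.symm (P h ((T.1 : X → X)^[n + 1] x)) =
            E.symm (P h x) + ((n + 1 : ℕ) : ZMod h)}ᶜ ⊆
          {x | E.symm (P h ((T.1 : X → X)^[n] x)) = E.symm (P h x) + (n : ZMod h)}ᶜ ∪
            ((T.1 : X → X)^[n]) ⁻¹' {y | P h (T.1 y) ≠ P h ((Cy h E).1 y)} := by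
        intro x hx
        by_contra hcon
        rw [Set.mem_union, not_or] at hcon
        obtain ⟨h1, h2⟩ := hcon
        rw [Set.notMem_compl_iff] at h1
        apply hx
        have h3 := t1_step E T ((T.1 : X → X)^[n] x) h2
        show E.symm (P h ((T.1 : X → X)^[n + 1] x)) = E.symm (P h x) + ((n + 1 : ℕ) : ZMod h)
        rw [Function.iterate_succ_apply', h3, show E.symm (P h ((T.1 : X → X)^[n] x)) =
          E.symm (P h x) + (n : ZMod h) from h1]
        push_cast
        ring
      have hD : μ.real (((T.1 : X → X)^[n]) ⁻¹' {y | P h (T.1 y) ≠ P h ((Cy h E).1 y)}) ≤ e := by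
        have hms : MeasurableSet {y : X | P h (T.1 y) ≠ P h ((Cy h E).1 y)} :=
          (measurableSet_eq_fun ((measurable_P h).comp T.1.measurable)
            ((measurable_P h).comp (Cy h E).1.measurable)).compl
        rw [(iter_pres T n).measureReal_preimage hms.nullMeasurableSet]
        exact hT
      have h5 := (measureReal_mono hsub (measure_ne_top μ _)).trans (measureReal_union_le _ _)
      have h7 : ((n + 1 : ℕ) : ℝ) * e = n * e + e := by push_cast; ring
      rw [h7]
      linarith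
  have h6 := hc n
  have hms : MeasurableSet {x : X | E.symm (P h ((T.1 : X → X)^[n] x)) =
      E.symm (P h x) + (n : ZMod h)} := t1_meas_set T n (fun a b => E.symm b = E.symm a + n)
  rw [probReal_compl_eq_one_sub hms] at h6
  unfold wt
  linarith
-- END t1

-- BEGIN t2
/-- the joint distribution of the levels of `x` and `T^n x` is nearly invariant under the shift -/
theorem joint_shift {h : ℕ} [NeZero h] (E : ZMod h ≃ Fin h) (T : Aut) {e : ℝ}
    (hT : dQ (P h) T (Cy h E) ≤ e) (n : ℕ) (a b : ZMod h) :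
    |μ.real {x | E.symm (P h x) = a + 1 ∧ E.symm (P h ((T.1 : X → X)^[n] x)) = b + 1}
      - μ.real {x | E.symm (P h x) = a ∧ E.symm (P h ((T.1 : X → X)^[n] x)) = b}| ≤ 2 * e := by
  set A : Set X := {x | E.symm (P h x) = a + 1 ∧ E.symm (P h ((T.1 : X → X)^[n] x)) = b + 1}
    with hA
  set B : Set X := {x | E.symm (P h x) = a ∧ E.symm (P h ((T.1 : X → X)^[n] x)) = b} with hB
  set D : Set X := {y | P h (T.1 y) ≠ P h ((Cy h E).1 y)} with hDdef
  have hm : Measurable fun x : X => ((P h x, P h ((T.1 : X → X)^[n] x)) : Fin h × Fin h) :=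
    (measurable_P h).prodMk ((measurable_P h).comp (T.1.measurable.iterate n))
  have hAm : MeasurableSet A :=
    hm (Set.toFinite {p : Fin h × Fin h | E.symm p.1 = a + 1 ∧ E.symm p.2 = b + 1}).measurableSet
  have hBm : MeasurableSet B :=
    hm (Set.toFinite {p : Fin h × Fin h | E.symm p.1 = a ∧ E.symm p.2 = b}).measurableSet
  have hDm : MeasurableSet D :=
    (measurableSet_eq_fun ((measurable_P h).comp T.1.measurable)
      ((measurable_P h).comp (Cy h E).1.measurable)).compl
  have h1 : μ.real A = μ.real (T.1 ⁻¹' A) := (T.2.measureReal_preimage hAm.nullMeasurableSet).symm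
  have hst : ∀ y : X, y ∉ D → E.symm (P h (T.1 y)) = E.symm (P h y) + 1 := by
    intro y hy
    have h2 : P h (T.1 y) = P h ((Cy h E).1 y) := not_not.1 hy
    rw [h2, P_Cy, Equiv.symm_apply_apply]
  have hsub : symmDiff (T.1 ⁻¹' A) B ⊆ D ∪ ((T.1 : X → X)^[n]) ⁻¹' D := by
    intro x hx
    by_contra hcon
    rw [Set.mem_union, not_or] at hcon
    obtain ⟨h2, h3⟩ := hcon
    have h4 := hst x h2
    have h5 := hst _ h3
    have hiff : x ∈ T.1 ⁻¹' A ↔ x ∈ B := by
      show (E.symm (P h (T.1 x)) = a + 1 ∧ E.symm (P h ((T.1 : X → X)^[n] (T.1 x))) = b + 1) ↔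
        (E.symm (P h x) = a ∧ E.symm (P h ((T.1 : X → X)^[n] x)) = b)
      rw [← Function.iterate_succ_apply, Function.iterate_succ_apply', h5, h4, add_left_inj,
        add_left_inj]
    rcases hx with ⟨hx1, hx2⟩ | ⟨hx1, hx2⟩
    · exact hx2 (hiff.1 hx1)
    · exact hx2 (hiff.2 hx1)
  have hD1 : μ.real D ≤ e := hT
  have hD2 : μ.real (((T.1 : X → X)^[n]) ⁻¹' D) ≤ e := by
    rw [(iter_pres T n).measureReal_preimage hDm.nullMeasurableSet]
    exact hT
  have h6 := abs_measureReal_sub_le_measureReal_symmDiff (μ := μ) 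
    (T.1.measurable hAm).nullMeasurableSet hBm.nullMeasurableSet
  have h7 := (measureReal_mono hsub (measure_ne_top μ _)).trans (measureReal_union_le _ _)
  rw [h1]
  linarith
-- END t2

-- BEGIN t3
theorem t3_int {ι : Type} [Fintype ι] [MeasurableSpace ι] [MeasurableSingletonClass ι] {J : X → ι}
    (hJ : Measurable J) (Φ : ι → ℝ) : ∫ x, Φ (J x) ∂μ = ∑ p, Φ p * μ.real (J ⁻¹' {p}) := by
  have hm : Measurable Φ := measurable_of_finite Φ
  have h1 : ∫ x, Φ (J x) ∂μ = ∫ p, Φ p ∂(μ.map J) :=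
    (integral_map hJ.aemeasurable hm.aestronglyMeasurable).symm
  have : IsProbabilityMeasure (μ.map J) := Measure.isProbabilityMeasure_map hJ.aemeasurable
  rw [h1, integral_fintype (Integrable.of_finite)]
  refine Finset.sum_congr rfl fun p _ => ?_
  rw [smul_eq_mul, mul_comm, measureReal_def, Measure.map_apply hJ (measurableSet_singleton p)]
  rfl

theorem t3_J {h : ℕ} [NeZero h] (T : Aut) (n : ℕ) :
    Measurable fun x : X => ((P h x, P h ((T.1 : X → X)^[n] x)) : Fin h × Fin h) :=
  (measurable_P h).prodMk ((measurable_P h).comp (T.1.measurable.iterate n))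

theorem t3_sum {h : ℕ} [NeZero h] (E : ZMod h ≃ Fin h) (T : Aut) (n : ℕ)
    (Φ : ZMod h → ZMod h → ℝ) :
    ∫ x, Φ (E.symm (P h x)) (E.symm (P h ((T.1 : X → X)^[n] x))) ∂μ =
      ∑ t : ZMod h, ∑ a : ZMod h, Φ a (a + t) *
        μ.real {x | E.symm (P h x) = a ∧ E.symm (P h ((T.1 : X → X)^[n] x)) = a + t} := by
  have h1 := t3_int (t3_J (h := h) T n) (fun p => Φ (E.symm p.1) (E.symm p.2))
  rw [h1, ← Equiv.sum_comp (Equiv.prodCongr E E), Fintype.sum_prod_type, Finset.sum_comm,
    Finset.sum_comm]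
  rw [Finset.sum_comm (s := (Finset.univ : Finset (ZMod h)))]
  conv_rhs => rw [Finset.sum_comm]
  rw [Finset.sum_comm]
  refine Finset.sum_congr rfl fun a _ => ?_
  rw [← Equiv.sum_comp (Equiv.addLeft a)]
  refine Finset.sum_congr rfl fun t _ => ?_
  have hs : (fun x : X => ((P h x, P h ((T.1 : X → X)^[n] x)) : Fin h × Fin h)) ⁻¹'
      {(E a, E (a + t))} =
      {x | E.symm (P h x) = a ∧ E.symm (P h ((T.1 : X → X)^[n] x)) = a + t} := by
    ext x
    simp only [mem_preimage, mem_singleton_iff, Prod.mk.injEq, mem_setOf_eq, Equiv.symm_apply_eq]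
  simp only [Equiv.prodCongr_apply, Prod.map, Equiv.symm_apply_apply, Equiv.coe_addLeft]
  rw [hs]

theorem t3_wt {h : ℕ} [NeZero h] (E : ZMod h ≃ Fin h) (T : Aut) (n : ℕ) (t : ZMod h) :
    wt E T n t = ∑ a : ZMod h,
      μ.real {x | E.symm (P h x) = a ∧ E.symm (P h ((T.1 : X → X)^[n] x)) = a + t} := by
  classical
  have h1 := t3_sum E T n (fun a b => if b = a + t then (1 : ℝ) else 0)
  have h2 : wt E T n t = ∫ x, (if E.symm (P h ((T.1 : X → X)^[n] x)) = E.symm (P h x) + t
      then (1 : ℝ) else 0) ∂μ := by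
    have hms : MeasurableSet {x : X | E.symm (P h ((T.1 : X → X)^[n] x)) = E.symm (P h x) + t} := by
      have : {x : X | E.symm (P h ((T.1 : X → X)^[n] x)) = E.symm (P h x) + t} =
          (fun x : X => ((P h x, P h ((T.1 : X → X)^[n] x)) : Fin h × Fin h)) ⁻¹'
            {p | E.symm p.2 = E.symm p.1 + t} := rfl
      rw [this]
      exact t3_J T n (Set.toFinite _).measurableSet
    have h3 : (fun x : X => (if E.symm (P h ((T.1 : X → X)^[n] x)) = E.symm (P h x) + t
      then (1 : ℝ) else 0)) =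
        {x : X | E.symm (P h ((T.1 : X → X)^[n] x)) = E.symm (P h x) + t}.indicator 1 := by
      ext x
      simp [Set.indicator_apply]
    rw [h3, integral_indicator_one hms]
    rfl
  rw [h2, h1, Finset.sum_comm]
  refine Finset.sum_congr rfl fun a _ => ?_
  rw [Finset.sum_eq_single t]
  · simp
  · intro b _ hb
    rw [if_neg, zero_mul]
    intro h4
    exact hb (add_left_cancel h4)
  · intro h4
    exact absurd (Finset.mem_univ _) h4

theorem t3_steps {h : ℕ} [NeZero h] (E : ZMod h ≃ Fin h) (T : Aut) {e : ℝ}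
    (hT : dQ (P h) T (Cy h E) ≤ e) (n : ℕ) (a t : ZMod h) (k : ℕ) :
    |μ.real {x | E.symm (P h x) = a + k ∧ E.symm (P h ((T.1 : X → X)^[n] x)) = a + k + t}
      - μ.real {x | E.symm (P h x) = a ∧ E.symm (P h ((T.1 : X → X)^[n] x)) = a + t}| ≤
        k * (2 * e) := by
  induction k with
  | zero => simp
  | succ k ih =>
    have h1 := joint_shift E T hT n (a + k) (a + k + t)
    have e1 : a + ((k + 1 : ℕ) : ZMod h) = a + k + 1 := by push_cast; ring
    have e2 : a + ((k + 1 : ℕ) : ZMod h) + t = a + k + t + 1 := by push_cast; ring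
    rw [e2, e1]
    have e3 : ((k + 1 : ℕ) : ℝ) * (2 * e) = 2 * e + k * (2 * e) := by push_cast; ring
    rw [e3]
    refine (abs_sub_le _ (μ.real {x | E.symm (P h x) = a + k ∧
      E.symm (P h ((T.1 : X → X)^[n] x)) = a + k + t}) _).trans (add_le_add h1 ih)

/-- STABILITY -/
theorem stable {h : ℕ} [NeZero h] (E : ZMod h ≃ Fin h) (T : Aut) {e : ℝ}
    (hT : dQ (P h) T (Cy h E) ≤ e) (n : ℕ) {B C : ℝ} {F G : ℕ → ℝ} (hF : ∀ a, |F a| ≤ B)
    (hG : ∀ a, |G a| ≤ C) (hGp : ∀ a, G (a + h) = G a) :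
    |cr (lv E F) (lv E G) T n - ∑ t : ZMod h, wt E T n t * ch h F G t.val| ≤
      2 * (h : ℝ) ^ 3 * B * C * e := by
  have hB : 0 ≤ B := (abs_nonneg _).trans (hF 0)
  have hC : 0 ≤ C := (abs_nonneg _).trans (hG 0)
  have h0 : (0 : ℝ) < h := by exact_mod_cast Nat.pos_of_ne_zero (NeZero.ne h)
  have he : 0 ≤ e := (measureReal_nonneg).trans hT
  have hper : ∀ k a : ℕ, G (a + k * h) = G a := by
    intro k
    induction k with
    | zero => intro a; simp
    | succ k ih =>
      intro a
      rw [show a + (k + 1) * h = (a + k * h) + h by ring, hGp, ih]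
  have hmod : ∀ a : ℕ, G (a % h) = G a := by
    intro a
    conv_rhs => rw [← Nat.mod_add_div a h, mul_comm h, hper]
  set m : ZMod h → ZMod h → ℝ := fun a t =>
    μ.real {x | E.symm (P h x) = a ∧ E.symm (P h ((T.1 : X → X)^[n] x)) = a + t} with hm
  have hcr : cr (lv E F) (lv E G) T n =
      ∑ t : ZMod h, ∑ a : ZMod h, F a.val * G (a + t).val * m a t :=
    t3_sum E T n (fun a b => F a.val * G b.val)
  have hch : ∀ t : ZMod h, ch h F G t.val = (1 / h) * ∑ a : ZMod h, F a.val * G (a + t).val := by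
    intro t
    unfold ch
    congr 1
    rw [← Fin.sum_univ_eq_sum_range (fun a => F a * G (a + t.val))]
    have hfin : ∀ a : ZMod h, a.val < h := ZMod.val_lt
    refine Finset.sum_bij' (i := fun (a : Fin h) _ => ((a : ℕ) : ZMod h))
      (j := fun a _ => (⟨a.val, hfin a⟩ : Fin h)) (fun _ _ => Finset.mem_univ _)
      (fun _ _ => Finset.mem_univ _) ?_ ?_ ?_
    · intro a _
      ext
      simp [ZMod.val_natCast, Nat.mod_eq_of_lt a.2]
    · intro a _
      simp
    · intro a _
      rw [ZMod.val_add, hmod]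
      simp [ZMod.val_natCast, Nat.mod_eq_of_lt a.2]
  have hmm : ∀ a b t : ZMod h, |m a t - m b t| ≤ h * (2 * e) := by
    intro a b t
    have h1 := t3_steps E T hT n b t (a - b).val
    rw [ZMod.natCast_zmod_val, add_sub_cancel] at h1
    refine h1.trans (mul_le_mul_of_nonneg_right ?_ (by positivity))
    exact_mod_cast (ZMod.val_lt _).le
  have hav : ∀ a t : ZMod h, |m a t - (1 / h) * wt E T n t| ≤ h * (2 * e) := by
    intro a t
    have h1 : m a t - (1 / h) * wt E T n t = (1 / h) * ∑ b : ZMod h, (m a t - m b t) := by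
      rw [t3_wt, Finset.sum_sub_distrib, Finset.sum_const, Finset.card_univ, ZMod.card,
        nsmul_eq_mul]
      field_simp
      rfl
    rw [h1, abs_mul, abs_of_pos (by positivity : (0 : ℝ) < 1 / h)]
    calc (1 / (h : ℝ)) * |∑ b : ZMod h, (m a t - m b t)|
        ≤ (1 / h) * ∑ b : ZMod h, (h * (2 * e)) := by
          refine mul_le_mul_of_nonneg_left ?_ (by positivity)
          exact (Finset.abs_sum_le_sum_abs _ _).trans (Finset.sum_le_sum fun b _ => hmm a b t)
      _ = h * (2 * e) := by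
          rw [Finset.sum_const, Finset.card_univ, ZMod.card, nsmul_eq_mul]
          field_simp
  have hdiff : cr (lv E F) (lv E G) T n - ∑ t : ZMod h, wt E T n t * ch h F G t.val =
      ∑ t : ZMod h, ∑ a : ZMod h, F a.val * G (a + t).val * (m a t - (1 / h) * wt E T n t) := by
    rw [hcr, ← Finset.sum_sub_distrib]
    refine Finset.sum_congr rfl fun t _ => ?_
    rw [hch, Finset.mul_sum, Finset.mul_sum, ← Finset.sum_sub_distrib]
    refine Finset.sum_congr rfl fun a _ => ?_
    ring
  rw [hdiff]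
  calc |∑ t : ZMod h, ∑ a : ZMod h, F a.val * G (a + t).val * (m a t - (1 / h) * wt E T n t)|
      ≤ ∑ t : ZMod h, ∑ a : ZMod h, B * C * (h * (2 * e)) := by
        refine (Finset.abs_sum_le_sum_abs _ _).trans (Finset.sum_le_sum fun t _ => ?_)
        refine (Finset.abs_sum_le_sum_abs _ _).trans (Finset.sum_le_sum fun a _ => ?_)
        rw [abs_mul, abs_mul]
        exact mul_le_mul (mul_le_mul (hF _) (hG _) (abs_nonneg _) hB) (hav a t) (abs_nonneg _)
          (mul_nonneg hB hC)
    _ = 2 * (h : ℝ) ^ 3 * B * C * e := by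
        simp only [Finset.sum_const, Finset.card_univ, ZMod.card, nsmul_eq_mul]
        ring
-- END t3

-- BEGIN t4
/-- lower bound for all times -/
theorem stable_ge {h : ℕ} [NeZero h] (E : ZMod h ≃ Fin h) (T : Aut) {e : ℝ}
    (hT : dQ (P h) T (Cy h E) ≤ e) (n : ℕ) {B m : ℝ} {F : ℕ → ℝ} (hF : ∀ a, |F a| ≤ B)
    (hFp : ∀ a, F (a + h) = F a) (hm : ∀ t : ℕ, m ≤ ch h F F t) :
    m - 2 * (h : ℝ) ^ 3 * B ^ 2 * e ≤ co (lv E F) T n := by
  have h1 := stable E T hT n hF hF hFp
  rw [← co_eq_cr] at h1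
  have h2 : m ≤ ∑ t : ZMod h, wt E T n t * ch h F F t.val := by
    calc m = ∑ t : ZMod h, wt E T n t * m := by rw [← Finset.sum_mul, wt_sum, one_mul]
      _ ≤ _ := Finset.sum_le_sum fun t _ => mul_le_mul_of_nonneg_left (hm _) (wt_nonneg E T n t)
  have h3 := (abs_le.1 h1).1
  have h4 : 2 * (h : ℝ) ^ 3 * B * B * e = 2 * (h : ℝ) ^ 3 * B ^ 2 * e := by ring
  rw [h4] at h3
  linarith

/-- bounded times -/
theorem stable_near {h : ℕ} [NeZero h] (E : ZMod h ≃ Fin h) (T : Aut) {e : ℝ}
    (hT : dQ (P h) T (Cy h E) ≤ e) {n : ℕ} {B : ℝ} {F : ℕ → ℝ} (hF : ∀ a, |F a| ≤ B)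
    (hFp : ∀ a, F (a + h) = F a) :
    |co (lv E F) T n - ch h F F n| ≤ 2 * (h : ℝ) ^ 3 * B ^ 2 * e + 2 * n * B ^ 2 * e := by
  have hB : 0 ≤ B := (abs_nonneg _).trans (hF 0)
  have h0 : (0 : ℝ) < h := by exact_mod_cast Nat.pos_of_ne_zero (NeZero.ne h)
  have h1 := stable E T hT n hF hF hFp
  rw [← co_eq_cr] at h1
  have h4 : 2 * (h : ℝ) ^ 3 * B * B * e = 2 * (h : ℝ) ^ 3 * B ^ 2 * e := by ring
  rw [h4] at h1
  have hper : ∀ k a : ℕ, F (a + k * h) = F a := by
    intro k
    induction k with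
    | zero => intro a; simp
    | succ k ih =>
      intro a
      rw [show a + (k + 1) * h = (a + k * h) + h by ring, hFp, ih]
  have hmod : ∀ a k : ℕ, F (a + k % h) = F (a + k) := by
    intro a k
    conv_rhs => rw [← Nat.mod_add_div k h, mul_comm h, ← add_assoc, hper]
  have hcn : ch h F F n = ch h F F (n : ZMod h).val := by
    unfold ch
    congr 1
    refine Finset.sum_congr rfl fun a _ => ?_
    rw [ZMod.val_natCast, hmod]
  have hcb : ∀ t : ℕ, |ch h F F t| ≤ B ^ 2 := by
    intro t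
    unfold ch
    rw [abs_mul, abs_of_pos (by positivity : (0 : ℝ) < 1 / h)]
    calc (1 / (h : ℝ)) * |∑ a ∈ Finset.range h, F a * F (a + t)|
        ≤ (1 / h) * ∑ a ∈ Finset.range h, B ^ 2 := by
          refine mul_le_mul_of_nonneg_left ?_ (by positivity)
          refine (Finset.abs_sum_le_sum_abs _ _).trans (Finset.sum_le_sum fun a _ => ?_)
          rw [abs_mul, sq]
          exact mul_le_mul (hF _) (hF _) (abs_nonneg _) hB
      _ = B ^ 2 := by
          rw [Finset.sum_const, Finset.card_range, nsmul_eq_mul]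
          field_simp
  have h2 : |∑ t : ZMod h, wt E T n t * ch h F F t.val - ch h F F n| ≤ 2 * n * B ^ 2 * e := by
    rw [hcn]
    set c0 := ch h F F (n : ZMod h).val with hc0
    have e1 : ∑ t : ZMod h, wt E T n t * ch h F F t.val - c0 =
        ∑ t ∈ Finset.univ.erase (n : ZMod h), wt E T n t * (ch h F F t.val - c0) := by
      have e2 : c0 = ∑ t : ZMod h, wt E T n t * c0 := by rw [← Finset.sum_mul, wt_sum, one_mul]
      conv_lhs => rw [e2]
      rw [← Finset.sum_sub_distrib, ← Finset.add_sum_erase _ _ (Finset.mem_univ (n : ZMod h))]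
      rw [← hc0, sub_self, zero_add]
      refine Finset.sum_congr rfl fun t _ => ?_
      ring
    rw [e1]
    have e3 : ∑ t ∈ Finset.univ.erase (n : ZMod h), wt E T n t ≤ n * e := by
      have := wt_near E T hT n
      have e4 := wt_sum E T n
      rw [← Finset.add_sum_erase _ _ (Finset.mem_univ (n : ZMod h))] at e4
      linarith
    calc |∑ t ∈ Finset.univ.erase (n : ZMod h), wt E T n t * (ch h F F t.val - c0)|
        ≤ ∑ t ∈ Finset.univ.erase (n : ZMod h), wt E T n t * (2 * B ^ 2) := by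
          refine (Finset.abs_sum_le_sum_abs _ _).trans (Finset.sum_le_sum fun t _ => ?_)
          rw [abs_mul, abs_of_nonneg (wt_nonneg E T n t)]
          refine mul_le_mul_of_nonneg_left ?_ (wt_nonneg E T n t)
          refine (abs_sub _ _).trans ?_
          have := hcb t.val
          have := hcb (n : ZMod h).val
          rw [← hc0] at this
          linarith
      _ = (∑ t ∈ Finset.univ.erase (n : ZMod h), wt E T n t) * (2 * B ^ 2) := by
          rw [Finset.sum_mul]
      _ ≤ (n * e) * (2 * B ^ 2) := mul_le_mul_of_nonneg_right e3 (by positivity)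
      _ = 2 * n * B ^ 2 * e := by ring
  calc |co (lv E F) T n - ch h F F n|
      ≤ |co (lv E F) T n - ∑ t : ZMod h, wt E T n t * ch h F F t.val| +
        |∑ t : ZMod h, wt E T n t * ch h F F t.val - ch h F F n| := abs_sub_le _ _ _
    _ ≤ _ := add_le_add h1 h2
-- END t4

-- BEGIN t5
private theorem t5_iter {N : ℕ} [NeZero N] (e : ZMod N ≃ Fin N) (n : ℕ) (x : X) :
    e.symm (P N (((Cy N e).1 : X → X)^[n] x)) = e.symm (P N x) + (n : ZMod N) := by
  induction n with
  | zero => simp
  | succ n ih =>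
    rw [Function.iterate_succ_apply', P_Cy, Equiv.symm_apply_apply, ih, Nat.cast_succ, add_assoc]

/-- correlations of a step function under the cyclic map itself -/
theorem co_Cy {N : ℕ} [NeZero N] (e : ZMod N ≃ Fin N) (F : ZMod N → ℝ) (n : ℕ) :
    co (fun x => F (e.symm (P N x))) (Cy N e) n = cN F F n := by
  unfold co cN
  simp only [t5_iter]
  rw [integral_P N (fun a => F (e.symm a) * F (e.symm a + (n : ZMod N)))]
  congr 1
  exact Equiv.sum_comp e.symm (fun x => F x * F (x + (n : ZMod N)))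
-- END t5

end Pool.Agent.Gor
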