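import Pool.Agent.Gor.Wrd

/-!
# The supply function
-/

set_option autoImplicit false

open MeasureTheory Filter Topology Set

namespace Pool.Agent.Gor

/-- `8` on the first `h/64` levels, minus `1/8` -/
noncomputable def gg (h a : ℕ) : ℝ := (if a % h < h / 64 then 8 else 0) - 1 / 8

-- BEGIN s1
theorem gg_abs (h a : ℕ) : |gg h a| ≤ 8 := by
  unfold gg
  split_ifs
  · rw [abs_le]; constructor <;> norm_num
  · rw [abs_le]; constructor <;> norm_num

theorem gg_period (h a : ℕ) : gg h (a + h) = gg h a := by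
  unfold gg
  rw [Nat.add_mod_right]

theorem gg_sum {h : ℕ} (hh : 64 ∣ h) : ∑ a ∈ Finset.range h, gg h a = 0 := by
  obtain ⟨k, rfl⟩ := hh
  have hk : 64 * k / 64 = k := Nat.mul_div_cancel_left k (by norm_num)
  have h1 : ∀ a ∈ Finset.range (64 * k), gg (64 * k) a = (if a < k then (8 : ℝ) else 0) - 1 / 8 := by
    intro a ha
    unfold gg
    rw [hk, Nat.mod_eq_of_lt (Finset.mem_range.1 ha)]
  rw [Finset.sum_congr rfl h1, Finset.sum_sub_distrib, ← Finset.sum_filter]
  have h2 : (Finset.range (64 * k)).filter (fun a => a < k) = Finset.range k := by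
    ext a
    simp only [Finset.mem_filter, Finset.mem_range]
    omega
  rw [h2]
  simp only [Finset.sum_const, Finset.card_range, nsmul_eq_mul]
  push_cast
  ring

theorem s1_shift {h : ℕ} {φ : ℕ → ℝ} (hφ : ∀ a, φ (a + h) = φ a) (c : ℕ) :
    ∑ a ∈ Finset.range h, φ (a + c) = ∑ a ∈ Finset.range h, φ a := by
  induction c with
  | zero => simp
  | succ c ih =>
    have h1 := Finset.sum_range_succ (fun a => φ (a + c)) h
    have h2 := Finset.sum_range_succ' (fun a => φ (a + c)) h
    have h3 : φ (h + c) = φ c := by rw [add_comm]; exact hφ c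
    have h4 : ∑ a ∈ Finset.range h, φ (a + (c + 1)) = ∑ a ∈ Finset.range h, φ (a + 1 + c) :=
      Finset.sum_congr rfl fun a _ => by rw [add_right_comm, add_assoc]
    simp only [zero_add] at h2
    rw [h4]
    linarith

/-- reversal of the shift -/
theorem ch_symm {h : ℕ} {F G : ℕ → ℝ} (hF : ∀ a, F (a + h) = F a) (hG : ∀ a, G (a + h) = G a)
    {t : ℕ} (ht : t ≤ h) : ch h F G (h - t) = ch h G F t := by
  unfold ch
  have h1 := s1_shift (h := h) (φ := fun b => G b * F (b + t))
    (fun a => by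
      show G (a + h) * F (a + h + t) = G a * F (a + t)
      rw [hG, add_right_comm, hF]) (h - t)
  have h2 : ∑ a ∈ Finset.range h, F a * G (a + (h - t)) =
      ∑ a ∈ Finset.range h, (fun b => G b * F (b + t)) (a + (h - t)) := by
    refine Finset.sum_congr rfl fun a _ => ?_
    show F a * G (a + (h - t)) = G (a + (h - t)) * F (a + (h - t) + t)
    have h3 : a + (h - t) + t = a + h := by omega
    rw [h3, hF, mul_comm]
  rw [h2, h1]

theorem ch_period {h : ℕ} {F G : ℕ → ℝ} (hG : ∀ a, G (a + h) = G a) (t : ℕ) :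
    ch h F G (t + h) = ch h F G t := by
  unfold ch
  refine congrArg _ (Finset.sum_congr rfl fun a _ => ?_)
  rw [← add_assoc, hG]
-- END s1

-- BEGIN s2
private theorem s2_shift {h : ℕ} {f : ℕ → ℝ} (hf : ∀ a, f (a + h) = f a) (t : ℕ) :
    ∑ a ∈ Finset.range h, f (a + t) = ∑ a ∈ Finset.range h, f a := by
  induction t with
  | zero => simp
  | succ t ih =>
    rw [← ih]
    have h1 := Finset.sum_range_succ (fun a => f (a + t)) h
    have h2 := Finset.sum_range_succ' (fun a => f (a + t)) h
    have h3 : f (h + t) = f (0 + t) := by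
      rw [show h + t = t + h by ring, hf, zero_add]
    have h4 : ∀ a, f (a + (t + 1)) = f (a + 1 + t) := fun a => by
      rw [show a + (t + 1) = a + 1 + t by ring]
    simp_rw [h4]
    linarith

private theorem s2_ind (h : ℕ) :
    ∑ a ∈ Finset.range h, (if a % h < h / 64 then (1 : ℝ) else 0) = (h / 64 : ℕ) := by
  have h1 : ∀ a ∈ Finset.range h, (if a % h < h / 64 then (1 : ℝ) else 0) =
      if a < h / 64 then 1 else 0 := fun a ha => by
    rw [Nat.mod_eq_of_lt (Finset.mem_range.1 ha)]
  rw [Finset.sum_congr rfl h1, ← Finset.sum_filter, Finset.sum_const, nsmul_eq_mul, mul_one]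
  congr 1
  have h2 : (Finset.range h).filter (fun a => a < h / 64) = Finset.range (h / 64) := by
    ext a
    simp only [Finset.mem_filter, Finset.mem_range]
    constructor
    · exact fun hx => hx.2
    · exact fun hx => ⟨lt_of_lt_of_le hx (Nat.div_le_self _ _), hx⟩
  rw [h2, Finset.card_range]

private theorem s2_eq {h : ℕ} (h0 : 0 < h) (hh : 64 ∣ h) (t : ℕ) :
    (h : ℝ) * ch h (gg h) (gg h) t = 64 * (∑ a ∈ Finset.range h,
      (if a % h < h / 64 then (1 : ℝ) else 0) * (if (a + t) % h < h / 64 then (1 : ℝ) else 0))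
      - h / 64 := by
  have hr : (h : ℝ) ≠ 0 := by positivity
  have hw : ((h / 64 : ℕ) : ℝ) = h / 64 := by
    rw [Nat.cast_div hh (by norm_num)]
    norm_num
  have e1 := s2_ind h
  have e2 : ∑ a ∈ Finset.range h, (if (a + t) % h < h / 64 then (1 : ℝ) else 0) =
      (h / 64 : ℕ) := by
    rw [← e1]
    exact s2_shift (f := fun a => if a % h < h / 64 then (1 : ℝ) else 0)
      (fun a => by simp [Nat.add_mod_right]) t
  have e3 : ∀ a, gg h a * gg h (a + t) = 64 * ((if a % h < h / 64 then (1 : ℝ) else 0) *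
      (if (a + t) % h < h / 64 then (1 : ℝ) else 0)) - (if a % h < h / 64 then (1 : ℝ) else 0)
      - (if (a + t) % h < h / 64 then (1 : ℝ) else 0) + 1 / 64 := fun a => by
    unfold gg
    split_ifs <;> norm_num
  unfold ch
  rw [← mul_assoc, mul_one_div_cancel hr, one_mul]
  simp_rw [e3]
  rw [Finset.sum_add_distrib, Finset.sum_sub_distrib, Finset.sum_sub_distrib, ← Finset.mul_sum,
    e1, e2, hw]
  simp only [Finset.sum_const, Finset.card_range, nsmul_eq_mul]
  ring

theorem gg_ge {h : ℕ} (h0 : 0 < h) (hh : 64 ∣ h) (t : ℕ) : -(1 / 64) ≤ ch h (gg h) (gg h) t := by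
  have h1 := s2_eq h0 hh t
  have h2 : (0 : ℝ) ≤ ∑ a ∈ Finset.range h,
      (if a % h < h / 64 then (1 : ℝ) else 0) * (if (a + t) % h < h / 64 then (1 : ℝ) else 0) :=
    Finset.sum_nonneg fun a _ => by split_ifs <;> norm_num
  have h3 : (0 : ℝ) < h := by exact_mod_cast h0
  have h4 : (h : ℝ) * (-(1 / 64)) ≤ h * ch h (gg h) (gg h) t := by linarith
  exact le_of_mul_le_mul_left h4 h3

theorem gg_near {h : ℕ} (h0 : 0 < h) (hh : 64 ∣ h) {t : ℕ} (ht : 64 * t ≤ h / 64) :
    31 / 32 ≤ ch h (gg h) (gg h) t := by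
  have h1 := s2_eq h0 hh t
  have h3 : (0 : ℝ) < h := by exact_mod_cast h0
  have hw : ((h / 64 : ℕ) : ℝ) = h / 64 := by
    rw [Nat.cast_div hh (by norm_num)]
    norm_num
  have htr : 64 * (t : ℝ) ≤ h / 64 := by
    rw [← hw]
    exact_mod_cast ht
  have h2 : ((h / 64 - t : ℕ) : ℝ) ≤ ∑ a ∈ Finset.range h,
      (if a % h < h / 64 then (1 : ℝ) else 0) * (if (a + t) % h < h / 64 then (1 : ℝ) else 0) := by
    have h5 : ∑ a ∈ Finset.range (h / 64 - t), (1 : ℝ) ≤ ∑ a ∈ Finset.range h,
        (if a % h < h / 64 then (1 : ℝ) else 0) * (if (a + t) % h < h / 64 then (1 : ℝ) else 0) := by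
      have h6 : ∑ a ∈ Finset.range (h / 64 - t), (1 : ℝ) = ∑ a ∈ Finset.range (h / 64 - t),
          (if a % h < h / 64 then (1 : ℝ) else 0) *
            (if (a + t) % h < h / 64 then (1 : ℝ) else 0) := by
        refine Finset.sum_congr rfl fun a ha => ?_
        have ha' := Finset.mem_range.1 ha
        have h7 : h / 64 ≤ h := Nat.div_le_self _ _
        rw [Nat.mod_eq_of_lt (by omega), Nat.mod_eq_of_lt (by omega), if_pos (by omega),
          if_pos (by omega), mul_one]
      rw [h6]
      refine Finset.sum_le_sum_of_subset_of_nonneg ?_ fun a _ _ => by split_ifs <;> norm_num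
      have h7 : h / 64 ≤ h := Nat.div_le_self _ _
      exact Finset.range_subset_range.2 (by omega)
    simpa using h5
  have h8 : ((h / 64 - t : ℕ) : ℝ) = h / 64 - t := by
    rw [Nat.cast_sub (by omega), hw]
  have h4 : (h : ℝ) * (31 / 32) ≤ h * ch h (gg h) (gg h) t := by
    rw [h1]
    rw [h8] at h2
    linarith
  exact le_of_mul_le_mul_left h4 h3
-- END s2

-- BEGIN s3
private theorem s3_shift {h : ℕ} {f : ℕ → ℝ} (hf : ∀ a, f (a + h) = f a) (t : ℕ) :
    ∑ a ∈ Finset.range h, f (a + t) = ∑ a ∈ Finset.range h, f a := by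
  induction t with
  | zero => simp
  | succ t ih =>
    rw [← ih]
    have h1 := Finset.sum_range_succ (fun a => f (a + t)) h
    have h2 := Finset.sum_range_succ' (fun a => f (a + t)) h
    have h3 : f (h + t) = f (0 + t) := by
      rw [show h + t = t + h by ring, hf, zero_add]
    have h4 : ∀ a, f (a + (t + 1)) = f (a + 1 + t) := fun a => by
      rw [show a + (t + 1) = a + 1 + t by ring]
    simp_rw [h4]
    linarith

/-- the sum over the first levels is an interval sum -/
private theorem s3_ind {h : ℕ} {F : ℕ → ℝ} (s : ℕ) :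
    ∑ a ∈ Finset.range h, F (a + s) * (if a % h < h / 64 then (1 : ℝ) else 0) =
      ∑ a ∈ Finset.Ico s (s + h / 64), F a := by
  have h1 : ∀ a ∈ Finset.range h, F (a + s) * (if a % h < h / 64 then (1 : ℝ) else 0) =
      if a < h / 64 then F (a + s) else 0 := fun a ha => by
    rw [Nat.mod_eq_of_lt (Finset.mem_range.1 ha)]
    split_ifs <;> simp
  rw [Finset.sum_congr rfl h1, ← Finset.sum_filter]
  have h2 : (Finset.range h).filter (fun a => a < h / 64) = Finset.range (h / 64) := by
    ext a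
    simp only [Finset.mem_filter, Finset.mem_range]
    constructor
    · exact fun hx => hx.2
    · exact fun hx => ⟨lt_of_lt_of_le hx (Nat.div_le_self _ _), hx⟩
  rw [h2, Finset.sum_Ico_eq_sum_range, Nat.add_sub_cancel_left]
  exact Finset.sum_congr rfl fun a _ => by rw [add_comm]

/-- cross terms -/
theorem gg_cross {h : ℕ} (h0 : 0 < h) {F : ℕ → ℝ} (hF : ∀ a, F (a + h) = F a)
    (hs : ∑ a ∈ Finset.range h, F a = 0) {S : ℝ}
    (hS : ∀ s l : ℕ, l ≤ h → |∑ a ∈ Finset.Ico s (s + l), F a| ≤ S) (t : ℕ) :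
    |ch h F (gg h) t| ≤ 8 * S / h ∧ |ch h (gg h) F t| ≤ 8 * S / h := by
  have h3 : (0 : ℝ) < h := by exact_mod_cast h0
  have hle : h / 64 ≤ h := Nat.div_le_self _ _
  have key : ∀ A : ℝ, |A| ≤ S → |1 / (h : ℝ) * (8 * A)| ≤ 8 * S / h := fun A hA => by
    rw [abs_mul, abs_mul, abs_of_pos (by positivity : (0 : ℝ) < 1 / h),
      abs_of_pos (by norm_num : (0 : ℝ) < 8), one_div, inv_mul_eq_div]
    gcongr
  have hsplit : ∀ a, gg h a = 8 * (if a % h < h / 64 then (1 : ℝ) else 0) - 1 / 8 := fun a => by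
    unfold gg
    split_ifs <;> norm_num
  constructor
  · -- shift by `s` with `s + t` divisible by `h`
    obtain ⟨s, q, hsq⟩ : ∃ s q : ℕ, s + t = h * q := by
      refine ⟨h * (t + 1) - t, t + 1, ?_⟩
      have h5 : t + 1 ≤ h * (t + 1) := Nat.le_mul_of_pos_left _ h0
      omega
    have e1 : ∑ a ∈ Finset.range h, F a * gg h (a + t) =
        8 * ∑ a ∈ Finset.Ico s (s + h / 64), F a := by
      have e2 : ∀ a, F a * gg h (a + t) =
          8 * (F a * (if (a + t) % h < h / 64 then (1 : ℝ) else 0)) - 1 / 8 * F a := fun a => by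
        rw [hsplit]
        ring
      simp_rw [e2]
      rw [Finset.sum_sub_distrib, ← Finset.mul_sum, ← Finset.mul_sum, hs, mul_zero, sub_zero]
      congr 1
      rw [← s3_shift (f := fun a => F a * (if (a + t) % h < h / 64 then (1 : ℝ) else 0))
        (fun a => by
          show F (a + h) * (if (a + h + t) % h < h / 64 then (1 : ℝ) else 0) =
            F a * (if (a + t) % h < h / 64 then (1 : ℝ) else 0)
          rw [hF, show a + h + t = a + t + h by ring, Nat.add_mod_right]) s, ← s3_ind s]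
      refine Finset.sum_congr rfl fun a _ => ?_
      show F (a + s) * (if (a + s + t) % h < h / 64 then (1 : ℝ) else 0) = _
      rw [show a + s + t = a + h * q by rw [← hsq]; ring, Nat.add_mul_mod_self_left]
    unfold ch
    rw [e1]
    exact key _ (hS s _ hle)
  · have e1 : ∑ a ∈ Finset.range h, gg h a * F (a + t) =
        8 * ∑ a ∈ Finset.Ico t (t + h / 64), F a := by
      have e2 : ∀ a, gg h a * F (a + t) =
          8 * (F (a + t) * (if a % h < h / 64 then (1 : ℝ) else 0)) - 1 / 8 * F (a + t) :=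
          fun a => by
        rw [hsplit]
        ring
      simp_rw [e2]
      rw [Finset.sum_sub_distrib, ← Finset.mul_sum, ← Finset.mul_sum, s3_shift hF t, hs,
        mul_zero, sub_zero, s3_ind]
    unfold ch
    rw [e1]
    exact key _ (hS t _ hle)
-- END s3

-- BEGIN s4
theorem ch_add {h : ℕ} (F G : ℕ → ℝ) (c : ℝ) (t : ℕ) :
    ch h (fun a => F a + c * G a) (fun a => F a + c * G a) t =
      ch h F F t + c ^ 2 * ch h G G t + c * (ch h F G t + ch h G F t) := by
  unfold ch
  have h1 : ∑ a ∈ Finset.range h, (F a + c * G a) * (F (a + t) + c * G (a + t)) =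
      ∑ a ∈ Finset.range h, F a * F (a + t) + c ^ 2 * ∑ a ∈ Finset.range h, G a * G (a + t) +
        c * (∑ a ∈ Finset.range h, F a * G (a + t) + ∑ a ∈ Finset.range h, G a * F (a + t)) := by
    rw [← Finset.sum_add_distrib, Finset.mul_sum, Finset.mul_sum, ← Finset.sum_add_distrib,
      ← Finset.sum_add_distrib]
    exact Finset.sum_congr rfl (fun a _ => by ring)
  rw [h1]
  ring

theorem s4_mul_period {h : ℕ} {G : ℕ → ℝ} (hG : ∀ a, G (a + h) = G a) (F : ℕ → ℝ) (t n : ℕ) :
    ch h F G (t + n * h) = ch h F G t := by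
  induction n with
  | zero => simp
  | succ n ih =>
    have h1 : t + (n + 1) * h = (t + n * h) + h := by ring
    rw [h1, ch_period hG, ih]

/-- the cyclic form of the step: `η` becomes `3 η / 64`, and the correlations up to the run length
grow by `3 η / 2` -/
theorem cyc_step {N K : ℕ} [Fact N.Prime] (hN : Odd N) (hN4 : 4096 ≤ N) (hK : 64 ∣ K) (hK0 : 1 ≤ K)
    {B η : ℝ} (hB0 : 0 ≤ B) (hη : 0 < η) {F : ZMod N → ℝ} (hF : ∑ x, F x = 0)
    (hB : ∀ x, |F x| ≤ B) (hlow : ∀ t : ℕ, 1 ≤ t → -(η + η / 16) ≤ cN F F t)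
    (hK1 : 4 * B ^ 2 / K ≤ η / 128) (hK2 : √(2 * η) * (48 * B / K) ≤ η / 128) :
    (∀ t : ℕ, -(3 / 64 * η) ≤ ch (N * (N * K))
      (fun a => F (wd N K a) + √(2 * η) * gg (N * (N * K)) a)
      (fun a => F (wd N K a) + √(2 * η) * gg (N * (N * K)) a) t) ∧
    ∀ t : ℕ, t ≤ N * K → 3 / 2 * η ≤ ch (N * (N * K))
      (fun a => F (wd N K a) + √(2 * η) * gg (N * (N * K)) a)
      (fun a => F (wd N K a) + √(2 * η) * gg (N * (N * K)) a) t -
      ch (N * (N * K)) (fun a => F (wd N K a)) (fun a => F (wd N K a)) t := by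
  have hN1 : 1 ≤ N := by omega
  have hNr : (1 : ℝ) ≤ N := by exact_mod_cast hN1
  have hKr : (1 : ℝ) ≤ K := by exact_mod_cast hK0
  set L : ℕ := N * K with hL
  have hL0 : 0 < L := by positivity
  set h : ℕ := N * L with hh
  have hh0 : 0 < h := by positivity
  have hLh : L ≤ h := by
    rw [hh]
    exact Nat.le_mul_of_pos_left L hN1
  have h64 : 64 ∣ h := by
    rw [hh, hL]
    exact Dvd.dvd.mul_left (Dvd.dvd.mul_left hK N) N
  have hFp : ∀ a, (fun a => F (wd N K a)) (a + h) = (fun a => F (wd N K a)) a := by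
    intro a
    simp only
    rw [hh, hL, wd_period hN hK0]
  have hGp : ∀ a, gg h (a + h) = gg h a := gg_period h
  set c : ℝ := √(2 * η) with hc
  have hc0 : 0 ≤ c := Real.sqrt_nonneg _
  have hc2 : c ^ 2 = 2 * η := Real.sq_sqrt (by linarith)
  have hWp : ∀ a, (fun a => F (wd N K a) + c * gg h a) (a + h) =
      (fun a => F (wd N K a) + c * gg h a) a := by
    intro a
    have h1 := hFp a
    simp only at h1 ⊢
    rw [h1, hGp a]
  -- cross terms
  have hcross : ∀ t : ℕ, |ch h (fun a => F (wd N K a)) (gg h) t +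
      ch h (gg h) (fun a => F (wd N K a)) t| ≤ 48 * B / K := by
    intro t
    have hs : ∑ a ∈ Finset.range h, (fun a => F (wd N K a)) a = 0 := by
      have := wd_sum (N := N) (K := K) hK0 hF
      rw [hh, hL]
      exact this
    have hS : ∀ s l : ℕ, l ≤ h → |∑ a ∈ Finset.Ico s (s + l), (fun a => F (wd N K a)) a| ≤
        (N + 2) * N * B := by
      intro s l hl
      exact wd_sum_Ico (N := N) (K := K) hK0 hF hB (by rw [hh, hL] at hl; exact hl)
    obtain ⟨h1, h2⟩ := gg_cross hh0 (F := fun a => F (wd N K a)) hFp hs hS t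
    have h3 : 8 * ((N + 2) * N * B) / (h : ℝ) ≤ 24 * B / K := by
      have h4 : (h : ℝ) = N * (N * K) := by rw [hh, hL]; push_cast; ring
      rw [h4, div_le_div_iff₀ (by positivity) (by positivity)]
      have h5 : (N : ℝ) + 2 ≤ 3 * N := by linarith
      have h6 : 0 ≤ (N : ℝ) * B * K := by positivity
      calc 8 * ((N + 2) * N * B) * (K : ℝ) = 8 * ((N : ℝ) + 2) * (N * B * K) := by ring
        _ ≤ 8 * (3 * (N : ℝ)) * (N * B * K) := by
            apply mul_le_mul_of_nonneg_right _ h6
            linarith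
        _ = 24 * B * ((N : ℝ) * (N * K)) := by ring
    calc |ch h (fun a => F (wd N K a)) (gg h) t + ch h (gg h) (fun a => F (wd N K a)) t|
        ≤ |ch h (fun a => F (wd N K a)) (gg h) t| + |ch h (gg h) (fun a => F (wd N K a)) t| :=
          abs_add_le _ _
      _ ≤ 24 * B / K + 24 * B / K := add_le_add (h1.trans h3) (h2.trans h3)
      _ = 48 * B / K := by ring
  have hcr : ∀ t : ℕ, -(η / 128) ≤ c * (ch h (fun a => F (wd N K a)) (gg h) t +
      ch h (gg h) (fun a => F (wd N K a)) t) := by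
    intro t
    have h1 := (abs_le.1 (hcross t)).1
    have h2 : c * (-(48 * B / K)) ≤ c * (ch h (fun a => F (wd N K a)) (gg h) t +
      ch h (gg h) (fun a => F (wd N K a)) t) := mul_le_mul_of_nonneg_left h1 hc0
    have h3 : c * (-(48 * B / K)) = -(c * (48 * B / K)) := by ring
    rw [h3] at h2
    linarith
  -- near: `t ≤ L`
  have hnear : ∀ t : ℕ, t ≤ L → 31 / 16 * η ≤ c ^ 2 * ch h (gg h) (gg h) t := by
    intro t ht
    have h1 : 64 * t ≤ h / 64 := by
      rw [Nat.le_div_iff_mul_le (by norm_num)]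
      calc 64 * t * 64 = 4096 * t := by ring
        _ ≤ N * L := Nat.mul_le_mul hN4 ht
        _ = h := hh.symm
    have h2 := gg_near hh0 h64 h1
    rw [hc2]
    nlinarith
  have hsupp : ∀ t : ℕ, t ≤ L → 3 / 2 * η ≤ ch h
      (fun a => F (wd N K a) + c * gg h a) (fun a => F (wd N K a) + c * gg h a) t -
      ch h (fun a => F (wd N K a)) (fun a => F (wd N K a)) t := by
    intro t ht
    have h1 := hnear t ht
    have h2 := hcr t
    have h3 := ch_add (h := h) (fun a => F (wd N K a)) (gg h) c t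
    rw [h3]
    linarith
  refine ⟨?_, hsupp⟩
  have hsmall : ∀ t : ℕ, t ≤ L → -(3 / 64 * η) ≤ ch h
      (fun a => F (wd N K a) + c * gg h a) (fun a => F (wd N K a) + c * gg h a) t := by
    intro t ht
    have h1 := hsupp t ht
    have h2 := (abs_le.1 (wd_corr_small (N := N) (K := K) hN hK0 hF hB (t := t)
      (by rw [hL] at ht; exact ht))).1
    have h3 : -(η + η / 16) ≤ (1 - t / (N * K : ℕ)) * cN F F t := by
      have hLr : (0 : ℝ) < (N * K : ℕ) := by rw [← hL]; exact_mod_cast hL0
      have h4 : (t : ℝ) / (N * K : ℕ) ≤ 1 := by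
        rw [div_le_one hLr, ← hL]
        exact_mod_cast ht
      have h5 : (0 : ℝ) ≤ (t : ℝ) / (N * K : ℕ) := by positivity
      rcases Nat.eq_zero_or_pos t with h0 | h0
      · subst h0
        have h6 : 0 ≤ cN F F 0 := by
          unfold cN
          apply mul_nonneg (by positivity)
          apply Finset.sum_nonneg
          intro x _
          simp only [Nat.cast_zero, add_zero]
          exact mul_self_nonneg _
        have h7 : (1 - ((0 : ℕ) : ℝ) / (N * K : ℕ)) * cN F F 0 = cN F F 0 := by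
          rw [Nat.cast_zero, zero_div, sub_zero, one_mul]
        rw [h7]
        linarith
      · have h6 := hlow t h0
        have h7 : 0 ≤ 1 - (t : ℝ) / (N * K : ℕ) := by linarith
        calc -(η + η / 16) ≤ (1 - (t : ℝ) / (N * K : ℕ)) * (-(η + η / 16)) := by
              nlinarith
          _ ≤ _ := mul_le_mul_of_nonneg_left h6 h7
    have h8 : -(4 * B ^ 2 / K) ≤ ch h (fun a => F (wd N K a)) (fun a => F (wd N K a)) t -
        (1 - t / (N * K : ℕ)) * cN F F t := h2
    linarith
  have hmid : ∀ t : ℕ, L ≤ t → t + L ≤ h → -(3 / 64 * η) ≤ ch h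
      (fun a => F (wd N K a) + c * gg h a) (fun a => F (wd N K a) + c * gg h a) t := by
    intro t ht ht'
    have h1 : -(4 * B ^ 2 / K) ≤ ch h (fun a => F (wd N K a)) (fun a => F (wd N K a)) t :=
      (abs_le.1 (wd_corr_mid (N := N) (K := K) hN hK0 hF hB ht ht')).1
    have h2 := hcr t
    have h3 := gg_ge hh0 h64 t
    have h4 : -(η / 32) ≤ c ^ 2 * ch h (gg h) (gg h) t := by
      rw [hc2]
      nlinarith
    have h5 := ch_add (h := h) (fun a => F (wd N K a)) (gg h) c t
    rw [h5]
    linarith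
  intro t
  -- reduce modulo `h`
  have hmod : t = t % h + (t / h) * h := by
    rw [Nat.mul_comm (t / h) h]
    exact (Nat.mod_add_div t h).symm
  rw [hmod, s4_mul_period (G := fun a => F (wd N K a) + c * gg h a) hWp]
  have hlt : t % h < h := Nat.mod_lt _ hh0
  set s := t % h with hs
  rcases Nat.le_total s L with h1 | h1
  · exact hsmall s h1
  · rcases Nat.le_total (s + L) h with h2 | h2
    · exact hmid s h1 h2
    · have h3 : h - (h - s) = s := by omega
      have h4 := ch_symm (h := h) (F := fun a => F (wd N K a) + c * gg h a)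
        (G := fun a => F (wd N K a) + c * gg h a) hWp hWp (t := h - s) (by omega)
      rw [h3] at h4
      rw [h4]
      exact hsmall (h - s) (by omega)
-- END s4

end Pool.Agent.Gor
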