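import Pool.Agent.Gor.Hal
import Pool.Agent.Gor.Sup
import Pool.Agent.Gor.Stb

/-!
# The step: `η` becomes `η / 16` on a smaller open set
-/

set_option autoImplicit false

open MeasureTheory Filter Topology Set

namespace Pool.Agent.Gor

-- BEGIN p0
private theorem p0_near {r : ℕ} {Q : X → Fin r} (hQ : Measurable Q) {N : ℕ} [NeZero N]
    (l : Fin N → Fin r) (S T : Aut) :
    dQ Q S T ≤ 2 * μ.real {x | Q x ≠ l (P N x)} + dQ (P N) S T := by
  have hsub : {x | Q (S.1 x) ≠ Q (T.1 x)} ⊆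
      ((S.1 ⁻¹' {x | Q x ≠ l (P N x)} ∪ T.1 ⁻¹' {x | Q x ≠ l (P N x)}) ∪
        {x | P N (S.1 x) ≠ P N (T.1 x)}) := by
    intro x hx
    by_cases h1 : Q (S.1 x) = l (P N (S.1 x))
    · by_cases h2 : Q (T.1 x) = l (P N (T.1 x))
      · refine Or.inr fun h3 => hx ?_
        have h3' : P N (S.1 x) = P N (T.1 x) := h3
        rw [h1, h2, h3']
      · exact Or.inl (Or.inr h2)
    · exact Or.inl (Or.inl h1)
  have hm : MeasurableSet {x | Q x ≠ l (P N x)} :=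
    (measurableSet_eq_fun hQ ((measurable_of_finite l).comp (measurable_P N))).compl
  have e1 : μ.real (S.1 ⁻¹' {x | Q x ≠ l (P N x)}) = μ.real {x | Q x ≠ l (P N x)} :=
    S.2.measureReal_preimage hm.nullMeasurableSet
  have e2 : μ.real (T.1 ⁻¹' {x | Q x ≠ l (P N x)}) = μ.real {x | Q x ≠ l (P N x)} :=
    T.2.measureReal_preimage hm.nullMeasurableSet
  have h1 : dQ Q S T ≤ μ.real ((S.1 ⁻¹' {x | Q x ≠ l (P N x)} ∪ T.1 ⁻¹' {x | Q x ≠ l (P N x)}) ∪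
        {x | P N (S.1 x) ≠ P N (T.1 x)}) := measureReal_mono hsub (measure_ne_top _ _)
  have h2 := measureReal_union_le (μ := μ) (S.1 ⁻¹' {x | Q x ≠ l (P N x)} ∪ T.1 ⁻¹' {x | Q x ≠ l (P N x)})
    {x | P N (S.1 x) ≠ P N (T.1 x)}
  have h3 := measureReal_union_le (μ := μ) (S.1 ⁻¹' {x | Q x ≠ l (P N x)}) (T.1 ⁻¹' {x | Q x ≠ l (P N x)})
  rw [e1, e2] at h3
  have h4 : μ.real {x | P N (S.1 x) ≠ P N (T.1 x)} = dQ (P N) S T := rfl
  rw [h4] at h2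
  linarith

/-- in every nonempty open set there are a cyclic map of prime order `N ≥ N0` and its mixing word -/
theorem exists_data' {U : Set Aut} (hU : IsOpen U) (hne : U.Nonempty) {B : ℝ} {f : X → ℝ}
    (hf : BM B f) (h0 : ∫ x, f x ∂μ = 0) {δ : ℝ} (hδ : 0 < δ) (m K0 N0 : ℕ) :
    ∃ (N K : ℕ) (_ : Fact N.Prime) (_ : NeZero (N * (N * K))) (e : ZMod N ≃ Fin N)
      (E : ZMod (N * (N * K)) ≃ Fin (N * (N * K))) (F : ZMod N → ℝ),
      Odd N ∧ 4096 ≤ N ∧ N0 ≤ N ∧ 64 ∣ K ∧ 1 ≤ K ∧ K0 ≤ K ∧ m ≤ N * K ∧ (∀ x, |F x| ≤ B) ∧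
      ∑ x, F x = 0 ∧ ∫ x, |f x - F (e.symm (P N x))| ∂μ < δ ∧ Cy N e ∈ U ∧
      Cy (N * (N * K)) E ∈ U ∧
      ∀ a : ZMod (N * (N * K)), ((E a : Fin (N * (N * K))) : ℕ) / (N * K) =
        ((e (wd N K a.val) : Fin N) : ℕ) := by
  obtain ⟨T, hT⟩ := hne
  obtain ⟨r, Q, hQ, ε, hε, hεU⟩ := exists_part hU hT
  obtain ⟨N1, hN1⟩ := exists_cyc hQ T (half_pos hε)
  obtain ⟨N2, hN2⟩ := exists_label hQ (ε := ε / 8) (by positivity)
  obtain ⟨N3, hN3⟩ := exists_step hf hδ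
  obtain ⟨N, hNle, hNp⟩ := Nat.exists_infinite_primes (N0 + N1 + N2 + N3 + 4096)
  have hfp : Fact N.Prime := ⟨hNp⟩
  have : NeZero N := ⟨hNp.ne_zero⟩
  obtain ⟨e, he⟩ := hN1 N (by omega)
  obtain ⟨l, hl⟩ := hN2 N (by omega)
  obtain ⟨F', hF'B, hF'0, hF'd⟩ := hN3 N (by omega)
  obtain ⟨k, hk⟩ := exists_nat_gt (4 / ε)
  set K : ℕ := 64 * (K0 + m + k + 1) with hKdef
  have hK1 : 1 ≤ K := by omega
  have hpos : 0 < N * (N * K) := by
    have : 0 < N := hNp.pos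
    positivity
  have : NeZero (N * (N * K)) := ⟨hpos.ne'⟩
  have hodd : Odd N := hNp.odd_of_ne_two (by omega)
  obtain ⟨E, hE⟩ := exists_word (N := N) (K := K) hodd hK1 e
  have hmle : m ≤ N * K := by
    have h1 : K ≤ N * K := Nat.le_mul_of_pos_left K hNp.pos
    omega
  have hsmall : (1 : ℝ) / (N * K : ℕ) < ε / 4 := by
    have h1 : (k : ℝ) ≤ ((N * K : ℕ) : ℝ) := by
      have h2 : K ≤ N * K := Nat.le_mul_of_pos_left K hNp.pos
      exact_mod_cast (by omega : k ≤ N * K)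
    have h3 : 4 / ε < ((N * K : ℕ) : ℝ) := hk.trans_le h1
    have h4 : (0 : ℝ) < ((N * K : ℕ) : ℝ) := lt_trans (by positivity) h3
    rw [div_lt_iff₀ hε] at h3
    rw [div_lt_iff₀ h4]
    linarith
  have hCy : Cy N e ∈ U := hεU _ (he.trans (by linarith))
  have hCyE : Cy (N * (N * K)) E ∈ U := by
    refine hεU _ ?_
    have h1 := dQ_triangle Q hQ (Cy (N * (N * K)) E) (Cy N e) T
    have h2 := p0_near hQ l (Cy (N * (N * K)) E) (Cy N e)
    have h3 := dQ_word hodd hK1 e E hE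
    linarith
  refine ⟨N, K, hfp, inferInstance, e, E, fun x => F' (e x), hodd, by omega, by omega,
    ⟨_, hKdef⟩, hK1, by omega, hmle, fun x => hF'B _, ?_, ?_, hCy, hCyE, hE⟩
  · have h1 := integral_P N F'
    rw [hF'0, h0] at h1
    have hN0 : (1 : ℝ) / N ≠ 0 := by
      have : (0 : ℝ) < N := by exact_mod_cast hNp.pos
      positivity
    have h2 : ∑ a, F' a = 0 := by
      rcases mul_eq_zero.1 h1.symm with h | h
      · exact absurd h hN0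
      · exact h
    rw [← h2]
    exact Equiv.sum_comp e F'
  · simpa using hF'd
-- END p0

-- BEGIN p1
/-- in every nonempty open set there are a cyclic map of prime order and its mixing word -/
theorem exists_data {U : Set Aut} (hU : IsOpen U) (hne : U.Nonempty) {B : ℝ} {f : X → ℝ}
    (hf : BM B f) (h0 : ∫ x, f x ∂μ = 0) {δ : ℝ} (hδ : 0 < δ) (m K0 : ℕ) :
    ∃ (N K : ℕ) (_ : Fact N.Prime) (_ : NeZero (N * (N * K))) (e : ZMod N ≃ Fin N)
      (E : ZMod (N * (N * K)) ≃ Fin (N * (N * K))) (F : ZMod N → ℝ),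
      Odd N ∧ 4096 ≤ N ∧ 64 ∣ K ∧ 1 ≤ K ∧ K0 ≤ K ∧ m ≤ N * K ∧ (∀ x, |F x| ≤ B) ∧
      ∑ x, F x = 0 ∧ ∫ x, |f x - F (e.symm (P N x))| ∂μ < δ ∧ Cy N e ∈ U ∧
      Cy (N * (N * K)) E ∈ U ∧
      ∀ a : ZMod (N * (N * K)), ((E a : Fin (N * (N * K))) : ℕ) / (N * K) =
        ((e (wd N K a.val) : Fin N) : ℕ) := by
  obtain ⟨N, K, h1, h2, e, E, F, h3, h4, -, h5⟩ := exists_data' hU hne hf h0 hδ m K0 0
  exact ⟨N, K, h1, h2, e, E, F, h3, h4, h5⟩
-- END p1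

-- BEGIN p2
private theorem p2_co_sub {B : ℝ} {f g : X → ℝ} (hf : BM B f) (hg : BM B g) (T : Aut) (n : ℕ) :
    |co f T n - co g T n| ≤ 2 * B * ∫ x, |f x - g x| ∂μ := by
  have h := cr_sub_le hf hg hf hg T n
  rw [co_eq_cr, co_eq_cr]
  linarith

private theorem p2_main {U : Set Aut} (hU : IsOpen U) {B : ℝ} {f : X → ℝ} (hf : BM B f)
    (h0 : ∫ x, f x ∂μ = 0) {η s D δ : ℝ} (hη : 0 < η) (hs0 : 0 < s) (hB0 : 0 ≤ B)
    (hD : D = B + 8 * s) (hDδ : 2 * D * δ = η / 128) (hδ0 : 0 < δ) (m : ℕ)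
    {h : ℕ} [NeZero h] (h64 : 64 ∣ h) (E : ZMod h ≃ Fin h) (hU2 : Cy h E ∈ U) {Fw : ℕ → ℝ}
    (hFwB : ∀ a, |Fw a| ≤ B) (hFwp : ∀ a, Fw (a + h) = Fw a)
    (hint : ∫ x, |f x - lv E Fw x| ∂μ < δ)
    (hs1 : ∀ t : ℕ, -(3 / 64 * η) ≤ ch h (fun a => Fw a + s * gg h a) (fun a => Fw a + s * gg h a) t)
    (hs2 : ∀ t : ℕ, t ≤ m → 3 / 2 * η ≤
      ch h (fun a => Fw a + s * gg h a) (fun a => Fw a + s * gg h a) t - ch h Fw Fw t) :
    ∃ (U' : Set Aut) (f' : X → ℝ), IsOpen U' ∧ U'.Nonempty ∧ U' ⊆ U ∧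
      BM D f' ∧ ∫ x, f' x ∂μ = 0 ∧ (∀ x, |f' x - f x| ≤ 8 * s) ∧
      (∀ T ∈ U', ∀ n : ℕ, 1 ≤ n → -(η / 16) ≤ co f' T n) ∧
      ∀ T ∈ U', ∀ n : ℕ, 1 ≤ n → n ≤ m → co f T n + η ≤ co f' T n := by
  obtain ⟨H, hH⟩ : ∃ H : ℕ → ℝ, H = fun a => Fw a + s * gg h a := ⟨_, rfl⟩
  rw [← hH] at hs1
  simp only [← hH] at hs2
  have hD0 : 0 < D := by rw [hD]; positivity
  have hBD : B ≤ D := by rw [hD]; linarith
  have hBδ : 2 * B * δ ≤ η / 128 := by
    rw [← hDδ]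
    exact mul_le_mul_of_nonneg_right (by linarith) hδ0.le
  have hHB : ∀ a, |H a| ≤ D := by
    intro a
    have h1 : |Fw a| ≤ B := hFwB _
    have h2 : |s * gg h a| ≤ 8 * s := by
      rw [abs_mul, abs_of_pos hs0]
      have := gg_abs h a
      nlinarith
    rw [hH]
    exact (abs_add_le _ _).trans (by rw [hD]; linarith)
  have hHp : ∀ a, H (a + h) = H a := fun a => by
    rw [hH]
    show Fw (a + h) + s * gg h (a + h) = Fw a + s * gg h a
    rw [gg_period, hFwp a]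
  have hlvwBM : BM B (lv E Fw) := lv_BM E hFwB
  have hgBM : BM 8 (lv E (gg h)) := lv_BM E (gg_abs h)
  have hHBM : BM D (lv E H) := lv_BM E hHB
  -- the new function
  obtain ⟨f', hf'⟩ : ∃ f' : X → ℝ, f' = fun x => f x + s * lv E (gg h) x := ⟨_, rfl⟩
  have hdiff : ∀ x, |f' x - f x| ≤ 8 * s := by
    intro x
    have h1 : f' x - f x = s * lv E (gg h) x := by rw [hf']; ring
    rw [h1, abs_mul, abs_of_pos hs0]
    have := hgBM.2 x
    nlinarith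
  have hf'BM : BM D f' := by
    have h1 := hf.add (hgBM.cmul s)
    rw [abs_of_pos hs0] at h1
    have h2 : B + s * 8 = D := by rw [hD]; ring
    rw [h2, ← hf'] at h1
    exact h1
  have hf'0 : ∫ x, f' x ∂μ = 0 := by
    have h1 : ∫ x, f' x ∂μ = (∫ x, f x ∂μ) + ∫ x, s * lv E (gg h) x ∂μ := by
      rw [hf']
      exact integral_add hf.integrable (hgBM.cmul s).integrable
    rw [h1, h0, integral_const_mul, integral_lv, gg_sum h64]
    ring
  have hint' : ∫ x, |f' x - lv E H x| ∂μ < δ := by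
    have : (fun x : X => |f' x - lv E H x|) = fun x => |f x - lv E Fw x| := by
      funext x
      congr 1
      rw [hH, hf']
      show f x + s * lv E (gg h) x - (lv E Fw x + s * lv E (gg h) x) = _
      ring
    rw [this]
    exact hint
  have hcoH : ∀ (T : Aut) (n : ℕ), |co f' T n - co (lv E H) T n| ≤ η / 128 := by
    intro T n
    refine (p2_co_sub hf'BM hHBM T n).trans ?_
    rw [← hDδ]
    exact mul_le_mul_of_nonneg_left hint'.le (by linarith)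
  have hcof : ∀ (T : Aut) (n : ℕ), |co f T n - co (lv E Fw) T n| ≤ η / 128 := by
    intro T n
    refine (p2_co_sub hf hlvwBM T n).trans (le_trans ?_ hBδ)
    exact mul_le_mul_of_nonneg_left hint.le (by linarith)
  -- the neighbourhood
  obtain ⟨W, hW⟩ : ∃ W : ℝ, W = (h : ℝ) ^ 3 + m + 1 := ⟨_, rfl⟩
  have hW0 : 0 < W := by rw [hW]; positivity
  obtain ⟨ε, hε⟩ : ∃ ε : ℝ, ε = η / (1024 * (W * D ^ 2)) := ⟨_, rfl⟩
  have hε0 : 0 < ε := by rw [hε]; positivity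
  have hWε : 2 * W * D ^ 2 * ε = η / 512 := by
    rw [hε]; field_simp; norm_num
  obtain ⟨V, hV, hCV, hVd⟩ := exists_open_part (measurable_P h) (Cy h E) hε0
  have hD2 : 0 ≤ D ^ 2 * ε := by positivity
  have hB2 : B ^ 2 ≤ D ^ 2 := pow_le_pow_left₀ hB0 hBD 2
  have hm0 : (0 : ℝ) ≤ m := Nat.cast_nonneg m
  have herr : ∀ x : ℝ, x ≤ W → 2 * x * D ^ 2 * ε ≤ η / 512 := by
    intro x hx
    rw [← hWε]
    nlinarith
  have herr1 : 2 * (h : ℝ) ^ 3 * D ^ 2 * ε ≤ η / 512 := herr _ (by rw [hW]; linarith)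
  have herr2 : ∀ n : ℕ, n ≤ m → 2 * (h : ℝ) ^ 3 * D ^ 2 * ε + 2 * n * D ^ 2 * ε ≤ η / 512 := by
    intro n hn
    have h1 : (n : ℝ) ≤ m := by exact_mod_cast hn
    have h2 := herr ((h : ℝ) ^ 3 + n) (by rw [hW]; linarith)
    linarith
  have herr3 : ∀ n : ℕ, n ≤ m → 2 * (h : ℝ) ^ 3 * B ^ 2 * ε + 2 * n * B ^ 2 * ε ≤ η / 512 := by
    intro n hn
    refine le_trans ?_ (herr2 n hn)
    have h1 : B ^ 2 * ε ≤ D ^ 2 * ε := mul_le_mul_of_nonneg_right hB2 hε0.le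
    have h2 : (0 : ℝ) ≤ (h : ℝ) ^ 3 := by positivity
    have h3 : (0 : ℝ) ≤ n := Nat.cast_nonneg n
    have h4 := mul_le_mul_of_nonneg_left h1 h2
    have h5 := mul_le_mul_of_nonneg_left h1 h3
    linarith
  refine ⟨U ∩ V, f', hU.inter hV, ⟨_, hU2, hCV⟩, inter_subset_left, hf'BM, hf'0, hdiff, ?_, ?_⟩
  · rintro T ⟨-, hTV⟩ n -
    have h1 := stable_ge E T (hVd T hTV).le n hHB hHp hs1
    have h2 := (abs_le.1 (hcoH T n)).1
    linarith
  · rintro T ⟨-, hTV⟩ n - hnm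
    have h1 := (abs_le.1 (stable_near E T (hVd T hTV).le (n := n) hHB hHp)).1
    have h2 := (abs_le.1 (stable_near E T (hVd T hTV).le (n := n) hFwB hFwp)).2
    have h3 := hs2 n hnm
    have h4 := (abs_le.1 (hcoH T n)).1
    have h5 := (abs_le.1 (hcof T n)).2
    have h6 := herr2 n hnm
    have h7 := herr3 n hnm
    linarith

/-- THE STEP -/
theorem step {U : Set Aut} (hU : IsOpen U) (hne : U.Nonempty) {B : ℝ} {f : X → ℝ} (hf : BM B f)
    (h0 : ∫ x, f x ∂μ = 0) {η : ℝ} (hη : 0 < η)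
    (hlow : ∀ T ∈ U, ∀ n : ℕ, 1 ≤ n → -η ≤ co f T n) (m : ℕ) :
    ∃ (U' : Set Aut) (f' : X → ℝ), IsOpen U' ∧ U'.Nonempty ∧ U' ⊆ U ∧
      BM (B + 8 * √(2 * η)) f' ∧ ∫ x, f' x ∂μ = 0 ∧ (∀ x, |f' x - f x| ≤ 8 * √(2 * η)) ∧
      (∀ T ∈ U', ∀ n : ℕ, 1 ≤ n → -(η / 16) ≤ co f' T n) ∧
      ∀ T ∈ U', ∀ n : ℕ, 1 ≤ n → n ≤ m → co f T n + η ≤ co f' T n := by
  have hB0 : 0 ≤ B := (abs_nonneg _).trans (hf.2 0)
  have hs0 : 0 < √(2 * η) := Real.sqrt_pos.2 (by positivity)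
  have hD0 : 0 < B + 8 * √(2 * η) := by positivity
  -- the approximation
  obtain ⟨δ, hδ⟩ : ∃ δ : ℝ, δ = η / (256 * (B + 8 * √(2 * η))) := ⟨_, rfl⟩
  have hδ0 : 0 < δ := by rw [hδ]; positivity
  have hDδ : 2 * (B + 8 * √(2 * η)) * δ = η / 128 := by
    rw [hδ]; field_simp; norm_num
  have hBδ : 2 * B * δ ≤ η / 128 := by
    rw [← hDδ]
    exact mul_le_mul_of_nonneg_right (by linarith) hδ0.le
  -- the number `K`
  obtain ⟨K0, hK0⟩ :=
    exists_nat_ge (max (4 * B ^ 2 / (η / 128)) (√(2 * η) * (48 * B) / (η / 128)))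
  obtain ⟨N, K, hNp, hNz, e, E, F, hodd, hN4, hK64, hK1, hKK0, hmNK, hFB, hFs, hFδ, hU1, hU2, hE⟩ :=
    exists_data hU hne hf h0 hδ0 m K0
  have hKpos : (0 : ℝ) < K := by exact_mod_cast hK1
  have hKK0' : (K0 : ℝ) ≤ K := by exact_mod_cast hKK0
  have hη128 : 0 < η / 128 := by positivity
  have hc1 : 4 * B ^ 2 / K ≤ η / 128 := by
    have h1 : 4 * B ^ 2 / (η / 128) ≤ K := ((le_max_left _ _).trans hK0).trans hKK0'
    rw [div_le_iff₀ hη128] at h1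
    rw [div_le_iff₀ hKpos]
    linarith
  have hc2 : √(2 * η) * (48 * B / K) ≤ η / 128 := by
    have h1 : √(2 * η) * (48 * B) / (η / 128) ≤ K :=
      ((le_max_right _ _).trans hK0).trans hKK0'
    rw [div_le_iff₀ hη128] at h1
    rw [← mul_div_assoc, div_le_iff₀ hKpos]
    linarith
  have hlvw : (fun x : X => F (e.symm (P N x))) = lv E (fun a => F (wd N K a)) := by
    funext x
    show F (e.symm (P N x)) = F (wd N K (E.symm (P (N * (N * K)) x)).val)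
    rw [P_word e E hE x]
  have hFwB : ∀ a : ℕ, |(fun a => F (wd N K a)) a| ≤ B := fun a => hFB _
  have hint : ∫ x, |f x - lv E (fun a => F (wd N K a)) x| ∂μ < δ := by
    have : (fun x : X => |f x - lv E (fun a => F (wd N K a)) x|) =
        fun x => |f x - F (e.symm (P N x))| := by
      funext x
      rw [← hlvw]
    rw [this]
    exact hFδ
  -- the lower bound for the cyclic correlations
  have hlowN : ∀ t : ℕ, 1 ≤ t → -(η + η / 16) ≤ cN F F t := by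
    intro t ht
    have h1 := hlow _ hU1 t ht
    have h2 := p2_co_sub hf (lv_BM E hFwB) (Cy N e) t
    have h3 : co (lv E (fun a => F (wd N K a))) (Cy N e) t = cN F F t := by
      rw [← hlvw]
      exact co_Cy e F t
    rw [h3] at h2
    have h4 : 2 * B * ∫ x, |f x - lv E (fun a => F (wd N K a)) x| ∂μ ≤ 2 * B * δ :=
      mul_le_mul_of_nonneg_left hint.le (by linarith)
    have h5 := (abs_le.1 h2).2
    linarith
  obtain ⟨hs1, hs2⟩ := cyc_step hodd hN4 hK64 hK1 hB0 hη hFs hFB hlowN hc1 hc2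
  exact p2_main hU hf h0 hη hs0 hB0 rfl hDδ hδ0 m
    (Dvd.dvd.mul_left (Dvd.dvd.mul_left hK64 N) N) E hU2 hFwB
    (fun a => by
      show F (wd N K (a + N * (N * K))) = F (wd N K a)
      rw [wd_period hodd hK1 a]) hint hs1 fun t ht => hs2 t (ht.trans hmNK)
-- END p2

end Pool.Agent.Gor
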