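import Pool.Agent.Gor.Grd

/-!
# The mixing word
`h = N * (N * K)` levels, `N` an odd prime: `N` runs of length `L = N * K` through the cycle `ZMod N`,
the `i`-th run starts at `i (i - 1) / 2`.
-/

set_option autoImplicit false

open MeasureTheory Filter Topology Set

namespace Pool.Agent.Gor

/-- starting phases -/
def tri (N i : ℕ) : ZMod N := ((i * (i - 1) / 2 : ℕ) : ZMod N)

/-- the word (`N * K` is `0` in `ZMod N`) -/
def wd (N K a : ℕ) : ZMod N := tri N (a / (N * K)) + (a : ZMod N)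

/-- correlation on the cycle `ZMod N` -/
noncomputable def cN {N : ℕ} [NeZero N] (F G : ZMod N → ℝ) (t : ℕ) : ℝ :=
  (1 / N) * ∑ x : ZMod N, F x * G (x + (t : ZMod N))

/-- correlation of two sequences over the first `h` places -/
noncomputable def ch (h : ℕ) (F G : ℕ → ℝ) (t : ℕ) : ℝ :=
  (1 / h) * ∑ a ∈ Finset.range h, F a * G (a + t)

-- BEGIN w1
theorem w1_tri {N : ℕ} (hN : Odd N) (i : ℕ) : tri N (i + N) = tri N i := by
  obtain ⟨k, rfl⟩ := hN
  unfold tri
  have h1 : (i + (2 * k + 1)) * (i + (2 * k + 1) - 1) / 2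
      = i * (i - 1) / 2 + (2 * k + 1) * (i + k) := by
    have h2 : i + (2 * k + 1) - 1 = i + 2 * k := by omega
    rw [h2]
    have h3 : (i + (2 * k + 1)) * (i + 2 * k) = i * (i - 1) + ((2 * k + 1) * (i + k)) * 2 := by
      rcases i with _ | i
      · simp; ring
      · have : i + 1 - 1 = i := by omega
        rw [this]; ring
    rw [h3, Nat.add_mul_div_right _ _ (by norm_num)]
  rw [h1, Nat.cast_add, Nat.cast_mul, ZMod.natCast_self, zero_mul, add_zero]

theorem wd_period {N K : ℕ} (hN : Odd N) (hK : 1 ≤ K) (a : ℕ) :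
    wd N K (a + N * (N * K)) = wd N K a := by
  have hp : 0 < N * K := Nat.mul_pos hN.pos hK
  unfold wd
  rw [Nat.add_mul_div_right _ _ hp, w1_tri hN, Nat.cast_add, Nat.cast_mul, ZMod.natCast_self,
    zero_mul, add_zero]

/-- inside a run the word advances by one -/
theorem wd_succ {N K : ℕ} (hN : 1 ≤ N) (hK : 1 ≤ K) {i u : ℕ} (hu : u < N * K) :
    wd N K (i * (N * K) + u) = tri N i + (u : ZMod N) := by
  have hp : 0 < N * K := Nat.mul_pos hN hK
  unfold wd
  rw [add_comm (i * (N * K)) u, Nat.add_mul_div_right _ _ hp, Nat.div_eq_of_lt hu, zero_add,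
    Nat.cast_add, Nat.cast_mul, Nat.cast_mul, ZMod.natCast_self, zero_mul, mul_zero, add_zero]

theorem w1_base {N : ℕ} [NeZero N] (c : ZMod N) :
    ∑ u ∈ Finset.range N, (if ((u : ℕ) : ZMod N) = c then 1 else 0) = 1 := by
  rw [Finset.sum_eq_single c.val]
  · simp
  · intro b hb hne
    rw [if_neg]
    intro h
    apply hne
    rw [← h, ZMod.val_natCast, Nat.mod_eq_of_lt (Finset.mem_range.1 hb)]
  · intro h
    exact absurd (Finset.mem_range.2 (ZMod.val_lt c)) h

theorem w1_block {N : ℕ} [NeZero N] (k : ℕ) (c : ZMod N) :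
    ∑ u ∈ Finset.range (N * k), (if ((u : ℕ) : ZMod N) = c then 1 else 0) = k := by
  induction k with
  | zero => simp
  | succ k ih =>
    rw [Nat.mul_succ, Finset.sum_range_add, ih]
    congr 1
    refine (Finset.sum_congr rfl fun u _ => ?_).trans (w1_base c)
    rw [Nat.cast_add, Nat.cast_mul, ZMod.natCast_self, zero_mul, zero_add]

theorem w1_count {N K : ℕ} [NeZero N] (hK : 1 ≤ K) (q : ZMod N) (m : ℕ) :
    ∑ a ∈ Finset.range (m * (N * K)), (if wd N K a = q then 1 else 0) = m * K := by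
  induction m with
  | zero => simp
  | succ m ih =>
    rw [Nat.succ_mul, Finset.sum_range_add, ih, Nat.succ_mul]
    congr 1
    refine (Finset.sum_congr rfl fun u hu => ?_).trans (w1_block K (q - tri N m))
    rw [wd_succ (NeZero.one_le) hK (Finset.mem_range.1 hu)]
    congr 1
    rw [eq_sub_iff_add_eq, add_comm]

theorem wd_count {N K : ℕ} [NeZero N] (hK : 1 ≤ K) (q : ZMod N) :
    ((Finset.range (N * (N * K))).filter fun a => wd N K a = q).card = N * K := by
  rw [Finset.card_filter, w1_count hK q N]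
-- END w1

-- BEGIN w2
private theorem w2_one {N : ℕ} [NeZero N] (G : ZMod N → ℝ) (c : ZMod N) :
    ∑ u ∈ Finset.range N, G (c + (u : ZMod N)) = ∑ x, G x := by
  refine Finset.sum_bij (fun u _ => c + ((u : ℕ) : ZMod N)) (fun _ _ => Finset.mem_univ _) ?_ ?_
    (fun _ _ => rfl)
  · intro u hu v hv huv
    have h1 : ((u : ℕ) : ZMod N) = (v : ZMod N) := add_left_cancel huv
    have h2 := congrArg ZMod.val h1
    rwa [ZMod.val_natCast, ZMod.val_natCast, Nat.mod_eq_of_lt (Finset.mem_range.1 hu),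
      Nat.mod_eq_of_lt (Finset.mem_range.1 hv)] at h2
  · intro x _
    refine ⟨(x - c).val, Finset.mem_range.2 (ZMod.val_lt _), ?_⟩
    rw [ZMod.natCast_zmod_val, add_sub_cancel]

private theorem w2_mul {N : ℕ} [NeZero N] (G : ZMod N → ℝ) (c : ZMod N) (k : ℕ) :
    ∑ u ∈ Finset.range (N * k), G (c + (u : ZMod N)) = k * ∑ x, G x := by
  induction k with
  | zero => simp
  | succ k ih =>
    rw [Nat.mul_succ, Finset.sum_range_add, ih]
    have h : ∑ u ∈ Finset.range N, G (c + ((N * k + u : ℕ) : ZMod N)) = ∑ x, G x := by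
      refine (Finset.sum_congr rfl fun u _ => ?_).trans (w2_one G c)
      rw [Nat.cast_add, Nat.cast_mul, ZMod.natCast_self, zero_mul, zero_add]
    rw [h]
    push_cast
    ring

private theorem w2_part {N : ℕ} [NeZero N] {M : ℝ} {G : ZMod N → ℝ} (hG : ∀ x, |G x| ≤ M)
    (c : ZMod N) (m : ℕ) :
    |∑ u ∈ Finset.range m, G (c + (u : ZMod N)) - (m : ℝ) / N * ∑ x, G x| ≤ 2 * N * M := by
  have hN : 0 < N := Nat.pos_of_ne_zero (NeZero.ne N)
  have hNr : (0 : ℝ) < N := by exact_mod_cast hN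
  have hM0 : 0 ≤ M := (abs_nonneg _).trans (hG 0)
  have hS : |∑ x, G x| ≤ N * M := by
    refine (Finset.abs_sum_le_sum_abs _ _).trans ((Finset.sum_le_sum fun u _ => hG _).trans ?_)
    rw [Finset.sum_const, Finset.card_univ, ZMod.card, nsmul_eq_mul]
  have hP : |∑ u ∈ Finset.range (m % N), G (c + ((N * (m / N) + u : ℕ) : ZMod N))| ≤ N * M := by
    refine (Finset.abs_sum_le_sum_abs _ _).trans ((Finset.sum_le_sum fun u _ => hG _).trans ?_)
    rw [Finset.sum_const, Finset.card_range, nsmul_eq_mul]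
    exact mul_le_mul_of_nonneg_right (by exact_mod_cast (Nat.mod_lt m hN).le) hM0
  have hsum : ∑ u ∈ Finset.range m, G (c + (u : ZMod N)) =
      ((m / N : ℕ) : ℝ) * ∑ x, G x +
        ∑ u ∈ Finset.range (m % N), G (c + ((N * (m / N) + u : ℕ) : ZMod N)) := by
    conv_lhs => rw [← Nat.div_add_mod m N]
    rw [Finset.sum_range_add, w2_mul]
  have hm : (m : ℝ) / N = ((m / N : ℕ) : ℝ) + ((m % N : ℕ) : ℝ) / N := by
    have h := Nat.div_add_mod m N
    have h' : (m : ℝ) = N * ((m / N : ℕ) : ℝ) + ((m % N : ℕ) : ℝ) := by exact_mod_cast h.symm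
    rw [h', add_div, mul_div_cancel_left₀ _ hNr.ne']
  have hr : ((m % N : ℕ) : ℝ) / N ≤ 1 := by
    rw [div_le_one hNr]
    exact_mod_cast (Nat.mod_lt m hN).le
  have hr0 : 0 ≤ ((m % N : ℕ) : ℝ) / N := by positivity
  rw [hsum, hm]
  have e : ((m / N : ℕ) : ℝ) * ∑ x, G x +
        ∑ u ∈ Finset.range (m % N), G (c + ((N * (m / N) + u : ℕ) : ZMod N)) -
        (((m / N : ℕ) : ℝ) + ((m % N : ℕ) : ℝ) / N) * ∑ x, G x =
      ∑ u ∈ Finset.range (m % N), G (c + ((N * (m / N) + u : ℕ) : ZMod N)) -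
        ((m % N : ℕ) : ℝ) / N * ∑ x, G x := by ring
  rw [e]
  refine (abs_sub _ _).trans ?_
  have h1 : |((m % N : ℕ) : ℝ) / N * ∑ x, G x| ≤ 1 * (N * M) := by
    rw [abs_mul, abs_of_nonneg hr0]
    exact mul_le_mul hr hS (abs_nonneg _) zero_le_one
  linarith

private theorem w2_tri_add {N : ℕ} (i s : ℕ) : tri N (i + s) = tri N i + (i : ZMod N) * s + tri N s := by
  induction s with
  | zero => simp [tri]
  | succ s ih =>
    have h1 : ∀ n : ℕ, tri N (n + 1) = tri N n + (n : ZMod N) := by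
      intro n
      unfold tri
      rw [Nat.triangle_succ]
      push_cast
      rfl
    rw [← add_assoc, h1, ih, h1]
    push_cast
    ring

private noncomputable def w2_C {N : ℕ} [NeZero N] (F : ZMod N → ℝ) (c : ZMod N) : ℝ :=
  (1 / (N : ℝ)) * ∑ x : ZMod N, F x * F (x + c)

private theorem w2_sumC {N : ℕ} [NeZero N] {F : ZMod N → ℝ} (hF : ∑ x, F x = 0) :
    ∑ c, w2_C F c = 0 := by
  unfold w2_C
  rw [← Finset.mul_sum, Finset.sum_comm]
  have h : ∀ x : ZMod N, ∑ c : ZMod N, F x * F (x + c) = 0 := by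
    intro x
    have h2 : ∑ c : ZMod N, F (x + c) = ∑ c, F c := Equiv.sum_comp (Equiv.addLeft x) F
    rw [← Finset.mul_sum, h2, hF, mul_zero]
  rw [Finset.sum_eq_zero fun x _ => h x, mul_zero]

private theorem w2_unit {N : ℕ} [Fact N.Prime] {F : ZMod N → ℝ} (hF : ∑ x, F x = 0) {s : ℕ}
    (hs : (s : ZMod N) ≠ 0) (b : ZMod N) :
    ∑ i ∈ Finset.range N, w2_C F ((i : ZMod N) * s + b) = 0 := by
  have h1 := w2_one (fun x : ZMod N => w2_C F (x * s + b)) 0
  simp only [zero_add] at h1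
  rw [h1, ← w2_sumC hF]
  exact Equiv.sum_comp ((Equiv.mulRight₀ (s : ZMod N) hs).trans (Equiv.addRight b)) (w2_C F)

private theorem w2_runs (L : ℕ) (f : ℕ → ℝ) (m : ℕ) :
    ∑ a ∈ Finset.range (m * L), f a = ∑ i ∈ Finset.range m, ∑ u ∈ Finset.range L, f (i * L + u) := by
  induction m with
  | zero => simp
  | succ m ih => rw [Nat.succ_mul, Finset.sum_range_add, ih, Finset.sum_range_succ]

/-- one run -/
private theorem w2_run {N K : ℕ} [NeZero N] (hK : 1 ≤ K) {B : ℝ} {F : ZMod N → ℝ}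
    (hB : ∀ x, |F x| ≤ B) {s v : ℕ} (hv : v < N * K) (i : ℕ) :
    |∑ u ∈ Finset.range (N * K), F (wd N K (i * (N * K) + u)) *
        F (wd N K (i * (N * K) + u + (s * (N * K) + v)))
      - (((N * K - v : ℕ) : ℝ) * w2_C F ((i : ZMod N) * s + (tri N s + v)) +
        (v : ℝ) * w2_C F ((i : ZMod N) * (s + 1 : ℕ) + (tri N (s + 1) + v)))| ≤ 4 * N * B ^ 2 := by
  have hN1 : 1 ≤ N := NeZero.one_le
  have hNr : (0 : ℝ) < N := by exact_mod_cast hN1
  have hB0 : 0 ≤ B := (abs_nonneg _).trans (hB 0)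
  have hG : ∀ c x : ZMod N, |F x * F (x + c)| ≤ B ^ 2 := by
    intro c x
    rw [abs_mul, sq]
    exact mul_le_mul (hB _) (hB _) (abs_nonneg _) hB0
  have hsplit : N * K = (N * K - v) + v := by omega
  have e1 : ∑ u ∈ Finset.range (N * K - v), F (wd N K (i * (N * K) + u)) *
        F (wd N K (i * (N * K) + u + (s * (N * K) + v))) =
      ∑ u ∈ Finset.range (N * K - v), (fun x => F x * F (x + ((i : ZMod N) * s + (tri N s + v))))
        (tri N i + (u : ZMod N)) := by
    refine Finset.sum_congr rfl fun u hu => ?_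
    have hu' := Finset.mem_range.1 hu
    have h1 : i * (N * K) + u + (s * (N * K) + v) = (i + s) * (N * K) + (u + v) := by ring
    rw [h1, wd_succ hN1 hK (by omega : u < N * K), wd_succ hN1 hK (by omega : u + v < N * K),
      w2_tri_add]
    simp only
    congr 2
    push_cast
    ring
  have e2 : ∑ u ∈ Finset.range v, F (wd N K (i * (N * K) + (N * K - v + u))) *
        F (wd N K (i * (N * K) + (N * K - v + u) + (s * (N * K) + v))) =
      ∑ u ∈ Finset.range v,
        (fun x => F x * F (x + ((i : ZMod N) * (s + 1 : ℕ) + (tri N (s + 1) + v))))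
        (tri N i - (v : ZMod N) + (u : ZMod N)) := by
    refine Finset.sum_congr rfl fun u hu => ?_
    have hu' := Finset.mem_range.1 hu
    have h1 : i * (N * K) + (N * K - v + u) + (s * (N * K) + v) = (i + (s + 1)) * (N * K) + u := by
      have : N * K - v + u + v = N * K + u := by omega
      calc i * (N * K) + (N * K - v + u) + (s * (N * K) + v)
          = i * (N * K) + s * (N * K) + (N * K - v + u + v) := by ring
        _ = i * (N * K) + s * (N * K) + (N * K + u) := by rw [this]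
        _ = _ := by ring
    have h2 : ((N * K - v + u : ℕ) : ZMod N) = -(v : ZMod N) + u := by
      rw [Nat.cast_add, Nat.cast_sub hv.le, Nat.cast_mul, ZMod.natCast_self, zero_mul, zero_sub]
    rw [h1, wd_succ hN1 hK (by omega : N * K - v + u < N * K), wd_succ hN1 hK (by omega : u < N * K),
      w2_tri_add, h2]
    simp only
    have h3 : tri N i + (-(v : ZMod N) + u) = tri N i - v + u := by ring
    rw [h3]
    congr 2
    ring
  have hpart : ∀ (c y : ZMod N) (m : ℕ),
      |∑ u ∈ Finset.range m, (fun x => F x * F (x + c)) (y + (u : ZMod N)) - (m : ℝ) * w2_C F c| ≤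
        2 * N * B ^ 2 := by
    intro c y m
    have h := w2_part (G := fun x => F x * F (x + c)) (hG c) y m
    have h2 : (m : ℝ) / N * ∑ x, F x * F (x + c) = (m : ℝ) * w2_C F c := by
      unfold w2_C
      ring
    rwa [h2] at h
  conv_lhs => rw [show Finset.range (N * K) = Finset.range ((N * K - v) + v) by rw [← hsplit]]
  rw [Finset.sum_range_add, e1, e2]
  have a1 := hpart ((i : ZMod N) * s + (tri N s + v)) (tri N i) (N * K - v)
  have a2 := hpart ((i : ZMod N) * (s + 1 : ℕ) + (tri N (s + 1) + v)) (tri N i - v) v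
  have e3 : ∀ a b c d : ℝ, a + b - (c + d) = (a - c) + (b - d) := fun a b c d => by ring
  rw [e3]
  refine (abs_add_le _ _).trans ?_
  linarith

/-- all runs -/
private theorem w2_main {N K : ℕ} [NeZero N] (hK : 1 ≤ K) {B : ℝ} {F : ZMod N → ℝ}
    (hB : ∀ x, |F x| ≤ B) {s v : ℕ} (hv : v < N * K) :
    |ch (N * (N * K)) (fun a => F (wd N K a)) (fun a => F (wd N K a)) (s * (N * K) + v)
      - (1 / ((N * (N * K) : ℕ) : ℝ)) *
        (((N * K - v : ℕ) : ℝ) * ∑ i ∈ Finset.range N, w2_C F ((i : ZMod N) * s + (tri N s + v)) +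
        (v : ℝ) * ∑ i ∈ Finset.range N,
          w2_C F ((i : ZMod N) * (s + 1 : ℕ) + (tri N (s + 1) + v)))| ≤ 4 * B ^ 2 / K := by
  have hN1 : 1 ≤ N := NeZero.one_le
  have hNr : (0 : ℝ) < N := by exact_mod_cast hN1
  have hKr : (0 : ℝ) < K := by exact_mod_cast hK
  unfold ch
  rw [w2_runs, ← mul_sub, abs_mul, Finset.mul_sum, Finset.mul_sum, ← Finset.sum_add_distrib,
    ← Finset.sum_sub_distrib]
  have h1 : |∑ i ∈ Finset.range N, (∑ u ∈ Finset.range (N * K), F (wd N K (i * (N * K) + u)) *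
        F (wd N K (i * (N * K) + u + (s * (N * K) + v)))
      - (((N * K - v : ℕ) : ℝ) * w2_C F ((i : ZMod N) * s + (tri N s + v)) +
        (v : ℝ) * w2_C F ((i : ZMod N) * (s + 1 : ℕ) + (tri N (s + 1) + v))))| ≤
      N * (4 * N * B ^ 2) := by
    refine (Finset.abs_sum_le_sum_abs _ _).trans
      ((Finset.sum_le_sum fun i _ => w2_run hK hB hv i).trans ?_)
    rw [Finset.sum_const, Finset.card_range, nsmul_eq_mul]
  have h2 : |1 / ((N * (N * K) : ℕ) : ℝ)| = 1 / (N * (N * K)) := by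
    rw [abs_of_nonneg (by positivity)]
    push_cast
    rfl
  rw [h2]
  refine (mul_le_mul_of_nonneg_left h1 (by positivity)).trans (le_of_eq ?_)
  field_simp

/-- correlations up to one run -/
theorem wd_corr_small {N K : ℕ} [Fact N.Prime] (hN : Odd N) (hK : 1 ≤ K) {B : ℝ} {F : ZMod N → ℝ}
    (hF : ∑ x, F x = 0) (hB : ∀ x, |F x| ≤ B) {t : ℕ} (ht : t ≤ N * K) :
    |ch (N * (N * K)) (fun a => F (wd N K a)) (fun a => F (wd N K a)) t
      - (1 - t / (N * K : ℕ)) * cN F F t| ≤ 4 * B ^ 2 / K := by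
  have _ := hN
  have hNp : N.Prime := Fact.out
  have hN1 : 1 ≤ N := hNp.one_le
  have hNr : (0 : ℝ) < N := by exact_mod_cast hN1
  have hKr : (0 : ℝ) < K := by exact_mod_cast hK
  have hL : 0 < N * K := Nat.mul_pos hN1 hK
  have hone : ((1 : ℕ) : ZMod N) ≠ 0 := by
    rw [Nat.cast_one]
    exact one_ne_zero
  rcases ht.lt_or_eq with hlt | heq
  · have h := w2_main (N := N) hK hB (s := 0) hlt
    have e1 : ∑ i ∈ Finset.range N, w2_C F ((i : ZMod N) * (0 : ℕ) + (tri N 0 + t)) =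
        N * cN F F t := by
      have : ∀ i ∈ Finset.range N, w2_C F ((i : ZMod N) * (0 : ℕ) + (tri N 0 + t)) = cN F F t := by
        intro i _
        simp [tri, w2_C, cN]
      rw [Finset.sum_congr rfl this, Finset.sum_const, Finset.card_range, nsmul_eq_mul]
    have e2 : ∑ i ∈ Finset.range N, w2_C F ((i : ZMod N) * (0 + 1 : ℕ) + (tri N (0 + 1) + t)) = 0 :=
      w2_unit hF (by simp) _
    rw [e1, e2, mul_zero, add_zero, zero_mul, zero_add] at h
    have e3 : (1 / ((N * (N * K) : ℕ) : ℝ)) * (((N * K - t : ℕ) : ℝ) * (N * cN F F t)) =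
        (1 - t / (N * K : ℕ)) * cN F F t := by
      rw [Nat.cast_sub ht]
      push_cast
      field_simp
    rwa [e3] at h
  · have h := w2_main (N := N) hK hB (s := 1) hL
    have e1 : ∑ i ∈ Finset.range N, w2_C F ((i : ZMod N) * (1 : ℕ) + (tri N 1 + (0 : ℕ))) = 0 :=
      w2_unit hF hone _
    rw [e1] at h
    simp only [mul_zero, CharP.cast_eq_zero, zero_mul, add_zero, sub_zero, one_mul] at h
    rw [heq]
    have e3 : (1 - ((N * K : ℕ) : ℝ) / (N * K : ℕ)) = 0 := by
      rw [div_self (by positivity), sub_self]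
    rw [e3, zero_mul, sub_zero]
    exact h
-- END w2

-- BEGIN w3
/-- correlations beyond one run: the phase differences are equidistributed -/
theorem wd_corr_mid {N K : ℕ} [Fact N.Prime] (hN : Odd N) (hK : 1 ≤ K) {B : ℝ} {F : ZMod N → ℝ}
    (hF : ∑ x, F x = 0) (hB : ∀ x, |F x| ≤ B) {t : ℕ} (ht : N * K ≤ t)
    (ht' : t + N * K ≤ N * (N * K)) :
    |ch (N * (N * K)) (fun a => F (wd N K a)) (fun a => F (wd N K a)) t| ≤ 4 * B ^ 2 / K := by
  have _ := hN
  have hNp : N.Prime := Fact.out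
  have hN1 : 1 ≤ N := hNp.one_le
  have hL : 0 < N * K := Nat.mul_pos hN1 hK
  obtain ⟨s, v, hv, rfl⟩ : ∃ s v, v < N * K ∧ t = s * (N * K) + v :=
    ⟨t / (N * K), t % (N * K), Nat.mod_lt _ hL, (Nat.div_add_mod' t (N * K)).symm⟩
  have hs1 : 1 ≤ s := by
    by_contra h
    have : s = 0 := by omega
    subst this
    omega
  have hsN : s + 1 ≤ N := by
    by_contra h
    have h1 : N ≤ s := by omega
    have h2 : N * (N * K) ≤ s * (N * K) := Nat.mul_le_mul_right _ h1
    omega
  have hne : ∀ k : ℕ, 1 ≤ k → k < N → (k : ZMod N) ≠ 0 := by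
    intro k hk hkN h0
    rw [ZMod.natCast_eq_zero_iff] at h0
    exact absurd (Nat.le_of_dvd hk h0) (by omega)
  have h := w2_main (N := N) hK hB (s := s) hv
  have e1 : ∑ i ∈ Finset.range N, w2_C F ((i : ZMod N) * s + (tri N s + v)) = 0 :=
    w2_unit hF (hne s hs1 (by omega)) _
  rw [e1, mul_zero, zero_add] at h
  have e2 : (v : ℝ) * ∑ i ∈ Finset.range N,
      w2_C F ((i : ZMod N) * (s + 1 : ℕ) + (tri N (s + 1) + v)) = 0 := by
    rcases hsN.lt_or_eq with hlt | heq
    · rw [w2_unit hF (hne (s + 1) (by omega) hlt) _, mul_zero]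
    · have hv0 : v = 0 := by
        have h1 : (s + 1) * (N * K) = N * (N * K) := by rw [heq]
        have h2 : (s + 1) * (N * K) = s * (N * K) + N * K := by ring
        omega
      rw [hv0, Nat.cast_zero, zero_mul]
  rwa [e2, mul_zero, sub_zero] at h
-- END w3

-- BEGIN w4
private theorem w4_one {N : ℕ} [NeZero N] {F : ZMod N → ℝ} (hF : ∑ x, F x = 0) (c : ZMod N) :
    ∑ u ∈ Finset.range N, F (c + (u : ZMod N)) = 0 := by
  rw [← hF]
  refine Finset.sum_bij (fun u _ => c + ((u : ℕ) : ZMod N)) (fun _ _ => Finset.mem_univ _) ?_ ?_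
    (fun _ _ => rfl)
  · intro u hu v hv huv
    have h1 : ((u : ℕ) : ZMod N) = (v : ZMod N) := add_left_cancel huv
    have h2 := congrArg ZMod.val h1
    rwa [ZMod.val_natCast, ZMod.val_natCast, Nat.mod_eq_of_lt (Finset.mem_range.1 hu),
      Nat.mod_eq_of_lt (Finset.mem_range.1 hv)] at h2
  · intro x _
    refine ⟨(x - c).val, Finset.mem_range.2 (ZMod.val_lt _), ?_⟩
    rw [ZMod.natCast_zmod_val, add_sub_cancel]

private theorem w4_mul {N : ℕ} [NeZero N] {F : ZMod N → ℝ} (hF : ∑ x, F x = 0) (c : ZMod N)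
    (k : ℕ) : ∑ u ∈ Finset.range (N * k), F (c + (u : ZMod N)) = 0 := by
  induction k with
  | zero => simp
  | succ k ih =>
    rw [Nat.mul_succ, Finset.sum_range_add, ih, zero_add]
    refine (Finset.sum_congr rfl fun u _ => ?_).trans (w4_one hF c)
    rw [Nat.cast_add, Nat.cast_mul, ZMod.natCast_self, zero_mul, zero_add]

private theorem w4_part {N : ℕ} [NeZero N] {B : ℝ} {F : ZMod N → ℝ} (hF : ∑ x, F x = 0)
    (hB : ∀ x, |F x| ≤ B) (c : ZMod N) (m : ℕ) :
    |∑ u ∈ Finset.range m, F (c + (u : ZMod N))| ≤ N * B := by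
  have hN : 0 < N := Nat.pos_of_ne_zero (NeZero.ne N)
  have hB0 : 0 ≤ B := (abs_nonneg _).trans (hB 0)
  rw [← Nat.div_add_mod m N, Finset.sum_range_add, w4_mul hF, zero_add]
  refine (Finset.abs_sum_le_sum_abs _ _).trans ?_
  refine (Finset.sum_le_sum fun u _ => hB _).trans ?_
  rw [Finset.sum_const, Finset.card_range, nsmul_eq_mul]
  exact mul_le_mul_of_nonneg_right (by exact_mod_cast (Nat.mod_lt m hN).le) hB0

private theorem w4_runs {N K : ℕ} [NeZero N] (hK : 1 ≤ K) {F : ZMod N → ℝ} (hF : ∑ x, F x = 0)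
    (q : ℕ) : ∑ a ∈ Finset.range (q * (N * K)), F (wd N K a) = 0 := by
  induction q with
  | zero => simp
  | succ q ih =>
    rw [Nat.succ_mul, Finset.sum_range_add, ih, zero_add]
    refine (Finset.sum_congr rfl fun u hu => ?_).trans (w4_mul hF (tri N q) K)
    rw [wd_succ NeZero.one_le hK (Finset.mem_range.1 hu)]

private theorem w4_all {N K : ℕ} [NeZero N] (hK : 1 ≤ K) {B : ℝ} {F : ZMod N → ℝ}
    (hF : ∑ x, F x = 0) (hB : ∀ x, |F x| ≤ B) (m : ℕ) :
    |∑ a ∈ Finset.range m, F (wd N K a)| ≤ N * B := by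
  have hN : 0 < N := Nat.pos_of_ne_zero (NeZero.ne N)
  have hL : 0 < N * K := Nat.mul_pos hN hK
  have h1 : m = m / (N * K) * (N * K) + m % (N * K) := (Nat.div_add_mod' m (N * K)).symm
  rw [h1, Finset.sum_range_add, w4_runs hK hF, zero_add]
  have h2 : ∑ u ∈ Finset.range (m % (N * K)), F (wd N K (m / (N * K) * (N * K) + u))
      = ∑ u ∈ Finset.range (m % (N * K)), F (tri N (m / (N * K)) + (u : ZMod N)) := by
    refine Finset.sum_congr rfl fun u hu => ?_
    rw [wd_succ NeZero.one_le hK ((Finset.mem_range.1 hu).trans (Nat.mod_lt _ hL))]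
  rw [h2]
  exact w4_part hF hB _ _

/-- sums over intervals are small -/
theorem wd_sum_Ico {N K : ℕ} [NeZero N] (hK : 1 ≤ K) {B : ℝ} {F : ZMod N → ℝ}
    (hF : ∑ x, F x = 0) (hB : ∀ x, |F x| ≤ B) {s l : ℕ} (hl : l ≤ N * (N * K)) :
    |∑ a ∈ Finset.Ico s (s + l), F (wd N K a)| ≤ (N + 2) * N * B := by
  have hB0 : 0 ≤ B := (abs_nonneg _).trans (hB 0)
  have hN1 : (1 : ℝ) ≤ N := by exact_mod_cast (NeZero.one_le : 1 ≤ N)
  rw [Finset.sum_Ico_eq_sub _ (Nat.le_add_right s l)]
  refine (abs_sub _ _).trans ?_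
  have h1 := w4_all hK hF hB (s + l)
  have h2 := w4_all hK hF hB s
  have h3 : (0 : ℝ) ≤ N * B := mul_nonneg (by linarith) hB0
  nlinarith

theorem wd_sum {N K : ℕ} [NeZero N] (hK : 1 ≤ K) {F : ZMod N → ℝ} (hF : ∑ x, F x = 0) :
    ∑ a ∈ Finset.range (N * (N * K)), F (wd N K a) = 0 := by
  exact w4_runs hK hF N
-- END w4

-- BEGIN w5
private theorem w5_left {N K : ℕ} [NeZero N] [NeZero (N * (N * K))] (hK : 1 ≤ K)
    (e : ZMod N ≃ Fin N) (c : Fin N) :
    Fintype.card {a : ZMod (N * (N * K)) // e (wd N K a.val) = c} = N * K := by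
  classical
  rw [Fintype.card_subtype]
  refine Eq.trans ?_ (wd_count (N := N) (K := K) hK (e.symm c))
  refine Finset.card_bij (fun a _ => a.val) ?_ ?_ ?_
  · intro a ha
    rw [Finset.mem_filter] at ha ⊢
    refine ⟨Finset.mem_range.mpr (ZMod.val_lt a), ?_⟩
    rw [← ha.2, Equiv.symm_apply_apply]
  · intro a _ b _ hab
    exact ZMod.val_injective _ hab
  · intro b hb
    rw [Finset.mem_filter, Finset.mem_range] at hb
    refine ⟨((b : ℕ) : ZMod (N * (N * K))), ?_, ZMod.val_cast_of_lt hb.1⟩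
    rw [Finset.mem_filter]
    refine ⟨Finset.mem_univ _, ?_⟩
    rw [ZMod.val_cast_of_lt hb.1, hb.2, Equiv.apply_symm_apply]

private theorem w5_div_lt {N K : ℕ} (j : Fin (N * (N * K))) : (j : ℕ) / (N * K) < N := by
  have h := j.2
  exact Nat.div_lt_of_lt_mul (by rw [mul_comm (N * K) N]; exact h)

private theorem w5_right {N K : ℕ} [NeZero N] (hK : 1 ≤ K) (c : Fin N) :
    Fintype.card {j : Fin (N * (N * K)) //
      (⟨(j : ℕ) / (N * K), w5_div_lt j⟩ : Fin N) = c} = N * K := by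
  classical
  have hN : 0 < N := Nat.pos_of_ne_zero (NeZero.ne N)
  have hNK : 0 < N * K := Nat.mul_pos hN hK
  rw [Fintype.card_subtype]
  have hlt : ∀ u : ℕ, u < N * K → (c : ℕ) * (N * K) + u < N * (N * K) := by
    intro u hu
    have h1 : (c : ℕ) + 1 ≤ N := c.2
    have h2 : ((c : ℕ) + 1) * (N * K) ≤ N * (N * K) := Nat.mul_le_mul_right _ h1
    have h3 : ((c : ℕ) + 1) * (N * K) = (c : ℕ) * (N * K) + N * K := by ring
    omega
  have hcard : (Finset.range (N * K)).card = N * K := Finset.card_range _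
  refine Eq.trans (Eq.symm ?_) hcard
  refine Finset.card_bij (fun u hu => ⟨(c : ℕ) * (N * K) + u, hlt u (Finset.mem_range.mp hu)⟩)
    ?_ ?_ ?_
  · intro u hu
    rw [Finset.mem_filter]
    refine ⟨Finset.mem_univ _, ?_⟩
    apply Fin.ext
    have hu' := Finset.mem_range.mp hu
    change ((c : ℕ) * (N * K) + u) / (N * K) = (c : ℕ)
    rw [mul_comm (c : ℕ) (N * K), Nat.mul_add_div hNK, Nat.div_eq_of_lt hu', Nat.add_zero]
  · intro u hu v hv huv
    have h := congrArg Fin.val huv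
    change (c : ℕ) * (N * K) + u = (c : ℕ) * (N * K) + v at h
    omega
  · intro j hj
    rw [Finset.mem_filter] at hj
    have h1 : (j : ℕ) / (N * K) = (c : ℕ) := congrArg Fin.val hj.2
    refine ⟨(j : ℕ) % (N * K), Finset.mem_range.mpr (Nat.mod_lt _ hNK), ?_⟩
    apply Fin.ext
    change (c : ℕ) * (N * K) + (j : ℕ) % (N * K) = (j : ℕ)
    rw [← h1, mul_comm]
    exact Nat.div_add_mod _ _

/-- the cyclic order of the `h` small intervals which realises the word -/
theorem exists_word {N K : ℕ} [NeZero N] [NeZero (N * (N * K))] (hN : Odd N) (hK : 1 ≤ K)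
    (e : ZMod N ≃ Fin N) : ∃ E : ZMod (N * (N * K)) ≃ Fin (N * (N * K)),
      ∀ a : ZMod (N * (N * K)), ((E a : Fin (N * (N * K))) : ℕ) / (N * K) =
        ((e (wd N K a.val) : Fin N) : ℕ) := by
  classical
  let F : ∀ c : Fin N, {a : ZMod (N * (N * K)) // e (wd N K a.val) = c} ≃
      {j : Fin (N * (N * K)) // (⟨(j : ℕ) / (N * K), w5_div_lt j⟩ : Fin N) = c} := fun c =>
    Fintype.equivOfCardEq ((w5_left hK e c).trans (w5_right hK c).symm)
  refine ⟨Equiv.ofFiberEquiv F, fun a => ?_⟩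
  have h := Equiv.ofFiberEquiv_map F a
  exact congrArg Fin.val h
-- END w5

-- BEGIN w6
theorem w6_P {N K : ℕ} [NeZero N] [NeZero (N * (N * K))]
    (e : ZMod N ≃ Fin N) (E : ZMod (N * (N * K)) ≃ Fin (N * (N * K)))
    (hE : ∀ a : ZMod (N * (N * K)), ((E a : Fin (N * (N * K))) : ℕ) / (N * K) =
        ((e (wd N K a.val) : Fin N) : ℕ)) (x : X) :
    P N x = e (wd N K (E.symm (P (N * (N * K)) x)).val) := by
  have h1 := P_refine N (N * K) x
  have h2 := hE (E.symm (P (N * (N * K)) x))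
  rw [Equiv.apply_symm_apply] at h2
  exact Fin.ext (h1.trans h2)

theorem w6_val {N K : ℕ} [NeZero N] [NeZero (N * (N * K))] (A : ZMod (N * (N * K)))
    (hA : A.val % (N * K) ≠ N * K - 1) :
    wd N K (A + 1).val = wd N K A.val + 1 := by
  have hN : 0 < N := Nat.pos_of_ne_zero (NeZero.ne N)
  have hM : 0 < N * (N * K) := Nat.pos_of_ne_zero (NeZero.ne _)
  have hL : 0 < N * K := Nat.pos_of_mul_pos_left hM
  have hlt : A.val < N * (N * K) := ZMod.val_lt A
  have h1 : A.val % (N * K) < N * K := Nat.mod_lt _ hL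
  have h2 : A.val % (N * K) + 1 < N * K := by omega
  have h3 : (A.val + 1) / (N * K) = A.val / (N * K) := by
    have h4 : A.val + 1 = (N * K) * (A.val / (N * K)) + (A.val % (N * K) + 1) := by
      have := Nat.div_add_mod A.val (N * K)
      omega
    rw [h4, Nat.mul_add_div hL, Nat.div_eq_of_lt h2, add_zero]
  have h5 : A.val + 1 < N * (N * K) := by
    have h6 : A.val / (N * K) < N := Nat.div_lt_of_lt_mul (lt_of_lt_of_eq hlt (mul_comm N (N * K)))
    have h7 := Nat.div_add_mod A.val (N * K)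
    have h8 : (N * K) * (A.val / (N * K)) + (N * K) ≤ (N * K) * N := by
      have : A.val / (N * K) + 1 ≤ N := h6
      calc (N * K) * (A.val / (N * K)) + (N * K) = (N * K) * (A.val / (N * K) + 1) := by ring
        _ ≤ (N * K) * N := Nat.mul_le_mul_left _ this
    have h9 : (N * K) * N = N * (N * K) := mul_comm _ _
    omega
  have h10 : (A + 1).val = A.val + 1 := by
    have h11 : (A + 1) = ((A.val + 1 : ℕ) : ZMod (N * (N * K))) := by
      push_cast
      rw [ZMod.natCast_zmod_val]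
    rw [h11, ZMod.val_natCast, Nat.mod_eq_of_lt h5]
  rw [h10]
  unfold wd
  rw [h3]
  push_cast
  ring

/-- on the big intervals the two cyclic maps agree except at the ends of the runs -/
theorem dQ_word {N K : ℕ} [NeZero N] [NeZero (N * (N * K))] (hN : Odd N) (hK : 1 ≤ K)
    (e : ZMod N ≃ Fin N) (E : ZMod (N * (N * K)) ≃ Fin (N * (N * K)))
    (hE : ∀ a : ZMod (N * (N * K)), ((E a : Fin (N * (N * K))) : ℕ) / (N * K) =
        ((e (wd N K a.val) : Fin N) : ℕ)) :
    dQ (P N) (Cy (N * (N * K)) E) (Cy N e) ≤ 1 / (N * K : ℕ) := by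
  classical
  have hN0 : 0 < N := Nat.pos_of_ne_zero (NeZero.ne N)
  have hL : 0 < N * K := Nat.mul_pos hN0 hK
  set J : Finset (Fin (N * (N * K))) :=
    Finset.univ.filter fun c => (E.symm c).val % (N * K) = N * K - 1 with hJ
  have hcard : J.card ≤ N := by
    have h1 : J.card ≤ (Finset.range N).card := by
      refine Finset.card_le_card_of_injOn (fun c => (E.symm c).val / (N * K)) ?_ ?_
      · intro c _
        have hlt : (E.symm c).val < N * (N * K) := ZMod.val_lt _
        have : (E.symm c).val / (N * K) < N := Nat.div_lt_of_lt_mul (lt_of_lt_of_eq hlt (mul_comm N (N * K)))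
        exact Finset.mem_coe.2 (Finset.mem_range.2 this)
      · intro c hc d hd hcd
        have hc1 : (E.symm c).val % (N * K) = N * K - 1 := (Finset.mem_filter.1 hc).2
        have hd1 : (E.symm d).val % (N * K) = N * K - 1 := (Finset.mem_filter.1 hd).2
        have hcd1 : (E.symm c).val / (N * K) = (E.symm d).val / (N * K) := hcd
        have h2 : (E.symm c).val = (E.symm d).val := by
          rw [← Nat.div_add_mod (E.symm c).val (N * K), ← Nat.div_add_mod (E.symm d).val (N * K),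
            hc1, hd1, hcd1]
        exact E.symm.injective (ZMod.val_injective _ h2)
    rwa [Finset.card_range] at h1
  have hsub : {x | P N ((Cy (N * (N * K)) E).1 x) ≠ P N ((Cy N e).1 x)} ⊆
      {x | P (N * (N * K)) x ∈ J} := by
    intro x hx
    by_contra hcon
    apply hx
    have h3 : (E.symm (P (N * (N * K)) x)).val % (N * K) ≠ N * K - 1 := fun h => by
      refine hcon ?_
      show P (N * (N * K)) x ∈ J
      rw [hJ, Finset.mem_filter]
      exact ⟨Finset.mem_univ _, h⟩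
    rw [P_Cy N e x, w6_P e E hE ((Cy (N * (N * K)) E).1 x), P_Cy (N * (N * K)) E x,
      w6_P e E hE x, Equiv.symm_apply_apply, Equiv.symm_apply_apply, w6_val _ h3]
  have h4 : dQ (P N) (Cy (N * (N * K)) E) (Cy N e) ≤ (J.card : ℝ) / (N * (N * K) : ℕ) := by
    rw [← vol_set (N * (N * K)) J]
    exact measureReal_mono hsub
  refine h4.trans ?_
  have h5 : (J.card : ℝ) / (N * (N * K) : ℕ) ≤ (N : ℝ) / (N * (N * K) : ℕ) :=
    div_le_div_of_nonneg_right (by exact_mod_cast hcard) (Nat.cast_nonneg _)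
  refine h5.trans (le_of_eq ?_)
  have h6 : (N : ℝ) ≠ 0 := by exact_mod_cast hN0.ne'
  have h7 : ((N * K : ℕ) : ℝ) ≠ 0 := by exact_mod_cast hL.ne'
  rw [Nat.cast_mul N (N * K)]
  field_simp

theorem P_word {N K : ℕ} [NeZero N] [NeZero (N * (N * K))]
    (e : ZMod N ≃ Fin N) (E : ZMod (N * (N * K)) ≃ Fin (N * (N * K)))
    (hE : ∀ a : ZMod (N * (N * K)), ((E a : Fin (N * (N * K))) : ℕ) / (N * K) =
        ((e (wd N K a.val) : Fin N) : ℕ)) (x : X) :
    e.symm (P N x) = wd N K (E.symm (P (N * (N * K)) x)).val := by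
  rw [w6_P e E hE x, Equiv.symm_apply_apply]
-- END w6

end Pool.Agent.Gor
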